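import Mathlib

/-!
# UNil forms of an edge of a tree: definitions
-/

open MonoidAlgebra
open scoped LaurentPolynomial

namespace Pool.Agent.Lib.MP_98022b_UM.UF

universe u v w

section definitions
variable {A : Type u} {G : Type v} [CommRing A] [StarRing A] [Group G]

/-- the involution `Σ a_g g ↦ Σ w(g) star(a_g) g⁻¹` of the group ring `A[G]`, `w` the orientation
character -/
noncomputable def bar (w : G →* ℤˣ) (x : MonoidAlgebra A G) : MonoidAlgebra A G :=
  x.coeff.sum fun g a => single g⁻¹ (((w g : ℤˣ) : ℤ) • star a)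

/-- the conjugate transpose of a matrix over `A[G]` -/
noncomputable def conj (w : G →* ℤˣ) {I J : Type} (M : Matrix I J (MonoidAlgebra A G)) :
    Matrix J I (MonoidAlgebra A G) := fun j i => bar w (M i j)

omit [StarRing A] in
/-- all entries of the matrix are supported in the subset `U` of `G` -/
def SuppIn (U : Set G) {I J : Type} (M : Matrix I J (MonoidAlgebra A G)) : Prop :=
  ∀ i j g, (M i j).coeff g ≠ 0 → g ∈ U

/-- An `ε`-quadratic UNil form of rank `n` for the edge `{p, q}` of a tree with an action of `G`,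
over the edge group ring `R = A[F]`, `F = G_p ∩ G_q`: representatives `α`, `γ` of quadratic forms
with values in `A[G_q - F]` and `A[G_p - F]`, a matrix `β` with entries in `A[{g | g p = q}]`, such
that the resulting endomorphism `(x, y) ↦ (x, y) T` is nilpotent. -/
structure QForm (A : Type u) [CommRing A] [StarRing A] {G : Type v} [Group G] {V : Type w}
    [MulAction G V] (χ : G →* ℤˣ) (ε : ℤ) (p q : V) (n : Type) [Fintype n] [DecidableEq n] where
  α : Matrix n n (MonoidAlgebra A G)
  γ : Matrix n n (MonoidAlgebra A G)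
  β : Matrix n n (MonoidAlgebra A G)
  suppα : SuppIn {g : G | g • q = q ∧ g • p ≠ p} α
  suppγ : SuppIn {g : G | g • p = p ∧ g • q ≠ q} γ
  suppβ : SuppIn {g : G | g • p = q} β
  nil : ∃ N : ℕ, (Matrix.fromBlocks β (α + ε • conj χ α) (γ + ε • conj χ γ) (conj χ β)) ^ N = 0

variable {V : Type w} [MulAction G V] {χ : G →* ℤˣ} {ε : ℤ} {p q : V}

/-- A UNil form is metabolic if there is an idempotent matrix `P` over `A[F]`, whose row space `U`
(a direct summand of `R^n`) and its annihilator `U^⊥` (the row space of `1 - P*`) satisfy: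
`β` maps `U` to `A[..] U`, the quadratic form `α` vanishes on `U` and the quadratic form `γ`
vanishes on `U^⊥` (quadratic forms are taken modulo the `x - ε x*`). -/
def QForm.Metabolic {n : Type} [Fintype n] [DecidableEq n] (x : QForm A χ ε p q n) : Prop :=
  ∃ P : Matrix n n (MonoidAlgebra A G), SuppIn {g : G | g • p = p ∧ g • q = q} P ∧ P * P = P ∧
    P * x.β * (1 - P) = 0 ∧
    (∃ y : Matrix n n (MonoidAlgebra A G), SuppIn {g : G | g • q = q ∧ g • p ≠ p} y ∧
      P * x.α * conj χ P = y - ε • conj χ y) ∧
    (∃ y : Matrix n n (MonoidAlgebra A G), SuppIn {g : G | g • p = p ∧ g • q ≠ q} y ∧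
      conj χ (1 - P) * x.γ * (1 - P) = y - ε • conj χ y)

/-- `z` is the orthogonal sum of the UNil forms `x` and `y` -/
def QForm.IsSum {n m : Type} [Fintype n] [DecidableEq n] [Fintype m] [DecidableEq m]
    (z : QForm A χ ε p q (n ⊕ m)) (x : QForm A χ ε p q n) (y : QForm A χ ε p q m) : Prop :=
  z.α = Matrix.fromBlocks x.α 0 0 y.α ∧ z.γ = Matrix.fromBlocks x.γ 0 0 y.γ ∧
    z.β = Matrix.fromBlocks x.β 0 0 y.β

end definitions

/-- `A` has the vanishing property: let `G` act on a tree, let `{p, q}` be an edge which is not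
inverted, such that the vertex groups `G_p` and `G_q` have no elements of order two, and such that
for some `k ≥ 1` all finitely generated subgroups of the stabilisers `G_u ∩ G_v` of the segments
`[u, v]` consisting of `k` translates of the edge `{p, q}` are free (for `k = 1`: of the edge group
`G_p ∩ G_q`).  Then every `ε`-quadratic UNil form of this edge over `A[G_p ∩ G_q]` becomes
metabolic after adding a metabolic form. -/
def UNilVanishes (A : Type u) [CommRing A] [StarRing A] : Prop :=
  ∀ (G : Type v) [Group G] (V : Type w) [MulAction G V] (Γ : SimpleGraph V), Γ.IsTree →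
    (∀ (g : G) (x y : V), Γ.Adj x y → Γ.Adj (g • x) (g • y)) →
    ∀ p q : V, Γ.Adj p q → (∀ g : G, ¬ (g • p = q ∧ g • q = p)) →
    (∀ g : G, g • p = p → g * g = 1 → g = 1) → (∀ g : G, g • q = q → g * g = 1 → g = 1) →
    ∀ k : ℕ, 1 ≤ k → (∀ (u v : V) (W : Γ.Walk u v), W.IsPath → W.length = k →
      (∀ e ∈ W.edges, ∃ g : G, e = s(g • p, g • q)) → ∀ H : Subgroup G,
      H ≤ MulAction.stabilizer G u ⊓ MulAction.stabilizer G v → H.FG → IsFreeGroup H) →
    ∀ (χ : G →* ℤˣ) (ε : ℤ), (ε = 1 ∨ ε = -1) → ∀ (n : Type) [Fintype n] [DecidableEq n]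
      (x : QForm A χ ε p q n),
      ∃ (m : Type) (_ : Fintype m) (_ : DecidableEq m) (y : QForm A χ ε p q m)
        (z : QForm A χ ε p q (n ⊕ m)), y.Metabolic ∧ z.IsSum x y ∧ z.Metabolic

/-- the involution `z ↦ z⁻¹` of the ring of Laurent polynomials with integer coefficients -/
@[reducible] noncomputable def laurentStar : StarRing ℤ[T;T⁻¹] where
  star x := LaurentPolynomial.invert x
  star_involutive := LaurentPolynomial.involutive_invert
  star_mul x y := by
    change LaurentPolynomial.invert (x * y) = _
    rw [map_mul, mul_comm]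
  star_add x y := map_add _ _ _

end Pool.Agent.Lib.MP_98022b_UM.UF
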