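import Mathlib
import Pool.Agent.Lib.MP_98022b_UN.ExplDefs
import Pool.Agent.Lib.MP_98022b_UN.AdjL
import Pool.Agent.Lib.MP_98022b_UN.OnL2
import Pool.Agent.Lib.MP_98022b_UN.CosL

/-!
# Forms over two-sided systems with several objects: definitions

`Λ = MonoidAlgebra A G`.  All matrices act on ROWS.  A form consists of two hermitian matrices
`M true`, `M false` (supported in the letters of the two sides) with nilpotent product.
-/

open MonoidAlgebra

namespace Pool.Agent.Lib.MP_98022b_UM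

open Pool.Agent.Lib.MP_98022b_UN

universe u v w

/-- two-sided edge systems with set of objects `Ω`: `F ω` the object groups, `S b ω ω'` the letters
of side `b` from `ω` to `ω'` -/
structure BSys (Ω : Type w) (G : Type v) [Group G] where
  F : Ω → Subgroup G
  S : Bool → Ω → Ω → Set G
  left' : ∀ {b : Bool} {ω ω' : Ω} {f g : G}, f ∈ F ω → g ∈ S b ω ω' → f * g ∈ S b ω ω'
  inv' : ∀ {b : Bool} {ω ω' : Ω} {g : G}, g ∈ S b ω ω' → g⁻¹ ∈ S b ω' ω

section
variable {Ω : Type w} {G : Type v} [Group G]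

theorem BSys.right' (E : BSys Ω G) {b : Bool} {ω ω' : Ω} {f g : G} (hg : g ∈ E.S b ω ω')
    (hf : f ∈ E.F ω') : g * f ∈ E.S b ω ω' := by
  have h := E.inv' (E.left' (E.F ω' |>.inv_mem hf) (E.inv' hg))
  rwa [mul_inv_rev, inv_inv, inv_inv] at h

/-- the two sides exchanged -/
def BSys.flip (E : BSys Ω G) : BSys Ω G where
  F := E.F
  S := fun b => E.S (!b)
  left' := E.left'
  inv' := E.inv'

/-- the side after `m` letters -/
def par : ℕ → Bool → Bool
  | 0, b => b
  | m + 1, b => par m (!b)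

/-- alternating words of length `m`, the first letter of side `b` -/
def BSys.W (E : BSys Ω G) : ℕ → Bool → Ω → Ω → Set G
  | 0, _, ω, ω' => {g | g ∈ E.F ω ∧ ω = ω'}
  | m + 1, b, ω, ω' => {g | ∃ ρ : Ω, ∃ s ∈ E.S b ω ρ, ∃ t ∈ E.W m (!b) ρ ω', s * t = g}

/-- the first letter of a word is determined by the word -/
def BSys.Geo (E : BSys Ω G) : Prop :=
  ∀ (m : ℕ) (b : Bool) (ω ω' ρ ρ' : Ω) (s s' t t' : G), s ∈ E.S b ω ρ → t ∈ E.W m (!b) ρ ω' →
    s' ∈ E.S b ω ρ' → t' ∈ E.W m (!b) ρ' ω' → s * t = s' * t' → ρ = ρ' ∧ s⁻¹ * s' ∈ E.F ρ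

/-- no letter from an object to itself is an involution -/
def BSys.NoInv (E : BSys Ω G) : Prop :=
  ∀ (b : Bool) (ω : Ω) (g : G), g ∈ E.S b ω ω → g⁻¹ ≠ g

/-- `π` maps the system `E'` into the system `E` -/
structure BSys.Hom {Δ : Type*} (E' : BSys Δ G) (E : BSys Ω G) (π : Δ → Ω) : Prop where
  F : ∀ {δ : Δ} {g : G}, g ∈ E'.F δ → g ∈ E.F (π δ)
  S : ∀ {b : Bool} {δ δ' : Δ} {g : G}, g ∈ E'.S b δ δ' → g ∈ E.S b (π δ) (π δ')

end

section
variable {A : Type u} {Ω : Type w} {G : Type v} [CommRing A] [Group G]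

/-- entry `(i,j)` is supported in words of length `m` from `s i` to `t j` -/
def OnW (E : BSys Ω G) (m : ℕ) (b : Bool) {I J : Type} (s : I → Ω) (t : J → Ω)
    (M : Matrix I J (MonoidAlgebra A G)) : Prop :=
  ∀ i j g, (M i j).coeff g ≠ 0 → g ∈ E.W m b (s i) (t j)

/-- entry `(i,j)` is supported in the letters of side `b` from `s i` to `t j` -/
def OnS (E : BSys Ω G) (b : Bool) {I J : Type} (s : I → Ω) (t : J → Ω)
    (M : Matrix I J (MonoidAlgebra A G)) : Prop :=
  ∀ i j g, (M i j).coeff g ≠ 0 → g ∈ E.S b (s i) (t j)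

/-- entry `(i,j)` is supported in `F (s i)` and vanishes unless `s i = t j` -/
def On0 (E : BSys Ω G) {I J : Type} (s : I → Ω) (t : J → Ω)
    (M : Matrix I J (MonoidAlgebra A G)) : Prop :=
  ∀ i j g, (M i j).coeff g ≠ 0 → g ∈ E.F (s i) ∧ s i = t j

open Classical in
/-- the projector on the indices with label `ω` -/
noncomputable def pr (A : Type u) (G : Type v) [CommRing A] [Group G] {K : Type}
    (t : K → Ω) (ω : Ω) : Matrix K K (MonoidAlgebra A G) :=
  fun i j => if i = j ∧ t i = ω then 1 else 0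

/-- the alternating product of `n` factors, the first factor `M b` -/
noncomputable def wM {K : Type} [Fintype K] [DecidableEq K]
    (M : Bool → Matrix K K (MonoidAlgebra A G)) : ℕ → Bool → Matrix K K (MonoidAlgebra A G)
  | 0, _ => 1
  | n + 1, b => M b * wM M n (!b)

/-- metabolic pairs of matrices -/
def MetabP (E : BSys Ω G) (β : BarStr A G) {K : Type} [Fintype K] [DecidableEq K] (t : K → Ω)
    (M : Bool → Matrix K K (MonoidAlgebra A G)) : Prop :=
  ∃ Q : Matrix K K (MonoidAlgebra A G), On0 E t t Q ∧ Q * Q = Q ∧ Q * M true * adj β Q = 0 ∧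
    adj β (1 - Q) * M false * (1 - Q) = 0

/-- the conditions on the matrices of a form -/
structure IsBF (E : BSys Ω G) (β : BarStr A G) (ε : ℤ) {K : Type} [Fintype K] [DecidableEq K]
    (t : K → Ω) (M : Bool → Matrix K K (MonoidAlgebra A G)) : Prop where
  on : ∀ b, OnS E b t t (M b)
  sym : ∀ b, adj β (M b) = ε • M b
  nil : ∃ N : ℕ, (M true * M false) ^ N = 0

/-- forms -/
structure BF (E : BSys Ω G) (β : BarStr A G) (ε : ℤ) where
  K : Type
  [fin : Fintype K]
  [dec : DecidableEq K]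
  t : K → Ω
  M : Bool → Matrix K K (MonoidAlgebra A G)
  is : IsBF E β ε t M

attribute [instance] BF.fin BF.dec

/-- metabolic forms -/
def BF.Metab {E : BSys Ω G} {β : BarStr A G} {ε : ℤ} (X : BF E β ε) : Prop :=
  MetabP E β X.t X.M

/-- stably metabolic forms -/
def BF.SMetab {E : BSys Ω G} {β : BarStr A G} {ε : ℤ} (X : BF E β ε) : Prop :=
  ∃ Y : BF E β ε, Y.Metab ∧
    MetabP E β (Sum.elim X.t Y.t) (fun b => Matrix.fromBlocks (X.M b) 0 0 (Y.M b))

end

end Pool.Agent.Lib.MP_98022b_UM
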