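import Mathlib
import Pool.Agent.Lib.MP_98022b_UM.Defs

/-! Task WL: API of `par`, `BSys.W`, `BSys.flip`. -/

open MonoidAlgebra

namespace Pool.Agent.Lib.MP_98022b_UM

open Pool.Agent.Lib.MP_98022b_UN

universe u v w w'

theorem par_not (m : ℕ) (b : Bool) : par m (!b) = !(par m b) := by
  induction m generalizing b with
  | zero => rfl
  | succ m ih =>
    show par m (!(!b)) = !(par m (!b))
    rw [ih (!b)]
theorem par_succ' (m : ℕ) (b : Bool) : par (m + 1) b = !(par m b) := by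
  show par m (!b) = !(par m b)
  exact par_not m b
theorem par_add (m n : ℕ) (b : Bool) : par (m + n) b = par n (par m b) := by
  induction m generalizing b with
  | zero => rw [Nat.zero_add]; rfl
  | succ m ih =>
    rw [Nat.succ_add]
    show par (m + n) (!b) = par n (par m (!b))
    exact ih (!b)

private theorem par_par (m : ℕ) (b : Bool) : par m (par m b) = b := by
  induction m generalizing b with
  | zero => rfl
  | succ m ih =>
    show par m (!(par m (!b))) = b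
    rw [par_not, ih, Bool.not_not]

section
variable {Ω : Type w} {G : Type v} [Group G] (E : BSys Ω G) {m n : ℕ} {b : Bool} {ω ω' ρ : Ω}
  {f g h : G}

theorem W_zero : g ∈ E.W 0 b ω ω' ↔ g ∈ E.F ω ∧ ω = ω' := Iff.rfl
theorem W_succ : g ∈ E.W (m + 1) b ω ω' ↔ ∃ ρ, ∃ s ∈ E.S b ω ρ, ∃ t ∈ E.W m (!b) ρ ω', s * t = g :=
  Iff.rfl
theorem W_one : g ∈ E.W 1 b ω ω' ↔ g ∈ E.S b ω ω' := by
  constructor
  · rintro ⟨ρ, s, hs, t, ⟨ht, rfl⟩, rfl⟩
    exact E.right' hs ht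
  · intro h
    exact ⟨ω', g, h, 1, ⟨(E.F ω').one_mem, rfl⟩, mul_one g⟩
theorem W_left (hf : f ∈ E.F ω) (hg : g ∈ E.W m b ω ω') : f * g ∈ E.W m b ω ω' := by
  cases m with
  | zero => exact ⟨(E.F ω).mul_mem hf hg.1, hg.2⟩
  | succ m =>
    obtain ⟨ρ, s, hs, t, ht, rfl⟩ := hg
    exact ⟨ρ, f * s, E.left' hf hs, t, ht, by rw [mul_assoc]⟩
theorem W_right (hg : g ∈ E.W m b ω ω') (hf : f ∈ E.F ω') : g * f ∈ E.W m b ω ω' := by
  induction m generalizing b ω g with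
  | zero =>
    obtain ⟨hg, rfl⟩ := hg
    exact ⟨(E.F ω).mul_mem hg hf, rfl⟩
  | succ m ih =>
    obtain ⟨ρ, s, hs, t, ht, rfl⟩ := hg
    exact ⟨ρ, s, hs, t * f, ih ht, by rw [mul_assoc]⟩
theorem W_mul (hg : g ∈ E.W m b ω ρ) (hh : h ∈ E.W n (par m b) ρ ω') :
    g * h ∈ E.W (m + n) b ω ω' := by
  induction m generalizing b ω g with
  | zero =>
    obtain ⟨hg, rfl⟩ := hg
    rw [zero_add]
    exact W_left E hg hh
  | succ m ih =>
    obtain ⟨ρ', s, hs, t, ht, rfl⟩ := hg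
    rw [Nat.succ_add_eq_add_succ]
    exact ⟨ρ', s, hs, t * h, ih ht hh, by rw [mul_assoc]⟩
theorem W_succ' : g ∈ E.W (m + 1) b ω ω' ↔
    ∃ ρ, ∃ t ∈ E.W m b ω ρ, ∃ s ∈ E.S (par m b) ρ ω', t * s = g := by
  constructor
  · intro h
    induction m generalizing b ω g with
    | zero =>
      exact ⟨ω, 1, ⟨(E.F ω).one_mem, rfl⟩, g, (W_one E).1 h, one_mul g⟩
    | succ m ih =>
      obtain ⟨ρ, s, hs, t, ht, rfl⟩ := h
      obtain ⟨ρ', t', ht', s', hs', rfl⟩ := ih ht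
      exact ⟨ρ', s * t', ⟨ρ, s, hs, t', ht', rfl⟩, s', hs', by rw [mul_assoc]⟩
  · rintro ⟨ρ, t, ht, s, hs, rfl⟩
    exact W_mul E ht ((W_one E).2 hs)
theorem W_inv (hg : g ∈ E.W m b ω ω') : g⁻¹ ∈ E.W m (!(par m b)) ω' ω := by
  induction m generalizing b ω g with
  | zero =>
    obtain ⟨hg, rfl⟩ := hg
    exact ⟨(E.F ω).inv_mem hg, rfl⟩
  | succ m ih =>
    obtain ⟨ρ, s, hs, t, ht, rfl⟩ := hg
    rw [mul_inv_rev, par_succ', Bool.not_not]
    refine (W_succ' E).2 ⟨ρ, t⁻¹, ?_, s⁻¹, ?_, rfl⟩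
    · have h := ih ht
      rwa [par_not, Bool.not_not] at h
    · rw [par_par]
      exact E.inv' hs

/-- unique last letter -/
theorem BSys.Geo.last {E : BSys Ω G} (h : E.Geo) {m : ℕ} {b : Bool} {ω ω' ρ ρ' : Ω}
    {s s' t t' : G} (ht : t ∈ E.W m b ω ρ) (hs : s ∈ E.S (par m b) ρ ω')
    (ht' : t' ∈ E.W m b ω ρ') (hs' : s' ∈ E.S (par m b) ρ' ω') (e : t * s = t' * s') :
    ρ = ρ' ∧ s * s'⁻¹ ∈ E.F ρ := by
  have := h m (par m b) ω' ω ρ ρ' s⁻¹ s'⁻¹ t⁻¹ t'⁻¹ (E.inv' hs) (W_inv E ht) (E.inv' hs')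
    (W_inv E ht') (by rw [← mul_inv_rev, ← mul_inv_rev, e])
  obtain ⟨h1, h2⟩ := this
  rw [inv_inv] at h2
  exact ⟨h1, h2⟩

theorem flip_F : E.flip.F = E.F := rfl
theorem flip_S (b : Bool) : E.flip.S b = E.S (!b) := rfl
theorem flip_W (m : ℕ) (b : Bool) : E.flip.W m b = E.W m (!b) := by
  induction m generalizing b with
  | zero => rfl
  | succ m ih =>
    funext ω ω'
    ext g
    constructor
    · rintro ⟨ρ, s, hs, t, ht, rfl⟩
      rw [ih] at ht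
      exact ⟨ρ, s, hs, t, ht, rfl⟩
    · rintro ⟨ρ, s, hs, t, ht, rfl⟩
      rw [← ih] at ht
      exact ⟨ρ, s, hs, t, ht, rfl⟩
theorem flip_flip : E.flip.flip = E := by
  cases E with
  | mk F S l i =>
    simp only [BSys.flip, Bool.not_not]
theorem BSys.Geo.flip {E : BSys Ω G} (h : E.Geo) : E.flip.Geo := by
  intro m b ω ω' ρ ρ' s s' t t' hs ht hs' ht' e
  rw [flip_W] at ht ht'
  exact h m (!b) ω ω' ρ ρ' s s' t t' hs ht hs' ht' e
theorem BSys.NoInv.flip {E : BSys Ω G} (h : E.NoInv) : E.flip.NoInv := by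
  intro b ω g hg
  exact h (!b) ω g hg

variable {E} in
theorem BSys.Hom.W {Δ : Type w'} {E' : BSys Δ G} {π : Δ → Ω} (h : E'.Hom E π) {m : ℕ} {b : Bool}
    {δ δ' : Δ} {g : G} (hg : g ∈ E'.W m b δ δ') : g ∈ E.W m b (π δ) (π δ') := by
  induction m generalizing b δ g with
  | zero =>
    obtain ⟨hg, rfl⟩ := hg
    exact ⟨h.F hg, rfl⟩
  | succ m ih =>
    obtain ⟨ρ, s, hs, t, ht, rfl⟩ := hg
    exact ⟨π ρ, s, h.S hs, t, ih ht, rfl⟩

end

end Pool.Agent.Lib.MP_98022b_UM
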