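import Mathlib
import Pool.Agent.Lib.MP_98022b_UM.WL

/-! Task OnL: API of `OnW`, `OnS`, `On0`, `pr`, `wM`. -/

open MonoidAlgebra

namespace Pool.Agent.Lib.MP_98022b_UM

open Pool.Agent.Lib.MP_98022b_UN

universe u v w w'

section
variable {A : Type u} {Ω : Type w} {G : Type v} [CommRing A] [Group G] {E : BSys Ω G}
  {m n : ℕ} {b : Bool} {I J K L : Type} {s : I → Ω} {t : J → Ω} {r : K → Ω} {q : L → Ω}

theorem on0_iff {M : Matrix I J (MonoidAlgebra A G)} (b : Bool) :
    On0 E s t M ↔ OnW E 0 b s t M := Iff.rfl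
theorem onS_iff {M : Matrix I J (MonoidAlgebra A G)} : OnS E b s t M ↔ OnW E 1 b s t M :=
  ⟨fun h i j g hg => (W_one E).2 (h i j g hg), fun h i j g hg => (W_one E).1 (h i j g hg)⟩

theorem On0.zero : On0 E s t (0 : Matrix I J (MonoidAlgebra A G)) :=
  fun _ _ _ h => absurd rfl h

theorem OnS.zero : OnS E b s t (0 : Matrix I J (MonoidAlgebra A G)) :=
  fun _ _ _ h => absurd rfl h

theorem OnW.zero : OnW E m b s t (0 : Matrix I J (MonoidAlgebra A G)) :=
  fun _ _ _ h => absurd rfl h

theorem On0.one [DecidableEq J] : On0 E t t (1 : Matrix J J (MonoidAlgebra A G)) :=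
  fun i j g h => by
    by_cases hij : i = j
    · subst hij
      rw [Matrix.one_apply_eq] at h
      rw [OnAux.supp_one h]
      exact ⟨(E.F (t i)).one_mem, rfl⟩
    · rw [Matrix.one_apply_ne hij] at h
      exact absurd rfl h

theorem On0.add {M N : Matrix I J (MonoidAlgebra A G)} (h : On0 E s t M) (h' : On0 E s t N) :
    On0 E s t (M + N) :=
  fun i j g hg => (OnAux.supp_add hg).elim (h i j g) (h' i j g)

theorem OnS.add {M N : Matrix I J (MonoidAlgebra A G)} (h : OnS E b s t M)
    (h' : OnS E b s t N) : OnS E b s t (M + N) :=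
  fun i j g hg => (OnAux.supp_add hg).elim (h i j g) (h' i j g)

theorem OnW.add {M N : Matrix I J (MonoidAlgebra A G)} (h : OnW E m b s t M)
    (h' : OnW E m b s t N) : OnW E m b s t (M + N) :=
  fun i j g hg => (OnAux.supp_add hg).elim (h i j g) (h' i j g)

theorem On0.neg {M : Matrix I J (MonoidAlgebra A G)} (h : On0 E s t M) : On0 E s t (-M) :=
  fun i j g hg => h i j g (OnAux.supp_neg hg)

theorem OnS.neg {M : Matrix I J (MonoidAlgebra A G)} (h : OnS E b s t M) :
    OnS E b s t (-M) :=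
  fun i j g hg => h i j g (OnAux.supp_neg hg)

theorem OnW.neg {M : Matrix I J (MonoidAlgebra A G)} (h : OnW E m b s t M) :
    OnW E m b s t (-M) :=
  fun i j g hg => h i j g (OnAux.supp_neg hg)

theorem On0.sub {M N : Matrix I J (MonoidAlgebra A G)} (h : On0 E s t M) (h' : On0 E s t N) :
    On0 E s t (M - N) :=
  fun i j g hg => (OnAux.supp_sub hg).elim (h i j g) (h' i j g)

theorem OnS.sub {M N : Matrix I J (MonoidAlgebra A G)} (h : OnS E b s t M)
    (h' : OnS E b s t N) : OnS E b s t (M - N) :=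
  fun i j g hg => (OnAux.supp_sub hg).elim (h i j g) (h' i j g)

theorem OnW.sub {M N : Matrix I J (MonoidAlgebra A G)} (h : OnW E m b s t M)
    (h' : OnW E m b s t N) : OnW E m b s t (M - N) :=
  fun i j g hg => (OnAux.supp_sub hg).elim (h i j g) (h' i j g)

theorem On0.zsmul {M : Matrix I J (MonoidAlgebra A G)} (h : On0 E s t M) (k : ℤ) :
    On0 E s t (k • M) :=
  fun i j g hg => h i j g (OnAux.supp_zsmul hg)

theorem OnS.zsmul {M : Matrix I J (MonoidAlgebra A G)} (h : OnS E b s t M) (k : ℤ) :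
    OnS E b s t (k • M) :=
  fun i j g hg => h i j g (OnAux.supp_zsmul hg)

theorem On0.smul {M : Matrix I J (MonoidAlgebra A G)} (h : On0 E s t M) (a : A) :
    On0 E s t (a • M) :=
  fun i j g hg => h i j g (OnAux.supp_smul hg)

theorem OnW.mul [Fintype J] {M : Matrix I J (MonoidAlgebra A G)}
    {N : Matrix J K (MonoidAlgebra A G)} (h : OnW E m b s t M) (h' : OnW E n (par m b) t r N) :
    OnW E (m + n) b s r (M * N) :=
  fun i k g hg => by
    rw [Matrix.mul_apply] at hg
    obtain ⟨j, -, hj⟩ := OnAux.supp_sum hg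
    obtain ⟨a, c, ha, hc, rfl⟩ := OnAux.supp_mul hj
    exact W_mul E (h i j a ha) (h' j k c hc)

theorem On0.mul [Fintype J] {M : Matrix I J (MonoidAlgebra A G)}
    {N : Matrix J K (MonoidAlgebra A G)} (h : On0 E s t M) (h' : On0 E t r N) :
    On0 E s r (M * N) :=
  fun i k g hg => by
    rw [Matrix.mul_apply] at hg
    obtain ⟨j, -, hj⟩ := OnAux.supp_sum hg
    obtain ⟨a, c, ha, hc, rfl⟩ := OnAux.supp_mul hj
    obtain ⟨h1, h2⟩ := h i j a ha
    obtain ⟨h3, h4⟩ := h' j k c hc
    rw [← h2] at h3 h4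
    exact ⟨(E.F (s i)).mul_mem h1 h3, h4⟩

theorem On0.mulW [Fintype J] {M : Matrix I J (MonoidAlgebra A G)}
    {N : Matrix J K (MonoidAlgebra A G)} (h : On0 E s t M) (h' : OnW E m b t r N) :
    OnW E m b s r (M * N) :=
  fun i k g hg => by
    rw [Matrix.mul_apply] at hg
    obtain ⟨j, -, hj⟩ := OnAux.supp_sum hg
    obtain ⟨a, c, ha, hc, rfl⟩ := OnAux.supp_mul hj
    obtain ⟨h1, h2⟩ := h i j a ha
    have h3 := h' j k c hc
    rw [← h2] at h3
    exact W_left E h1 h3

theorem OnW.mul0 [Fintype J] {M : Matrix I J (MonoidAlgebra A G)}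
    {N : Matrix J K (MonoidAlgebra A G)} (h : OnW E m b s t M) (h' : On0 E t r N) :
    OnW E m b s r (M * N) :=
  fun i k g hg => by
    rw [Matrix.mul_apply] at hg
    obtain ⟨j, -, hj⟩ := OnAux.supp_sum hg
    obtain ⟨a, c, ha, hc, rfl⟩ := OnAux.supp_mul hj
    obtain ⟨h1, h2⟩ := h' j k c hc
    have h3 := h i j a ha
    rw [← h2]
    exact W_right E h3 h1

theorem On0.mulS [Fintype J] {M : Matrix I J (MonoidAlgebra A G)}
    {N : Matrix J K (MonoidAlgebra A G)} (h : On0 E s t M) (h' : OnS E b t r N) :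
    OnS E b s r (M * N) :=
  fun i k g hg => by
    rw [Matrix.mul_apply] at hg
    obtain ⟨j, -, hj⟩ := OnAux.supp_sum hg
    obtain ⟨a, c, ha, hc, rfl⟩ := OnAux.supp_mul hj
    obtain ⟨h1, h2⟩ := h i j a ha
    have h3 := h' j k c hc
    rw [← h2] at h3
    exact E.left' h1 h3

theorem OnS.mul0 [Fintype J] {M : Matrix I J (MonoidAlgebra A G)}
    {N : Matrix J K (MonoidAlgebra A G)} (h : OnS E b s t M) (h' : On0 E t r N) :
    OnS E b s r (M * N) :=
  fun i k g hg => by
    rw [Matrix.mul_apply] at hg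
    obtain ⟨j, -, hj⟩ := OnAux.supp_sum hg
    obtain ⟨a, c, ha, hc, rfl⟩ := OnAux.supp_mul hj
    obtain ⟨h1, h2⟩ := h' j k c hc
    have h3 := h i j a ha
    rw [← h2]
    exact E.right' h3 h1

theorem On0.adj (β : BarStr A G) {M : Matrix I J (MonoidAlgebra A G)} (h : On0 E s t M) :
    On0 E t s (Pool.Agent.Lib.MP_98022b_UN.adj β M) :=
  fun j i g hg => by
    obtain ⟨h1, h2⟩ := h i j g⁻¹ (β.supp' _ _ hg)
    rw [h2] at h1
    exact ⟨by simpa using (E.F (t j)).inv_mem h1, h2.symm⟩

theorem OnS.adj (β : BarStr A G) {M : Matrix I J (MonoidAlgebra A G)} (h : OnS E b s t M) :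
    OnS E b t s (Pool.Agent.Lib.MP_98022b_UN.adj β M) :=
  fun j i g hg => by
    have h1 := E.inv' (h i j g⁻¹ (β.supp' _ _ hg))
    rwa [inv_inv] at h1

theorem OnW.adj (β : BarStr A G) {M : Matrix I J (MonoidAlgebra A G)} (h : OnW E m b s t M) :
    OnW E m (!(par m b)) t s (Pool.Agent.Lib.MP_98022b_UN.adj β M) :=
  fun j i g hg => by
    have h1 := W_inv E (h i j g⁻¹ (β.supp' _ _ hg))
    rwa [inv_inv] at h1

theorem On0.fromBlocks {P : Matrix I K (MonoidAlgebra A G)} {Q : Matrix I L (MonoidAlgebra A G)}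
    {R : Matrix J K (MonoidAlgebra A G)} {T : Matrix J L (MonoidAlgebra A G)}
    (h1 : On0 E s r P) (h2 : On0 E s q Q) (h3 : On0 E t r R) (h4 : On0 E t q T) :
    On0 E (Sum.elim s t) (Sum.elim r q) (Matrix.fromBlocks P Q R T) :=
  fun i j g h => by
    rcases i with i | i <;> rcases j with j | j
    · exact h1 i j g h
    · exact h2 i j g h
    · exact h3 i j g h
    · exact h4 i j g h

theorem OnS.fromBlocks {P : Matrix I K (MonoidAlgebra A G)} {Q : Matrix I L (MonoidAlgebra A G)}
    {R : Matrix J K (MonoidAlgebra A G)} {T : Matrix J L (MonoidAlgebra A G)}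
    (h1 : OnS E b s r P) (h2 : OnS E b s q Q) (h3 : OnS E b t r R) (h4 : OnS E b t q T) :
    OnS E b (Sum.elim s t) (Sum.elim r q) (Matrix.fromBlocks P Q R T) :=
  fun i j g h => by
    rcases i with i | i <;> rcases j with j | j
    · exact h1 i j g h
    · exact h2 i j g h
    · exact h3 i j g h
    · exact h4 i j g h

theorem On0.fromCols {P : Matrix I K (MonoidAlgebra A G)} {Q : Matrix I L (MonoidAlgebra A G)}
    (h1 : On0 E s r P) (h2 : On0 E s q Q) :
    On0 E s (Sum.elim r q) (Matrix.fromCols P Q) :=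
  fun i j g h => by
    rcases j with j | j
    · exact h1 i j g h
    · exact h2 i j g h

theorem On0.fromRows {P : Matrix I K (MonoidAlgebra A G)} {R : Matrix J K (MonoidAlgebra A G)}
    (h1 : On0 E s r P) (h3 : On0 E t r R) :
    On0 E (Sum.elim s t) r (Matrix.fromRows P R) :=
  fun i j g h => by
    rcases i with i | i
    · exact h1 i j g h
    · exact h3 i j g h

theorem OnS.fromRows {P : Matrix I K (MonoidAlgebra A G)} {R : Matrix J K (MonoidAlgebra A G)}
    (h1 : OnS E b s r P) (h3 : OnS E b t r R) :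
    OnS E b (Sum.elim s t) r (Matrix.fromRows P R) :=
  fun i j g h => by
    rcases i with i | i
    · exact h1 i j g h
    · exact h3 i j g h

theorem OnS.fromCols {P : Matrix I K (MonoidAlgebra A G)} {Q : Matrix I L (MonoidAlgebra A G)}
    (h1 : OnS E b s r P) (h2 : OnS E b s q Q) :
    OnS E b s (Sum.elim r q) (Matrix.fromCols P Q) :=
  fun i j g h => by
    rcases j with j | j
    · exact h1 i j g h
    · exact h2 i j g h

theorem On0.submatrix {M : Matrix I J (MonoidAlgebra A G)} (h : On0 E s t M) {I' J' : Type}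
    (f : I' → I) (g : J' → J) : On0 E (fun i => s (f i)) (fun j => t (g j)) (M.submatrix f g) :=
  fun i j x hx => h (f i) (g j) x hx

theorem OnS.submatrix {M : Matrix I J (MonoidAlgebra A G)} (h : OnS E b s t M) {I' J' : Type}
    (f : I' → I) (g : J' → J) :
    OnS E b (fun i => s (f i)) (fun j => t (g j)) (M.submatrix f g) :=
  fun i j x hx => h (f i) (g j) x hx

/-- a matrix all whose rows have the label `ω` -/
theorem On0.onF {ω : Ω} {M : Matrix I J (MonoidAlgebra A G)} (h : On0 E (fun _ => ω) t M) :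
    OnF (E.F ω) M := fun i j g hg => (h i j g hg).1

theorem OnF.on0 {ω : Ω} {M : Matrix I J (MonoidAlgebra A G)} (h : OnF (E.F ω) M) :
    On0 E (fun _ => ω) (fun _ => ω) M := fun i j g hg => ⟨h i j g hg, rfl⟩

theorem flip_on0 {M : Matrix I J (MonoidAlgebra A G)} : On0 E.flip s t M ↔ On0 E s t M :=
  Iff.rfl
theorem flip_onS {M : Matrix I J (MonoidAlgebra A G)} : OnS E.flip b s t M ↔ OnS E (!b) s t M :=
  Iff.rfl
theorem flip_onW {M : Matrix I J (MonoidAlgebra A G)} :
    OnW E.flip m b s t M ↔ OnW E m (!b) s t M := by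
  unfold OnW
  rw [flip_W]

private theorem OnL2_zero {z : Matrix I J (MonoidAlgebra A G)} (hz : On0 E s t z) {i : I} {j : J}
    (h : s i ≠ t j) : z i j = 0 := by
  ext g
  by_contra hc
  exact h (hz i j g hc).2

/-- typed solutions on the left -/
theorem OnW.exists_left [Fintype J] {z : Matrix J K (MonoidAlgebra A G)} (hz : On0 E t r z)
    {x : Matrix I K (MonoidAlgebra A G)} (hx : OnW E m b s r x)
    {κ : Matrix I J (MonoidAlgebra A G)} (h : x = κ * z) :
    ∃ κ' : Matrix I J (MonoidAlgebra A G), OnW E m b s t κ' ∧ x = κ' * z := by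
  refine ⟨fun i j => res (E.W m b (s i) (t j)) (κ i j), fun i j g hg => (res_supp _ _ g hg).1, ?_⟩
  refine Matrix.ext fun i k => ?_
  have h1 : x i k = res (E.W m b (s i) (r k)) (x i k) := (res_eq_self (hx i k)).symm
  rw [h1, h, Matrix.mul_apply, res_sum]
  refine (Finset.sum_congr rfl fun j _ => ?_).trans (Matrix.mul_apply ..).symm
  by_cases hjk : t j = r k
  · rw [← hjk]
    exact res_mul_right (F := E.F (t j)) (fun f hf g hg => W_right E hg hf)
      (fun g hg => (hz j k g hg).1) _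
  · rw [OnL2_zero hz hjk, mul_zero, mul_zero, res_zero]

private theorem OnL2_right [Fintype J] {z : Matrix I J (MonoidAlgebra A G)} (hz : On0 E s t z)
    {f : Matrix I K (MonoidAlgebra A G)} (hf : OnW E m b s r f)
    {p : Matrix J K (MonoidAlgebra A G)} (h : f = z * p) :
    ∃ p' : Matrix J K (MonoidAlgebra A G), OnW E m b t r p' ∧ f = z * p' := by
  refine ⟨fun j k => res (E.W m b (t j) (r k)) (p j k), fun i j g hg => (res_supp _ _ g hg).1, ?_⟩
  refine Matrix.ext fun i k => ?_
  have h1 : f i k = res (E.W m b (s i) (r k)) (f i k) := (res_eq_self (hf i k)).symm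
  rw [h1, h, Matrix.mul_apply, res_sum]
  refine (Finset.sum_congr rfl fun j _ => ?_).trans (Matrix.mul_apply ..).symm
  by_cases hij : s i = t j
  · rw [← hij]
    exact res_mul_left (F := E.F (s i)) (fun f hf g hg => W_left E hf hg)
      (fun g hg => (hz i j g hg).1) _
  · rw [OnL2_zero hz hij, zero_mul, zero_mul, res_zero]

theorem OnS.exists_left [Fintype J] {z : Matrix J K (MonoidAlgebra A G)} (hz : On0 E t r z)
    {x : Matrix I K (MonoidAlgebra A G)} (hx : OnS E b s r x)
    {κ : Matrix I J (MonoidAlgebra A G)} (h : x = κ * z) :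
    ∃ κ' : Matrix I J (MonoidAlgebra A G), OnS E b s t κ' ∧ x = κ' * z := by
  obtain ⟨κ', h1, h2⟩ := OnW.exists_left hz (onS_iff.1 hx) h
  exact ⟨κ', onS_iff.2 h1, h2⟩

theorem On0.exists_left [Fintype J] {z : Matrix J K (MonoidAlgebra A G)} (hz : On0 E t r z)
    {x : Matrix I K (MonoidAlgebra A G)} (hx : On0 E s r x)
    {κ : Matrix I J (MonoidAlgebra A G)} (h : x = κ * z) :
    ∃ κ' : Matrix I J (MonoidAlgebra A G), On0 E s t κ' ∧ x = κ' * z := by
  obtain ⟨κ', h1, h2⟩ := OnW.exists_left hz ((on0_iff true).1 hx) h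
  exact ⟨κ', (on0_iff true).2 h1, h2⟩

/-- typed solutions on the right -/
theorem OnS.exists_right [Fintype J] {z : Matrix I J (MonoidAlgebra A G)} (hz : On0 E s t z)
    {f : Matrix I K (MonoidAlgebra A G)} (hf : OnS E b s r f)
    {p : Matrix J K (MonoidAlgebra A G)} (h : f = z * p) :
    ∃ p' : Matrix J K (MonoidAlgebra A G), OnS E b t r p' ∧ f = z * p' := by
  obtain ⟨p', h1, h2⟩ := OnL2_right hz (onS_iff.1 hf) h
  exact ⟨p', onS_iff.2 h1, h2⟩

theorem On0.exists_right [Fintype J] {z : Matrix I J (MonoidAlgebra A G)} (hz : On0 E s t z)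
    {f : Matrix I K (MonoidAlgebra A G)} (hf : On0 E s r f)
    {p : Matrix J K (MonoidAlgebra A G)} (h : f = z * p) :
    ∃ p' : Matrix J K (MonoidAlgebra A G), On0 E t r p' ∧ f = z * p' := by
  obtain ⟨p', h1, h2⟩ := OnL2_right hz ((on0_iff true).1 hf) h
  exact ⟨p', (on0_iff true).2 h1, h2⟩

theorem BSys.Hom.on0 {Δ : Type w'} {E' : BSys Δ G} {π : Δ → Ω} (h : E'.Hom E π) {s : I → Δ}
    {t : J → Δ} {M : Matrix I J (MonoidAlgebra A G)} (hM : On0 E' s t M) :
    On0 E (fun i => π (s i)) (fun j => π (t j)) M :=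
  fun i j g hg => ⟨h.F (hM i j g hg).1, congrArg π (hM i j g hg).2⟩

theorem BSys.Hom.onS {Δ : Type w'} {E' : BSys Δ G} {π : Δ → Ω} (h : E'.Hom E π) {s : I → Δ}
    {t : J → Δ} {M : Matrix I J (MonoidAlgebra A G)} (hM : OnS E' b s t M) :
    OnS E b (fun i => π (s i)) (fun j => π (t j)) M :=
  fun i j g hg => h.S (hM i j g hg)

end

section
variable {A : Type u} {Ω : Type w} {G : Type v} [CommRing A] [Group G] {E : BSys Ω G}
  {I J K L : Type} {s : I → Ω} {t : J → Ω}

theorem pr_apply (t : J → Ω) (ω : Ω) (i j : J) [Decidable (i = j ∧ t i = ω)] :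
    (pr A G t ω) i j = if i = j ∧ t i = ω then 1 else 0 := by
  unfold pr
  by_cases h : i = j ∧ t i = ω
  · rw [if_pos h, if_pos h]
  · rw [if_neg h, if_neg h]

private theorem OnL3_self {t : J → Ω} {ω : Ω} {i : J} (h : t i = ω) : (pr A G t ω) i i = 1 := by
  classical
  rw [pr_apply, if_pos ⟨rfl, h⟩]

private theorem OnL3_label {t : J → Ω} {ω : Ω} {i j : J} (h : t i ≠ ω) : (pr A G t ω) i j = 0 := by
  classical
  rw [pr_apply, if_neg (fun h' => h h'.2)]

private theorem OnL3_ne {t : J → Ω} {ω : Ω} {i j : J} (h : i ≠ j) : (pr A G t ω) i j = 0 := by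
  classical
  rw [pr_apply, if_neg (fun h' => h h'.1)]

private theorem OnL3_supp {t : J → Ω} {ω : Ω} {i j : J} {g : G}
    (h : ((pr A G t ω) i j).coeff g ≠ 0) : i = j ∧ t i = ω ∧ g = 1 := by
  classical
  by_cases h1 : i = j ∧ t i = ω
  · rw [pr_apply, if_pos h1] at h
    exact ⟨h1.1, h1.2, OnAux.supp_one h⟩
  · rw [pr_apply, if_neg h1] at h
    exact absurd rfl h

private theorem OnL3_zero {M : Matrix I J (MonoidAlgebra A G)} (h : On0 E s t M) {i : I} {j : J}
    (hij : s i ≠ t j) : M i j = 0 := by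
  ext g
  by_contra hc
  exact hij (h i j g hc).2

theorem pr_mul_apply [Fintype I] (s : I → Ω) (ω : Ω) (M : Matrix I J (MonoidAlgebra A G)) (i : I)
    (j : J) [Decidable (s i = ω)] : (pr A G s ω * M) i j = if s i = ω then M i j else 0 := by
  rw [Matrix.mul_apply]
  by_cases h : s i = ω
  · rw [if_pos h, Finset.sum_eq_single i, OnL3_self h, one_mul]
    · intro k _ hk
      rw [OnL3_ne (Ne.symm hk), zero_mul]
    · intro hi
      exact absurd (Finset.mem_univ i) hi
  · rw [if_neg h]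
    refine Finset.sum_eq_zero fun k _ => ?_
    rw [OnL3_label h, zero_mul]

theorem mul_pr_apply [Fintype J] (t : J → Ω) (ω : Ω) (M : Matrix I J (MonoidAlgebra A G)) (i : I)
    (j : J) [Decidable (t j = ω)] : (M * pr A G t ω) i j = if t j = ω then M i j else 0 := by
  rw [Matrix.mul_apply]
  by_cases h : t j = ω
  · rw [if_pos h, Finset.sum_eq_single j, OnL3_self h, mul_one]
    · intro k _ hk
      rw [OnL3_ne hk, mul_zero]
    · intro hi
      exact absurd (Finset.mem_univ j) hi
  · rw [if_neg h]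
    refine Finset.sum_eq_zero fun k _ => ?_
    by_cases hk : k = j
    · rw [hk, OnL3_label h, mul_zero]
    · rw [OnL3_ne hk, mul_zero]

theorem pr_mul_self [Fintype J] (t : J → Ω) (ω : Ω) :
    pr A G t ω * pr A G t ω = pr A G t ω := by
  classical
  funext i j
  rw [pr_mul_apply]
  by_cases h : t i = ω
  · rw [if_pos h]
  · rw [if_neg h, OnL3_label h]

theorem pr_mul_ne [Fintype J] (t : J → Ω) {ω ω' : Ω} (h : ω ≠ ω') :
    pr A G t ω * pr A G t ω' = 0 := by
  classical
  funext i j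
  rw [pr_mul_apply]
  by_cases h1 : t i = ω
  · rw [if_pos h1, OnL3_label (fun h2 => h (h1.symm.trans h2))]
    rfl
  · rw [if_neg h1]
    rfl

theorem pr_adj (β : BarStr A G) (t : J → Ω) (ω : Ω) : adj β (pr A G t ω) = pr A G t ω := by
  funext i j
  show β.bar ((pr A G t ω) j i) = (pr A G t ω) i j
  by_cases h : i = j
  · subst h
    by_cases h1 : t i = ω
    · rw [OnL3_self h1, bar_one]
    · rw [OnL3_label h1, bar_zero]
  · rw [OnL3_ne h, OnL3_ne (Ne.symm h), bar_zero]

theorem pr_on0 (t : J → Ω) (ω : Ω) : On0 E t t (pr A G t ω) := by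
  intro i j g hg
  obtain ⟨h1, -, h3⟩ := OnL3_supp hg
  rw [h3, h1]
  exact ⟨(E.F _).one_mem, rfl⟩

/-- the projector with values in the single label `ω` -/
theorem pr_on0' (t : J → Ω) (ω : Ω) : On0 E (fun _ => ω) t (pr A G t ω) := by
  intro i j g hg
  obtain ⟨h1, h2, h3⟩ := OnL3_supp hg
  rw [h3]
  exact ⟨(E.F _).one_mem, by rw [← h1]; exact h2.symm⟩

theorem On0.pr_comm [Fintype I] [Fintype J] {M : Matrix I J (MonoidAlgebra A G)}
    (h : On0 E s t M) (ω : Ω) : pr A G s ω * M = M * pr A G t ω := by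
  classical
  funext i j
  rw [pr_mul_apply, mul_pr_apply]
  by_cases h0 : s i = t j
  · rw [h0]
  · rw [OnL3_zero h h0]
    simp

theorem On0.mul_pr [Fintype J] {M : Matrix I J (MonoidAlgebra A G)} {ω : Ω}
    (h : On0 E (fun _ => ω) t M) : M * pr A G t ω = M := by
  classical
  funext i j
  rw [mul_pr_apply]
  by_cases h0 : t j = ω
  · rw [if_pos h0]
  · rw [if_neg h0, OnL3_zero h (Ne.symm h0)]

theorem On0.pr_mul_onF [Fintype I] {M : Matrix I J (MonoidAlgebra A G)}
    (h : On0 E s t M) (ω : Ω) : On0 E (fun _ => ω) t (pr A G s ω * M) := by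
  classical
  intro i j g hg
  rw [pr_mul_apply] at hg
  by_cases h0 : s i = ω
  · rw [if_pos h0] at hg
    have h1 := h i j g hg
    rw [h0] at h1
    exact h1
  · rw [if_neg h0] at hg
    exact absurd rfl hg

/-- a finite sum decomposition along the labels -/
theorem sum_pr [Fintype J] [DecidableEq J] [DecidableEq Ω] (t : J → Ω) :
    ∑ ω ∈ Finset.univ.image t, pr A G t ω = (1 : Matrix J J (MonoidAlgebra A G)) := by
  funext i j
  rw [Matrix.sum_apply]
  by_cases h : i = j
  · subst h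
    rw [Matrix.one_apply_eq, Finset.sum_eq_single (t i), OnL3_self rfl]
    · intro ω _ hω
      exact OnL3_label (Ne.symm hω)
    · intro hi
      exact absurd (Finset.mem_image_of_mem t (Finset.mem_univ i)) hi
  · rw [Matrix.one_apply_ne h]
    exact Finset.sum_eq_zero fun ω _ => OnL3_ne h

end

section
variable {A : Type u} {Ω : Type w} {G : Type v} [CommRing A] [Group G] {E : BSys Ω G}
  {K : Type} [Fintype K] [DecidableEq K] {t : K → Ω} {M : Bool → Matrix K K (MonoidAlgebra A G)}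

theorem wM_zero (M : Bool → Matrix K K (MonoidAlgebra A G)) (b : Bool) : wM M 0 b = 1 := rfl
theorem wM_succ (M : Bool → Matrix K K (MonoidAlgebra A G)) (n : ℕ) (b : Bool) :
    wM M (n + 1) b = M b * wM M n (!b) := rfl
theorem wM_succ' (M : Bool → Matrix K K (MonoidAlgebra A G)) (n : ℕ) (b : Bool) :
    wM M (n + 1) b = wM M n b * M (par n b) := by
  induction n generalizing b with
  | zero => rw [wM_succ, wM_zero, wM_zero, mul_one, one_mul]; rfl
  | succ n ih =>
    rw [wM_succ, ih, wM_succ M n b, Matrix.mul_assoc]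
    rfl

theorem wM_add (M : Bool → Matrix K K (MonoidAlgebra A G)) (m n : ℕ) (b : Bool) :
    wM M (m + n) b = wM M m b * wM M n (par m b) := by
  induction m generalizing b with
  | zero => rw [zero_add, wM_zero, one_mul]; rfl
  | succ m ih =>
    rw [Nat.succ_add, wM_succ, ih, wM_succ M m b, Matrix.mul_assoc]
    rfl

theorem wM_flip (M : Bool → Matrix K K (MonoidAlgebra A G)) (n : ℕ) (b : Bool) :
    wM (fun b => M (!b)) n b = wM M n (!b) := by
  induction n generalizing b with
  | zero => rfl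
  | succ n ih => rw [wM_succ, wM_succ, ih]

theorem wM_on (h : ∀ b, OnS E b t t (M b)) (n : ℕ) (b : Bool) : OnW E n b t t (wM M n b) := by
  induction n generalizing b with
  | zero =>
    intro i j g hg
    rw [wM_zero] at hg
    by_cases hij : i = j
    · subst hij
      rw [Matrix.one_apply_eq] at hg
      rw [OnAux.supp_one hg]
      exact ⟨(E.F _).one_mem, rfl⟩
    · rw [Matrix.one_apply_ne hij] at hg
      exact absurd rfl hg
  | succ n ih =>
    intro i j g hg
    rw [wM_succ, Matrix.mul_apply] at hg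
    obtain ⟨k, -, hk⟩ := OnAux.supp_sum hg
    obtain ⟨x, y, hx, hy, rfl⟩ := OnAux.supp_mul hk
    exact ⟨t k, x, h b i k x hx, y, ih (!b) k j y hy, rfl⟩

private theorem OnL3_two (M : Bool → Matrix K K (MonoidAlgebra A G)) (k : ℕ) :
    wM M (2 * k) true = (M true * M false) ^ k := by
  induction k with
  | zero => rw [mul_zero, wM_zero, pow_zero]
  | succ k ih =>
    rw [show 2 * (k + 1) = 2 * k + 1 + 1 by ring, wM_succ, wM_succ, pow_succ', ← ih,
      Matrix.mul_assoc]
    rfl

theorem wM_nil (h : ∃ N : ℕ, (M true * M false) ^ N = 0) : ∃ N : ℕ, ∀ b, wM M N b = 0 := by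
  obtain ⟨N, hN⟩ := h
  have h2 : wM M (2 * N) true = 0 := by rw [OnL3_two, hN]
  refine ⟨2 * N + 1, fun b => ?_⟩
  cases b with
  | false =>
    rw [wM_succ]
    show M false * wM M (2 * N) true = 0
    rw [h2, Matrix.mul_zero]
  | true => rw [wM_succ', h2, Matrix.zero_mul]

end

end Pool.Agent.Lib.MP_98022b_UM
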