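import Mathlib
import Pool.Agent.Lib.MP_98022b_UM.OnL

/-! Task BFL: sums, negatives, reindexing, moves and flips of forms. -/

open MonoidAlgebra

namespace Pool.Agent.Lib.MP_98022b_UM

open Pool.Agent.Lib.MP_98022b_UN

universe u v w w'

section
variable {A : Type u} {Ω : Type w} {G : Type v} [CommRing A] [Group G] {E : BSys Ω G}
  {β : BarStr A G} {ε : ℤ} {K L : Type} [Fintype K] [DecidableEq K] [Fintype L] [DecidableEq L]
  {t : K → Ω} {t' : L → Ω} {M : Bool → Matrix K K (MonoidAlgebra A G)}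
  {M' : Bool → Matrix L L (MonoidAlgebra A G)}

private theorem BFL1_blocks_pow {K L : Type} [Fintype K] [DecidableEq K] [Fintype L] [DecidableEq L]
    (T : Matrix K K (MonoidAlgebra A G)) (T' : Matrix L L (MonoidAlgebra A G)) (N : ℕ) :
    (Matrix.fromBlocks T 0 0 T') ^ N = Matrix.fromBlocks (T ^ N) 0 0 (T' ^ N) := by
  induction N with
  | zero => rw [pow_zero, pow_zero, pow_zero, Matrix.fromBlocks_one]
  | succ N ih =>
    rw [pow_succ, ih, Matrix.fromBlocks_multiply]
    simp [pow_succ]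

private theorem BFL1_reindex_pow {K L : Type} [Fintype K] [DecidableEq K] [Fintype L]
    [DecidableEq L] (e : K ≃ L) (T : Matrix K K (MonoidAlgebra A G)) (N : ℕ) :
    (Matrix.reindex e e T) ^ N = Matrix.reindex e e (T ^ N) := by
  induction N with
  | zero =>
    rw [pow_zero, pow_zero]
    simp
  | succ N ih =>
    rw [pow_succ, ih, pow_succ]
    simp only [Matrix.reindex_apply]
    rw [Matrix.submatrix_mul_equiv]

private theorem BFL1_reindex_mul {K L : Type} [Fintype K] [Fintype L]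
    (e : K ≃ L) (T T' : Matrix K K (MonoidAlgebra A G)) :
    Matrix.reindex e e T * Matrix.reindex e e T' = Matrix.reindex e e (T * T') := by
  simp only [Matrix.reindex_apply]
  rw [Matrix.submatrix_mul_equiv]

private theorem BFL1_reindex_adj (β : BarStr A G) {K L : Type}
    (e : K ≃ L) (T : Matrix K K (MonoidAlgebra A G)) :
    adj β (Matrix.reindex e e T) = Matrix.reindex e e (adj β T) := rfl

private theorem BFL1_pow_swap {K : Type} [Fintype K] [DecidableEq K]
    (T T' : Matrix K K (MonoidAlgebra A G)) (N : ℕ) :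
    (T * T') ^ (N + 1) = T * (T' * T) ^ N * T' := by
  induction N with
  | zero => simp
  | succ N ih =>
    rw [pow_succ, ih, pow_succ (T' * T) N]
    simp only [Matrix.mul_assoc]

private theorem BFL1_one_sub {K L : Type} [DecidableEq K] [DecidableEq L]
    (P : Matrix K K (MonoidAlgebra A G)) (Q : Matrix K L (MonoidAlgebra A G))
    (R : Matrix L K (MonoidAlgebra A G)) (S : Matrix L L (MonoidAlgebra A G)) :
    1 - Matrix.fromBlocks P Q R S = Matrix.fromBlocks (1 - P) (-Q) (-R) (1 - S) := by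
  rw [← Matrix.fromBlocks_one, sub_eq_add_neg, Matrix.fromBlocks_neg, Matrix.fromBlocks_add]
  simp [sub_eq_add_neg]

theorem IsBF.dsum (h : IsBF E β ε t M) (h' : IsBF E β ε t' M') :
    IsBF E β ε (Sum.elim t t') (fun b => Matrix.fromBlocks (M b) 0 0 (M' b)) := by
  refine ⟨fun b => ?_, fun b => ?_, ?_⟩
  · exact OnS.fromBlocks (h.on b) OnS.zero OnS.zero (h'.on b)
  · rw [adj_fromBlocks, h.sym, h'.sym, adj_zero, adj_zero, Matrix.fromBlocks_smul, smul_zero,
      smul_zero]
  · obtain ⟨N, hN⟩ := h.nil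
    obtain ⟨N', hN'⟩ := h'.nil
    refine ⟨N + N', ?_⟩
    have e : Matrix.fromBlocks (M true) 0 0 (M' true) * Matrix.fromBlocks (M false) 0 0 (M' false) =
        Matrix.fromBlocks (M true * M false) 0 0 (M' true * M' false) := by
      rw [Matrix.fromBlocks_multiply]
      simp
    rw [e, BFL1_blocks_pow, pow_add, pow_add _ N N', hN, hN', zero_mul, mul_zero,
      Matrix.fromBlocks_zero]

theorem IsBF.neg (h : IsBF E β ε t M) : IsBF E β ε t (fun b => -M b) := by
  refine ⟨fun b => (h.on b).neg, fun b => ?_, ?_⟩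
  · rw [adj_neg, h.sym, smul_neg]
  · obtain ⟨N, hN⟩ := h.nil
    refine ⟨N, ?_⟩
    rw [neg_mul_neg]
    exact hN

theorem IsBF.reindex (h : IsBF E β ε t M) (e : K ≃ L) :
    IsBF E β ε (fun l => t (e.symm l)) (fun b => Matrix.reindex e e (M b)) := by
  refine ⟨fun b => (h.on b).submatrix e.symm e.symm, fun b => ?_, ?_⟩
  · rw [BFL1_reindex_adj, h.sym]
    rfl
  · obtain ⟨N, hN⟩ := h.nil
    refine ⟨N, ?_⟩
    rw [BFL1_reindex_mul, BFL1_reindex_pow, hN]
    rfl

theorem MetabP.reindex (h : MetabP E β t M) (e : K ≃ L) :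
    MetabP E β (fun l => t (e.symm l)) (fun b => Matrix.reindex e e (M b)) := by
  obtain ⟨Q, h1, h2, h3, h4⟩ := h
  refine ⟨Matrix.reindex e e Q, h1.submatrix e.symm e.symm, ?_, ?_, ?_⟩
  · rw [BFL1_reindex_mul, h2]
  · rw [BFL1_reindex_adj, BFL1_reindex_mul, BFL1_reindex_mul, h3]
    rfl
  · have e1 : (1 : Matrix L L (MonoidAlgebra A G)) - Matrix.reindex e e Q =
        Matrix.reindex e e (1 - Q) := by
      have e2 : (1 : Matrix L L (MonoidAlgebra A G)) = Matrix.reindex e e 1 := by simp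
      rw [e2]
      rfl
    rw [e1, BFL1_reindex_adj, BFL1_reindex_mul, BFL1_reindex_mul, h4]
    rfl

theorem MetabP.dsum (h : MetabP E β t M) (h' : MetabP E β t' M') :
    MetabP E β (Sum.elim t t') (fun b => Matrix.fromBlocks (M b) 0 0 (M' b)) := by
  obtain ⟨Q, h1, h2, h3, h4⟩ := h
  obtain ⟨Q', h1', h2', h3', h4'⟩ := h'
  refine ⟨Matrix.fromBlocks Q 0 0 Q', On0.fromBlocks h1 On0.zero On0.zero h1', ?_, ?_, ?_⟩
  · rw [Matrix.fromBlocks_multiply]
    simp only [Matrix.zero_mul, Matrix.mul_zero, add_zero, zero_add, h2, h2']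
  · rw [adj_fromBlocks, Matrix.fromBlocks_multiply, Matrix.fromBlocks_multiply]
    simp only [Matrix.zero_mul, Matrix.mul_zero, add_zero, zero_add, h3, h3', adj_zero,
      Matrix.fromBlocks_zero]
  · rw [BFL1_one_sub, adj_fromBlocks, Matrix.fromBlocks_multiply, Matrix.fromBlocks_multiply]
    simp only [Matrix.zero_mul, Matrix.mul_zero, add_zero, zero_add, h4, h4', adj_zero,
      Matrix.fromBlocks_zero, neg_zero]

/-- the graph Lagrangian of a move -/
theorem MetabP.move {u : Matrix K L (MonoidAlgebra A G)} (hu : On0 E t t' u)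
    (h1 : M true = u * M' true * adj β u) (h2 : M' false = adj β u * M false * u) :
    MetabP E β (Sum.elim t t') (fun b => Matrix.fromBlocks (M b) 0 0 (-M' b)) := by
  refine ⟨Matrix.fromBlocks 1 u 0 0, On0.fromBlocks On0.one hu On0.zero On0.zero, ?_, ?_, ?_⟩
  · rw [Matrix.fromBlocks_multiply]
    simp only [Matrix.zero_mul, Matrix.mul_zero, add_zero, Matrix.one_mul]
  · rw [adj_fromBlocks, Matrix.fromBlocks_multiply, Matrix.fromBlocks_multiply]
    simp only [Matrix.zero_mul, Matrix.mul_zero, add_zero, zero_add, adj_zero, adj_one,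
      Matrix.one_mul, Matrix.mul_one, Matrix.mul_neg, Matrix.neg_mul]
    rw [h1, add_neg_cancel, neg_zero, Matrix.fromBlocks_zero]
  · rw [BFL1_one_sub, adj_fromBlocks, Matrix.fromBlocks_multiply, Matrix.fromBlocks_multiply]
    simp only [Matrix.zero_mul, Matrix.mul_zero, add_zero, zero_add, adj_zero, adj_one, sub_self,
      neg_zero, sub_zero, adj_neg, Matrix.one_mul, Matrix.mul_one, Matrix.mul_neg, Matrix.neg_mul,
      neg_neg]
    rw [h2, add_neg_cancel, Matrix.fromBlocks_zero]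

/-- the orthogonal sum -/
noncomputable def BF.dsum (X Y : BF E β ε) : BF E β ε where
  K := X.K ⊕ Y.K
  t := Sum.elim X.t Y.t
  M := fun b => Matrix.fromBlocks (X.M b) 0 0 (Y.M b)
  is := X.is.dsum Y.is

/-- the negative form -/
noncomputable def BF.neg (X : BF E β ε) : BF E β ε where
  K := X.K
  t := X.t
  M := fun b => -X.M b
  is := X.is.neg

/-- the bijection of the index sets used for moves -/
private def BFL2_equiv (K K' L : Type) : (K ⊕ K') ⊕ (K' ⊕ L) ≃ K ⊕ ((K' ⊕ K') ⊕ L) where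
  toFun := fun x => match x with
    | .inl (.inl a) => .inl a
    | .inl (.inr a) => .inr (.inl (.inl a))
    | .inr (.inl a) => .inr (.inl (.inr a))
    | .inr (.inr a) => .inr (.inr a)
  invFun := fun x => match x with
    | .inl a => .inl (.inl a)
    | .inr (.inl (.inl a)) => .inl (.inr a)
    | .inr (.inl (.inr a)) => .inr (.inl a)
    | .inr (.inr a) => .inr (.inr a)
  left_inv := by
    rintro ((a | a) | (a | a)) <;> rfl
  right_inv := by
    rintro (a | ((a | a) | a)) <;> rfl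

/-- the empty form -/
private noncomputable def BFL2_empty (E : BSys Ω G) (β : BarStr A G) (ε : ℤ) : BF E β ε where
  K := Empty
  t := fun k => k.elim
  M := fun _ => 0
  is := by
    refine ⟨fun b => OnS.zero, fun b => ?_, 0, ?_⟩
    · ext i; exact i.elim
    · ext i; exact i.elim

/-- moves preserve the stable class -/
theorem BF.smetab_move (X X' : BF E β ε) (u : Matrix X.K X'.K (MonoidAlgebra A G))
    (hu : On0 E X.t X'.t u) (h1 : X.M true = u * X'.M true * adj β u)
    (h2 : X'.M false = adj β u * X.M false * u) (h : X'.SMetab) : X.SMetab := by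
  obtain ⟨Y, hY, hXY⟩ := h
  have m1 : MetabP E β (Sum.elim X'.t X'.t)
      (fun b => Matrix.fromBlocks (-X'.M b) 0 0 (X'.M b)) := by
    have := MetabP.move (E := E) (β := β) (t := X'.t) (t' := X'.t) (M := fun b => -X'.M b)
      (M' := fun b => -X'.M b) (u := 1) On0.one (by simp [adj_one]) (by simp [adj_one])
    simpa only [neg_neg] using this
  have m2 := MetabP.move (E := E) (β := β) (M := X.M) (M' := X'.M) hu h1 h2
  have m3 := (MetabP.dsum m2 hXY).reindex (BFL2_equiv X.K X'.K Y.K)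
  refine ⟨(X'.neg.dsum X').dsum Y, MetabP.dsum m1 hY, ?_⟩
  have e1 : (fun l => Sum.elim (Sum.elim X.t X'.t) (Sum.elim X'.t Y.t)
      ((BFL2_equiv X.K X'.K Y.K).symm l)) =
      Sum.elim X.t (Sum.elim (Sum.elim X'.t X'.t) Y.t) := by
    funext l
    rcases l with l | ((l | l) | l) <;> rfl
  have e2 : (fun b => Matrix.reindex (BFL2_equiv X.K X'.K Y.K) (BFL2_equiv X.K X'.K Y.K)
      (Matrix.fromBlocks (Matrix.fromBlocks (X.M b) 0 0 (-X'.M b)) 0 0
        (Matrix.fromBlocks (X'.M b) 0 0 (Y.M b)))) =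
      (fun b => Matrix.fromBlocks (X.M b) 0 0 (Matrix.fromBlocks
        (Matrix.fromBlocks (-X'.M b) 0 0 (X'.M b)) 0 0 (Y.M b))) := by
    funext b
    ext i j
    rcases i with i | ((i | i) | i) <;> rcases j with j | ((j | j) | j) <;> rfl
  rw [e1] at m3
  rw [e2] at m3
  exact m3

theorem BF.smetab_of_metab (X : BF E β ε) (h : X.Metab) : X.SMetab := by
  have h0 : MetabP E β (BFL2_empty E β ε).t (BFL2_empty E β ε).M := by
    refine ⟨0, On0.zero, ?_, ?_, ?_⟩ <;> (ext i; exact i.elim)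
  exact ⟨BFL2_empty E β ε, h0, MetabP.dsum h h0⟩

theorem IsBF.flip (h : IsBF E β ε t M) : IsBF E.flip β ε t (fun b => M (!b)) := by
  refine ⟨fun b => h.on (!b), fun b => h.sym (!b), ?_⟩
  obtain ⟨N, hN⟩ := h.nil
  refine ⟨N + 1, ?_⟩
  show (M false * M true) ^ (N + 1) = 0
  rw [BFL1_pow_swap, hN, Matrix.mul_zero, Matrix.zero_mul]

/-- the two sides exchanged -/
def BF.flip (X : BF E β ε) : BF E.flip β ε where
  K := X.K
  t := X.t
  M := fun b => X.M (!b)
  is := X.is.flip

theorem MetabP.flip (h : MetabP E β t M) : MetabP E.flip β t (fun b => M (!b)) := by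
  obtain ⟨Q, h1, h2, h3, h4⟩ := h
  have e1 : (1 : Matrix K K (MonoidAlgebra A G)) - adj β (1 - Q) = adj β Q := by
    rw [adj_sub, adj_one, sub_sub_cancel]
  have e2 : (1 - Q) * (1 - Q) = 1 - Q := by
    rw [sub_mul, one_mul, mul_sub, mul_one, h2, sub_self, sub_zero]
  refine ⟨adj β (1 - Q), flip_on0.2 ((On0.one.sub h1).adj β), ?_, ?_, ?_⟩
  · rw [← adj_mul, e2]
  · rw [adj_adj]
    exact h4
  · rw [e1, adj_adj]
    exact h3

theorem BF.smetab_flip (X : BF E β ε) (h : X.SMetab) : X.flip.SMetab := by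
  obtain ⟨Y, hY, hXY⟩ := h
  have h1 := MetabP.flip hY
  have h2 := MetabP.flip hXY
  exact ⟨Y.flip, h1, h2⟩

theorem BF.smetab_of_flip (X : BF E β ε) (h : X.flip.SMetab) : X.SMetab := by
  obtain ⟨Y, hY, hXY⟩ := h
  have his : IsBF E β ε Y.t (fun b => Y.M (!b)) := by
    have h1 := Y.is.flip
    refine ⟨fun b => ?_, h1.sym, h1.nil⟩
    have h2 := h1.on b
    cases b
    · exact h2
    · exact h2
  have h1 := MetabP.flip hY
  have h2 := MetabP.flip hXY
  obtain ⟨Q, q1, q2, q3, q4⟩ := h1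
  obtain ⟨Q', q1', q2', q3', q4'⟩ := h2
  exact ⟨{ K := Y.K, t := Y.t, M := fun b => Y.M (!b), is := his }, ⟨Q, q1, q2, q3, q4⟩,
    ⟨Q', q1', q2', q3', q4'⟩⟩

theorem IsBF.map {Δ : Type w'} {E' : BSys Δ G} {π : Δ → Ω} (h : E'.Hom E π) {s : K → Δ}
    (hM : IsBF E' β ε s M) : IsBF E β ε (fun k => π (s k)) M := by
  exact ⟨fun b => h.onS (hM.on b), hM.sym, hM.nil⟩

/-- the image of a form under a map of systems -/
def BF.map {Δ : Type w'} {E' : BSys Δ G} {π : Δ → Ω} (h : E'.Hom E π) (X : BF E' β ε) :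
    BF E β ε where
  K := X.K
  t := fun k => π (X.t k)
  M := X.M
  is := X.is.map h

theorem BF.smetab_map {Δ : Type w'} {E' : BSys Δ G} {π : Δ → Ω} (h : E'.Hom E π)
    (X : BF E' β ε) (hX : X.SMetab) : (X.map h).SMetab := by
  obtain ⟨Y, ⟨Q, h1, h2⟩, ⟨Q', h1', h2'⟩⟩ := hX
  refine ⟨Y.map h, ⟨Q, h.on0 h1, h2⟩, ⟨Q', ?_, h2'⟩⟩
  have h3 := h.on0 h1'
  have e : (fun i => π (Sum.elim X.t Y.t i)) = Sum.elim (X.map h).t (Y.map h).t := by
    funext i
    rcases i with i | i <;> rfl
  rw [e] at h3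
  exact h3

end

end Pool.Agent.Lib.MP_98022b_UM
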