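import Mathlib
import Pool.Agent.Lib.MP_98022b_UM.OnL
import Pool.Agent.Lib.MP_98022b_UM.BFL

/-!
# Forms with a compatible differential: definitions
-/

open MonoidAlgebra

namespace Pool.Agent.Lib.MP_98022b_UM

open Pool.Agent.Lib.MP_98022b_UN

universe u v w w'

section
variable {A : Type u} {Ω : Type w} {G : Type v} [CommRing A] [Group G]

/-- a form together with an idempotent `e` (projecting onto a projective submodule) and a
differential `d` of degree `-1`, both compatible with the form -/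
structure DGF (E : BSys Ω G) (β : BarStr A G) (ε : ℤ) extends BF E β ε where
  deg : K → ℤ
  e : Matrix K K (MonoidAlgebra A G)
  d : Matrix K K (MonoidAlgebra A G)
  e_on : On0 E t t e
  d_on : On0 E t t d
  e_deg : ∀ i j, e i j ≠ 0 → deg i = deg j
  d_deg : ∀ i j, d i j ≠ 0 → deg i = deg j + 1
  M_deg : ∀ b i j, M b i j ≠ 0 → deg i + deg j = 0
  ee : e * e = e
  ed : e * d = d
  de : d * e = d
  dd : d * d = 0
  eM : e * M true = M true
  Me : M false * e = M false
  Ma : M true * adj β e = M true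
  aM : adj β e * M false = M false
  dM : d * M true = M true * adj β d
  Md : adj β d * M false = M false * d

variable {E : BSys Ω G} {β : BarStr A G} {ε : ℤ}

/-- the degrees of side `b` -/
def DGF.degS (X : DGF E β ε) (b : Bool) (k : X.K) : ℤ :=
  match b with
  | true => X.deg k
  | false => -X.deg k

/-- the idempotent of side `b` -/
noncomputable def DGF.eS (X : DGF E β ε) (b : Bool) : Matrix X.K X.K (MonoidAlgebra A G) :=
  match b with
  | true => X.e
  | false => adj β X.e

/-- the differential of side `b` -/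
noncomputable def DGF.dS (X : DGF E β ε) (b : Bool) : Matrix X.K X.K (MonoidAlgebra A G) :=
  match b with
  | true => X.d
  | false => adj β X.d

/-- the rows of `x` are cycles of degree `i` of side `b` -/
def DGF.Cyc (X : DGF E β ε) (b : Bool) (i : ℤ) {c : Type}
    (x : Matrix c X.K (MonoidAlgebra A G)) : Prop :=
  (∀ j k, x j k ≠ 0 → X.degS b k = i) ∧ x * X.eS b = x ∧ x * X.dS b = 0

/-- the rows of `x` are boundaries of side `b` -/
def DGF.Bd (X : DGF E β ε) (b : Bool) {c : Type} (x : Matrix c X.K (MonoidAlgebra A G)) : Prop :=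
  ∃ y : Matrix c X.K (MonoidAlgebra A G), x = y * X.dS b

/-- exactness of side `b` in degree `i` -/
def DGF.Ex (X : DGF E β ε) (b : Bool) (i : ℤ) : Prop :=
  ∀ x : Matrix Unit X.K (MonoidAlgebra A G), X.Cyc b i x → X.Bd b x

/-- both sides are exact in all degrees `> a` -/
def DGF.Lev (X : DGF E β ε) (a : ℤ) : Prop :=
  ∀ (b : Bool) (i : ℤ), a < i → X.Ex b i

/-- the words of length `n` starting on side `b` and ending at the object `ω` vanish on the
homology in degree `a` -/
def DGF.VanAt (X : DGF E β ε) (a : ℤ) (n : ℕ) (b : Bool) (ω : Ω) : Prop :=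
  ∀ x : Matrix Unit X.K (MonoidAlgebra A G), X.Cyc b a x →
    X.Bd (par n b) (x * wM X.M n b * pr A G X.t ω)

/-- a finite complex of projective modules with label `ω`, to be attached in the degrees
`a + 1, a + 2, ...` by the map `f`; it resolves a submodule of the homology in degree `a`, and the
dual complex is exact in the positions `l < -2 a` -/
structure KillC (X : DGF E β ε) (ω : Ω) (a : ℤ) where
  C : Type
  [fin : Fintype C]
  [dec : DecidableEq C]
  p : C → ℕ
  e : Matrix C C (MonoidAlgebra A G)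
  δ : Matrix C C (MonoidAlgebra A G)
  f : Matrix C X.K (MonoidAlgebra A G)
  e_on : OnF (E.F ω) e
  δ_on : OnF (E.F ω) δ
  f_on : On0 E (fun _ => ω) X.t f
  e_deg : ∀ i j, e i j ≠ 0 → p i = p j
  δ_deg : ∀ i j, δ i j ≠ 0 → p i = p j + 1
  f_deg : ∀ i k, f i k ≠ 0 → X.deg k = a + p i
  ee : e * e = e
  eδ : e * δ = δ
  δe : δ * e = δ
  δδ : δ * δ = 0
  ef : e * f = f
  fe : f * X.e = f
  δf : δ * f + f * X.d = 0
  rowex : ∀ (l : ℕ) (u : Matrix Unit C (MonoidAlgebra A G)), (∀ i, u () i ≠ 0 → p i = l) →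
    u * e = u → u * δ = 0 → (∃ x : Matrix Unit X.K (MonoidAlgebra A G), u * f = x * X.d) →
    ∃ u' : Matrix Unit C (MonoidAlgebra A G), u = u' * δ
  colex : ∀ (l : ℕ) (y : Matrix C Unit (MonoidAlgebra A G)), (l : ℤ) < -2 * a →
    (∀ i, y i () ≠ 0 → p i = l) → e * y = y → δ * y = 0 →
    ∃ z : Matrix C Unit (MonoidAlgebra A G), y = δ * z

attribute [instance] KillC.fin KillC.dec

/-- the conditions on the part `h` of the extended form -/
structure KillC.SolH {X : DGF E β ε} {ω : Ω} {a : ℤ} (κ : KillC X ω a)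
    (h : Matrix κ.C X.K (MonoidAlgebra A G)) : Prop where
  on : OnS E true (fun _ => ω) X.t h
  deg : ∀ i k, h i k ≠ 0 → a + 1 + κ.p i + X.deg k = 0
  eh : κ.e * h = h
  he : h * adj β X.e = h
  eq : h * adj β X.d - κ.δ * h = κ.f * X.M true

/-- the conditions on the part `q` of the extended form -/
structure KillC.SolQ {X : DGF E β ε} {ω : Ω} {a : ℤ} (κ : KillC X ω a)
    (h : Matrix κ.C X.K (MonoidAlgebra A G)) (q : Matrix κ.C κ.C (MonoidAlgebra A G)) :
    Prop where
  on : OnS E true (fun _ => ω) (fun _ => ω) q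
  deg : ∀ i j, q i j ≠ 0 → a + 1 + κ.p i + (a + 1 + κ.p j) = 0
  eq : κ.e * q = q
  qe : q * adj β κ.e = q
  sym : adj β q = ε • q
  bd : κ.δ * q - q * adj β κ.δ = h * adj β κ.f - ε • (κ.f * adj β h)

/-- the coset components at the object `ω` of the words of length `n` starting on side `b`,
applied to generators `ζ` of the cycles of degree `a` -/
structure Content (X : DGF E β ε) (ω : Ω) (a : ℤ) (n : ℕ) (b : Bool) where
  r : Type
  [rfin : Fintype r]
  [rdec : DecidableEq r]
  ι : Type
  [ιfin : Fintype ι]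
  [ιdec : DecidableEq ι]
  s : r → Ω
  ζ : Matrix r X.K (MonoidAlgebra A G)
  τ : ι → G
  V : Matrix (r × ι) X.K (MonoidAlgebra A G)
  ζ_on : On0 E s X.t ζ
  ζ_cyc : X.Cyc b a ζ
  ζ_gen : ∀ x : Matrix Unit X.K (MonoidAlgebra A G), X.Cyc b a x →
    ∃ κ : Matrix Unit r (MonoidAlgebra A G), x = κ * ζ
  τ_dist : ∀ l l', (τ l)⁻¹ * τ l' ∈ E.F ω → l = l'
  V_eq : ∀ i l k, V (i, l) k = cL (E.F ω) (τ l) (ζ * wM X.M n b * pr A G X.t ω) i k
  sum : ∀ i k, (ζ * wM X.M n b * pr A G X.t ω) i k = ∑ l, single (τ l) 1 * V (i, l) k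

attribute [instance] Content.rfin Content.rdec Content.ιfin Content.ιdec

/-- the ring-theoretic input: the submodule of the homology generated by the contents has a finite
projective resolution whose dual is exact in the positions `< -2 a` -/
def KillHyp (E : BSys Ω G) (β : BarStr A G) (ε : ℤ) (a : ℤ) : Prop :=
  ∀ (X : DGF E β ε), X.Lev a → ∀ (ω : Ω) (n : ℕ) (b : Bool), par n b = true →
    ∀ c : Content X ω a n b, ∃ κ : KillC X ω a,
      (∃ (U : Matrix κ.C (c.r × c.ι) (MonoidAlgebra A G)) (Y : Matrix κ.C X.K (MonoidAlgebra A G)),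
        ∀ i, κ.p i = 0 → ∀ k, κ.f i k = (U * c.V + Y * X.d) i k) ∧
      (∃ (U : Matrix (c.r × c.ι) κ.C (MonoidAlgebra A G))
        (Y : Matrix (c.r × c.ι) X.K (MonoidAlgebra A G)),
        (∀ j i, U j i ≠ 0 → κ.p i = 0) ∧ c.V = U * κ.f + Y * X.d)

/-- coherence -/
def Coh (A : Type u) [CommRing A] (E : BSys Ω G) : Prop :=
  ∀ (J K : Type) [Fintype J] [Fintype K] (s : J → Ω) (t : K → Ω)
    (D : Matrix J K (MonoidAlgebra A G)), On0 E s t D →
    ∃ (n : ℕ) (r : Fin n → Ω) (ζ : Matrix (Fin n) J (MonoidAlgebra A G)), On0 E r s ζ ∧ GenL ζ D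

end

end Pool.Agent.Lib.MP_98022b_UM
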