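import Mathlib
import Pool.Agent.Lib.MP_98022b_UM.DGDefs

/-! Task DGL: API of forms with a differential. -/

open MonoidAlgebra

namespace Pool.Agent.Lib.MP_98022b_UM

open Pool.Agent.Lib.MP_98022b_UN

universe u v w w'

section
variable {A : Type u} {Ω : Type w} {G : Type v} [CommRing A] [Group G] {E : BSys Ω G}
  {β : BarStr A G} {ε : ℤ}

private theorem DGL1_adj_ne {I J : Type} {N : Matrix I J (MonoidAlgebra A G)} {i : I} {j : J}
    (h : adj β N j i ≠ 0) : N i j ≠ 0 := by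
  intro h0
  apply h
  change β.bar (N i j) = 0
  rw [h0]
  exact bar_zero β

/-- the two sides exchanged -/
noncomputable def DGF.flip (X : DGF E β ε) : DGF E.flip β ε where
  toBF := X.toBF.flip
  deg := fun k => -X.deg k
  e := adj β X.e
  d := adj β X.d
  e_on := X.e_on.adj β
  d_on := X.d_on.adj β
  e_deg := by
    intro i j h
    have := X.e_deg j i (DGL1_adj_ne h)
    change -X.deg i = -X.deg j
    omega
  d_deg := by
    intro i j h
    have := X.d_deg j i (DGL1_adj_ne h)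
    change -X.deg i = -X.deg j + 1
    omega
  M_deg := by
    intro b i j h
    have := X.M_deg (!b) i j h
    change -X.deg i + -X.deg j = 0
    omega
  ee := (adj_mul β X.e X.e).symm.trans (congrArg (adj β) X.ee)
  ed := (adj_mul β X.d X.e).symm.trans (congrArg (adj β) X.de)
  de := (adj_mul β X.e X.d).symm.trans (congrArg (adj β) X.ed)
  dd := ((adj_mul β X.d X.d).symm.trans (congrArg (adj β) X.dd)).trans (adj_zero β)
  eM := X.aM
  Me := X.Ma
  Ma := (congrArg (fun N => X.M false * N) (adj_adj β X.e)).trans X.Me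
  aM := (congrArg (fun N => N * X.M true) (adj_adj β X.e)).trans X.eM
  dM := X.Md.trans (congrArg (fun N => X.M false * N) (adj_adj β X.d)).symm
  Md := (congrArg (fun N => N * X.M true) (adj_adj β X.d)).trans X.dM

variable (X : DGF E β ε)

theorem DGF.dS_true : X.dS true = X.d := rfl
theorem DGF.dS_false : X.dS false = adj β X.d := rfl
theorem DGF.dS_on (b : Bool) : On0 E X.t X.t (X.dS b) := by
  cases b
  · exact X.d_on.adj β
  · exact X.d_on

theorem DGF.eS_on (b : Bool) : On0 E X.t X.t (X.eS b) := by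
  cases b
  · exact X.e_on.adj β
  · exact X.e_on

theorem DGF.dS_deg (b : Bool) (i j : X.K) (h : X.dS b i j ≠ 0) : X.degS b i = X.degS b j + 1 := by
  cases b
  · have := X.d_deg j i (DGL1_adj_ne h)
    change -X.deg i = -X.deg j + 1
    omega
  · exact X.d_deg i j h

theorem DGF.eS_deg (b : Bool) (i j : X.K) (h : X.eS b i j ≠ 0) : X.degS b i = X.degS b j := by
  cases b
  · have := X.e_deg j i (DGL1_adj_ne h)
    change -X.deg i = -X.deg j
    omega
  · exact X.e_deg i j h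

theorem DGF.M_degS (b : Bool) (i j : X.K) (h : X.M b i j ≠ 0) :
    X.degS b i = X.degS (!b) j := by
  cases b
  · have := X.M_deg false i j h
    change -X.deg i = X.deg j
    omega
  · have := X.M_deg true i j h
    change X.deg i = -X.deg j
    omega

theorem DGF.ee_S (b : Bool) : X.eS b * X.eS b = X.eS b := by
  cases b
  · exact (adj_mul β X.e X.e).symm.trans (congrArg (adj β) X.ee)
  · exact X.ee

theorem DGF.ed_S (b : Bool) : X.eS b * X.dS b = X.dS b := by
  cases b
  · exact (adj_mul β X.d X.e).symm.trans (congrArg (adj β) X.de)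
  · exact X.ed

theorem DGF.de_S (b : Bool) : X.dS b * X.eS b = X.dS b := by
  cases b
  · exact (adj_mul β X.e X.d).symm.trans (congrArg (adj β) X.ed)
  · exact X.de

theorem DGF.dd_S (b : Bool) : X.dS b * X.dS b = 0 := by
  cases b
  · exact ((adj_mul β X.d X.d).symm.trans (congrArg (adj β) X.dd)).trans (adj_zero β)
  · exact X.dd

theorem DGF.eM_S (b : Bool) : X.eS b * X.M b = X.M b := by
  cases b
  · exact X.aM
  · exact X.eM

theorem DGF.Me_S (b : Bool) : X.M b * X.eS (!b) = X.M b := by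
  cases b
  · exact X.Me
  · exact X.Ma

theorem DGF.dM_S (b : Bool) : X.dS b * X.M b = X.M b * X.dS (!b) := by
  cases b
  · exact X.Md
  · exact X.dM

theorem DGF.dw_S (n : ℕ) (b : Bool) : X.dS b * wM X.M n b = wM X.M n b * X.dS (par n b) := by
  induction n generalizing b with
  | zero =>
    change X.dS b * 1 = 1 * X.dS b
    rw [Matrix.mul_one, Matrix.one_mul]
  | succ n ih =>
    change X.dS b * (X.M b * wM X.M n (!b)) = X.M b * wM X.M n (!b) * X.dS (par n (!b))
    rw [← Matrix.mul_assoc, X.dM_S, Matrix.mul_assoc, ih, Matrix.mul_assoc]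

theorem DGF.w_degS (n : ℕ) (b : Bool) (i j : X.K) (h : wM X.M n b i j ≠ 0) :
    X.degS b i = X.degS (par n b) j := by
  induction n generalizing b i with
  | zero =>
    change (1 : Matrix X.K X.K (MonoidAlgebra A G)) i j ≠ 0 at h
    change X.degS b i = X.degS b j
    by_cases hij : i = j
    · rw [hij]
    · exact absurd (Matrix.one_apply_ne hij) h
  | succ n ih =>
    change (X.M b * wM X.M n (!b)) i j ≠ 0 at h
    rw [Matrix.mul_apply] at h
    obtain ⟨k, -, hk⟩ := Finset.exists_ne_zero_of_sum_ne_zero h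
    have h1 : X.M b i k ≠ 0 := left_ne_zero_of_mul hk
    have h2 : wM X.M n (!b) k j ≠ 0 := right_ne_zero_of_mul hk
    exact (X.M_degS b i k h1).trans (ih (!b) k h2)

/-- a word multiplied with the idempotent of its end side -/
theorem DGF.we_S {c : Type} (n : ℕ) (b : Bool) (x : Matrix c X.K (MonoidAlgebra A G))
    (hx : x * X.eS b = x) : x * wM X.M n b * X.eS (par n b) = x * wM X.M n b := by
  induction n with
  | zero =>
    change x * 1 * X.eS b = x * 1
    rw [Matrix.mul_one, hx]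
  | succ n ih =>
    rw [wM_succ', par_succ', Matrix.mul_assoc, Matrix.mul_assoc, X.Me_S]

theorem DGF.pr_dS (ω : Ω) (b : Bool) :
    pr A G X.t ω * X.dS b = X.dS b * pr A G X.t ω := by
  exact (X.dS_on b).pr_comm ω

theorem DGF.pr_eS (ω : Ω) (b : Bool) :
    pr A G X.t ω * X.eS b = X.eS b * pr A G X.t ω := by
  exact (X.eS_on b).pr_comm ω

variable {X}

/-- one row of a matrix -/
private def DGL2_row {c K : Type} (x : Matrix c K (MonoidAlgebra A G)) (j : c) :
    Matrix Unit K (MonoidAlgebra A G) := fun _ k => x j k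

private theorem DGL2_row_mul {c K L : Type} [Fintype K] (x : Matrix c K (MonoidAlgebra A G))
    (N : Matrix K L (MonoidAlgebra A G)) (j : c) :
    DGL2_row x j * N = DGL2_row (x * N) j := by
  ext _ k
  simp only [DGL2_row, Matrix.mul_apply]

private theorem DGL2_mul_ne {c K L : Type} [Fintype K] {x : Matrix c K (MonoidAlgebra A G)}
    {N : Matrix K L (MonoidAlgebra A G)} {j : c} {k : L} (h : (x * N) j k ≠ 0) :
    ∃ l, x j l ≠ 0 ∧ N l k ≠ 0 := by
  by_contra hne
  push Not at hne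
  refine h ?_
  rw [Matrix.mul_apply]
  refine Finset.sum_eq_zero fun l _ => ?_
  by_cases h1 : x j l = 0
  · rw [h1, zero_mul]
  · rw [hne l h1, mul_zero]

private theorem DGL2_rows {X : DGF E β ε} {c : Type} {b : Bool}
    {x : Matrix c X.K (MonoidAlgebra A G)} (h : ∀ j, X.Bd b (DGL2_row x j)) : X.Bd b x := by
  choose y hy using h
  refine ⟨fun j k => y j () k, ?_⟩
  ext1 j k
  have h1 := congrFun (congrFun (hy j) ()) k
  rw [Matrix.mul_apply] at h1 ⊢
  exact h1

private theorem DGL2_cyc_row {X : DGF E β ε} {c : Type} {b : Bool} {i : ℤ}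
    {x : Matrix c X.K (MonoidAlgebra A G)} (hx : X.Cyc b i x) (j : c) :
    X.Cyc b i (DGL2_row x j) := by
  refine ⟨fun _ k h => hx.1 j k h, ?_, ?_⟩
  · rw [DGL2_row_mul, hx.2.1]
  · rw [DGL2_row_mul, hx.2.2]
    rfl

private theorem DGL2_bd_zero {X : DGF E β ε} {c : Type} {b : Bool} :
    X.Bd b (0 : Matrix c X.K (MonoidAlgebra A G)) := ⟨0, by rw [Matrix.zero_mul]⟩

/-- words map cycles to cycles -/
theorem DGF.Cyc.word {c : Type} {b : Bool} {i : ℤ} {x : Matrix c X.K (MonoidAlgebra A G)}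
    (hx : X.Cyc b i x) (n : ℕ) : X.Cyc (par n b) i (x * wM X.M n b) := by
  refine ⟨fun j k h => ?_, X.we_S n b x hx.2.1, ?_⟩
  · obtain ⟨l, h1, h2⟩ := DGL2_mul_ne h
    rw [← X.w_degS n b l k h2]
    exact hx.1 j l h1
  · rw [Matrix.mul_assoc, ← X.dw_S, ← Matrix.mul_assoc, hx.2.2, Matrix.zero_mul]

theorem DGF.Cyc.pr {c : Type} {b : Bool} {i : ℤ} {x : Matrix c X.K (MonoidAlgebra A G)}
    (hx : X.Cyc b i x) (ω : Ω) : X.Cyc b i (x * pr A G X.t ω) := by
  classical
  refine ⟨fun j k h => ?_, ?_, ?_⟩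
  · refine hx.1 j k fun h0 => h ?_
    rw [mul_pr_apply, h0, ite_self]
  · rw [Matrix.mul_assoc, X.pr_eS, ← Matrix.mul_assoc, hx.2.1]
  · rw [Matrix.mul_assoc, X.pr_dS, ← Matrix.mul_assoc, hx.2.2, Matrix.zero_mul]

theorem DGF.Cyc.mul_left {c c' : Type} [Fintype c] {b : Bool} {i : ℤ}
    {x : Matrix c X.K (MonoidAlgebra A G)} (hx : X.Cyc b i x)
    (y : Matrix c' c (MonoidAlgebra A G)) : X.Cyc b i (y * x) := by
  refine ⟨fun j k h => ?_, ?_, ?_⟩
  · obtain ⟨l, -, h2⟩ := DGL2_mul_ne h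
    exact hx.1 l k h2
  · rw [Matrix.mul_assoc, hx.2.1]
  · rw [Matrix.mul_assoc, hx.2.2, Matrix.mul_zero]

theorem DGF.Bd.word {c : Type} {b : Bool} {x : Matrix c X.K (MonoidAlgebra A G)}
    (hx : X.Bd b x) (n : ℕ) : X.Bd (par n b) (x * wM X.M n b) := by
  obtain ⟨y, rfl⟩ := hx
  exact ⟨y * wM X.M n b, by rw [Matrix.mul_assoc, X.dw_S, Matrix.mul_assoc]⟩

theorem DGF.Bd.pr {c : Type} {b : Bool} {x : Matrix c X.K (MonoidAlgebra A G)}
    (hx : X.Bd b x) (ω : Ω) : X.Bd b (x * pr A G X.t ω) := by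
  obtain ⟨y, rfl⟩ := hx
  exact ⟨y * Pool.Agent.Lib.MP_98022b_UM.pr A G X.t ω, by
    rw [Matrix.mul_assoc, ← X.pr_dS, Matrix.mul_assoc]⟩

theorem DGF.Bd.add {c : Type} {b : Bool} {x y : Matrix c X.K (MonoidAlgebra A G)}
    (hx : X.Bd b x) (hy : X.Bd b y) : X.Bd b (x + y) := by
  obtain ⟨x', rfl⟩ := hx
  obtain ⟨y', rfl⟩ := hy
  exact ⟨x' + y', by rw [Matrix.add_mul]⟩

theorem DGF.Bd.mul_left {c c' : Type} [Fintype c] {b : Bool}
    {x : Matrix c X.K (MonoidAlgebra A G)} (hx : X.Bd b x)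
    (y : Matrix c' c (MonoidAlgebra A G)) : X.Bd b (y * x) := by
  obtain ⟨x', rfl⟩ := hx
  exact ⟨y * x', by rw [Matrix.mul_assoc]⟩

/-- a boundary of degree `i` is the boundary of a normalised chain of degree `i + 1` -/
theorem DGF.Bd.norm {c : Type} {b : Bool} {i : ℤ} {x : Matrix c X.K (MonoidAlgebra A G)}
    (hx : X.Bd b x) (hdeg : ∀ j k, x j k ≠ 0 → X.degS b k = i) :
    ∃ y : Matrix c X.K (MonoidAlgebra A G), x = y * X.dS b ∧ y * X.eS b = y ∧
      ∀ j k, y j k ≠ 0 → X.degS b k = i + 1 := by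
  classical
  obtain ⟨y, hy⟩ := hx
  let z : Matrix c X.K (MonoidAlgebra A G) := fun j k => if X.degS b k = i + 1 then y j k else 0
  have hz : x = z * X.dS b := by
    ext1 j k
    rw [Matrix.mul_apply]
    by_cases hk : X.degS b k = i
    · rw [hy, Matrix.mul_apply]
      refine Finset.sum_congr rfl fun l _ => ?_
      by_cases h0 : X.dS b l k = 0
      · rw [h0, mul_zero, mul_zero]
      · have h1 := X.dS_deg b l k h0
        show y j l * X.dS b l k = (if X.degS b l = i + 1 then y j l else 0) * X.dS b l k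
        rw [if_pos (by rw [h1, hk])]
    · have h1 : x j k = 0 := by
        by_contra h2
        exact hk (hdeg j k h2)
      rw [h1]
      refine (Finset.sum_eq_zero fun l _ => ?_).symm
      show (if X.degS b l = i + 1 then y j l else 0) * X.dS b l k = 0
      by_cases h0 : X.dS b l k = 0
      · rw [h0, mul_zero]
      · have h2 := X.dS_deg b l k h0
        rw [if_neg (by omega), zero_mul]
  refine ⟨z * X.eS b, ?_, ?_, ?_⟩
  · rw [Matrix.mul_assoc, X.ed_S, ← hz]
  · rw [Matrix.mul_assoc, X.ee_S]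
  · intro j k h
    obtain ⟨l, h1, h2⟩ := DGL2_mul_ne h
    rw [← X.eS_deg b l k h2]
    by_contra h3
    refine h1 ?_
    show (if X.degS b l = i + 1 then y j l else 0) = 0
    rw [if_neg h3]

/-- exactness for several rows -/
theorem DGF.Ex.mat {b : Bool} {i : ℤ} (h : X.Ex b i) {c : Type}
    {x : Matrix c X.K (MonoidAlgebra A G)} (hx : X.Cyc b i x) : X.Bd b x := by
  exact DGL2_rows fun j => h _ (DGL2_cyc_row hx j)

theorem DGF.VanAt.mat {a : ℤ} {n : ℕ} {b : Bool} {ω : Ω} (h : X.VanAt a n b ω) {c : Type}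
    {x : Matrix c X.K (MonoidAlgebra A G)} (hx : X.Cyc b a x) :
    X.Bd (par n b) (x * wM X.M n b * Pool.Agent.Lib.MP_98022b_UM.pr A G X.t ω) := by
  refine DGL2_rows fun j => ?_
  rw [← DGL2_row_mul, ← DGL2_row_mul]
  exact h _ (DGL2_cyc_row hx j)

/-- if the words vanish at all objects, they vanish -/
theorem DGF.van_all {a : ℤ} {n : ℕ} {b : Bool} (h : ∀ ω, X.VanAt a n b ω) {c : Type}
    {x : Matrix c X.K (MonoidAlgebra A G)} (hx : X.Cyc b a x) :
    X.Bd (par n b) (x * wM X.M n b) := by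
  classical
  have h1 : x * wM X.M n b = ∑ ω ∈ Finset.univ.image X.t, x * wM X.M n b * pr A G X.t ω := by
    rw [← Matrix.mul_sum, sum_pr, Matrix.mul_one]
  rw [h1]
  refine Finset.sum_induction _ (X.Bd (par n b)) (fun _ _ => DGF.Bd.add) DGL2_bd_zero ?_
  intro ω _
  exact (h ω).mat hx

/-- labels which do not occur -/
theorem DGF.vanAt_of_not_mem {a : ℤ} {n : ℕ} {b : Bool} {ω : Ω} (h : ∀ k, X.t k ≠ ω) :
    X.VanAt a n b ω := by
  classical
  intro x _
  have h1 : pr A G X.t ω = 0 := by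
    ext1 i j
    rw [pr_apply, if_neg fun h2 => h i h2.2]
    rfl
  rw [h1, Matrix.mul_zero]
  exact DGL2_bd_zero

theorem DGF.lev_of_van {a : ℤ} (hL : X.Lev a) (h : ∀ b ω, X.VanAt a 0 b ω) : X.Lev (a - 1) := by
  intro b i hi
  rcases eq_or_ne i a with rfl | hne
  · intro x hx
    have h1 := DGF.van_all (h b) hx
    rw [wM_zero, Matrix.mul_one] at h1
    exact h1
  · exact hL b i (by omega)

theorem DGF.exists_van (X : DGF E β ε) (a : ℤ) : ∃ n, ∀ b ω, X.VanAt a n b ω := by
  obtain ⟨N, hN⟩ := wM_nil (M := X.M) X.is.nil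
  refine ⟨N, fun b ω x _ => ?_⟩
  rw [hN, Matrix.mul_zero, Matrix.zero_mul]
  exact DGL2_bd_zero

end

section
variable {A : Type u} {Ω : Type w} {G : Type v} [CommRing A] [Group G] {E : BSys Ω G}
  {β : BarStr A G} {ε : ℤ} (X : DGF E β ε)

theorem DGF.flip_dS (b : Bool) : X.flip.dS b = X.dS (!b) := by
  cases b
  · exact adj_adj β X.d
  · rfl

theorem DGF.flip_eS (b : Bool) : X.flip.eS b = X.eS (!b) := by
  cases b
  · exact adj_adj β X.e
  · rfl

theorem DGF.flip_degS (b : Bool) (k : X.K) : X.flip.degS b k = X.degS (!b) k := by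
  cases b
  · exact neg_neg (X.deg k)
  · rfl

theorem DGF.flip_cyc {b : Bool} {i : ℤ} {c : Type} {x : Matrix c X.K (MonoidAlgebra A G)} :
    X.flip.Cyc b i x ↔ X.Cyc (!b) i x := by
  unfold DGF.Cyc
  rw [X.flip_dS, X.flip_eS]
  have h : (∀ j k, x j k ≠ 0 → X.flip.degS b k = i) ↔ (∀ j k, x j k ≠ 0 → X.degS (!b) k = i) :=
    ⟨fun h j k hjk => (X.flip_degS b k).symm.trans (h j k hjk),
      fun h j k hjk => (X.flip_degS b k).trans (h j k hjk)⟩
  exact and_congr h Iff.rfl

theorem DGF.flip_bd {b : Bool} {c : Type} {x : Matrix c X.K (MonoidAlgebra A G)} :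
    X.flip.Bd b x ↔ X.Bd (!b) x := by
  unfold DGF.Bd
  rw [X.flip_dS]
  exact Iff.rfl

theorem DGF.flip_ex {b : Bool} {i : ℤ} : X.flip.Ex b i ↔ X.Ex (!b) i := by
  constructor
  · intro h x hx
    exact X.flip_bd.mp (h x (X.flip_cyc.mpr hx))
  · intro h x hx
    exact X.flip_bd.mpr (h x (X.flip_cyc.mp hx))

theorem DGF.flip_lev {a : ℤ} : X.flip.Lev a ↔ X.Lev a := by
  constructor
  · intro h b i hi
    have h1 := X.flip_ex.mp (h (!b) i hi)
    rwa [Bool.not_not] at h1
  · intro h b i hi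
    exact X.flip_ex.mpr (h (!b) i hi)

private theorem dgl3_wM {K : Type} [Fintype K] [DecidableEq K]
    (M : Bool → Matrix K K (MonoidAlgebra A G)) (n : ℕ) : ∀ b : Bool,
    wM (fun b => M (!b)) n b = wM M n (!b) := by
  induction n with
  | zero => intro b; rfl
  | succ n ih =>
    intro b
    change M (!b) * wM (fun b => M (!b)) n (!b) = M (!b) * wM M n (!(!b))
    rw [ih]

theorem DGF.flip_vanAt {a : ℤ} {n : ℕ} {b : Bool} {ω : Ω} :
    X.flip.VanAt a n b ω ↔ X.VanAt a n (!b) ω := by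
  have h : wM X.flip.M n b = wM X.M n (!b) := dgl3_wM X.M n b
  have hp : par n (!b) = !(par n b) := par_not n b
  constructor
  · intro H x hx
    have h1 := X.flip_bd.mp (H x (X.flip_cyc.mpr hx))
    rw [hp]
    rw [h] at h1
    exact h1
  · intro H x hx
    have h1 := H x (X.flip_cyc.mp hx)
    rw [hp] at h1
    refine X.flip_bd.mpr ?_
    rw [h]
    exact h1

theorem DGF.smetab_of_flip (h : X.flip.SMetab) : X.SMetab := by
  exact BF.smetab_of_flip X.toBF h

private theorem dgl3_transport {E' : BSys Ω G} (h : E' = E) (Z : DGF E' β ε) :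
    ∃ X : DGF E β ε, (X.SMetab ↔ Z.SMetab) ∧ (∀ a, X.Lev a ↔ Z.Lev a) ∧
      ∀ a n b ω, X.VanAt a n b ω ↔ Z.VanAt a n b ω := by
  subst h
  exact ⟨Z, Iff.rfl, fun _ => Iff.rfl, fun _ _ _ _ => Iff.rfl⟩

/-- every form over the flipped system is a flip -/
theorem DGF.exists_unflip (Y : DGF E.flip β ε) : ∃ X : DGF E β ε,
    (X.SMetab ↔ Y.SMetab) ∧ (∀ a, X.Lev a ↔ Y.Lev a) ∧
    ∀ a n b ω, X.VanAt a n b ω ↔ Y.VanAt a n (!b) ω := by
  obtain ⟨X, h1, h2, h3⟩ := dgl3_transport (flip_flip E) Y.flip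
  refine ⟨X, h1.trans ⟨Y.smetab_of_flip, fun h => BF.smetab_flip Y.toBF h⟩,
    fun a => (h2 a).trans Y.flip_lev, fun a n b ω => (h3 a n b ω).trans Y.flip_vanAt⟩

end

end Pool.Agent.Lib.MP_98022b_UM
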