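import Mathlib
import Pool.Agent.Lib.MP_98022b_UM.DGL

/-! Task ContentL: contents. -/

open MonoidAlgebra

namespace Pool.Agent.Lib.MP_98022b_UM

open Pool.Agent.Lib.MP_98022b_UN

universe u v w w'

section
variable {A : Type u} {Ω : Type w} {G : Type v} [CommRing A] [Group G] {E : BSys Ω G}
  {β : BarStr A G} {ε : ℤ}

theorem exists_content (hcoh : Coh A E) (X : DGF E β ε) (ω : Ω) (a : ℤ) (n : ℕ) (b : Bool) :
    Nonempty (Content X ω a n b) := by
  classical
  let π : Matrix X.K X.K (MonoidAlgebra A G) :=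
    Matrix.diagonal (fun k => if X.degS b k = a then 1 else 0)
  have hπ : On0 E X.t X.t π := by
    intro i j g hg
    by_cases h : i = j
    · subst h
      refine ⟨?_, rfl⟩
      simp only [π, Matrix.diagonal_apply_eq] at hg
      split_ifs at hg with h1
      · rw [OnAux.supp_one hg]
        exact (E.F _).one_mem
      · exact absurd rfl hg
    · simp only [π, Matrix.diagonal_apply_ne _ h] at hg
      exact absurd rfl hg
  have hmulπ : ∀ {c : Type} (x : Matrix c X.K (MonoidAlgebra A G)), x * (1 - π) = 0 ↔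
      ∀ j k, x j k ≠ 0 → X.degS b k = a := by
    intro c x
    rw [Matrix.mul_sub, Matrix.mul_one, sub_eq_zero]
    constructor
    · intro h j k hjk
      by_contra hne
      apply hjk
      rw [h]
      simp only [π, Matrix.mul_diagonal, if_neg hne, mul_zero]
    · intro h
      ext1 j k
      simp only [π, Matrix.mul_diagonal]
      by_cases hk : X.degS b k = a
      · rw [if_pos hk, mul_one]
      · rw [if_neg hk, mul_zero]
        by_contra h0
        exact hk (h j k h0)
  let D : Matrix X.K (X.K ⊕ (X.K ⊕ X.K)) (MonoidAlgebra A G) :=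
    Matrix.fromCols (X.dS b) (Matrix.fromCols (1 - X.eS b) (1 - π))
  have hkey : ∀ {c : Type} (x : Matrix c X.K (MonoidAlgebra A G)), x * D = 0 ↔
      X.Cyc b a x := by
    intro c x
    have h1 : x * D = Matrix.fromCols (x * X.dS b)
        (Matrix.fromCols (x * (1 - X.eS b)) (x * (1 - π))) := by
      simp only [D, Matrix.mul_fromCols]
    rw [h1]
    constructor
    · intro h
      have e1 : x * X.dS b = 0 := by
        have := congrArg Matrix.toCols₁ h
        rwa [Matrix.toCols₁_fromCols] at this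
      have e2 : Matrix.fromCols (x * (1 - X.eS b)) (x * (1 - π)) = 0 := by
        have := congrArg Matrix.toCols₂ h
        rwa [Matrix.toCols₂_fromCols] at this
      have e3 : x * (1 - X.eS b) = 0 := by
        have := congrArg Matrix.toCols₁ e2
        rwa [Matrix.toCols₁_fromCols] at this
      have e4 : x * (1 - π) = 0 := by
        have := congrArg Matrix.toCols₂ e2
        rwa [Matrix.toCols₂_fromCols] at this
      refine ⟨(hmulπ x).1 e4, ?_, e1⟩
      rw [Matrix.mul_sub, Matrix.mul_one, sub_eq_zero] at e3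
      exact e3.symm
    · rintro ⟨h2, h3, h4⟩
      rw [h4, (hmulπ x).2 h2, Matrix.mul_sub, Matrix.mul_one, h3, sub_self]
      ext1 i j
      rcases j with j | j | j <;> rfl
  have hD : On0 E X.t (Sum.elim X.t (Sum.elim X.t X.t)) D :=
    (X.dS_on b).fromCols ((On0.one.sub (X.eS_on b)).fromCols (On0.one.sub hπ))
  obtain ⟨m, r, ζ, hon, hz, hgen⟩ := hcoh X.K (X.K ⊕ (X.K ⊕ X.K)) X.t _ D hD
  obtain ⟨T, hT1, -, hT3⟩ := cL_decomp (E.F ω) (ζ * wM X.M n b * pr A G X.t ω)
  let τ : Fin T.card → G := fun l => (T.equivFin.symm l).1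
  exact ⟨{
    r := Fin m
    ι := Fin T.card
    s := r
    ζ := ζ
    τ := τ
    V := fun p k => cL (E.F ω) (τ p.2) (ζ * wM X.M n b * pr A G X.t ω) p.1 k
    ζ_on := hon
    ζ_cyc := (hkey ζ).1 hz
    ζ_gen := fun x hx => hgen x ((hkey x).2 hx)
    τ_dist := by
      intro l l' h
      have h1 := hT1 _ (T.equivFin.symm l).2 _ (T.equivFin.symm l').2 h
      exact T.equivFin.symm.injective (Subtype.ext h1)
    V_eq := fun i l k => rfl
    sum := by
      intro i k
      have h1 : (ζ * wM X.M n b * pr A G X.t ω) i k = ∑ g ∈ T, single g 1 *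
          cL (E.F ω) g (ζ * wM X.M n b * pr A G X.t ω) i k := by
        conv_lhs => rw [hT3]
        exact CosL_sum_apply T (fun g => (fun i j => single g 1 *
          cL (E.F ω) g (ζ * wM X.M n b * pr A G X.t ω) i j :
            Matrix (Fin m) X.K (MonoidAlgebra A G))) i k
      rw [h1, ← Finset.sum_coe_sort T]
      exact (Equiv.sum_comp T.equivFin.symm (fun g : T => (single (g : G) (1 : A) *
        cL (E.F ω) (g : G) (ζ * wM X.M n b * pr A G X.t ω) i k : MonoidAlgebra A G))).symm }⟩

variable {X : DGF E β ε} {ω : Ω} {a : ℤ} {n : ℕ} {b : Bool}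

theorem Content2_on_cL {A : Type u} {Ω : Type w} {G : Type v} [CommRing A] [Group G]
    {E : BSys Ω G} {J K : Type} [Fintype K] {t : K → Ω} {ω : Ω} (g : G)
    (N : Matrix J K (MonoidAlgebra A G)) :
    On0 E (fun _ => ω) t (cL (E.F ω) g (N * Pool.Agent.Lib.MP_98022b_UM.pr A G t ω)) := by
  classical
  intro i k f hf
  refine ⟨cL_onF g _ i k f hf, ?_⟩
  by_contra hne
  apply hf
  have h0 : (N * Pool.Agent.Lib.MP_98022b_UM.pr A G t ω) i k = 0 := by
    rw [mul_pr_apply, if_neg (fun h => hne h.symm)]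
  show (res _ (single g⁻¹ (1 : A) * (N * Pool.Agent.Lib.MP_98022b_UM.pr A G t ω) i k)).coeff f = 0
  rw [h0, mul_zero, res_zero]
  rfl

theorem Content2_cL_mul {J K : Type} [Fintype K] {t : K → Ω} {ω : Ω} (g : G)
    (N : Matrix J K (MonoidAlgebra A G)) {z : Matrix K K (MonoidAlgebra A G)}
    (hz : On0 E t t z) :
    cL (E.F ω) g (N * Pool.Agent.Lib.MP_98022b_UM.pr A G t ω) * z =
      cL (E.F ω) g (N * z * Pool.Agent.Lib.MP_98022b_UM.pr A G t ω) := by
  have h1 : cL (E.F ω) g (N * Pool.Agent.Lib.MP_98022b_UM.pr A G t ω) *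
      Pool.Agent.Lib.MP_98022b_UM.pr A G t ω =
      cL (E.F ω) g (N * Pool.Agent.Lib.MP_98022b_UM.pr A G t ω) :=
    (Content2_on_cL g N).mul_pr
  have h2 : OnF (E.F ω) (Pool.Agent.Lib.MP_98022b_UM.pr A G t ω * z) :=
    (hz.pr_mul_onF ω).onF
  rw [← h1, Matrix.mul_assoc, ← cL_mul h2, Matrix.mul_assoc N, ← Matrix.mul_assoc
    (Pool.Agent.Lib.MP_98022b_UM.pr A G t ω), pr_mul_self, hz.pr_comm ω, ← Matrix.mul_assoc]

theorem Content2_V_mul (c : Content X ω a n b) {L : Type}
    (z : Matrix X.K L (MonoidAlgebra A G)) (i : c.r) (l : c.ι) (k : L) :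
    (c.V * z) (i, l) k =
      (cL (E.F ω) (c.τ l) (c.ζ * wM X.M n b * pr A G X.t ω) * z) i k := by
  rw [Matrix.mul_apply, Matrix.mul_apply]
  exact Finset.sum_congr rfl fun j _ => by rw [c.V_eq]

theorem Content.V_on (c : Content X ω a n b) : On0 E (fun _ => ω) X.t c.V := by
  rintro ⟨i, l⟩ k g hg
  rw [c.V_eq] at hg
  exact Content2_on_cL (c.τ l) (c.ζ * wM X.M n b) i k g hg

theorem Content.V_cyc (hn : par n b = true) (c : Content X ω a n b) : X.Cyc true a c.V := by
  have hN : X.Cyc true a (c.ζ * wM X.M n b) := by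
    have := c.ζ_cyc.word n
    rwa [hn] at this
  have hP := hN.pr ω
  refine ⟨?_, ?_, ?_⟩
  · rintro ⟨i, l⟩ k hk
    refine hP.1 i k ?_
    intro h0
    apply hk
    rw [c.V_eq]
    show res _ (single (c.τ l)⁻¹ (1 : A) * (c.ζ * wM X.M n b * pr A G X.t ω) i k) = 0
    rw [h0, mul_zero, res_zero]
  · funext p k
    obtain ⟨i, l⟩ := p
    rw [Content2_V_mul, Content2_cL_mul _ _ (X.eS_on true), hN.2.1, c.V_eq]
  · funext p k
    obtain ⟨i, l⟩ := p
    rw [Content2_V_mul, Content2_cL_mul _ _ (X.dS_on true), hN.2.2, Matrix.zero_mul, cL_zero]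
    rfl

/-- the words land in the span of the content -/
theorem Content.span (c : Content X ω a n b) {x : Matrix Unit X.K (MonoidAlgebra A G)}
    (hx : X.Cyc b a x) : ∃ u : Matrix Unit (c.r × c.ι) (MonoidAlgebra A G),
      x * wM X.M n b * pr A G X.t ω = u * c.V := by
  obtain ⟨κ, hκ⟩ := c.ζ_gen x hx
  refine ⟨Matrix.of fun _ p => κ () p.1 * single (c.τ p.2) 1, ?_⟩
  rw [hκ, Matrix.mul_assoc κ, Matrix.mul_assoc κ]
  apply Matrix.ext
  intro i k
  rw [Matrix.mul_apply, Matrix.mul_apply, Fintype.sum_prod_type]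
  refine Finset.sum_congr rfl fun j _ => ?_
  rw [c.sum, Finset.mul_sum]
  refine Finset.sum_congr rfl fun l _ => ?_
  rw [← mul_assoc]
  rfl

/-- the main computation for one product -/
private theorem Content3_key (hG : E.Geo) {m : ℕ} {b : Bool} {σ ρ ω ω' : Ω} {g : G}
    {x y : MonoidAlgebra A G} (hx : ∀ a, x.coeff a ≠ 0 → a ∈ E.W m b σ ρ)
    (hy : ∀ a, y.coeff a ≠ 0 → a ∈ E.S (par m b) ρ ω') [Decidable (ρ = ω)] :
    res {a | g ∈ E.W m b σ ω ∧ g⁻¹ * a ∈ E.S (par m b) ω ω'} (x * y) =
      if ρ = ω then single g 1 * res (E.F ω : Set G) (single g⁻¹ 1 * x) * y else 0 := by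
  classical
  split_ifs with hρ
  · subst hρ
    by_cases hg : g ∈ E.W m b σ ρ
    · set p : MonoidAlgebra A G := single g 1 * res (E.F ρ : Set G) (single g⁻¹ 1 * x) with hp
      have hpc : ∀ a, p.coeff a = if g⁻¹ * a ∈ E.F ρ then x.coeff a else 0 := by
        intro a
        rw [hp, coeff_single_mul_apply, one_mul]
        split_ifs with h
        · have h2 : g⁻¹ * a ∈ (E.F ρ : Set G) := h
          rw [res_coeff_mem h2, coeff_single_mul_apply, inv_inv, one_mul, mul_inv_cancel_left]
        · have h2 : g⁻¹ * a ∉ (E.F ρ : Set G) := h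
          rw [res_coeff_not_mem h2]
      have hd : x * y = p * y + (x - p) * y := by rw [← add_mul]; congr 1; abel
      rw [hd, res_add]
      have h1 : res {a | g ∈ E.W m b σ ρ ∧ g⁻¹ * a ∈ E.S (par m b) ρ ω'} (p * y) = p * y := by
        apply res_eq_self
        intro a ha
        obtain ⟨u, v, hu, hv, rfl⟩ := OnAux.supp_mul ha
        refine ⟨hg, ?_⟩
        rw [hpc] at hu
        split_ifs at hu with h
        · rw [← mul_assoc]
          exact E.left' h (hy v hv)
        · exact absurd rfl hu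
      have h2 : res {a | g ∈ E.W m b σ ρ ∧ g⁻¹ * a ∈ E.S (par m b) ρ ω'} ((x - p) * y) = 0 := by
        apply OnAux.res_of_not
        rintro a ha ⟨-, haU⟩
        obtain ⟨u, v, hu, hv, rfl⟩ := OnAux.supp_mul ha
        rw [coeff_sub, Finsupp.sub_apply, hpc] at hu
        split_ifs at hu with h
        · exact hu (sub_self _)
        · rw [sub_zero] at hu
          have h3 := hG.last (hx u hu) (hy v hv) hg haU (by rw [mul_inv_cancel_left])
          apply h
          have h4 := h3.2
          rw [mul_inv_rev, inv_inv, mul_inv_rev] at h4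
          have h5 : v * (v⁻¹ * u⁻¹ * g) = u⁻¹ * g := by group
          rw [h5] at h4
          have h6 := (E.F ρ).inv_mem h4
          rwa [mul_inv_rev, inv_inv] at h6
      rw [h1, h2, add_zero]
    · have h0 : res (E.F ρ : Set G) (single g⁻¹ 1 * x) = 0 := by
        apply OnAux.res_of_not
        intro a ha haF
        rw [coeff_single_mul_apply, inv_inv, one_mul] at ha
        apply hg
        have h1 := W_right E (hx _ ha) ((E.F ρ).inv_mem haF)
        rwa [mul_inv_cancel_right] at h1
      rw [h0, mul_zero, zero_mul]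
      apply OnAux.res_of_not
      rintro a - ⟨h, -⟩
      exact hg h
  · apply OnAux.res_of_not
    rintro a ha ⟨hg, haU⟩
    obtain ⟨u, v, hu, hv, rfl⟩ := OnAux.supp_mul ha
    exact hρ (hG.last (hx u hu) (hy v hv) hg haU (by rw [mul_inv_cancel_left])).1

/-- restriction of a product with a matrix supported in the object groups -/
private theorem Content3_res {I K : Type} [Fintype K] {t : K → Ω}
    {D : Matrix K K (MonoidAlgebra A G)} (hD : On0 E t t D) (U : I → Ω → Set G)
    (hU : ∀ i ω', ∀ f ∈ E.F ω', ∀ g ∈ U i ω', g * f ∈ U i ω')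
    (Y : Matrix I K (MonoidAlgebra A G)) (i : I) (j : K) :
    res (U i (t j)) ((Y * D) i j) = ∑ k, res (U i (t k)) (Y i k) * D k j := by
  rw [Matrix.mul_apply, res_sum]
  refine Finset.sum_congr rfl fun k _ => ?_
  by_cases hk : t k = t j
  · rw [hk]
    exact res_mul_right (F := E.F (t j)) (hU i (t j))
      (fun g hg => by rw [← hk]; exact (hD k j g hg).1) _
  · have h0 : D k j = 0 := by
      ext g
      by_contra hne
      exact hk (hD k j g hne).2
    rw [h0, mul_zero, mul_zero, res_zero]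

/-- if all words of length `n + 1` vanish on the homology, the next matrix kills the content of
the words of length `n` -/
theorem Content.killed (hG : E.Geo) (hn : par n b = true) (c : Content X ω a n b)
    (hv : ∀ ω', X.VanAt a (n + 1) b ω') : X.Bd false (c.V * X.M true) := by
  classical
  have hpar : par (n + 1) b = false := by rw [par_succ', hn]; rfl
  obtain ⟨Y, hY⟩ := DGF.van_all hv c.ζ_cyc
  rw [hpar, wM_succ', hn, ← Matrix.mul_assoc] at hY
  set w : Matrix c.r X.K (MonoidAlgebra A G) := c.ζ * wM X.M n b with hw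
  have hwon : OnW E n b c.s X.t w := c.ζ_on.mulW (wM_on X.is.on n b)
  have hMon : ∀ k j g, (X.M true k j).coeff g ≠ 0 → g ∈ E.S (par n b) (X.t k) (X.t j) := by
    rw [hn]
    exact X.is.on true
  set U : c.r → c.ι → Ω → Set G := fun i l ω' =>
    {g | c.τ l ∈ E.W n b (c.s i) ω ∧ (c.τ l)⁻¹ * g ∈ E.S (par n b) ω ω'} with hU
  have hUr : ∀ l, ∀ i ω', ∀ f ∈ E.F ω', ∀ g ∈ U i l ω', g * f ∈ U i l ω' := by
    rintro l i ω' f hf g ⟨h1, h2⟩
    refine ⟨h1, ?_⟩
    rw [← mul_assoc]
    exact E.right' h2 hf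
  have hV : ∀ i l j, res (U i l (X.t j)) ((w * X.M true) i j) =
      single (c.τ l) 1 * (c.V * X.M true) (i, l) j := by
    intro i l j
    rw [Matrix.mul_apply, Matrix.mul_apply, res_sum, Finset.mul_sum]
    refine Finset.sum_congr rfl fun k _ => ?_
    rw [Content3_key hG (fun g hg => hwon i k g hg) (fun g hg => hMon k j g hg)]
    have h3 : c.V (i, l) k =
        res (E.F ω : Set G) (single (c.τ l)⁻¹ 1 * (if X.t k = ω then w i k else 0)) := by
      rw [c.V_eq, ← mul_pr_apply]; rfl
    rw [h3]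
    split_ifs with hk
    · rw [mul_assoc]
    · rw [mul_zero, res_zero, zero_mul, mul_zero]
  refine ⟨Matrix.of fun p k => single (c.τ p.2)⁻¹ 1 * res (U p.1 p.2 (X.t k)) (Y p.1 k), ?_⟩
  funext p j
  obtain ⟨i, l⟩ := p
  have h4 : (c.V * X.M true) (i, l) j =
      single (c.τ l)⁻¹ 1 * (single (c.τ l) 1 * (c.V * X.M true) (i, l) j) := by
    rw [← mul_assoc, single_mul_single, inv_mul_cancel, one_mul, ← one_def, one_mul]
  rw [h4, ← hV i l j, hY, Content3_res (X.dS_on false) (fun i ω' => U i l ω') (hUr l),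
    Matrix.mul_apply, Finset.mul_sum]
  refine Finset.sum_congr rfl fun k _ => ?_
  rw [← mul_assoc]
  rfl

end

end Pool.Agent.Lib.MP_98022b_UM
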