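import Mathlib
import Pool.Agent.Lib.MP_98022b_UM.DGL

/-! Task Contr: acyclic forms are metabolic. -/

open MonoidAlgebra

namespace Pool.Agent.Lib.MP_98022b_UM

open Pool.Agent.Lib.MP_98022b_UN

universe u v w w'

section
variable {A : Type u} {Ω : Type w} {G : Type v} [CommRing A] [Group G] {E : BSys Ω G}
  {β : BarStr A G} {ε : ℤ}

private theorem ContrIte {I J : Type} {s : I → Ω} {t : J → Ω} {M N : Matrix I J (MonoidAlgebra A G)}
    (hM : On0 E s t M) (hN : On0 E s t N) (p : I → J → Prop) [∀ i j, Decidable (p i j)] :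
    On0 E s t (fun i j => if p i j then M i j else N i j) := by
  intro i j g hg
  by_cases h : p i j
  · simp only [h, if_true] at hg
    exact hM i j g hg
  · simp only [h, if_false] at hg
    exact hN i j g hg

private theorem ContrStep (X : DGF E β ε) (h : ∀ i, X.Ex true i) (n : ℤ)
    (s : Matrix X.K X.K (MonoidAlgebra A G)) (hs : On0 E X.t X.t s) (hse : s * X.e = s)
    (hdeg : ∀ i j, s i j ≠ 0 → X.deg j = X.deg i + 1)
    (hid : ∀ i, X.deg i ≤ n → ∀ j, (X.d * s) i j + (s * X.d) i j = X.e i j) :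
    ∃ s' : Matrix X.K X.K (MonoidAlgebra A G), On0 E X.t X.t s' ∧ s' * X.e = s' ∧
      (∀ i j, s' i j ≠ 0 → X.deg j = X.deg i + 1) ∧
      (∀ i, X.deg i ≤ n + 1 → ∀ j, (X.d * s') i j + (s' * X.d) i j = X.e i j) := by
  classical
  set x : Matrix X.K X.K (MonoidAlgebra A G) :=
    fun i j => if X.deg i = n + 1 then (X.e - X.d * s) i j else
      (0 : Matrix X.K X.K (MonoidAlgebra A G)) i j with hx
  have hxon : On0 E X.t X.t x := ContrIte (X.e_on.sub (X.d_on.mul hs)) On0.zero
    (fun i _ => X.deg i = n + 1)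
  have hxdeg : ∀ i k, x i k ≠ 0 → X.deg k = n + 1 := by
    intro i k hik
    by_cases hi : X.deg i = n + 1
    · simp only [hx, hi, if_true, Matrix.sub_apply] at hik
      by_cases he : X.e i k = 0
      · rw [he, zero_sub, neg_ne_zero, Matrix.mul_apply] at hik
        obtain ⟨l, -, hl⟩ := Finset.exists_ne_zero_of_sum_ne_zero hik
        have h1 := X.d_deg i l (left_ne_zero_of_mul hl)
        have h2 := hdeg l k (right_ne_zero_of_mul hl)
        omega
      · rw [← X.e_deg i k he, hi]
    · simp only [hx, hi, if_false] at hik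
      exact absurd rfl hik
  have hxe : x * X.e = x := by
    funext i k
    have h1 : ((X.e - X.d * s) * X.e) = X.e - X.d * s := by
      rw [Matrix.sub_mul, X.ee, Matrix.mul_assoc, hse]
    by_cases hi : X.deg i = n + 1
    · have h2 : ∀ l, x i l = (X.e - X.d * s) i l := fun l => by simp only [hx, hi, if_true]
      rw [Matrix.mul_apply, h2, ← congrFun (congrFun h1 i) k, Matrix.mul_apply]
      exact Finset.sum_congr rfl fun l _ => by rw [h2]
    · have h2 : ∀ l, x i l = 0 := fun l => by simp only [hx, hi, if_false]; rfl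
      rw [Matrix.mul_apply, h2]
      exact Finset.sum_eq_zero fun l _ => by rw [h2, zero_mul]
  have hds : ∀ i, X.deg i ≤ n + 1 → ∀ k, (X.d * (s * X.d)) i k = X.d i k := by
    intro i hi k
    have h1 : (X.d * (X.e - X.d * s)) = X.d := by
      rw [Matrix.mul_sub, X.de, ← Matrix.mul_assoc, X.dd, Matrix.zero_mul, sub_zero]
    rw [← congrFun (congrFun h1 i) k, Matrix.mul_apply, Matrix.mul_apply]
    refine Finset.sum_congr rfl fun l _ => ?_
    by_cases hl : X.d i l = 0
    · rw [hl, zero_mul, zero_mul]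
    · have h2 := X.d_deg i l hl
      have h3 := hid l (by omega) k
      rw [Matrix.sub_apply, ← h3, add_sub_cancel_left]
  have hxd : x * X.d = 0 := by
    funext i k
    by_cases hi : X.deg i = n + 1
    · have h2 : ∀ l, x i l = (X.e - X.d * s) i l := fun l => by simp only [hx, hi, if_true]
      have h3 : (x * X.d) i k = ((X.e - X.d * s) * X.d) i k := by
        rw [Matrix.mul_apply, Matrix.mul_apply]
        exact Finset.sum_congr rfl fun l _ => by rw [h2]
      rw [h3, Matrix.sub_mul, X.ed, Matrix.sub_apply, Matrix.mul_assoc, hds i hi.le k, sub_self]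
      rfl
    · have h2 : ∀ l, x i l = 0 := fun l => by simp only [hx, hi, if_false]; rfl
      rw [Matrix.mul_apply]
      exact Finset.sum_eq_zero fun l _ => by rw [h2, zero_mul]
  have hcyc : X.Cyc true (n + 1) x := ⟨hxdeg, hxe, hxd⟩
  obtain ⟨y, hy⟩ := (h (n + 1)).mat hcyc
  have hy' : x = y * X.d := hy
  obtain ⟨κ, hκ, hκx⟩ := On0.exists_left X.d_on hxon hy'
  set κ1 : Matrix X.K X.K (MonoidAlgebra A G) :=
    fun i j => if X.deg i = n + 1 ∧ X.deg j = n + 2 then κ i j else
      (0 : Matrix X.K X.K (MonoidAlgebra A G)) i j with hκ1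
  have hκ1on : On0 E X.t X.t κ1 := ContrIte hκ On0.zero
    (fun i j => X.deg i = n + 1 ∧ X.deg j = n + 2)
  have hκ1deg : ∀ i j, κ1 i j ≠ 0 → X.deg i = n + 1 ∧ X.deg j = n + 2 := by
    intro i j hij
    by_contra hc
    simp only [hκ1, hc, if_false] at hij
    exact hij rfl
  have hκ1d : κ1 * X.d = x := by
    funext i k
    by_cases hi : X.deg i = n + 1
    · by_cases hk : X.deg k = n + 1
      · rw [hκx, Matrix.mul_apply, Matrix.mul_apply]
        refine Finset.sum_congr rfl fun l _ => ?_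
        by_cases hl : X.d l k = 0
        · rw [hl, mul_zero, mul_zero]
        · have h2 := X.d_deg l k hl
          have h3 : X.deg i = n + 1 ∧ X.deg l = n + 2 := ⟨hi, by omega⟩
          simp only [hκ1, h3, and_self, if_true]
      · have h2 : x i k = 0 := by
          by_contra hc
          exact hk (hxdeg i k hc)
        rw [h2, Matrix.mul_apply]
        refine Finset.sum_eq_zero fun l _ => ?_
        by_contra hc
        have h3 := X.d_deg l k (right_ne_zero_of_mul hc)
        have h4 := hκ1deg i l (left_ne_zero_of_mul hc)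
        omega
    · have h2 : x i k = 0 := by simp only [hx, hi, if_false]; rfl
      rw [h2, Matrix.mul_apply]
      refine Finset.sum_eq_zero fun l _ => ?_
      by_contra hc
      exact hi (hκ1deg i l (left_ne_zero_of_mul hc)).1
  have hκ2d : κ1 * X.e * X.d = x := by rw [Matrix.mul_assoc, X.ed, hκ1d]
  have hκ2e : κ1 * X.e * X.e = κ1 * X.e := by rw [Matrix.mul_assoc, X.ee]
  have hκ2on : On0 E X.t X.t (κ1 * X.e) := hκ1on.mul X.e_on
  have hκ2deg : ∀ i j, (κ1 * X.e) i j ≠ 0 → X.deg j = X.deg i + 1 := by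
    intro i j hij
    rw [Matrix.mul_apply] at hij
    obtain ⟨l, -, hl⟩ := Finset.exists_ne_zero_of_sum_ne_zero hij
    have h1 := hκ1deg i l (left_ne_zero_of_mul hl)
    have h2 := X.e_deg l j (right_ne_zero_of_mul hl)
    omega
  set s' : Matrix X.K X.K (MonoidAlgebra A G) :=
    fun i j => if X.deg i ≤ n then s i j else (κ1 * X.e) i j with hs'
  have hs'1 : ∀ i, X.deg i ≤ n → ∀ j, s' i j = s i j := fun i hi j => by
    simp only [hs', hi, if_true]
  have hs'2 : ∀ i, ¬ X.deg i ≤ n → ∀ j, s' i j = (κ1 * X.e) i j := fun i hi j => by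
    simp only [hs', hi, if_false]
  have hmul1 : ∀ (N : Matrix X.K X.K (MonoidAlgebra A G)) (i : X.K), X.deg i ≤ n → ∀ k,
      (s' * N) i k = (s * N) i k := by
    intro N i hi k
    rw [Matrix.mul_apply, Matrix.mul_apply]
    exact Finset.sum_congr rfl fun l _ => by rw [hs'1 i hi]
  have hmul2 : ∀ (N : Matrix X.K X.K (MonoidAlgebra A G)) (i : X.K), ¬ X.deg i ≤ n → ∀ k,
      (s' * N) i k = (κ1 * X.e * N) i k := by
    intro N i hi k
    rw [Matrix.mul_apply, Matrix.mul_apply]
    exact Finset.sum_congr rfl fun l _ => by rw [hs'2 i hi]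
  have hds' : ∀ i, X.deg i ≤ n + 1 → ∀ k, (X.d * s') i k = (X.d * s) i k := by
    intro i hi k
    rw [Matrix.mul_apply, Matrix.mul_apply]
    refine Finset.sum_congr rfl fun l _ => ?_
    by_cases hl : X.d i l = 0
    · rw [hl, zero_mul, zero_mul]
    · have h2 := X.d_deg i l hl
      rw [hs'1 l (by omega)]
  refine ⟨s', ContrIte hs hκ2on (fun i _ => X.deg i ≤ n), ?_, ?_, ?_⟩
  · funext i k
    by_cases hi : X.deg i ≤ n
    · rw [hmul1 _ i hi, hse, hs'1 i hi]
    · rw [hmul2 _ i hi, hκ2e, hs'2 i hi]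
  · intro i j hij
    by_cases hi : X.deg i ≤ n
    · rw [hs'1 i hi] at hij
      exact hdeg i j hij
    · rw [hs'2 i hi] at hij
      exact hκ2deg i j hij
  · intro i hi k
    rw [hds' i hi]
    by_cases hi' : X.deg i ≤ n
    · rw [hmul1 _ i hi', hid i hi']
    · have hi2 : X.deg i = n + 1 := by omega
      rw [hmul2 _ i hi', hκ2d]
      simp only [hx, hi2, if_true, Matrix.sub_apply]
      rw [add_sub_cancel]

private theorem ContrInd (X : DGF E β ε) (h : ∀ i, X.Ex true i) (b : ℤ) (hb : ∀ i, b < X.deg i)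
    (m : ℕ) : ∃ s : Matrix X.K X.K (MonoidAlgebra A G), On0 E X.t X.t s ∧ s * X.e = s ∧
      (∀ i j, s i j ≠ 0 → X.deg j = X.deg i + 1) ∧
      (∀ i, X.deg i ≤ b + m → ∀ j, (X.d * s) i j + (s * X.d) i j = X.e i j) := by
  induction m with
  | zero =>
    refine ⟨0, On0.zero, Matrix.zero_mul _, fun i j hij => absurd rfl hij, ?_⟩
    intro i hi
    have := hb i
    exfalso
    push_cast at hi
    omega
  | succ m ih =>
    obtain ⟨s, h1, h2, h3, h4⟩ := ih
    obtain ⟨s', g1, g2, g3, g4⟩ := ContrStep X h (b + m) s h1 h2 h3 h4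
    refine ⟨s', g1, g2, g3, fun i hi => g4 i ?_⟩
    push_cast at hi
    omega

theorem exists_contr (X : DGF E β ε) (h : ∀ i, X.Ex true i) :
    ∃ s : Matrix X.K X.K (MonoidAlgebra A G), On0 E X.t X.t s ∧ X.e * s = s ∧ s * X.e = s ∧
      X.d * s + s * X.d = X.e := by
  obtain ⟨b, hb⟩ := (Set.finite_range X.deg).bddBelow
  obtain ⟨c, hc⟩ := (Set.finite_range X.deg).bddAbove
  obtain ⟨s, h1, h2, -, h4⟩ := ContrInd X h (b - 1)
    (fun i => by have := hb (Set.mem_range_self i); omega) (c - (b - 1)).toNat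
  have h5 : X.d * s + s * X.d = X.e := by
    funext i j
    rw [Matrix.add_apply]
    refine h4 i ?_ j
    have h6 := hc (Set.mem_range_self i)
    have h7 := Int.self_le_toNat (c - (b - 1))
    omega
  refine ⟨X.e * s, X.e_on.mul h1, ?_, ?_, ?_⟩
  · rw [← Matrix.mul_assoc, X.ee]
  · rw [Matrix.mul_assoc, h2]
  · have h6 : s * X.d = X.e - X.d * s := by rw [← h5, add_sub_cancel_left]
    rw [← Matrix.mul_assoc, X.de, Matrix.mul_assoc, h6, Matrix.mul_sub, X.ee, ← Matrix.mul_assoc,
      X.ed, add_sub_cancel]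

theorem DGF.metab_of_acyclic (X : DGF E β ε) (h : ∀ i, X.Ex true i) : X.Metab := by
  obtain ⟨s, h1, -, h3, h4⟩ := exists_contr X h
  have h5 : X.d * s = X.e - s * X.d := by rw [← h4, add_sub_cancel_right]
  have h6 : 1 - s * X.d = (1 - X.e) + X.d * s := by rw [h5]; abel
  refine ⟨s * X.d, h1.mul X.d_on, ?_, ?_, ?_⟩
  · rw [Matrix.mul_assoc, ← Matrix.mul_assoc X.d, h5, Matrix.sub_mul, X.ed, Matrix.mul_assoc s,
      X.dd, Matrix.mul_zero, sub_zero]
  · rw [adj_mul, Matrix.mul_assoc s, X.dM, Matrix.mul_assoc s, Matrix.mul_assoc (X.M true),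
      ← Matrix.mul_assoc (adj β X.d), ← adj_mul, X.dd, adj_zero, Matrix.zero_mul,
      Matrix.mul_zero, Matrix.mul_zero]
  · rw [h6, adj_add, adj_sub, adj_one, adj_mul, Matrix.add_mul, Matrix.sub_mul, Matrix.one_mul,
      X.aM, sub_self, zero_add, Matrix.mul_add, Matrix.mul_assoc _ _ (1 - X.e), Matrix.mul_sub,
      Matrix.mul_one, X.Me, sub_self, Matrix.mul_zero, zero_add, Matrix.mul_assoc (adj β s),
      X.Md, Matrix.mul_assoc (adj β s), Matrix.mul_assoc (X.M false), ← Matrix.mul_assoc X.d,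
      X.dd, Matrix.zero_mul, Matrix.mul_zero, Matrix.mul_zero]

end

end Pool.Agent.Lib.MP_98022b_UM
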