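import Mathlib
import Pool.Agent.Lib.MP_98022b_UM.DGL

/-! Task Ext: the extended form. -/

open MonoidAlgebra

namespace Pool.Agent.Lib.MP_98022b_UM

open Pool.Agent.Lib.MP_98022b_UN

universe u v w w'

section
variable {A : Type u} {Ω : Type w} {G : Type v} [CommRing A] [Group G] {E : BSys Ω G}
  {β : BarStr A G} {ε : ℤ}

/-- the matrices of the extended form -/
noncomputable def extM {X : DGF E β ε} {ω : Ω} {a : ℤ} (κ : KillC X ω a)
    (h : Matrix κ.C X.K (MonoidAlgebra A G)) (q : Matrix κ.C κ.C (MonoidAlgebra A G)) :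
    Bool → Matrix (κ.C ⊕ X.K) (κ.C ⊕ X.K) (MonoidAlgebra A G)
  | true => Matrix.fromBlocks q h (ε • adj β h) (X.M true)
  | false => Matrix.fromBlocks 0 0 0 (X.M false)

private theorem Ext1_eps (hε : ε = 1 ∨ ε = -1) {I J : Type}
    (M : Matrix I J (MonoidAlgebra A G)) : ε • (ε • M) = M := by
  rw [smul_smul]
  rcases hε with rfl | rfl
  · rw [one_mul, one_smul]
  · rw [neg_one_mul, neg_neg, one_smul]

private theorem Ext1_smul_blocks {I J K L : Type} (n : ℤ) (P : Matrix I K (MonoidAlgebra A G))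
    (Q : Matrix I L (MonoidAlgebra A G)) (R : Matrix J K (MonoidAlgebra A G))
    (S : Matrix J L (MonoidAlgebra A G)) :
    n • Matrix.fromBlocks P Q R S = Matrix.fromBlocks (n • P) (n • Q) (n • R) (n • S) := by
  funext i j
  rcases i with i | i <;> rcases j with j | j <;> rfl

private theorem Ext1_pow {I K : Type} [Fintype I] [DecidableEq I] [Fintype K] [DecidableEq K]
    (B : Matrix I K (MonoidAlgebra A G)) (C : Matrix K K (MonoidAlgebra A G)) (n : ℕ) :
    (Matrix.fromBlocks (0 : Matrix I I (MonoidAlgebra A G)) B 0 C) ^ (n + 1) =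
      Matrix.fromBlocks 0 (B * C ^ n) 0 (C ^ (n + 1)) := by
  induction n with
  | zero => simp
  | succ n ih =>
    rw [pow_succ, ih, Matrix.fromBlocks_multiply]
    simp only [Matrix.mul_zero, Matrix.zero_mul, zero_add, add_zero, Matrix.mul_assoc]
    rw [← pow_succ, ← pow_succ]

theorem extM_is (hε : ε = 1 ∨ ε = -1) {X : DGF E β ε} {ω : Ω} {a : ℤ} (κ : KillC X ω a)
    {h : Matrix κ.C X.K (MonoidAlgebra A G)} {q : Matrix κ.C κ.C (MonoidAlgebra A G)}
    (hh : κ.SolH h) (hq : κ.SolQ h q) :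
    IsBF E β ε (Sum.elim (fun _ => ω) X.t) (extM κ h q) := by
  refine ⟨?_, ?_, ?_⟩
  · rintro (_ | _)
    · exact OnS.fromBlocks OnS.zero OnS.zero OnS.zero (X.is.on false)
    · exact OnS.fromBlocks hq.on hh.on ((hh.on.adj β).zsmul ε) (X.is.on true)
  · rintro (_ | _)
    · show adj β (Matrix.fromBlocks 0 0 0 (X.M false)) = ε • Matrix.fromBlocks 0 0 0 (X.M false)
      rw [adj_fromBlocks, Ext1_smul_blocks, adj_zero, adj_zero, adj_zero, smul_zero, smul_zero,
        smul_zero, X.is.sym false]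
    · show adj β (Matrix.fromBlocks q h (ε • adj β h) (X.M true)) =
        ε • Matrix.fromBlocks q h (ε • adj β h) (X.M true)
      rw [adj_fromBlocks, Ext1_smul_blocks, Ext1_eps hε, adj_zsmul, adj_adj, hq.sym,
        X.is.sym true]
  · obtain ⟨N, hN⟩ := X.is.nil
    refine ⟨N + 1, ?_⟩
    have h1 : extM κ h q true * extM κ h q false =
        Matrix.fromBlocks 0 (h * X.M false) 0 (X.M true * X.M false) := by
      show Matrix.fromBlocks q h (ε • adj β h) (X.M true) *
        Matrix.fromBlocks 0 0 0 (X.M false) = _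
      rw [Matrix.fromBlocks_multiply]
      simp only [Matrix.mul_zero, zero_add, add_zero]
    rw [h1, Ext1_pow, pow_succ, hN, Matrix.mul_zero, Matrix.zero_mul]
    exact Matrix.fromBlocks_zero

/-- the extended form -/
noncomputable def ext (hε : ε = 1 ∨ ε = -1) {X : DGF E β ε} {ω : Ω} {a : ℤ} (κ : KillC X ω a)
    {h : Matrix κ.C X.K (MonoidAlgebra A G)} {q : Matrix κ.C κ.C (MonoidAlgebra A G)}
    (hh : κ.SolH h) (hq : κ.SolQ h q) : DGF E β ε where
  K := κ.C ⊕ X.K
  t := Sum.elim (fun _ => ω) X.t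
  M := extM κ h q
  is := extM_is hε κ hh hq
  deg := Sum.elim (fun i => a + 1 + κ.p i) X.deg
  e := Matrix.fromBlocks κ.e 0 0 X.e
  d := Matrix.fromBlocks κ.δ κ.f 0 X.d
  e_on := On0.fromBlocks (OnF.on0 κ.e_on) On0.zero On0.zero X.e_on
  d_on := On0.fromBlocks (OnF.on0 κ.δ_on) κ.f_on On0.zero X.d_on
  e_deg := by
    rintro (i | i) (j | j) hij
    · have h1 := κ.e_deg i j hij
      show a + 1 + (κ.p i : ℤ) = a + 1 + (κ.p j : ℤ)
      rw [h1]
    · exact absurd rfl hij
    · exact absurd rfl hij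
    · exact X.e_deg i j hij
  d_deg := by
    rintro (i | i) (j | j) hij
    · have h1 := κ.δ_deg i j hij
      show a + 1 + (κ.p i : ℤ) = a + 1 + (κ.p j : ℤ) + 1
      rw [h1]
      push_cast
      ring
    · have h1 := κ.f_deg i j hij
      show a + 1 + (κ.p i : ℤ) = X.deg j + 1
      rw [h1]
      ring
    · exact absurd rfl hij
    · exact X.d_deg i j hij
  M_deg := by
    rintro (_ | _) (i | i) (j | j) hij
    · exact absurd rfl hij
    · exact absurd rfl hij
    · exact absurd rfl hij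
    · exact X.M_deg false i j hij
    · exact hq.deg i j hij
    · exact hh.deg i j hij
    · have h1 : h j i ≠ 0 := by
        intro h0
        apply hij
        show ε • β.bar (h j i) = 0
        rw [h0, bar_zero, smul_zero]
      have h2 := hh.deg j i h1
      show X.deg i + (a + 1 + (κ.p j : ℤ)) = 0
      rw [add_comm]
      exact h2
    · exact X.M_deg true i j hij
  ee := by
    rw [Matrix.fromBlocks_multiply]
    simp only [Matrix.mul_zero, Matrix.zero_mul, zero_add, add_zero, κ.ee, X.ee]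
  ed := by
    rw [Matrix.fromBlocks_multiply]
    simp only [Matrix.mul_zero, Matrix.zero_mul, zero_add, add_zero, κ.eδ, κ.ef, X.ed]
  de := by
    rw [Matrix.fromBlocks_multiply]
    simp only [Matrix.mul_zero, Matrix.zero_mul, zero_add, add_zero, κ.δe, κ.fe, X.de]
  dd := by
    rw [Matrix.fromBlocks_multiply]
    simp only [Matrix.mul_zero, Matrix.zero_mul, add_zero, κ.δδ, κ.δf, X.dd]
    exact Matrix.fromBlocks_zero
  eM := by
    have h1 : X.e * adj β h = adj β h := by
      have h2 := congrArg (adj β) hh.he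
      rwa [adj_mul, adj_adj] at h2
    show Matrix.fromBlocks κ.e 0 0 X.e * Matrix.fromBlocks q h (ε • adj β h) (X.M true) =
      Matrix.fromBlocks q h (ε • adj β h) (X.M true)
    rw [Matrix.fromBlocks_multiply]
    simp only [Matrix.zero_mul, zero_add, add_zero, Matrix.mul_smul, h1, hq.eq, hh.eh, X.eM,
      smul_zero]
  Me := by
    show Matrix.fromBlocks 0 0 0 (X.M false) * Matrix.fromBlocks κ.e 0 0 X.e =
      Matrix.fromBlocks 0 0 0 (X.M false)
    rw [Matrix.fromBlocks_multiply]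
    simp only [Matrix.mul_zero, Matrix.zero_mul, zero_add, add_zero, X.Me]
  Ma := by
    have h1 : adj β h * adj β κ.e = adj β h := by
      rw [← adj_mul, hh.eh]
    show Matrix.fromBlocks q h (ε • adj β h) (X.M true) *
      adj β (Matrix.fromBlocks κ.e 0 0 X.e) =
      Matrix.fromBlocks q h (ε • adj β h) (X.M true)
    rw [adj_fromBlocks, adj_zero, adj_zero, Matrix.fromBlocks_multiply]
    simp only [Matrix.mul_zero, zero_add, add_zero, Matrix.smul_mul, h1, hq.qe, hh.he, X.Ma]
  aM := by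
    show adj β (Matrix.fromBlocks κ.e 0 0 X.e) * Matrix.fromBlocks 0 0 0 (X.M false) =
      Matrix.fromBlocks 0 0 0 (X.M false)
    rw [adj_fromBlocks, adj_zero, adj_zero, Matrix.fromBlocks_multiply]
    simp only [Matrix.mul_zero, Matrix.zero_mul, zero_add, add_zero, X.aM]
  dM := by
    have h1 : κ.δ * q + κ.f * (ε • adj β h) = q * adj β κ.δ + h * adj β κ.f := by
      have h2 := hq.bd
      rw [Matrix.mul_smul]
      rw [sub_eq_iff_eq_add] at h2
      rw [h2]
      abel
    have h3 : κ.δ * h + κ.f * X.M true = h * adj β X.d := by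
      rw [← hh.eq]
      abel
    have h4 : X.d * (ε • adj β h) = (ε • adj β h) * adj β κ.δ + X.M true * adj β κ.f := by
      have h5 := congrArg (adj β) h3
      rw [adj_add, adj_mul, adj_mul, adj_mul, adj_adj, X.is.sym true] at h5
      rw [Matrix.mul_smul, ← h5, smul_add, Matrix.smul_mul, Matrix.smul_mul, Ext1_eps hε]
    show Matrix.fromBlocks κ.δ κ.f 0 X.d * Matrix.fromBlocks q h (ε • adj β h) (X.M true) =
      Matrix.fromBlocks q h (ε • adj β h) (X.M true) *
      adj β (Matrix.fromBlocks κ.δ κ.f 0 X.d)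
    rw [adj_fromBlocks, adj_zero, Matrix.fromBlocks_multiply, Matrix.fromBlocks_multiply]
    simp only [Matrix.mul_zero, Matrix.zero_mul, zero_add]
    rw [h1, h3, h4, X.dM]
  Md := by
    show adj β (Matrix.fromBlocks κ.δ κ.f 0 X.d) * Matrix.fromBlocks 0 0 0 (X.M false) =
      Matrix.fromBlocks 0 0 0 (X.M false) * Matrix.fromBlocks κ.δ κ.f 0 X.d
    rw [adj_fromBlocks, adj_zero, Matrix.fromBlocks_multiply, Matrix.fromBlocks_multiply]
    simp only [Matrix.mul_zero, Matrix.zero_mul, zero_add, add_zero, X.Md]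

variable (hε : ε = 1 ∨ ε = -1) {X : DGF E β ε} {ω : Ω} {a : ℤ} (κ : KillC X ω a)
  {h : Matrix κ.C X.K (MonoidAlgebra A G)} {q : Matrix κ.C κ.C (MonoidAlgebra A G)}
  (hh : κ.SolH h) (hq : κ.SolQ h q)

/-- the extension does not change the stable class -/
theorem ext_smetab (hs : (ext hε κ hh hq).SMetab) : X.SMetab := by
  have hadj : adj β (Matrix.fromCols 0 1 : Matrix X.K (κ.C ⊕ X.K) (MonoidAlgebra A G)) =
      Matrix.fromRows 0 1 := by
    rw [adj_fromCols, adj_zero, adj_one]
  have h1 : X.M true = (Matrix.fromCols 0 1 : Matrix X.K (κ.C ⊕ X.K) (MonoidAlgebra A G)) *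
      Matrix.fromBlocks q h (ε • adj β h) (X.M true) *
      adj β (Matrix.fromCols 0 1 : Matrix X.K (κ.C ⊕ X.K) (MonoidAlgebra A G)) := by
    rw [hadj, Matrix.fromCols_mul_fromBlocks, Matrix.fromCols_mul_fromRows]
    simp
  have h2 : (Matrix.fromBlocks 0 0 0 (X.M false) :
        Matrix (κ.C ⊕ X.K) (κ.C ⊕ X.K) (MonoidAlgebra A G)) =
      adj β (Matrix.fromCols 0 1 : Matrix X.K (κ.C ⊕ X.K) (MonoidAlgebra A G)) * X.M false *
      (Matrix.fromCols 0 1 : Matrix X.K (κ.C ⊕ X.K) (MonoidAlgebra A G)) := by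
    rw [hadj, Matrix.fromRows_mul, Matrix.fromRows_mul_fromCols]
    simp
  exact BF.smetab_move X.toBF (ext hε κ hh hq).toBF
    (Matrix.fromCols 0 1 : Matrix X.K (κ.C ⊕ X.K) (MonoidAlgebra A G))
    (On0.fromCols On0.zero On0.one) h1 h2 hs

end

end Pool.Agent.Lib.MP_98022b_UM
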