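import Mathlib
import Pool.Agent.Lib.MP_98022b_UM.Ext

/-! Task ExtLev: homology of the extended form. -/

open MonoidAlgebra

namespace Pool.Agent.Lib.MP_98022b_UM

open Pool.Agent.Lib.MP_98022b_UN

universe u v w w'

section
variable {A : Type u} {Ω : Type w} {G : Type v} [CommRing A] [Group G] {E : BSys Ω G}
  {β : BarStr A G} {ε : ℤ} (hε : ε = 1 ∨ ε = -1) {X : DGF E β ε} {ω : Ω} {a : ℤ}
  (κ : KillC X ω a) {h : Matrix κ.C X.K (MonoidAlgebra A G)}
  {q : Matrix κ.C κ.C (MonoidAlgebra A G)} (hh : κ.SolH h) (hq : κ.SolQ h q)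

/-- rows of the extended form, side `true` -/
theorem ExtLev1_cyc_true (i : ℤ) {x : Matrix Unit (κ.C ⊕ X.K) (MonoidAlgebra A G)}
    (hx : (ext hε κ hh hq).Cyc true i x) :
    (∀ j, x.toCols₁ () j ≠ 0 → a + 1 + κ.p j = i) ∧ (∀ k, x.toCols₂ () k ≠ 0 → X.deg k = i) ∧
    x.toCols₁ * κ.e = x.toCols₁ ∧ x.toCols₂ * X.e = x.toCols₂ ∧ x.toCols₁ * κ.δ = 0 ∧
    x.toCols₁ * κ.f + x.toCols₂ * X.d = 0 := by
  obtain ⟨h1, h2, h3⟩ := hx
  have h2' : x * Matrix.fromBlocks κ.e 0 0 X.e = x := h2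
  have h3' : x * Matrix.fromBlocks κ.δ κ.f 0 X.d = 0 := h3
  rw [← Matrix.fromCols_toCols x, Matrix.fromCols_mul_fromBlocks] at h2' h3'
  rw [Matrix.mul_zero, Matrix.mul_zero, zero_add, add_zero] at h2'
  rw [Matrix.mul_zero, add_zero, ← Matrix.fromCols_zero] at h3'
  obtain ⟨e1, e2⟩ := Matrix.fromCols_inj h2'
  obtain ⟨e3, e4⟩ := Matrix.fromCols_inj h3'
  exact ⟨fun j hj => h1 () (Sum.inl j) hj, fun k hk => h1 () (Sum.inr k) hk, e1, e2, e3, e4⟩

/-- rows of the extended form, side `false` -/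
theorem ExtLev1_cyc_false (i : ℤ) {x : Matrix Unit (κ.C ⊕ X.K) (MonoidAlgebra A G)}
    (hx : (ext hε κ hh hq).Cyc false i x) :
    (∀ j, x.toCols₁ () j ≠ 0 → -(a + 1 + κ.p j) = i) ∧
    (∀ k, x.toCols₂ () k ≠ 0 → -X.deg k = i) ∧
    x.toCols₁ * adj β κ.e = x.toCols₁ ∧ x.toCols₂ * adj β X.e = x.toCols₂ ∧
    x.toCols₁ * adj β κ.δ + x.toCols₂ * adj β κ.f = 0 ∧ x.toCols₂ * adj β X.d = 0 := by
  obtain ⟨h1, h2, h3⟩ := hx
  have h2' : x * adj β (Matrix.fromBlocks κ.e 0 0 X.e) = x := h2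
  have h3' : x * adj β (Matrix.fromBlocks κ.δ κ.f 0 X.d) = 0 := h3
  rw [adj_fromBlocks, adj_zero, adj_zero] at h2'
  rw [adj_fromBlocks, adj_zero] at h3'
  rw [← Matrix.fromCols_toCols x, Matrix.fromCols_mul_fromBlocks] at h2' h3'
  rw [Matrix.mul_zero, Matrix.mul_zero, zero_add, add_zero] at h2'
  rw [Matrix.mul_zero, zero_add, ← Matrix.fromCols_zero] at h3'
  obtain ⟨e1, e2⟩ := Matrix.fromCols_inj h2'
  obtain ⟨e3, e4⟩ := Matrix.fromCols_inj h3'
  exact ⟨fun j hj => h1 () (Sum.inl j) hj, fun k hk => h1 () (Sum.inr k) hk, e1, e2, e3, e4⟩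

theorem ExtLev1_bd_true {x : Matrix Unit (κ.C ⊕ X.K) (MonoidAlgebra A G)}
    (u : Matrix Unit κ.C (MonoidAlgebra A G)) (y : Matrix Unit X.K (MonoidAlgebra A G))
    (h1 : x.toCols₁ = u * κ.δ) (h2 : x.toCols₂ = u * κ.f + y * X.d) :
    (ext hε κ hh hq).Bd true x := by
  refine ⟨Matrix.fromCols u y, ?_⟩
  show x = Matrix.fromCols u y * Matrix.fromBlocks κ.δ κ.f 0 X.d
  rw [Matrix.fromCols_mul_fromBlocks, Matrix.mul_zero, add_zero, ← h1, ← h2,
    Matrix.fromCols_toCols]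

theorem ExtLev1_bd_false {x : Matrix Unit (κ.C ⊕ X.K) (MonoidAlgebra A G)}
    (u : Matrix Unit κ.C (MonoidAlgebra A G)) (y : Matrix Unit X.K (MonoidAlgebra A G))
    (h1 : x.toCols₁ = u * adj β κ.δ + y * adj β κ.f) (h2 : x.toCols₂ = y * adj β X.d) :
    (ext hε κ hh hq).Bd false x := by
  refine ⟨Matrix.fromCols u y, ?_⟩
  show x = Matrix.fromCols u y * adj β (Matrix.fromBlocks κ.δ κ.f 0 X.d)
  rw [adj_fromBlocks, adj_zero, Matrix.fromCols_mul_fromBlocks, Matrix.mul_zero, zero_add,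
    ← h1, ← h2, Matrix.fromCols_toCols]

/-- exactness of the dual of the attached complex, for rows -/
theorem colex_row (κ : KillC X ω a) (l : ℕ) (hl : (l : ℤ) < -2 * a)
    {x : Matrix Unit κ.C (MonoidAlgebra A G)}
    (hx : ∀ i, x () i ≠ 0 → κ.p i = l) (he : x * adj β κ.e = x) (hd : x * adj β κ.δ = 0) :
    ∃ z : Matrix Unit κ.C (MonoidAlgebra A G), x = z * adj β κ.δ := by
  have h1 : κ.e * adj β x = adj β x := by
    have := congrArg (adj β) he
    rwa [adj_mul, adj_adj] at this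
  have h2 : κ.δ * adj β x = 0 := by
    have := congrArg (adj β) hd
    rwa [adj_mul, adj_adj, adj_zero] at this
  obtain ⟨z, hz⟩ := κ.colex l (adj β x) hl (fun i hi => hx i fun h0 => hi (by
    show β.bar (x () i) = 0
    rw [h0]
    exact bar_zero β)) h1 h2
  refine ⟨adj β z, ?_⟩
  rw [← adj_mul, ← hz, adj_adj]

/-- restriction of a row to the positions `m` -/
noncomputable def ExtLev1_res (κ : KillC X ω a) (m : ℕ)
    (u : Matrix Unit κ.C (MonoidAlgebra A G)) : Matrix Unit κ.C (MonoidAlgebra A G) :=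
  fun _ i => if κ.p i = m then u () i else 0

theorem ExtLev1_res_δ (κ : KillC X ω a) (l : ℕ)
    {u u' : Matrix Unit κ.C (MonoidAlgebra A G)} (hu : ∀ i, u () i ≠ 0 → κ.p i = l)
    (h : u = u' * κ.δ) : ExtLev1_res κ (l + 1) u' * κ.δ = u := by
  funext s j
  have h1 : u s j = (u' * κ.δ) s j := congrFun (congrFun h s) j
  rw [Matrix.mul_apply] at h1 ⊢
  by_cases hj : κ.p j = l
  · rw [h1]
    refine Finset.sum_congr rfl fun i _ => ?_
    unfold ExtLev1_res
    split_ifs with hi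
    · rfl
    · by_cases h0 : κ.δ i j = 0
      · rw [h0, mul_zero, mul_zero]
      · exact absurd ((κ.δ_deg i j h0).trans (by rw [hj])) hi
  · have h2 : u s j = 0 := by
      by_contra h0
      exact hj (hu j h0)
    rw [h2]
    refine Finset.sum_eq_zero fun i _ => ?_
    unfold ExtLev1_res
    split_ifs with hi
    · by_cases h0 : κ.δ i j = 0
      · rw [h0, mul_zero]
      · have := κ.δ_deg i j h0
        exact absurd (by omega) hj
    · rw [zero_mul]

theorem ExtLev1_ne_of_mul {J : Type} [Fintype J] {L : Type}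
    {M : Matrix Unit J (MonoidAlgebra A G)} {N : Matrix J L (MonoidAlgebra A G)} {k : L}
    (h : (M * N) () k ≠ 0) : ∃ j, M () j ≠ 0 ∧ N j k ≠ 0 := by
  rw [Matrix.mul_apply] at h
  obtain ⟨j, _, hj⟩ := Finset.exists_ne_zero_of_sum_ne_zero h
  exact ⟨j, left_ne_zero_of_mul hj, right_ne_zero_of_mul hj⟩

theorem ext_ex_true (hL : X.Lev a) (i : ℤ) (hi : a < i) : (ext hε κ hh hq).Ex true i := by
  intro x hx
  obtain ⟨h1, h2, h3, h4, h5, h6⟩ := ExtLev1_cyc_true hε κ hh hq i hx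
  obtain ⟨l, hl⟩ : ∃ l : ℕ, a + 1 + (l : ℤ) = i := ⟨(i - a - 1).toNat, by omega⟩
  have hu : ∀ j, x.toCols₁ () j ≠ 0 → κ.p j = l := by
    intro j hj
    have := h1 j hj
    omega
  obtain ⟨u', hu'⟩ := κ.rowex l x.toCols₁ hu h3 h5 ⟨-x.toCols₂, by
    rw [Matrix.neg_mul]
    exact eq_neg_of_add_eq_zero_left h6⟩
  set u : Matrix Unit κ.C (MonoidAlgebra A G) := ExtLev1_res κ (l + 1) u' * κ.e with hudef
  have hud : u * κ.δ = x.toCols₁ := by
    rw [hudef, Matrix.mul_assoc, κ.eδ]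
    exact ExtLev1_res_δ κ l hu hu'
  have hup : ∀ j, u () j ≠ 0 → κ.p j = l + 1 := by
    intro j hj
    obtain ⟨j', hj1, hj2⟩ := ExtLev1_ne_of_mul hj
    rw [← κ.e_deg j' j hj2]
    by_contra hne
    exact hj1 (if_neg hne)
  have hfd : κ.f * X.d = -(κ.δ * κ.f) := eq_neg_of_add_eq_zero_right κ.δf
  have hc : X.Cyc true i (x.toCols₂ - u * κ.f) := by
    refine ⟨?_, ?_, ?_⟩
    · intro s k hk
      show X.deg k = i
      by_cases hx2 : x.toCols₂ () k = 0
      · have h0 : (u * κ.f) () k ≠ 0 := by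
          intro h0
          apply hk
          show x.toCols₂ () k - (u * κ.f) () k = 0
          rw [hx2, h0, sub_zero]
        obtain ⟨j, hj1, hj2⟩ := ExtLev1_ne_of_mul h0
        rw [κ.f_deg j k hj2, hup j hj1]
        push_cast
        omega
      · exact h2 k hx2
    · show (x.toCols₂ - u * κ.f) * X.e = x.toCols₂ - u * κ.f
      rw [Matrix.sub_mul, h4, Matrix.mul_assoc, κ.fe]
    · show (x.toCols₂ - u * κ.f) * X.d = 0
      rw [Matrix.sub_mul, Matrix.mul_assoc, hfd, Matrix.mul_neg, sub_neg_eq_add,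
        ← Matrix.mul_assoc, hud, add_comm]
      exact h6
  obtain ⟨y, hy⟩ := hL true i hi _ hc
  refine ExtLev1_bd_true hε κ hh hq u y hud.symm ?_
  have hy' : x.toCols₂ - u * κ.f = y * X.d := hy
  rw [← hy', add_sub_cancel]

/-- a cycle of side `false` whose restriction is a boundary is a boundary (degrees `≥ a`) -/
theorem ext_bd_false (i : ℤ) (hi : a ≤ i) {x : Matrix Unit (κ.C ⊕ X.K) (MonoidAlgebra A G)}
    (hx : (ext hε κ hh hq).Cyc false i x)
    (hb : X.Bd false x.toCols₂) :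
    (ext hε κ hh hq).Bd false x := by
  obtain ⟨h1, h2, h3, h4, h5, h6⟩ := ExtLev1_cyc_false hε κ hh hq i hx
  obtain ⟨y, hy1, hy2, hy3⟩ := hb.norm (i := i) (fun j k hk => h2 k hk)
  have hy1' : x.toCols₂ = y * adj β X.d := hy1
  have hfd : adj β X.d * adj β κ.f = -(adj β κ.f * adj β κ.δ) := by
    have := congrArg (adj β) κ.δf
    rw [adj_add, adj_mul, adj_mul, adj_zero] at this
    exact eq_neg_of_add_eq_zero_right this
  have hfe : adj β κ.f * adj β κ.e = adj β κ.f := by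
    rw [← adj_mul, κ.ef]
  have hwd : (x.toCols₁ - y * adj β κ.f) * adj β κ.δ = 0 := by
    rw [Matrix.sub_mul, Matrix.mul_assoc, ← neg_neg (adj β κ.f * adj β κ.δ), ← hfd,
      Matrix.mul_neg, sub_neg_eq_add, ← Matrix.mul_assoc, ← hy1']
    exact h5
  have hwe : (x.toCols₁ - y * adj β κ.f) * adj β κ.e = x.toCols₁ - y * adj β κ.f := by
    rw [Matrix.sub_mul, h3, Matrix.mul_assoc, hfe]
  have hwp : ∀ j, (x.toCols₁ - y * adj β κ.f) () j ≠ 0 → (κ.p j : ℤ) = -a - 1 - i := by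
    intro j hj
    by_cases hx1 : x.toCols₁ () j = 0
    · have h0 : (y * adj β κ.f) () j ≠ 0 := by
        intro h0
        apply hj
        show x.toCols₁ () j - (y * adj β κ.f) () j = 0
        rw [hx1, h0, sub_zero]
      obtain ⟨k, hk1, hk2⟩ := ExtLev1_ne_of_mul h0
      have h7 : κ.f j k ≠ 0 := by
        intro h0
        apply hk2
        show β.bar (κ.f j k) = 0
        rw [h0]
        exact bar_zero β
      have h8 := κ.f_deg j k h7
      have h9 : -X.deg k = i + 1 := hy3 () k hk1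
      omega
    · have := h1 j hx1
      omega
  obtain ⟨z, hz⟩ : ∃ z : Matrix Unit κ.C (MonoidAlgebra A G),
      x.toCols₁ - y * adj β κ.f = z * adj β κ.δ := by
    by_cases h0 : 0 ≤ -a - 1 - i
    · refine colex_row κ (-a - 1 - i).toNat (by omega) (fun j hj => ?_) hwe hwd
      have := hwp j hj
      omega
    · refine ⟨0, ?_⟩
      rw [Matrix.zero_mul]
      funext s j
      by_contra hne
      have := hwp j hne
      omega
  refine ExtLev1_bd_false hε κ hh hq z y ?_ hy1'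
  rw [← hz, sub_add_cancel]

theorem ext_lev (hL : X.Lev a) : (ext hε κ hh hq).Lev a := by
  intro b i hi
  cases b with
  | true => exact ext_ex_true hε κ hh hq hL i hi
  | false =>
    intro x hx
    obtain ⟨h1, h2, h3, h4, h5, h6⟩ := ExtLev1_cyc_false hε κ hh hq i hx
    refine ext_bd_false hε κ hh hq i hi.le hx (hL false i hi _ ⟨fun s k hk => h2 k hk, h4, h6⟩)

end

end Pool.Agent.Lib.MP_98022b_UM
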