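import Mathlib
import Pool.Agent.Lib.MP_98022b_UM.ExtLev

/-! Task ExtVan: words of the extended form. -/

open MonoidAlgebra

namespace Pool.Agent.Lib.MP_98022b_UM

open Pool.Agent.Lib.MP_98022b_UN

universe u v w w'

section
variable (A : Type u) (G : Type v) [CommRing A] [Group G] {Ω : Type w} {C K : Type} [Fintype C]
  [Fintype K]

private theorem ExtVan2_pr {C K : Type} (s : C → Ω) (t : K → Ω) (ω : Ω) :
    pr A G (Sum.elim s t) ω = Matrix.fromBlocks (pr A G s ω) 0 0 (pr A G t ω) := by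
  classical
  refine Matrix.ext fun i j => ?_
  rcases i with i | i <;> rcases j with j | j
  · rw [pr_apply, Matrix.fromBlocks_apply₁₁, pr_apply]
    simp
  · rw [pr_apply, Matrix.fromBlocks_apply₁₂]
    simp
  · rw [pr_apply, Matrix.fromBlocks_apply₂₁]
    simp
  · rw [pr_apply, Matrix.fromBlocks_apply₂₂, pr_apply]
    simp

private theorem ExtVan2_mul (s : C → Ω) (t : K → Ω) (ω : Ω)
    (z : Matrix Unit C (MonoidAlgebra A G)) (y : Matrix Unit K (MonoidAlgebra A G)) :
    Matrix.fromCols z y * pr A G (Sum.elim s t) ω =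
      Matrix.fromCols (z * pr A G s ω) (y * pr A G t ω) := by
  rw [ExtVan2_pr, Matrix.fromCols_mul_fromBlocks, Matrix.mul_zero, Matrix.mul_zero, add_zero,
    zero_add]

private theorem ExtVan2_col (s : C → Ω) (t : K → Ω) (ω : Ω)
    (x : Matrix Unit (C ⊕ K) (MonoidAlgebra A G)) :
    (x * pr A G (Sum.elim s t) ω).toCols₂ = x.toCols₂ * pr A G t ω := by
  have h : x * pr A G (Sum.elim s t) ω =
      Matrix.fromCols (x.toCols₁ * pr A G s ω) (x.toCols₂ * pr A G t ω) := by
    rw [← ExtVan2_mul, Matrix.fromCols_toCols]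
  rw [h, Matrix.toCols₂_fromCols]

variable {A G} in
private theorem ExtVan2_d (δ : Matrix C C (MonoidAlgebra A G)) (f : Matrix C K (MonoidAlgebra A G))
    (d : Matrix K K (MonoidAlgebra A G))
    (z : Matrix Unit C (MonoidAlgebra A G)) (y : Matrix Unit K (MonoidAlgebra A G)) :
    Matrix.fromCols z y * Matrix.fromBlocks δ f 0 d =
      Matrix.fromCols (z * δ) (z * f + y * d) := by
  rw [Matrix.fromCols_mul_fromBlocks, Matrix.mul_zero, add_zero]

end

section
variable {A : Type u} {Ω : Type w} {G : Type v} [CommRing A] [Group G] {E : BSys Ω G}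
  {β : BarStr A G} {ε : ℤ} (hε : ε = 1 ∨ ε = -1) {X : DGF E β ε} {ω : Ω} {a : ℤ}
  (κ : KillC X ω a) {h : Matrix κ.C X.K (MonoidAlgebra A G)}
  {q : Matrix κ.C κ.C (MonoidAlgebra A G)} (hh : κ.SolH h) (hq : κ.SolQ h q)

private theorem ExtVan1_cols {c C K C' K' : Type} [Fintype C] [Fintype K]
    (x : Matrix c (C ⊕ K) (MonoidAlgebra A G)) (P : Matrix C C' (MonoidAlgebra A G))
    (Q : Matrix C K' (MonoidAlgebra A G)) (R : Matrix K C' (MonoidAlgebra A G))
    (T : Matrix K K' (MonoidAlgebra A G)) :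
    x * Matrix.fromBlocks P Q R T =
      Matrix.fromCols (x.toCols₁ * P + x.toCols₂ * R) (x.toCols₁ * Q + x.toCols₂ * T) := by
  conv_lhs => rw [← Matrix.fromCols_toCols x]
  rw [Matrix.fromCols_mul_fromBlocks]

/-- restriction of a cycle of degree `a` -/
theorem ext_cyc_res {b : Bool} {x : Matrix Unit (κ.C ⊕ X.K) (MonoidAlgebra A G)}
    (hx : (ext hε κ hh hq).Cyc b a x) :
    X.Cyc b a x.toCols₂ ∧ (b = true → x = Matrix.fromCols 0 x.toCols₂) := by
  obtain ⟨h1, h2, h3⟩ := hx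
  have hdeg : ∀ (j : Unit) (k : X.K), x.toCols₂ j k ≠ 0 → X.degS b k = a := by
    intro j k hk
    have h4 := h1 j (Sum.inr k) hk
    cases b
    · exact h4
    · exact h4
  cases b
  · refine ⟨⟨hdeg, ?_, ?_⟩, fun h0 => absurd h0 (by decide)⟩
    · have h4 : x * adj β (Matrix.fromBlocks κ.e 0 0 X.e) = x := h2
      rw [adj_fromBlocks, ExtVan1_cols] at h4
      have h5 := congrArg Matrix.toCols₂ h4
      rw [Matrix.toCols₂_fromCols, adj_zero, Matrix.mul_zero, zero_add] at h5
      exact h5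
    · have h4 : x * adj β (Matrix.fromBlocks κ.δ κ.f 0 X.d) = 0 := h3
      rw [adj_fromBlocks, ExtVan1_cols] at h4
      have h5 := congrArg Matrix.toCols₂ h4
      rw [Matrix.toCols₂_fromCols, adj_zero, Matrix.mul_zero, zero_add] at h5
      exact h5
  · have h0 : x.toCols₁ = 0 := by
      ext1 j i
      by_contra hne
      have h4 : a + 1 + (κ.p i : ℤ) = a := h1 j (Sum.inl i) hne
      omega
    refine ⟨⟨hdeg, ?_, ?_⟩, fun _ => ?_⟩
    · have h4 : x * Matrix.fromBlocks κ.e 0 0 X.e = x := h2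
      rw [ExtVan1_cols] at h4
      have h5 := congrArg Matrix.toCols₂ h4
      rw [Matrix.toCols₂_fromCols, Matrix.mul_zero, zero_add] at h5
      exact h5
    · have h4 : x * Matrix.fromBlocks κ.δ κ.f 0 X.d = 0 := h3
      rw [ExtVan1_cols] at h4
      have h5 := congrArg Matrix.toCols₂ h4
      rw [Matrix.toCols₂_fromCols, h0, Matrix.zero_mul, zero_add] at h5
      exact h5
    · conv_lhs => rw [← Matrix.fromCols_toCols x]
      rw [h0]

private theorem ExtVan1_word {b : Bool} (n : ℕ)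
    {x : Matrix Unit (κ.C ⊕ X.K) (MonoidAlgebra A G)} (hx : (ext hε κ hh hq).Cyc b a x) :
    (par n b = true →
      x * wM (extM κ h q) n b = Matrix.fromCols 0 (x.toCols₂ * wM X.M n b)) ∧
    (x * wM (extM κ h q) n b).toCols₂ = x.toCols₂ * wM X.M n b := by
  induction n with
  | zero =>
    obtain ⟨h1, h2⟩ := ext_cyc_res hε κ hh hq hx
    rw [wM_zero, wM_zero, Matrix.mul_one, Matrix.mul_one]
    exact ⟨fun h0 => h2 h0, rfl⟩
  | succ n ih =>
    obtain ⟨ih1, ih2⟩ := ih
    rw [wM_succ', wM_succ', ← Matrix.mul_assoc, ← Matrix.mul_assoc, par_succ']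
    rcases Bool.eq_false_or_eq_true (par n b) with hb | hb
    · rw [hb, ih1 hb]
      refine ⟨fun h0 => absurd h0 (by decide), ?_⟩
      rw [show extM κ h q true = Matrix.fromBlocks q h (ε • adj β h) (X.M true) from rfl,
        Matrix.fromCols_mul_fromBlocks, Matrix.toCols₂_fromCols, Matrix.zero_mul, zero_add]
    · rw [hb]
      have h4 : x * wM (extM κ h q) n b * extM κ h q false
          = Matrix.fromCols 0 (x.toCols₂ * wM X.M n b * X.M false) := by
        rw [show extM κ h q false = Matrix.fromBlocks 0 0 0 (X.M false) from rfl, ExtVan1_cols,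
          ih2, Matrix.mul_zero, Matrix.mul_zero, Matrix.mul_zero, add_zero, zero_add]
      rw [h4]
      exact ⟨fun _ => rfl, Matrix.toCols₂_fromCols _ _⟩

/-- words ending on side `true` -/
theorem ext_word_true {b : Bool} (n : ℕ) (hn : par n b = true)
    {x : Matrix Unit (κ.C ⊕ X.K) (MonoidAlgebra A G)} (hx : (ext hε κ hh hq).Cyc b a x) :
    x * wM (extM κ h q) n b = Matrix.fromCols 0 (x.toCols₂ * wM X.M n b) := by
  exact (ExtVan1_word hε κ hh hq n hx).1 hn

/-- words ending on side `false` -/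
theorem ext_word_false {b : Bool} (n : ℕ) (hn : par n b = false)
    {x : Matrix Unit (κ.C ⊕ X.K) (MonoidAlgebra A G)} (hx : (ext hε κ hh hq).Cyc b a x) :
    (x * wM (extM κ h q) n b).toCols₂ = x.toCols₂ * wM X.M n b := by
  exact (ExtVan1_word hε κ hh hq n hx).2

theorem ext_van {n : ℕ} {b : Bool} {ω' : Ω} (hv : X.VanAt a n b ω') :
    (ext hε κ hh hq).VanAt a n b ω' := by
  intro x hx
  have hres := ext_cyc_res hε κ hh hq hx
  cases hb : par n b with
  | true =>
    have h1 := ext_word_true hε κ hh hq n hb hx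
    obtain ⟨y, hy⟩ := hv _ hres.1
    rw [hb, DGF.dS_true] at hy
    refine ⟨(Matrix.fromCols 0 y : Matrix Unit (κ.C ⊕ X.K) (MonoidAlgebra A G)), ?_⟩
    have h2 := ExtVan2_mul A G (fun _ : κ.C => ω) X.t ω' 0
      (Matrix.toCols₂ (m := Unit) (n₁ := κ.C) (n₂ := X.K) x * wM X.M n b)
    rw [← h1] at h2
    refine h2.trans ?_
    rw [hy]
    refine Eq.trans ?_ (ExtVan2_d κ.δ κ.f X.d 0 y).symm
    rw [Matrix.zero_mul, Matrix.zero_mul, Matrix.zero_mul, zero_add]
  | false =>
    have h1 := ext_word_false hε κ hh hq n hb hx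
    have h2 := (hx.word n).pr ω'
    rw [hb] at h2
    refine ext_bd_false hε κ hh hq a le_rfl h2 ?_
    obtain ⟨y, hy⟩ := hv _ hres.1
    rw [hb] at hy
    refine ⟨y, ?_⟩
    rw [← hy, ← h1]
    exact ExtVan2_col A G (fun _ : κ.C => ω) X.t ω' _

theorem ext_kill {n : ℕ} {b : Bool} (hn : par n b = true)
    (hs : ∀ x : Matrix Unit X.K (MonoidAlgebra A G), X.Cyc b a x →
      ∃ (u : Matrix Unit κ.C (MonoidAlgebra A G)) (y : Matrix Unit X.K (MonoidAlgebra A G)),
        (∀ i, u () i ≠ 0 → κ.p i = 0) ∧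
        x * wM X.M n b * pr A G X.t ω = u * κ.f + y * X.d) :
    (ext hε κ hh hq).VanAt a n b ω := by
  intro x hx
  have hres := ext_cyc_res hε κ hh hq hx
  have h1 := ext_word_true hε κ hh hq n hn hx
  obtain ⟨u, y, hu, hy⟩ := hs _ hres.1
  rw [hn]
  refine ⟨(Matrix.fromCols u y : Matrix Unit (κ.C ⊕ X.K) (MonoidAlgebra A G)), ?_⟩
  have hud : u * κ.δ = 0 := by
    refine Matrix.ext fun i j => ?_
    rw [Matrix.mul_apply, Matrix.zero_apply]
    refine Finset.sum_eq_zero fun l _ => ?_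
    by_contra hne
    have e1 : u i l ≠ 0 := left_ne_zero_of_mul hne
    have e2 := κ.δ_deg l j (right_ne_zero_of_mul hne)
    have e3 := hu l e1
    omega
  have h2 := ExtVan2_mul A G (fun _ : κ.C => ω) X.t ω 0
    (Matrix.toCols₂ (m := Unit) (n₁ := κ.C) (n₂ := X.K) x * wM X.M n b)
  rw [← h1] at h2
  refine h2.trans ?_
  rw [hy]
  refine Eq.trans ?_ (ExtVan2_d κ.δ κ.f X.d u y).symm
  rw [Matrix.zero_mul, hud]

end

end Pool.Agent.Lib.MP_98022b_UM
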