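import Mathlib
import Pool.Agent.Lib.MP_98022b_UM.DGL

/-! Task SolH: existence of the part `h` of the extended form. -/

open MonoidAlgebra

namespace Pool.Agent.Lib.MP_98022b_UM

open Pool.Agent.Lib.MP_98022b_UN

universe u v w w'

section
variable {A : Type u} {Ω : Type w} {G : Type v} [CommRing A] [Group G] {E : BSys Ω G}
  {β : BarStr A G} {ε : ℤ}

/-- the projector on a set of indices -/
private noncomputable def SolH_D (A : Type u) (G : Type v) [CommRing A] [Group G] {C : Type}
    [DecidableEq C] (P : C → Prop) [DecidablePred P] :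
    Matrix C C (MonoidAlgebra A G) := Matrix.diagonal fun i => if P i then 1 else 0

private theorem SolH_D_mul {C L : Type} [Fintype C] [DecidableEq C] (P : C → Prop)
    [DecidablePred P] (M : Matrix C L (MonoidAlgebra A G)) (i : C) (j : L) :
    (SolH_D A G P * M) i j = if P i then M i j else 0 := by
  rw [SolH_D, Matrix.diagonal_mul]
  split_ifs <;> simp

private theorem SolH_mul_D {C L : Type} [Fintype C] [DecidableEq C] (P : C → Prop)
    [DecidablePred P] (M : Matrix L C (MonoidAlgebra A G)) (i : L) (j : C) :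
    (M * SolH_D A G P) i j = if P j then M i j else 0 := by
  rw [SolH_D, Matrix.mul_diagonal]
  split_ifs <;> simp

/-- normalisation of a boundary, keeping the supports -/
private theorem SolH_norm {X : DGF E β ε} {b : Bool} {c : Type} {s : c → Ω} {b' : Bool} {i : ℤ}
    {x y : Matrix c X.K (MonoidAlgebra A G)} (hy : OnS E b' s X.t y) (hx : x = y * X.dS b)
    (hdeg : ∀ j k, x j k ≠ 0 → X.degS b k = i) :
    ∃ y' : Matrix c X.K (MonoidAlgebra A G), OnS E b' s X.t y' ∧ x = y' * X.dS b ∧
      y' * X.eS b = y' ∧ ∀ j k, y' j k ≠ 0 → X.degS b k = i + 1 := by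
  classical
  have key : ∃ y' : Matrix c X.K (MonoidAlgebra A G),
      y' = y * (SolH_D A G (fun k => X.degS b k = i + 1) : Matrix X.K X.K (MonoidAlgebra A G)) *
        X.eS b := ⟨_, rfl⟩
  obtain ⟨y', hy'⟩ := key
  refine ⟨y', ?_, ?_, ?_, ?_⟩ <;> rw [hy']
  · refine OnS.mul0 ?_ (X.eS_on b)
    intro j k g hg
    rw [SolH_mul_D] at hg
    split_ifs at hg with h
    · exact hy j k g hg
    · exact absurd (by simp) hg
  · rw [Matrix.mul_assoc, X.ed_S]
    have h1 : (SolH_D A G (fun k => X.degS b k = i + 1) : Matrix X.K X.K (MonoidAlgebra A G)) *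
        X.dS b = X.dS b * SolH_D A G (fun k => X.degS b k = i) := by
      ext1 j k
      rw [SolH_D_mul, SolH_mul_D]
      by_cases h0 : X.dS b j k = 0
      · simp [h0]
      · have h2 := X.dS_deg b j k h0
        by_cases h3 : X.degS b k = i
        · rw [if_pos h3, if_pos (by rw [h2, h3])]
        · rw [if_neg h3, if_neg (by omega)]
    rw [Matrix.mul_assoc, h1, ← Matrix.mul_assoc, ← hx]
    ext1 j k
    rw [SolH_mul_D]
    by_cases h0 : x j k = 0
    · simp [h0]
    · rw [if_pos (hdeg j k h0)]
  · rw [Matrix.mul_assoc, X.ee_S]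
  · intro j k h
    rw [Matrix.mul_apply] at h
    obtain ⟨l, -, hl⟩ := Finset.exists_ne_zero_of_sum_ne_zero h
    have h1 : X.eS b l k ≠ 0 := fun h0 => hl (by rw [h0, mul_zero])
    have h2 : (y * (SolH_D A G (fun k => X.degS b k = i + 1) :
        Matrix X.K X.K (MonoidAlgebra A G))) j l ≠ 0 := fun h0 => hl (by rw [h0, zero_mul])
    rw [SolH_mul_D] at h2
    split_ifs at h2 with h3
    · rw [← X.eS_deg b l k h1, h3]
    · exact absurd rfl h2

/-- solutions in the positions below `m` -/
private theorem SolH_step {X : DGF E β ε} {ω : Ω} {a : ℤ} (hL : X.Lev a) (κ : KillC X ω a)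
    (hk : ∃ Y : Matrix κ.C X.K (MonoidAlgebra A G), ∀ i, κ.p i = 0 →
      ∀ k, (κ.f * X.M true) i k = (Y * adj β X.d) i k) (m : ℕ) :
    ∃ h : Matrix κ.C X.K (MonoidAlgebra A G), OnS E true (fun _ => ω) X.t h ∧
      (∀ i k, h i k ≠ 0 → a + 1 + κ.p i + X.deg k = 0) ∧ κ.e * h = h ∧ h * adj β X.e = h ∧
      (∀ i k, h i k ≠ 0 → κ.p i < m) ∧
      ∀ i, κ.p i < m → ∀ k, (h * adj β X.d - κ.δ * h) i k = (κ.f * X.M true) i k := by
  classical
  induction m with
  | zero =>
    refine ⟨0, OnS.zero, fun i k h => absurd rfl h, by simp, by simp, fun i k h => absurd rfl h,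
      fun i h => absurd h (Nat.not_lt_zero _)⟩
  | succ m ih =>
    obtain ⟨h, h1, h2, h3, h4, h5, h6⟩ := ih
    have hδ : On0 E (fun _ => ω) (fun _ => ω) κ.δ := OnF.on0 κ.δ_on
    have he : On0 E (fun _ => ω) (fun _ => ω) κ.e := OnF.on0 κ.e_on
    set g : Matrix κ.C X.K (MonoidAlgebra A G) := κ.f * X.M true + κ.δ * h with hg
    have g_on : OnS E true (fun _ => ω) X.t g := (κ.f_on.mulS (X.is.on true)).add (hδ.mulS h1)
    have g_deg : ∀ i k, g i k ≠ 0 → a + κ.p i + X.deg k = 0 := by
      intro i k hik
      by_cases h0 : (κ.f * X.M true) i k = 0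
      · have h7 : (κ.δ * h) i k ≠ 0 := fun h8 => hik (by
          rw [hg, Matrix.add_apply, h0, h8, add_zero])
        rw [Matrix.mul_apply] at h7
        obtain ⟨l, -, hl⟩ := Finset.exists_ne_zero_of_sum_ne_zero h7
        have h8 := κ.δ_deg i l (fun h0 => hl (by rw [h0, zero_mul]))
        have h9 := h2 l k (fun h0 => hl (by rw [h0, mul_zero]))
        rw [h8]
        push_cast
        linarith
      · rw [Matrix.mul_apply] at h0
        obtain ⟨l, -, hl⟩ := Finset.exists_ne_zero_of_sum_ne_zero h0
        have h8 := κ.f_deg i l (fun h0 => hl (by rw [h0, zero_mul]))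
        have h9 := X.M_deg true l k (fun h0 => hl (by rw [h0, mul_zero]))
        rw [← h8]
        exact h9
    have eg : κ.e * g = g := by
      rw [hg, Matrix.mul_add, ← Matrix.mul_assoc, ← Matrix.mul_assoc, κ.ef, κ.eδ]
    have ge : g * adj β X.e = g := by
      rw [hg, Matrix.add_mul, Matrix.mul_assoc, Matrix.mul_assoc, X.Ma, h4]
    have eD : κ.e * SolH_D A G (fun i => κ.p i = m) = SolH_D A G (fun i => κ.p i = m) * κ.e := by
      ext1 i j
      rw [SolH_D_mul, SolH_mul_D]
      by_cases h0 : κ.e i j = 0
      · simp [h0]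
      · rw [κ.e_deg i j h0]
    set x : Matrix κ.C X.K (MonoidAlgebra A G) := SolH_D A G (fun i => κ.p i = m) * g with hx
    have x_on : OnS E true (fun _ => ω) X.t x := by
      intro i k t ht
      rw [hx, SolH_D_mul] at ht
      split_ifs at ht with h7
      · exact g_on i k t ht
      · exact absurd (by simp) ht
    have x_deg : ∀ i k, x i k ≠ 0 → X.degS false k = a + m := by
      intro i k hik
      rw [hx, SolH_D_mul] at hik
      split_ifs at hik with h7
      · have h8 := g_deg i k hik
        rw [h7] at h8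
        change -X.deg k = a + m
        linarith
      · exact absurd rfl hik
    have x_bd : X.Bd false x := by
      by_cases hm : m = 0
      · obtain ⟨Y, hY⟩ := hk
        refine ⟨SolH_D A G (fun i => κ.p i = m) * Y, ?_⟩
        have h7 : h = 0 := by
          ext1 i k
          by_contra h8
          have := h5 i k h8
          omega
        ext1 i k
        rw [Matrix.mul_assoc, hx, SolH_D_mul, SolH_D_mul]
        split_ifs with h8
        · rw [hg, h7, Matrix.mul_zero, add_zero]
          exact hY i (by rw [h8, hm]) k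
        · rfl
      · refine DGF.Ex.mat (hL false (a + m) (by omega)) ⟨x_deg, ?_, ?_⟩
        · rw [hx, Matrix.mul_assoc]
          change SolH_D A G (fun i => κ.p i = m) * (g * adj β X.e) = _
          rw [ge]
        · change x * adj β X.d = 0
          rw [hx, Matrix.mul_assoc]
          ext1 i k
          rw [SolH_D_mul]
          split_ifs with h7
          · have h8 : (κ.δ * (h * adj β X.d)) i k = (κ.δ * (κ.f * X.M true + κ.δ * h)) i k := by
              rw [Matrix.mul_apply, Matrix.mul_apply]
              refine Finset.sum_congr rfl fun j _ => ?_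
              by_cases h0 : κ.δ i j = 0
              · rw [h0, zero_mul, zero_mul]
              · have h9 := κ.δ_deg i j h0
                have h10 := h6 j (by omega) k
                rw [Matrix.sub_apply, sub_eq_iff_eq_add] at h10
                rw [h10, Matrix.add_apply]
            have h9 : κ.f * X.M true * adj β X.d = -(κ.δ * κ.f) * X.M true := by
              rw [Matrix.mul_assoc, ← X.dM, ← Matrix.mul_assoc]
              rw [eq_neg_of_add_eq_zero_right κ.δf]
            have h10 : κ.δ * (κ.f * X.M true + κ.δ * h) = κ.δ * κ.f * X.M true := by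
              rw [Matrix.mul_add, ← Matrix.mul_assoc, ← Matrix.mul_assoc, κ.δδ, Matrix.zero_mul,
                add_zero]
            rw [hg, Matrix.add_mul, Matrix.mul_assoc κ.δ, Matrix.add_apply, h8, h9, h10,
              Matrix.neg_mul, Matrix.neg_apply, neg_add_cancel]
            rfl
          · rfl
    obtain ⟨y0, hy0⟩ := x_bd
    obtain ⟨y1, y1_on, hy1⟩ := OnS.exists_left (X.dS_on false) x_on hy0
    obtain ⟨y, y_on, hy, y_e, y_deg⟩ := SolH_norm y1_on hy1 x_deg
    set z : Matrix κ.C X.K (MonoidAlgebra A G) := SolH_D A G (fun i => κ.p i = m) * (κ.e * y) with hz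
    have z_on : OnS E true (fun _ => ω) X.t z := by
      intro i k t ht
      rw [hz, SolH_D_mul] at ht
      split_ifs at ht with h7
      · exact (he.mulS y_on) i k t ht
      · exact absurd (by simp) ht
    have z_p : ∀ i k, z i k ≠ 0 → κ.p i = m := by
      intro i k hik
      rw [hz, SolH_D_mul] at hik
      split_ifs at hik with h7
      · exact h7
      · exact absurd rfl hik
    have z_deg : ∀ i k, z i k ≠ 0 → a + 1 + κ.p i + X.deg k = 0 := by
      intro i k hik
      have h7 := z_p i k hik
      rw [hz, SolH_D_mul, if_pos h7, Matrix.mul_apply] at hik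
      obtain ⟨l, -, hl⟩ := Finset.exists_ne_zero_of_sum_ne_zero hik
      have h8 := y_deg l k (fun h0 => hl (by rw [h0, mul_zero]))
      change -X.deg k = a + m + 1 at h8
      rw [h7]
      linarith
    have ez : κ.e * z = z := by
      rw [hz, ← Matrix.mul_assoc, eD, Matrix.mul_assoc, ← Matrix.mul_assoc κ.e, κ.ee]
    have ze : z * adj β X.e = z := by
      have h7 : y * adj β X.e = y := y_e
      rw [hz, Matrix.mul_assoc, Matrix.mul_assoc, h7]
    have zd : z * adj β X.d = x := by
      have h7 : x = y * adj β X.d := hy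
      rw [hz, Matrix.mul_assoc, Matrix.mul_assoc, ← h7]
      conv_lhs => rw [hx, ← Matrix.mul_assoc κ.e, eD, Matrix.mul_assoc _ κ.e, eg]
      rw [← hx]
      ext1 i k
      rw [SolH_D_mul]
      split_ifs with h8
      · rfl
      · rw [hx, SolH_D_mul, if_neg h8]
    refine ⟨h + z, h1.add z_on, ?_, ?_, ?_, ?_, ?_⟩
    · intro i k hik
      by_cases h0 : h i k = 0
      · exact z_deg i k (fun h7 => hik (by rw [Matrix.add_apply, h0, h7, add_zero]))
      · exact h2 i k h0
    · rw [Matrix.mul_add, h3, ez]
    · rw [Matrix.add_mul, h4, ze]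
    · intro i k hik
      by_cases h0 : h i k = 0
      · have := z_p i k (fun h7 => hik (by rw [Matrix.add_apply, h0, h7, add_zero]))
        omega
      · have := h5 i k h0
        omega
    · intro i hi k
      have h7 : (κ.δ * z) i k = 0 := by
        rw [Matrix.mul_apply]
        refine Finset.sum_eq_zero fun j _ => ?_
        by_cases h0 : κ.δ i j = 0
        · rw [h0, zero_mul]
        · by_cases h8 : z j k = 0
          · rw [h8, mul_zero]
          · have h9 := z_p j k h8
            have h10 := κ.δ_deg i j h0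
            omega
      rw [Matrix.add_mul, Matrix.mul_add, zd, Matrix.sub_apply, Matrix.add_apply,
        Matrix.add_apply, h7, add_zero]
      by_cases h8 : κ.p i = m
      · have h9 : (h * adj β X.d) i k = 0 := by
          rw [Matrix.mul_apply]
          refine Finset.sum_eq_zero fun j _ => ?_
          by_cases h10 : h i j = 0
          · rw [h10, zero_mul]
          · have := h5 i j h10
            omega
        rw [h9, hx, SolH_D_mul, if_pos h8, hg, Matrix.add_apply, zero_add, add_sub_cancel_right]
      · have h9 := h6 i (by omega) k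
        rw [Matrix.sub_apply] at h9
        rw [hx, SolH_D_mul, if_neg h8, add_zero]
        exact h9

theorem exists_h {X : DGF E β ε} {ω : Ω} {a : ℤ} (hL : X.Lev a) (κ : KillC X ω a)
    (hk : ∃ Y : Matrix κ.C X.K (MonoidAlgebra A G), ∀ i, κ.p i = 0 →
      ∀ k, (κ.f * X.M true) i k = (Y * adj β X.d) i k) :
    ∃ h : Matrix κ.C X.K (MonoidAlgebra A G), κ.SolH h := by
  obtain ⟨h, h1, h2, h3, h4, -, h6⟩ := SolH_step hL κ hk (Finset.univ.sup κ.p + 1)
  refine ⟨h, h1, h2, h3, h4, ?_⟩
  ext1 i k
  exact h6 i (Nat.lt_succ_of_le (Finset.le_sup (Finset.mem_univ i))) k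

end

end Pool.Agent.Lib.MP_98022b_UM
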