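import Mathlib
import Pool.Agent.Lib.MP_98022b_UM.OnL
import Pool.Agent.Lib.MP_98022b_UN.E4

/-! Task Half: halves of hermitian typed matrices. -/

open MonoidAlgebra

namespace Pool.Agent.Lib.MP_98022b_UM

open Pool.Agent.Lib.MP_98022b_UN

universe u v w w'

theorem exists_half_typed {A : Type u} {Ω : Type w} {G : Type v} [CommRing A] [Group G]
    {E : BSys Ω G} {β : BarStr A G} {ε : ℤ} (hE : E.NoInv) (hε : ε = 1 ∨ ε = -1) {b : Bool}
    {K : Type} [Fintype K] [DecidableEq K] {t : K → Ω} {z : Matrix K K (MonoidAlgebra A G)}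
    (hz : OnS E b t t z) (h : adj β z = ε • z) :
    ∃ x : Matrix K K (MonoidAlgebra A G), OnS E b t t x ∧ (∀ i j, z i j = 0 → x i j = 0) ∧
      z = x + ε • adj β x := by
  classical
  have key : ∀ i : K, ∃ y : MonoidAlgebra A G, (∀ g, y.coeff g ≠ 0 → g ∈ E.S b (t i) (t i)) ∧
      (z i i = 0 → y = 0) ∧ z i i = y + ε • β.bar y := by
    intro i
    by_cases h0 : z i i = 0
    · refine ⟨0, fun g hg => absurd rfl hg, fun _ => rfl, ?_⟩
      rw [h0, bar_zero, smul_zero, add_zero]
    · have hz' : Supp (E.S b (t i) (t i)) (fun (_ _ : Unit) => z i i) := fun _ _ g hg => hz i i g hg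
      have h' : adj β (fun (_ _ : Unit) => z i i) = ε • (fun (_ _ : Unit) => z i i) := by
        funext u v
        exact congrFun (congrFun h i) i
      obtain ⟨x, hx1, hx2⟩ := exists_half hε
        (fun g hg => ⟨E.inv' hg, hE b (t i) g hg⟩) hz' h'
      exact ⟨x () (), fun g hg => hx1 () () g hg, fun h => absurd h h0,
        congrFun (congrFun hx2 ()) ()⟩
  choose y hy1 hy2 hy3 using key
  let e := Fintype.equivFin K
  refine ⟨fun i j => if e i < e j then z i j else if i = j then y i else 0, ?_, ?_, ?_⟩
  · intro i j g hg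
    dsimp only at hg
    split_ifs at hg with h1 h2
    · exact hz i j g hg
    · subst h2
      exact hy1 i g hg
    · exact absurd rfl hg
  · intro i j hij
    dsimp only
    split_ifs with h1 h2
    · exact hij
    · subst h2
      exact hy2 i hij
    · rfl
  · have hεε : ε * ε = 1 := by rcases hε with rfl | rfl <;> norm_num
    funext i j
    show z i j = (if e i < e j then z i j else if i = j then y i else 0) +
      ε • β.bar (if e j < e i then z j i else if j = i then y j else 0)
    rcases lt_trichotomy (e i) (e j) with h1 | h1 | h1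
    · have h2 : ¬ e j < e i := lt_asymm h1
      have h3 : j ≠ i := by
        rintro rfl
        exact lt_irrefl _ h1
      rw [if_pos h1, if_neg h2, if_neg h3, bar_zero, smul_zero, add_zero]
    · have h2 : i = j := e.injective h1
      subst h2
      rw [if_neg (lt_irrefl _), if_pos rfl]
      exact hy3 i
    · have h2 : ¬ e i < e j := lt_asymm h1
      have h3 : i ≠ j := by
        rintro rfl
        exact lt_irrefl _ h1
      have h4 : β.bar (z j i) = ε • z i j := congrFun (congrFun h i) j
      rw [if_pos h1, if_neg h2, if_neg h3, zero_add, h4, smul_smul, hεε, one_smul]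

end Pool.Agent.Lib.MP_98022b_UM
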