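import Mathlib
import Pool.Agent.Lib.MP_98022b_UM.DGL
import Pool.Agent.Lib.MP_98022b_UM.Half

/-! Task SymEx: symmetric solutions. -/

open MonoidAlgebra

namespace Pool.Agent.Lib.MP_98022b_UM

open Pool.Agent.Lib.MP_98022b_UN

universe u v w w'

section
variable {A : Type u} {Ω : Type w} {G : Type v} [CommRing A] [Group G] {E : BSys Ω G}
  {β : BarStr A G} {ε : ℤ} {ω : Ω}

/-- normalised matrices of total degree `n` with entries in the letters of side `true` -/
structure TotD (E : BSys Ω G) (β : BarStr A G) (ω : Ω) {C : Type} [Fintype C] (p : C → ℕ)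
    (e : Matrix C C (MonoidAlgebra A G)) (n : ℕ) (q : Matrix C C (MonoidAlgebra A G)) : Prop where
  on : OnS E true (fun _ => ω) (fun _ => ω) q
  deg : ∀ i j, q i j ≠ 0 → p i + p j = n
  eq : e * q = q
  qe : q * adj β e = q

/-- the data of a projective complex whose dual is exact in the positions `< c` -/
structure DualEx (E : BSys Ω G) (ω : Ω) {C : Type} [Fintype C] (p : C → ℕ)
    (e δ : Matrix C C (MonoidAlgebra A G)) (c : ℤ) : Prop where
  e_on : OnF (E.F ω) e
  δ_on : OnF (E.F ω) δ
  e_deg : ∀ i j, e i j ≠ 0 → p i = p j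
  δ_deg : ∀ i j, δ i j ≠ 0 → p i = p j + 1
  ee : e * e = e
  eδ : e * δ = δ
  δe : δ * e = δ
  δδ : δ * δ = 0
  colex : ∀ (l : ℕ) (y : Matrix C Unit (MonoidAlgebra A G)), (l : ℤ) < c →
    (∀ i, y i () ≠ 0 → p i = l) → e * y = y → δ * y = 0 →
    ∃ z : Matrix C Unit (MonoidAlgebra A G), y = δ * z


/-! ### auxiliary lemmas -/

private structure SymEx_T (E : BSys Ω G) (β : BarStr A G) (ω : Ω) {C : Type} [Fintype C]
    (R : C → C → Prop) (e : Matrix C C (MonoidAlgebra A G))
    (q : Matrix C C (MonoidAlgebra A G)) : Prop where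
  on : OnS E true (fun _ => ω) (fun _ => ω) q
  deg : ∀ i j, q i j ≠ 0 → R i j
  eq : e * q = q
  qe : q * adj β e = q

section
variable {C : Type} [Fintype C] {R R' : C → C → Prop} {e q q' : Matrix C C (MonoidAlgebra A G)}

private theorem SymEx_T.zero : SymEx_T E β ω R e 0 :=
  ⟨OnS.zero, fun _ _ h => absurd rfl h, Matrix.mul_zero _, Matrix.zero_mul _⟩

private theorem SymEx_T.add (h : SymEx_T E β ω R e q) (h' : SymEx_T E β ω R e q') :
    SymEx_T E β ω R e (q + q') := by
  refine ⟨h.on.add h'.on, ?_, ?_, ?_⟩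
  · intro i j hij
    by_cases h1 : q i j = 0
    · refine h'.deg i j ?_
      intro h2
      apply hij
      rw [Matrix.add_apply, h1, h2, add_zero]
    · exact h.deg i j h1
  · rw [Matrix.mul_add, h.eq, h'.eq]
  · rw [Matrix.add_mul, h.qe, h'.qe]

private theorem SymEx_T.zsmul (h : SymEx_T E β ω R e q) (k : ℤ) :
    SymEx_T E β ω R e (k • q) := by
  refine ⟨h.on.zsmul k, ?_, ?_, ?_⟩
  · intro i j hij
    refine h.deg i j ?_
    intro h2
    apply hij
    rw [Matrix.smul_apply, h2, smul_zero]
  · rw [Matrix.mul_smul, h.eq]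
  · rw [Matrix.smul_mul, h.qe]

private theorem SymEx_T.neg (h : SymEx_T E β ω R e q) : SymEx_T E β ω R e (-q) := by
  have := h.zsmul (-1)
  rwa [neg_one_smul] at this

private theorem SymEx_T.sub (h : SymEx_T E β ω R e q) (h' : SymEx_T E β ω R e q') :
    SymEx_T E β ω R e (q - q') := by
  rw [sub_eq_add_neg]
  exact h.add h'.neg

private theorem SymEx_T.mono (h : SymEx_T E β ω R e q) (hR : ∀ i j, R i j → R' i j) :
    SymEx_T E β ω R' e q := ⟨h.on, fun i j hij => hR i j (h.deg i j hij), h.eq, h.qe⟩

private theorem SymEx_T.adjT (h : SymEx_T E β ω R e q) (hR : ∀ i j, R i j → R' j i) :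
    SymEx_T E β ω R' e (adj β q) := by
  refine ⟨h.on.adj β, ?_, ?_, ?_⟩
  · intro i j hij
    refine hR j i (h.deg j i ?_)
    intro h2
    apply hij
    show β.bar (q j i) = 0
    rw [h2, bar_zero]
  · have := congrArg (adj β) h.qe
    rwa [adj_mul, adj_adj] at this
  · have := congrArg (adj β) h.eq
    rwa [adj_mul] at this

private theorem SymEx_mul_ne {I J K : Type} [Fintype J] {M : Matrix I J (MonoidAlgebra A G)}
    {N : Matrix J K (MonoidAlgebra A G)} {i : I} {k : K} (h : (M * N) i k ≠ 0) :
    ∃ j, M i j ≠ 0 ∧ N j k ≠ 0 := by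
  by_contra hc
  apply h
  rw [Matrix.mul_apply]
  refine Finset.sum_eq_zero fun j _ => ?_
  by_cases h1 : M i j = 0
  · rw [h1, zero_mul]
  · have h2 : N j k = 0 := by
      by_contra h2
      exact hc ⟨j, h1, h2⟩
    rw [h2, mul_zero]

private theorem SymEx_adj_ne {I J : Type} {M : Matrix I J (MonoidAlgebra A G)} {i : I} {j : J}
    (h : adj β M j i ≠ 0) : M i j ≠ 0 := by
  intro h2
  apply h
  show β.bar (M i j) = 0
  rw [h2, bar_zero]

private theorem SymEx_T.mulL {δ : Matrix C C (MonoidAlgebra A G)} (h : SymEx_T E β ω R e q)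
    (hδ : OnF (E.F ω) δ) (heδ : e * δ = δ)
    (hR : ∀ i k j, δ i k ≠ 0 → R k j → R' i j) : SymEx_T E β ω R' e (δ * q) := by
  refine ⟨On0.mulS (OnF.on0 hδ) h.on, ?_, ?_, ?_⟩
  · intro i j hij
    obtain ⟨k, h1, h2⟩ := SymEx_mul_ne hij
    exact hR i k j h1 (h.deg k j h2)
  · rw [← Matrix.mul_assoc, heδ]
  · rw [Matrix.mul_assoc, h.qe]

private theorem SymEx_T.mulR {δ : Matrix C C (MonoidAlgebra A G)} (h : SymEx_T E β ω R e q)
    (hδ : OnF (E.F ω) δ) (heδ : e * δ = δ)
    (hR : ∀ i k j, R i k → δ j k ≠ 0 → R' i j) : SymEx_T E β ω R' e (q * adj β δ) := by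
  refine ⟨OnS.mul0 h.on ((OnF.on0 hδ).adj β), ?_, ?_, ?_⟩
  · intro i j hij
    obtain ⟨k, h1, h2⟩ := SymEx_mul_ne hij
    exact hR i k j (h.deg i k h1) (SymEx_adj_ne h2)
  · rw [← Matrix.mul_assoc, h.eq]
  · rw [Matrix.mul_assoc, ← adj_mul, heδ]

/-- normalisation -/
private theorem SymEx_T.of {e : Matrix C C (MonoidAlgebra A G)} (he : OnF (E.F ω) e)
    (hee : e * e = e) {y : Matrix C C (MonoidAlgebra A G)}
    (hy : OnS E true (fun _ => ω) (fun _ => ω) y)
    (hR : ∀ i k l j, e i k ≠ 0 → y k l ≠ 0 → e j l ≠ 0 → R i j) :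
    SymEx_T E β ω R e (e * y * adj β e) := by
  refine ⟨OnS.mul0 (On0.mulS (OnF.on0 he) hy) ((OnF.on0 he).adj β), ?_, ?_, ?_⟩
  · intro i j hij
    obtain ⟨l, h1, h2⟩ := SymEx_mul_ne hij
    obtain ⟨k, h3, h4⟩ := SymEx_mul_ne h1
    exact hR i k l j h3 h4 (SymEx_adj_ne h2)
  · rw [Matrix.mul_assoc e y, ← Matrix.mul_assoc e e, hee]
  · rw [Matrix.mul_assoc, ← adj_mul, hee]

end

private def SymEx_col {C : Type} (y : Matrix C C (MonoidAlgebra A G)) (j : C) :
    Matrix C Unit (MonoidAlgebra A G) := Matrix.of fun i _ => y i j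

private theorem SymEx_mul_col {C : Type} [Fintype C] (M y : Matrix C C (MonoidAlgebra A G))
    (j : C) : M * SymEx_col y j = SymEx_col (M * y) j := by
  funext i u
  rw [Matrix.mul_apply]
  show _ = (M * y) i j
  rw [Matrix.mul_apply]
  rfl

private theorem SymEx_sq {s : ℤ} (hs : s = 1 ∨ s = -1) : s * s = 1 := by
  rcases hs with rfl | rfl <;> norm_num

variable {C : Type} [Fintype C] [DecidableEq C] {p : C → ℕ}
  {e δ : Matrix C C (MonoidAlgebra A G)} {c : ℤ}

omit [DecidableEq C] in
private theorem SymEx_core (hD : DualEx E ω p e δ c) (s : ℤ) (hs : s = 1 ∨ s = -1) (n : ℕ)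
    (hn : (n : ℤ) < c) (m : ℕ) :
    ∀ r : Matrix C C (MonoidAlgebra A G), SymEx_T E β ω (fun i j => p i + p j = n) e r →
    (∀ i j, r i j ≠ 0 → p i < m) → δ * r + s • (r * adj β δ) = 0 →
    ∃ q : Matrix C C (MonoidAlgebra A G), SymEx_T E β ω (fun i j => p i + p j + 1 = n) e q ∧
      δ * q - s • (q * adj β δ) = r := by
  classical
  have hss := SymEx_sq hs
  induction m with
  | zero =>
    intro r _ hr _
    refine ⟨0, SymEx_T.zero, ?_⟩
    have : r = 0 := by
      funext i j
      by_contra h
      exact absurd (hr i j h) (Nat.not_lt_zero _)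
    rw [this, Matrix.mul_zero, Matrix.zero_mul, smul_zero, sub_zero]
  | succ m ih =>
    intro r hT hrow h0
    -- the top rows
    set y : Matrix C C (MonoidAlgebra A G) := fun i j => if p i = m then r i j else 0 with hy
    have hδy : δ * y = 0 := by
      funext i j
      rw [Matrix.mul_apply, Matrix.zero_apply]
      by_cases hi : p i = m + 1
      · have h1 : ∑ k, δ i k * y k j = (δ * r) i j := by
          rw [Matrix.mul_apply]
          refine Finset.sum_congr rfl fun k _ => ?_
          by_cases hk : δ i k = 0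
          · rw [hk, zero_mul, zero_mul]
          · have := hD.δ_deg i k hk
            have hk' : p k = m := by omega
            simp only [hy, if_pos hk']
        rw [h1]
        have h2 : δ * r = -(s • (r * adj β δ)) := eq_neg_of_add_eq_zero_left h0
        rw [h2, Matrix.neg_apply, Matrix.smul_apply, Matrix.mul_apply]
        have h3 : ∑ k, r i k * adj β δ k j = 0 := by
          refine Finset.sum_eq_zero fun k _ => ?_
          have : r i k = 0 := by
            by_contra h
            have := hrow i k h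
            omega
          rw [this, zero_mul]
        rw [h3, smul_zero, neg_zero]
      · refine Finset.sum_eq_zero fun k _ => ?_
        by_cases hk : δ i k = 0
        · rw [hk, zero_mul]
        · have := hD.δ_deg i k hk
          have hk' : ¬ p k = m := by omega
          simp only [hy, if_neg hk', mul_zero]
    have hey : e * y = y := by
      funext i j
      rw [Matrix.mul_apply]
      by_cases hi : p i = m
      · have h1 : ∑ k, e i k * y k j = (e * r) i j := by
          rw [Matrix.mul_apply]
          refine Finset.sum_congr rfl fun k _ => ?_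
          by_cases hk : e i k = 0
          · rw [hk, zero_mul, zero_mul]
          · have := hD.e_deg i k hk
            have hk' : p k = m := by omega
            simp only [hy, if_pos hk']
        rw [h1, hT.eq]
        simp only [hy, if_pos hi]
      · simp only [hy, if_neg hi]
        refine Finset.sum_eq_zero fun k _ => ?_
        by_cases hk : e i k = 0
        · rw [hk, zero_mul]
        · have := hD.e_deg i k hk
          have hk' : ¬ p k = m := by omega
          simp only [if_neg hk', mul_zero]
    have hyon : OnS E true (fun _ => ω) (fun _ => ω) y := by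
      intro i j g hg
      by_cases hi : p i = m
      · simp only [hy, if_pos hi] at hg
        exact hT.on i j g hg
      · simp only [hy, if_neg hi] at hg
        exact absurd rfl hg
    have hydeg : ∀ i j, y i j ≠ 0 → p i = m ∧ p j + m = n := by
      intro i j hij
      by_cases hi : p i = m
      · simp only [hy, if_pos hi] at hij
        have := hT.deg i j hij
        exact ⟨hi, by omega⟩
      · simp only [hy, if_neg hi] at hij
        exact absurd rfl hij
    -- solve column by column
    have hcol : ∀ j, ∃ z : Matrix C Unit (MonoidAlgebra A G),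
        SymEx_col y j = δ * z := by
      intro j
      by_cases hj : ∃ i, y i j ≠ 0
      · obtain ⟨i, hi⟩ := hj
        have h1 := hydeg i j hi
        have hmc : (m : ℤ) < c := by
          have : (m : ℤ) ≤ n := by
            have : m ≤ n := by omega
            exact_mod_cast this
          omega
        refine hD.colex m _ hmc ?_ ?_ ?_
        · intro i hi
          exact (hydeg i j hi).1
        · rw [SymEx_mul_col, hey]
        · rw [SymEx_mul_col, hδy]
          rfl
      · refine ⟨0, ?_⟩
        rw [Matrix.mul_zero]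
        funext i u
        by_contra h
        exact hj ⟨i, h⟩
    choose z hz using hcol
    have hyz : y = δ * (Matrix.of fun i j => z j i ()) := by
      funext i j
      have := congrFun (congrFun (hz j) i) ()
      rw [Matrix.mul_apply] at this
      rw [Matrix.mul_apply]
      exact this
    obtain ⟨z1, hz1on, hz1⟩ := OnS.exists_right (OnF.on0 hD.δ_on) hyon hyz
    set z0 : Matrix C C (MonoidAlgebra A G) :=
      fun i j => if p i + 1 = m ∧ p j + m = n then z1 i j else 0 with hz0
    have hz0on : OnS E true (fun _ => ω) (fun _ => ω) z0 := by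
      intro i j g hg
      by_cases hi : p i + 1 = m ∧ p j + m = n
      · simp only [hz0, if_pos hi] at hg
        exact hz1on i j g hg
      · simp only [hz0, if_neg hi] at hg
        exact absurd rfl hg
    have hz0deg : ∀ i j, z0 i j ≠ 0 → p i + 1 = m ∧ p j + m = n := by
      intro i j hij
      by_contra hi
      apply hij
      simp only [hz0, if_neg hi]
    have hδz0 : δ * z0 = y := by
      funext i j
      rw [Matrix.mul_apply]
      by_cases hi : p i = m ∧ p j + m = n
      · have h1 : ∑ k, δ i k * z0 k j = (δ * z1) i j := by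
          rw [Matrix.mul_apply]
          refine Finset.sum_congr rfl fun k _ => ?_
          by_cases hk : δ i k = 0
          · rw [hk, zero_mul, zero_mul]
          · have := hD.δ_deg i k hk
            have hk' : p k + 1 = m ∧ p j + m = n := by omega
            simp only [hz0, if_pos hk']
        rw [h1, ← hz1]
      · have h1 : y i j = 0 := by
          by_contra h
          exact hi (hydeg i j h)
        rw [h1]
        refine Finset.sum_eq_zero fun k _ => ?_
        by_cases hk : δ i k = 0
        · rw [hk, zero_mul]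
        · have := hD.δ_deg i k hk
          have hk' : ¬ (p k + 1 = m ∧ p j + m = n) := by omega
          simp only [hz0, if_neg hk', mul_zero]
    set w : Matrix C C (MonoidAlgebra A G) := e * z0 * adj β e with hw
    have hwT0 : SymEx_T E β ω (fun i j => p i + 1 = m ∧ p j + m = n) e w := by
      refine SymEx_T.of hD.e_on hD.ee hz0on ?_
      intro i k l j h1 h2 h3
      have h4 := hD.e_deg i k h1
      have h5 := hD.e_deg j l h3
      have h6 := hz0deg k l h2
      omega
    have hwT : SymEx_T E β ω (fun i j => p i + p j + 1 = n) e w :=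
      hwT0.mono fun i j h => by omega
    have hye : y * adj β e = y := by
      funext i j
      rw [Matrix.mul_apply]
      by_cases hi : p i = m
      · have h1 : ∑ k, y i k * adj β e k j = (r * adj β e) i j := by
          rw [Matrix.mul_apply]
          refine Finset.sum_congr rfl fun k _ => ?_
          simp only [hy, if_pos hi]
        rw [h1, hT.qe]
        simp only [hy, if_pos hi]
      · simp only [hy, if_neg hi, zero_mul]
        exact Finset.sum_const_zero
    have hδw : δ * w = y := by
      rw [hw, ← Matrix.mul_assoc, ← Matrix.mul_assoc, hD.δe, hδz0, hye]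
    have hδδ : adj β δ * adj β δ = 0 := by
      rw [← adj_mul, hD.δδ, adj_zero]
    have hT' : SymEx_T E β ω (fun i j => p i + p j = n) e
        (r - (δ * w - s • (w * adj β δ))) := by
      refine hT.sub (SymEx_T.sub ?_ (SymEx_T.zsmul ?_ s))
      · refine hwT.mulL hD.δ_on hD.eδ ?_
        intro i k j h1 h2
        have := hD.δ_deg i k h1
        omega
      · refine hwT.mulR hD.δ_on hD.eδ ?_
        intro i k j h1 h2
        have := hD.δ_deg j k h2
        omega
    have hrow' : ∀ i j, (r - (δ * w - s • (w * adj β δ))) i j ≠ 0 → p i < m := by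
      intro i j hij
      by_contra hm
      apply hij
      have h1 : (w * adj β δ) i j = 0 := by
        by_contra h
        obtain ⟨k, h2, h3⟩ := SymEx_mul_ne h
        have := hwT0.deg i k h2
        omega
      rw [Matrix.sub_apply, Matrix.sub_apply, Matrix.smul_apply, h1, smul_zero, sub_zero, hδw]
      by_cases hi : p i = m
      · simp only [hy, if_pos hi, sub_self]
      · simp only [hy, if_neg hi, sub_zero]
        by_contra h
        have := hrow i j h
        omega
    have h0' : δ * (r - (δ * w - s • (w * adj β δ))) +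
        s • ((r - (δ * w - s • (w * adj β δ))) * adj β δ) = 0 := by
      have e1 : δ * (δ * w) = 0 := by rw [← Matrix.mul_assoc, hD.δδ, Matrix.zero_mul]
      have e2 : w * adj β δ * adj β δ = 0 := by rw [Matrix.mul_assoc, hδδ, Matrix.mul_zero]
      have e3 : δ * (w * adj β δ) = δ * w * adj β δ := (Matrix.mul_assoc _ _ _).symm
      simp only [Matrix.mul_sub, Matrix.sub_mul, Matrix.mul_smul, Matrix.smul_mul, e1, e2, e3,
        smul_sub, smul_zero]
      have h00 := h0
      rw [eq_neg_of_add_eq_zero_left h00]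
      abel
    obtain ⟨q, hq, hqe⟩ := ih _ hT' hrow' h0'
    refine ⟨q + w, hq.add hwT, ?_⟩
    rw [Matrix.mul_add, Matrix.add_mul, smul_add]
    have : δ * q + δ * w - (s • (q * adj β δ) + s • (w * adj β δ)) =
      (δ * q - s • (q * adj β δ)) + (δ * w - s • (w * adj β δ)) := by abel
    rw [this, hqe]
    abel

omit [DecidableEq C] in
private theorem SymEx_ofTot {n : ℕ} {q : Matrix C C (MonoidAlgebra A G)}
    (h : SymEx_T E β ω (fun i j => p i + p j + 1 = n) e q) :
    (∀ m, n = m + 1 → TotD E β ω p e m q) ∧ (n = 0 → q = 0) := by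
  constructor
  · intro m hm
    refine ⟨h.on, fun i j hij => ?_, h.eq, h.qe⟩
    have := h.deg i j hij
    omega
  · intro hn
    funext i j
    by_contra hij
    have := h.deg i j hij
    omega

omit [DecidableEq C] in
private theorem SymEx_tot {n : ℕ} {q : Matrix C C (MonoidAlgebra A G)}
    (h : TotD E β ω p e n q) : SymEx_T E β ω (fun i j => p i + p j = n) e q :=
  ⟨h.on, h.deg, h.eq, h.qe⟩

omit [DecidableEq C] in
private theorem SymEx_ns (hD : DualEx E ω p e δ c) (s : ℤ) (hs : s = 1 ∨ s = -1) (n : ℕ)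
    (hn : (n : ℤ) < c) {r : Matrix C C (MonoidAlgebra A G)}
    (hr : SymEx_T E β ω (fun i j => p i + p j = n) e r)
    (h0 : δ * r + s • (r * adj β δ) = 0) :
    ∃ q : Matrix C C (MonoidAlgebra A G), SymEx_T E β ω (fun i j => p i + p j + 1 = n) e q ∧
      δ * q - s • (q * adj β δ) = r := by
  refine SymEx_core hD s hs n hn (n + 1) r hr ?_ h0
  intro i j hij
  have := hr.deg i j hij
  omega

private theorem SymEx_sym (hE : E.NoInv) (hD : DualEx E ω p e δ c) (n : ℕ) :
    (n : ℤ) < c → ∀ (s : ℤ), (s = 1 ∨ s = -1) → ∀ (η : ℤ), (η = 1 ∨ η = -1) →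
    ∀ {r : Matrix C C (MonoidAlgebra A G)},
      SymEx_T E β ω (fun i j => p i + p j = n) e r → adj β r = η • r →
      δ * r + s • (r * adj β δ) = 0 →
    ∃ q : Matrix C C (MonoidAlgebra A G), SymEx_T E β ω (fun i j => p i + p j + 1 = n) e q ∧
      δ * q - s • (q * adj β δ) = r ∧ adj β q = (-s * η) • q := by
  induction n with
  | zero =>
    intro hn s hs η hη r hr hsym h0
    obtain ⟨q, hq, hqe⟩ := SymEx_ns hD s hs 0 hn hr h0
    have hq0 : q = 0 := (SymEx_ofTot hq).2 rfl
    subst hq0
    exact ⟨0, SymEx_T.zero, hqe, by rw [adj_zero, smul_zero]⟩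
  | succ m ih =>
    intro hn s hs η hη r hr hsym h0
    have hss := SymEx_sq hs
    have hηη := SymEx_sq hη
    obtain ⟨q0, hq0, hq0e⟩ := SymEx_ns hD s hs (m + 1) hn hr h0
    have hδδ : adj β δ * adj β δ = 0 := by
      rw [← adj_mul, hD.δδ, adj_zero]
    set η' : ℤ := -s * η with hη'
    have hη'' : η' = 1 ∨ η' = -1 := by
      rcases hs with rfl | rfl <;> rcases hη with rfl | rfl <;> simp [hη']
    have hη'2 := SymEx_sq hη''
    -- the equation of the adjoint of q0
    have hadj : ∀ (k : ℤ) (x : Matrix C C (MonoidAlgebra A G)),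
        adj β (δ * x - k • (x * adj β δ)) = adj β x * adj β δ - k • (δ * adj β x) := by
      intro k x
      rw [adj_sub, adj_zsmul, adj_mul, adj_mul, adj_adj]
    have h1 : δ * adj β q0 - s • (adj β q0 * adj β δ) = η' • r := by
      have h2 := congrArg (adj β) hq0e
      rw [hadj, hsym] at h2
      have h3 := congrArg (fun x => (-s) • x) h2
      simp only [smul_sub, smul_smul, neg_mul, hss, neg_smul, one_smul] at h3
      have h4 : η' • r = -((s * η) • r) := by rw [hη', neg_mul, neg_smul]
      rw [h4, ← h3]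
      abel
    have hsT : SymEx_T E β ω (fun i j => p i + p j + 1 = m + 1) e (q0 - η' • adj β q0) :=
      hq0.sub ((hq0.adjT (R' := fun i j => p i + p j + 1 = m + 1)
        (fun i j h => by omega)).zsmul η')
    set v := q0 - η' • adj β q0 with hv
    have hvT : SymEx_T E β ω (fun i j => p i + p j = m) e v := hsT.mono fun i j h => by omega
    have hv0 : δ * v + (-s) • (v * adj β δ) = 0 := by
      have : δ * v + (-s) • (v * adj β δ) = (δ * q0 - s • (q0 * adj β δ)) -
          η' • (δ * adj β q0 - s • (adj β q0 * adj β δ)) := by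
        rw [hv]
        simp only [Matrix.mul_sub, Matrix.sub_mul, Matrix.mul_smul, Matrix.smul_mul, smul_sub,
          neg_smul]
        rw [smul_comm s η']
        abel
      rw [this, hq0e, h1, smul_smul, hη'2, one_smul, sub_self]
    have hvs : adj β v = (-η') • v := by
      rw [hv, adj_sub, adj_zsmul, adj_adj, smul_sub, smul_smul, neg_smul, neg_mul, hη'2, neg_smul,
        one_smul]
      abel
    have hms : -s = 1 ∨ -s = -1 := by rcases hs with rfl | rfl <;> simp
    have hmη : -η' = 1 ∨ -η' = -1 := by rcases hη'' with h | h <;> rw [h] <;> simp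
    have hmc : (m : ℤ) < c := by push_cast at hn; omega
    obtain ⟨w, hwT, hwe, hws⟩ := ih hmc (-s) hms (-η') hmη hvT hvs hv0
    have hws' : adj β w = η • w := by
      rw [hws]
      congr 1
      rw [hη']
      have : -(-s) * -(-s * η) = s * s * η := by ring
      rw [this, hss, one_mul]
    obtain ⟨y1, hy1on, hy1z, hy1⟩ := exists_half_typed (β := β) hE hη hwT.on hws'
    have hyT : SymEx_T E β ω (fun i j => p i + p j + 1 = m) e (e * y1 * adj β e) := by
      refine SymEx_T.of hD.e_on hD.ee hy1on ?_
      intro i k l j h1 h2 h3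
      have h4 := hD.e_deg i k h1
      have h5 := hD.e_deg j l h3
      have h6 := hwT.deg k l (fun h => h2 (hy1z k l h))
      omega
    have hwy : w = e * y1 * adj β e + η • adj β (e * y1 * adj β e) := by
      have e1 : w = e * w * adj β e := by rw [hwT.eq, hwT.qe]
      have e2 : e * w * adj β e = e * (y1 + η • adj β y1) * adj β e := by rw [← hy1]
      rw [e1, e2, Matrix.mul_add, Matrix.add_mul, Matrix.mul_smul, Matrix.smul_mul, adj_mul,
        adj_mul, adj_adj, Matrix.mul_assoc e (adj β y1)]
    set y := e * y1 * adj β e with hy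
    set Dy := δ * y + s • (y * adj β δ) with hDy
    have hDyT : SymEx_T E β ω (fun i j => p i + p j + 1 = m + 1) e Dy := by
      refine SymEx_T.add ?_ (SymEx_T.zsmul ?_ s)
      · refine hyT.mulL hD.δ_on hD.eδ ?_
        intro i k j h1 h2
        have := hD.δ_deg i k h1
        omega
      · refine hyT.mulR hD.δ_on hD.eδ ?_
        intro i k j h1 h2
        have := hD.δ_deg j k h2
        omega
    have hDya : adj β Dy = adj β y * adj β δ + s • (δ * adj β y) := by
      rw [hDy, adj_add, adj_zsmul, adj_mul β δ y, adj_mul β y (adj β δ), adj_adj]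
    have hvD : v = Dy - η' • adj β Dy := by
      have h2 : δ * w + s • (w * adj β δ) = v := by
        rw [← hwe, neg_smul, sub_neg_eq_add]
      rw [← h2, hDya, hwy, hDy]
      have h3 : η' • (adj β y * adj β δ + s • (δ * adj β y)) =
          -((s * η) • (adj β y * adj β δ)) - η • (δ * adj β y) := by
        rw [hη', smul_add, smul_smul]
        have : -s * η * s = -η := by
          have : -s * η * s = -(s * s * η) := by ring
          rw [this, hss, one_mul]
        rw [this, neg_mul, neg_smul, neg_smul]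
        abel
      rw [h3]
      simp only [Matrix.mul_add, Matrix.add_mul, Matrix.mul_smul, Matrix.smul_mul, smul_add,
        smul_smul]
      abel
    refine ⟨q0 - Dy, hq0.sub hDyT, ?_, ?_⟩
    · have e1 : δ * Dy - s • (Dy * adj β δ) = 0 := by
        have e2 : δ * (δ * y) = 0 := by rw [← Matrix.mul_assoc, hD.δδ, Matrix.zero_mul]
        have e3 : y * adj β δ * adj β δ = 0 := by rw [Matrix.mul_assoc, hδδ, Matrix.mul_zero]
        have e4 : δ * (y * adj β δ) = δ * y * adj β δ := (Matrix.mul_assoc _ _ _).symm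
        rw [hDy]
        simp only [Matrix.mul_add, Matrix.add_mul, Matrix.mul_smul, Matrix.smul_mul, e2, e3, e4,
          smul_add, smul_zero]
        abel
      have e5 : δ * (q0 - Dy) - s • ((q0 - Dy) * adj β δ) =
          (δ * q0 - s • (q0 * adj β δ)) - (δ * Dy - s • (Dy * adj β δ)) := by
        simp only [Matrix.mul_sub, Matrix.sub_mul, smul_sub]
        abel
      rw [e5, e1, hq0e, sub_zero]
    · have e1 : q0 - Dy = η' • (adj β q0 - adj β Dy) := by
        have : q0 - η' • adj β q0 = Dy - η' • adj β Dy := by rw [← hvD]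
        rw [smul_sub]
        have h2 : q0 - Dy - (η' • adj β q0 - η' • adj β Dy) = 0 := by
          have h3 : q0 - Dy - (η' • adj β q0 - η' • adj β Dy) =
            (q0 - η' • adj β q0) - (Dy - η' • adj β Dy) := by abel
          rw [h3, this, sub_self]
        exact sub_eq_zero.1 h2
      have e2 := congrArg (fun x => η' • x) e1
      simp only [smul_smul, hη'2, one_smul] at e2
      rw [adj_sub, ← e2]


/-- non symmetric solutions; `r = 0` for `n = 0` -/
theorem nsEx (hD : DualEx E ω p e δ c) (s : ℤ) (hs : s = 1 ∨ s = -1) (n : ℕ) (hn : (n : ℤ) < c)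
    {r : Matrix C C (MonoidAlgebra A G)} (hr : TotD E β ω p e n r)
    (h0 : δ * r + s • (r * adj β δ) = 0) :
    ∃ q : Matrix C C (MonoidAlgebra A G), (∀ m, n = m + 1 → TotD E β ω p e m q) ∧
      (n = 0 → q = 0) ∧ δ * q - s • (q * adj β δ) = r := by
  obtain ⟨q, hq, hqe⟩ := SymEx_ns hD s hs n hn (SymEx_tot hr) h0
  exact ⟨q, (SymEx_ofTot hq).1, (SymEx_ofTot hq).2, hqe⟩

/-- symmetric solutions -/
theorem symEx (hE : E.NoInv) (hε : ε = 1 ∨ ε = -1) (hD : DualEx E ω p e δ c) (n : ℕ)
    (hn : (n : ℤ) < c) (s : ℤ) (hs : s = 1 ∨ s = -1) (η : ℤ) (hη : η = 1 ∨ η = -1)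
    {r : Matrix C C (MonoidAlgebra A G)} (hr : TotD E β ω p e n r) (hsym : adj β r = η • r)
    (h0 : δ * r + s • (r * adj β δ) = 0) :
    ∃ q : Matrix C C (MonoidAlgebra A G), (∀ m, n = m + 1 → TotD E β ω p e m q) ∧
      (n = 0 → q = 0) ∧ δ * q - s • (q * adj β δ) = r ∧ adj β q = (-s * η) • q := by
  obtain ⟨q, hq, hqe, hqs⟩ := SymEx_sym hE hD n hn s hs η hη (SymEx_tot hr) hsym h0
  exact ⟨q, (SymEx_ofTot hq).1, (SymEx_ofTot hq).2, hqe, hqs⟩

end

section
variable {A : Type u} {Ω : Type w} {G : Type v} [CommRing A] [Group G] {E : BSys Ω G}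
  {β : BarStr A G} {ε : ℤ}

theorem exists_q (hE : E.NoInv) (hε : ε = 1 ∨ ε = -1) {X : DGF E β ε} {ω : Ω} {a : ℤ}
    (κ : KillC X ω a) {h : Matrix κ.C X.K (MonoidAlgebra A G)} (hh : κ.SolH h) :
    ∃ q : Matrix κ.C κ.C (MonoidAlgebra A G), κ.SolQ h q := by
  have hεε : ε * ε = 1 := by rcases hε with rfl | rfl <;> norm_num
  have hD : DualEx E ω κ.p κ.e κ.δ (-2 * a) :=
    { e_on := κ.e_on
      δ_on := κ.δ_on
      e_deg := κ.e_deg
      δ_deg := κ.δ_deg
      ee := κ.ee
      eδ := κ.eδ
      δe := κ.δe
      δδ := κ.δδ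
      colex := κ.colex }
  have hMs : adj β (X.M true) = ε • X.M true := X.is.sym true
  set r : Matrix κ.C κ.C (MonoidAlgebra A G) :=
    h * adj β κ.f - ε • (κ.f * adj β h) with hr
  have hne : ∀ (i j : κ.C), r i j ≠ 0 → a + κ.p i + (a + κ.p j) + 1 = 0 := by
    intro i j hij
    by_cases h1 : (h * adj β κ.f) i j = 0
    · by_cases h2 : (κ.f * adj β h) i j = 0
      · refine absurd ?_ hij
        rw [hr, Matrix.sub_apply, Matrix.smul_apply, h1, h2, smul_zero, sub_zero]
      · obtain ⟨k, h3, h4⟩ := SymEx_mul_ne h2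
        have h5 := κ.f_deg i k h3
        have h6 := hh.deg j k (SymEx_adj_ne h4)
        omega
    · obtain ⟨k, h3, h4⟩ := SymEx_mul_ne h1
      have h5 := κ.f_deg j k (SymEx_adj_ne h4)
      have h6 := hh.deg i k h3
      omega
  have hrs : adj β r = (-ε) • r := by
    rw [hr, adj_sub, adj_zsmul, adj_mul, adj_mul, adj_adj, adj_adj, smul_sub, smul_smul,
      neg_smul, neg_mul, hεε, neg_smul, one_smul]
    abel
  have hon : OnS E true (fun _ => ω) (fun _ => ω) r := by
    refine OnS.sub ?_ (OnS.zsmul ?_ ε)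
    · exact OnS.mul0 hh.on (κ.f_on.adj β)
    · exact On0.mulS κ.f_on (hh.on.adj β)
  have her : κ.e * r = r := by
    rw [hr, Matrix.mul_sub, Matrix.mul_smul, ← Matrix.mul_assoc, ← Matrix.mul_assoc, hh.eh, κ.ef]
  have hre : r * adj β κ.e = r := by
    rw [hr, Matrix.sub_mul, Matrix.smul_mul, Matrix.mul_assoc, Matrix.mul_assoc, ← adj_mul,
      ← adj_mul, hh.eh, κ.ef]
  have hr0 : κ.δ * r + (1 : ℤ) • (r * adj β κ.δ) = 0 := by
    have e1 : κ.δ * κ.f = -(κ.f * X.d) := eq_neg_of_add_eq_zero_left κ.δf
    have e2 : κ.δ * h = h * adj β X.d - κ.f * X.M true := by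
      rw [← hh.eq]; abel
    have e3 : adj β κ.f * adj β κ.δ = -(adj β X.d * adj β κ.f) := by
      rw [← adj_mul, e1, adj_neg, adj_mul]
    have e4 : adj β h * adj β κ.δ = X.d * adj β h - ε • (X.M true * adj β κ.f) := by
      rw [← adj_mul, e2, adj_sub, adj_mul, adj_mul, adj_adj, hMs, Matrix.smul_mul]
    have e5 : κ.δ * r = h * adj β X.d * adj β κ.f - κ.f * X.M true * adj β κ.f +
        ε • (κ.f * X.d * adj β h) := by
      rw [hr, Matrix.mul_sub, Matrix.mul_smul, ← Matrix.mul_assoc, ← Matrix.mul_assoc, e1, e2,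
        Matrix.sub_mul, Matrix.neg_mul, smul_neg, sub_neg_eq_add]
    have e6 : r * adj β κ.δ = -(h * adj β X.d * adj β κ.f) - ε • (κ.f * X.d * adj β h) +
        κ.f * X.M true * adj β κ.f := by
      rw [hr, Matrix.sub_mul, Matrix.smul_mul, Matrix.mul_assoc h, Matrix.mul_assoc κ.f, e3, e4,
        Matrix.mul_neg, Matrix.mul_sub, Matrix.mul_smul, smul_sub, smul_smul, hεε, one_smul]
      simp only [Matrix.mul_assoc]
      abel
    rw [one_smul, e5, e6]
    abel
  by_cases ha : 0 ≤ a
  · have hr00 : r = 0 := by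
      funext i j
      by_contra hij
      have := hne i j hij
      omega
    refine ⟨0, OnS.zero, fun i j hij => absurd rfl hij, Matrix.mul_zero _, Matrix.zero_mul _,
      ?_, ?_⟩
    · rw [adj_zero, smul_zero]
    · rw [Matrix.mul_zero, Matrix.zero_mul, sub_zero]
      exact hr00.symm
  · have hT : TotD E β ω κ.p κ.e (-2 * a - 1).toNat r := by
      refine ⟨hon, ?_, her, hre⟩
      intro i j hij
      have := hne i j hij
      omega
    have hmη : -ε = 1 ∨ -ε = -1 := by rcases hε with rfl | rfl <;> simp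
    obtain ⟨q, hq, -, hqe, hqs⟩ := symEx hE hε hD (-2 * a - 1).toNat (by omega) 1 (Or.inl rfl)
      (-ε) hmη hT hrs hr0
    have hq' := hq (-2 * a - 2).toNat (by omega)
    refine ⟨q, hq'.on, ?_, hq'.eq, hq'.qe, ?_, ?_⟩
    · intro i j hij
      have := hq'.deg i j hij
      omega
    · rw [hqs]
      congr 1
      ring
    · rw [one_smul] at hqe
      exact hqe

end

end Pool.Agent.Lib.MP_98022b_UM
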