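import Mathlib
import Pool.Agent.Lib.MP_98022b_UM.SolH
import Pool.Agent.Lib.MP_98022b_UM.SymEx
import Pool.Agent.Lib.MP_98022b_UM.ExtVan
import Pool.Agent.Lib.MP_98022b_UM.ContentL
import Pool.Agent.Lib.MP_98022b_UM.Contr

/-! Task Level: killing the homology in one degree; the main theorem on surgery. -/

open MonoidAlgebra

namespace Pool.Agent.Lib.MP_98022b_UM

open Pool.Agent.Lib.MP_98022b_UN

universe u v w w'

section
variable {A : Type u} {Ω : Type w} {G : Type v} [CommRing A] [Group G] {E : BSys Ω G}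
  {β : BarStr A G} {ε : ℤ}

/-- one surgery on side `true` -/
theorem kill_one (hG : E.Geo) (hN : E.NoInv) (hε : ε = 1 ∨ ε = -1) (hcoh : Coh A E) {a : ℤ}
    (hK : KillHyp E β ε a) (X : DGF E β ε) (hL : X.Lev a) (n : ℕ) (b : Bool)
    (hn : par n b = true) (hv : ∀ b' ω', X.VanAt a (n + 1) b' ω') (ω : Ω) :
    ∃ X' : DGF E β ε, (X'.SMetab → X.SMetab) ∧ X'.Lev a ∧
      (∀ n' b' ω', X.VanAt a n' b' ω' → X'.VanAt a n' b' ω') ∧ X'.VanAt a n b ω := by
  obtain ⟨c⟩ := exists_content hcoh X ω a n b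
  obtain ⟨κ, ⟨U, Y, h1⟩, U', Y', hU', h2⟩ := hK X hL ω n b hn c
  obtain ⟨Z, hZ⟩ := c.killed hG hn (fun ω' => hv b ω')
  have hk : ∃ Y : Matrix κ.C X.K (MonoidAlgebra A G), ∀ i, κ.p i = 0 →
      ∀ k, (κ.f * X.M true) i k = (Y * adj β X.d) i k := by
    refine ⟨U * Z + Y * X.M true, fun i hi k => ?_⟩
    have e1 : (κ.f * X.M true) i k = ((U * c.V + Y * X.d) * X.M true) i k := by
      rw [Matrix.mul_apply, Matrix.mul_apply]
      refine Finset.sum_congr rfl fun l _ => ?_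
      rw [h1 i hi l]
    have e2 : (U * c.V + Y * X.d) * X.M true = (U * Z + Y * X.M true) * adj β X.d := by
      rw [Matrix.add_mul, Matrix.add_mul, Matrix.mul_assoc U, hZ, Matrix.mul_assoc Y, X.dM,
        Matrix.mul_assoc U, Matrix.mul_assoc Y, DGF.dS_false]
    rw [e1, e2]
  obtain ⟨h, hh⟩ := exists_h hL κ hk
  obtain ⟨q, hq⟩ := exists_q hN hε κ hh
  refine ⟨ext hε κ hh hq, ext_smetab hε κ hh hq, ext_lev hε κ hh hq hL,
    fun n' b' ω' hv' => ext_van hε κ hh hq hv', ext_kill hε κ hh hq hn fun x hx => ?_⟩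
  obtain ⟨u, hu⟩ := c.span hx
  refine ⟨u * U', u * Y', fun i hi => ?_, ?_⟩
  · rw [Matrix.mul_apply] at hi
    obtain ⟨j, -, hj⟩ := Finset.exists_ne_zero_of_sum_ne_zero hi
    exact hU' j i (right_ne_zero_of_mul hj)
  · rw [hu, h2, Matrix.mul_add, Matrix.mul_assoc, Matrix.mul_assoc]

/-- one surgery on either side -/
theorem kill_one' (hG : E.Geo) (hN : E.NoInv) (hε : ε = 1 ∨ ε = -1) (hcoh : Coh A E) {a : ℤ}
    (hK : KillHyp E β ε a) (hK' : KillHyp E.flip β ε a) (X : DGF E β ε) (hL : X.Lev a) (n : ℕ)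
    (b : Bool) (hv : ∀ b' ω', X.VanAt a (n + 1) b' ω') (ω : Ω) :
    ∃ X' : DGF E β ε, (X'.SMetab → X.SMetab) ∧ X'.Lev a ∧
      (∀ n' b' ω', X.VanAt a n' b' ω' → X'.VanAt a n' b' ω') ∧ X'.VanAt a n b ω := by
  by_cases hb : par n b = true
  · exact kill_one hG hN hε hcoh hK X hL n b hb hv ω
  · have hb' : par n (!b) = true := by
      rw [par_not]
      simpa using hb
    obtain ⟨Y, h1, h2, h3, h4⟩ := kill_one hG.flip hN.flip hε hcoh hK' X.flip
      ((DGF.flip_lev X).2 hL) n (!b) hb' (fun b' ω' => (DGF.flip_vanAt X).2 (hv (!b') ω')) ω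
    obtain ⟨X', g1, g2, g3⟩ := DGF.exists_unflip Y
    refine ⟨X', fun h => DGF.smetab_of_flip X (h1 (g1.1 h)), (g2 a).2 h2, ?_, (g3 a n b ω).2 h4⟩
    intro n' b' ω' h
    refine (g3 a n' b' ω').2 (h3 n' (!b') ω' ?_)
    rw [DGF.flip_vanAt, Bool.not_not]
    exact h

/-- all words of length `n` are killed -/
theorem kill_len (hG : E.Geo) (hN : E.NoInv) (hε : ε = 1 ∨ ε = -1) (hcoh : Coh A E) {a : ℤ}
    (hK : KillHyp E β ε a) (hK' : KillHyp E.flip β ε a) (X : DGF E β ε) (hL : X.Lev a) (n : ℕ)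
    (hv : ∀ b' ω', X.VanAt a (n + 1) b' ω') :
    ∃ X' : DGF E β ε, (X'.SMetab → X.SMetab) ∧ X'.Lev a ∧ ∀ b' ω', X'.VanAt a n b' ω' := by
  classical
  have key : ∀ (B : Finset (Bool × Ω)) (X : DGF E β ε), X.Lev a →
      (∀ b' ω', X.VanAt a (n + 1) b' ω') → (∀ b' ω', (b', ω') ∉ B → X.VanAt a n b' ω') →
      ∃ X' : DGF E β ε, (X'.SMetab → X.SMetab) ∧ X'.Lev a ∧ ∀ b' ω', X'.VanAt a n b' ω' := by
    intro B
    induction B using Finset.induction_on with
    | empty =>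
      intro X hL _ h
      exact ⟨X, fun h => h, hL, fun b' ω' => h b' ω' (Finset.notMem_empty _)⟩
    | insert p B _ ih =>
      intro X hL hv h
      obtain ⟨b, ω⟩ := p
      obtain ⟨X1, h1, h2, h3, h4⟩ := kill_one' hG hN hε hcoh hK hK' X hL n b hv ω
      obtain ⟨X2, g1, g2, g3⟩ := ih X1 h2 (fun b' ω' => h3 _ _ _ (hv b' ω')) (by
        intro b' ω' hn
        by_cases he : (b', ω') = (b, ω)
        · rw [Prod.mk.injEq] at he
          rw [he.1, he.2]
          exact h4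
        · exact h3 _ _ _ (h b' ω' (fun hm => (Finset.mem_insert.1 hm).elim he hn)))
      exact ⟨X2, fun h => h1 (g1 h), g2, g3⟩
  refine key (Finset.univ ×ˢ Finset.univ.image X.t) X hL hv fun b' ω' hn => ?_
  refine DGF.vanAt_of_not_mem fun k hk => hn ?_
  exact Finset.mem_product.2 ⟨Finset.mem_univ _, Finset.mem_image.2 ⟨k, Finset.mem_univ _, hk⟩⟩

/-- one level -/
theorem level_step (hG : E.Geo) (hN : E.NoInv) (hε : ε = 1 ∨ ε = -1) (hcoh : Coh A E) {a : ℤ}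
    (hK : KillHyp E β ε a) (hK' : KillHyp E.flip β ε a) (X : DGF E β ε) (hL : X.Lev a) :
    ∃ X' : DGF E β ε, (X'.SMetab → X.SMetab) ∧ X'.Lev (a - 1) := by
  obtain ⟨n, hn⟩ := X.exists_van a
  induction n generalizing X with
  | zero => exact ⟨X, fun h => h, DGF.lev_of_van hL hn⟩
  | succ n ih =>
    obtain ⟨X₁, h1, h2, h3⟩ := kill_len hG hN hε hcoh hK hK' X hL n hn
    obtain ⟨X₂, h4, h5⟩ := ih X₁ h2 h3
    exact ⟨X₂, fun h => h1 (h4 h), h5⟩

/-- the form with differential `0` -/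
noncomputable def Level3_start (X : BF E β ε) : DGF E β ε where
  toBF := X
  deg := fun _ => 0
  e := 1
  d := 0
  e_on := On0.one
  d_on := On0.zero
  e_deg := fun _ _ _ => rfl
  d_deg := fun i j h => absurd rfl h
  M_deg := fun _ _ _ _ => rfl
  ee := Matrix.one_mul 1
  ed := Matrix.mul_zero 1
  de := Matrix.zero_mul 1
  dd := Matrix.mul_zero 0
  eM := Matrix.one_mul _
  Me := Matrix.mul_one _
  Ma := by rw [adj_one, Matrix.mul_one]
  aM := by rw [adj_one, Matrix.one_mul]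
  dM := by rw [adj_zero, Matrix.mul_zero, Matrix.zero_mul]
  Md := by rw [adj_zero, Matrix.mul_zero, Matrix.zero_mul]

/-- an ordinary form as a form with differential `0` -/
theorem exists_start (X : BF E β ε) : ∃ X' : DGF E β ε, X'.toBF = X ∧ X'.Lev 0 := by
  refine ⟨Level3_start X, rfl, fun b i hi x hx => ⟨0, ?_⟩⟩
  rw [Matrix.zero_mul]
  funext j k
  by_contra hne
  have h1 := hx.1 j k hne
  have h2 : (Level3_start X).degS b k = 0 := by
    cases b
    · exact neg_zero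
    · rfl
  omega

/-- **surgery** -/
theorem dg_main (hG : E.Geo) (hN : E.NoInv) (hε : ε = 1 ∨ ε = -1) (hcoh : Coh A E) (L : ℕ)
    (hK : ∀ k : ℕ, k < L → KillHyp E β ε (-(k : ℤ)) ∧ KillHyp E.flip β ε (-(k : ℤ)))
    (hEnd : ∀ X : DGF E β ε, X.Lev (-(L : ℤ)) → ∀ i, X.Ex true i) (X : BF E β ε) :
    X.SMetab := by
  have key : ∀ k : ℕ, k ≤ L → ∃ X' : DGF E β ε, (X'.SMetab → X.SMetab) ∧
      X'.Lev (-(k : ℤ)) := by
    intro k
    induction k with
    | zero =>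
      intro _
      obtain ⟨X', h1, h2⟩ := exists_start X
      refine ⟨X', fun h => ?_, by simpa using h2⟩
      rw [← h1]
      exact h
    | succ k ih =>
      intro hk
      obtain ⟨X₁, h1, h2⟩ := ih (by omega)
      obtain ⟨h3, h4⟩ := hK k (by omega)
      obtain ⟨X₂, h5, h6⟩ := level_step hG hN hε hcoh h3 h4 X₁ h2
      refine ⟨X₂, fun h => h1 (h5 h), ?_⟩
      have h7 : -((k + 1 : ℕ) : ℤ) = -(k : ℤ) - 1 := by
        push_cast
        ring
      rw [h7]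
      exact h6
  obtain ⟨X', h1, h2⟩ := key L le_rfl
  exact h1 (X'.toBF.smetab_of_metab (X'.metab_of_acyclic (hEnd X' h2)))

end

end Pool.Agent.Lib.MP_98022b_UM
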