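import Mathlib
import Pool.Agent.Lib.MP_98022b_UM.DGDefs

/-! # Typed ring-theoretic facts: definitions -/

open MonoidAlgebra

namespace Pool.Agent.Lib.MP_98022b_UM

open Pool.Agent.Lib.MP_98022b_UN

universe u v w w'

/-- the typed form of the ring-theoretic facts `RF` -/
structure RFS (A : Type u) {Ω : Type w} {G : Type v} [CommRing A] [Group G] (E : BSys Ω G) :
    Prop where
  c1 : Coh A E
  c2 : ∀ (J K : Type) [Fintype J] [Fintype K] (s : J → Ω) (t : K → Ω)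
    (D : Matrix J K (MonoidAlgebra A G)), On0 E s t D →
    ∃ (a : A) (Q : Matrix J J (MonoidAlgebra A G)), a ≠ 0 ∧ On0 E s s Q ∧ Q * D = 0 ∧
      ∀ y : Matrix Unit J (MonoidAlgebra A G), y * D = 0 → y * Q = a • y
  c3 : ∀ (p : A), Prime p → ∀ (n J K : Type) [Fintype n] [Fintype J] [Fintype K] (r : n → Ω)
    (s : J → Ω) (t : K → Ω) (ζ : Matrix n J (MonoidAlgebra A G))
    (D : Matrix J K (MonoidAlgebra A G)), On0 E r s ζ → On0 E s t D → GenL ζ D →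
    ∃ (s' : A) (M : Matrix n n (MonoidAlgebra A G)), ¬ p ∣ s' ∧ On0 E r r M ∧ M * ζ = s' • ζ ∧
      Fnl ζ M
  c4 : ∀ (n J K L : Type) [Fintype n] [Fintype J] [Fintype K] [Fintype L] (r : n → Ω)
    (s : J → Ω) (t : K → Ω) (q : L → Ω) (ζ : Matrix n J (MonoidAlgebra A G))
    (D : Matrix J K (MonoidAlgebra A G)) (D2 : Matrix K L (MonoidAlgebra A G)),
    On0 E r s ζ → On0 E s t D → On0 E t q D2 → GenL ζ D → GenL D D2 →
    ∃ M : Matrix n n (MonoidAlgebra A G), On0 E r r M ∧ M * ζ = ζ ∧ Fnl ζ M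

/-- a projective resolution of length `≤ 3` of the submodule of the homology in degree `a`
generated by the rows of `V` (with label `ω`), together with a map to the complex -/
structure Res4 {A : Type u} {Ω : Type w} {G : Type v} [CommRing A] [Group G] {E : BSys Ω G}
    {β : BarStr A G} {ε : ℤ} (X : DGF E β ε) (ω : Ω) (a : ℤ) {C₀ : Type} [Fintype C₀]
    [DecidableEq C₀] (V : Matrix C₀ X.K (MonoidAlgebra A G)) where
  c₁ : ℕ
  c₂ : ℕ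
  c₃ : ℕ
  D₁ : Matrix (Fin c₁) C₀ (MonoidAlgebra A G)
  D₂ : Matrix (Fin c₂) (Fin c₁) (MonoidAlgebra A G)
  D₃ : Matrix (Fin c₃) (Fin c₂) (MonoidAlgebra A G)
  P : Matrix (Fin c₃) (Fin c₃) (MonoidAlgebra A G)
  f₁ : Matrix (Fin c₁) X.K (MonoidAlgebra A G)
  f₂ : Matrix (Fin c₂) X.K (MonoidAlgebra A G)
  f₃ : Matrix (Fin c₃) X.K (MonoidAlgebra A G)
  D₁_on : OnF (E.F ω) D₁
  D₂_on : OnF (E.F ω) D₂
  D₃_on : OnF (E.F ω) D₃
  P_on : OnF (E.F ω) P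
  f₁_on : On0 E (fun _ => ω) X.t f₁
  f₂_on : On0 E (fun _ => ω) X.t f₂
  f₃_on : On0 E (fun _ => ω) X.t f₃
  f₁_deg : ∀ i k, f₁ i k ≠ 0 → X.deg k = a + 1
  f₂_deg : ∀ i k, f₂ i k ≠ 0 → X.deg k = a + 2
  f₃_deg : ∀ i k, f₃ i k ≠ 0 → X.deg k = a + 3
  f₁_e : f₁ * X.e = f₁
  f₂_e : f₂ * X.e = f₂
  f₃_e : f₃ * X.e = f₃
  PP : P * P = P
  PD : P * D₃ = D₃
  Pf : P * f₃ = f₃
  r₁ : D₁ * V + f₁ * X.d = 0
  r₂ : D₂ * D₁ = 0
  s₂ : D₂ * f₁ + f₂ * X.d = 0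
  r₃ : D₃ * D₂ = 0
  s₃ : D₃ * f₂ + f₃ * X.d = 0
  g₁ : ∀ u : Matrix Unit C₀ (MonoidAlgebra A G),
    (∃ x : Matrix Unit X.K (MonoidAlgebra A G), u * V = x * X.d) →
    ∃ κ : Matrix Unit (Fin c₁) (MonoidAlgebra A G), u = κ * D₁
  g₂ : ∀ u : Matrix Unit (Fin c₁) (MonoidAlgebra A G), u * D₁ = 0 →
    ∃ κ : Matrix Unit (Fin c₂) (MonoidAlgebra A G), u = κ * D₂
  g₃ : ∀ u : Matrix Unit (Fin c₂) (MonoidAlgebra A G), u * D₂ = 0 →
    ∃ κ : Matrix Unit (Fin c₃) (MonoidAlgebra A G), u = κ * D₃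
  g₄ : ∀ u : Matrix Unit (Fin c₃) (MonoidAlgebra A G), u * P = u → u * D₃ = 0 → u = 0

end Pool.Agent.Lib.MP_98022b_UM
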