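import Mathlib
import Pool.Agent.Lib.MP_98022b_UM.RFSDefs

/-! Task RFS: typed facts from the facts for the object groups. -/

open MonoidAlgebra

namespace Pool.Agent.Lib.MP_98022b_UM

open Pool.Agent.Lib.MP_98022b_UN

universe u v w w'

set_option linter.unusedSectionVars false

section
variable {A : Type u} {Ω : Type w} {G : Type v} [CommRing A] [IsDomain A] [Group G]
  {E : BSys Ω G}

/-! ### gluing along the labels -/

section glue
variable {I J K : Type}

private theorem RFS_on0_sum {s : I → Ω} {t : J → Ω} {ι : Type*} (S : Finset ι)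
    (M : ι → Matrix I J (MonoidAlgebra A G)) (h : ∀ i ∈ S, On0 E s t (M i)) :
    On0 E s t (∑ i ∈ S, M i) := by
  classical
  induction S using Finset.induction_on with
  | empty => rw [Finset.sum_empty]; exact On0.zero
  | insert a S ha ih =>
    rw [Finset.sum_insert ha]
    exact (h a (Finset.mem_insert_self a S)).add
      (ih fun i hi => h i (Finset.mem_insert_of_mem hi))

private theorem RFS_onF_pr [Fintype J] (s : J → Ω) (ω : Ω) :
    OnF (E.F ω) (pr A G s ω : Matrix J J (MonoidAlgebra A G)) :=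
  On0.onF (pr_on0' (E := E) s ω)

private theorem RFS_onF_dpr [Fintype J] {s : I → Ω} {t : J → Ω} [Fintype I]
    {D : Matrix I J (MonoidAlgebra A G)} (hD : On0 E s t D) (ω : Ω) :
    OnF (E.F ω) (pr A G s ω * D) :=
  On0.onF (hD.pr_mul_onF ω)

open Classical in
/-- the glued matrix -/
private noncomputable def RFS_gl [Fintype J] (s : J → Ω) (a : Ω → A)
    (Q : Ω → Matrix J J (MonoidAlgebra A G)) : Matrix J J (MonoidAlgebra A G) :=
  ∑ ω ∈ Finset.univ.image s, (∏ ω' ∈ (Finset.univ.image s).erase ω, a ω') •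
    (pr A G s ω * Q ω * pr A G s ω)

private theorem RFS_gl_on0 [Fintype J] (s : J → Ω) (a : Ω → A)
    (Q : Ω → Matrix J J (MonoidAlgebra A G)) (hQ : ∀ ω, OnF (E.F ω) (Q ω)) :
    On0 E s s (RFS_gl s a Q) := by
  classical
  unfold RFS_gl
  refine RFS_on0_sum _ _ fun ω _ => On0.smul ?_ _
  have h1 : On0 E (fun _ => ω) s (pr A G s ω * Q ω * pr A G s ω) := by
    refine On0.mul (t := fun _ => ω) ?_ (pr_on0' s ω)
    exact OnF.on0 (OnF.mul (RFS_onF_pr s ω) (hQ ω))
  intro i j g hg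
  have h2 := h1 i j g hg
  have h3 : s i = ω := by
    by_contra hne
    apply hg
    have h4 : (pr A G s ω * (Q ω * pr A G s ω)) i j = if s i = ω then
      (Q ω * pr A G s ω) i j else 0 := pr_mul_apply s ω _ i j
    rw [Matrix.mul_assoc, h4, if_neg hne]
    rfl
  exact ⟨h3 ▸ h2.1, h3.trans h2.2⟩

private theorem RFS_mul_gl [Fintype J] (s : J → Ω) (a : Ω → A)
    (Q : Ω → Matrix J J (MonoidAlgebra A G)) [DecidableEq Ω] (y : Matrix I J (MonoidAlgebra A G))
    (h : ∀ ω, y * pr A G s ω * Q ω * pr A G s ω = a ω • (y * pr A G s ω)) :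
    y * RFS_gl s a Q = (∏ ω ∈ Finset.univ.image s, a ω) • y := by
  classical
  have e : ∀ ω ∈ Finset.univ.image s,
      y * ((∏ ω' ∈ (Finset.univ.image s).erase ω, a ω') • (pr A G s ω * Q ω * pr A G s ω)) =
      (∏ ω ∈ Finset.univ.image s, a ω) • (y * pr A G s ω) := by
    intro ω hω
    rw [Matrix.mul_smul, ← Matrix.mul_assoc, ← Matrix.mul_assoc, h ω, smul_smul,
      Finset.prod_erase_mul _ _ hω]
  have e2 : RFS_gl s a Q = ∑ ω ∈ Finset.univ.image s,
      (∏ ω' ∈ (Finset.univ.image s).erase ω, a ω') • (pr A G s ω * Q ω * pr A G s ω) := by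
    unfold RFS_gl
    have hd : (fun a b => Classical.propDecidable (a = b)) = ‹DecidableEq Ω› :=
      Subsingleton.elim _ _
    rw [hd]
  rw [e2, Matrix.mul_sum, Finset.sum_congr rfl e, ← Finset.smul_sum, ← Matrix.mul_sum, sum_pr,
    Matrix.mul_one]

private theorem RFS_gl_mul [Fintype J] (s : J → Ω) (a : Ω → A)
    (Q : Ω → Matrix J J (MonoidAlgebra A G)) [DecidableEq Ω] (y : Matrix J I (MonoidAlgebra A G))
    (h : ∀ ω, pr A G s ω * Q ω * pr A G s ω * y = a ω • (pr A G s ω * y)) :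
    RFS_gl s a Q * y = (∏ ω ∈ Finset.univ.image s, a ω) • y := by
  classical
  have e : ∀ ω ∈ Finset.univ.image s,
      ((∏ ω' ∈ (Finset.univ.image s).erase ω, a ω') • (pr A G s ω * Q ω * pr A G s ω)) * y =
      (∏ ω ∈ Finset.univ.image s, a ω) • (pr A G s ω * y) := by
    intro ω hω
    rw [Matrix.smul_mul, h ω, smul_smul, Finset.prod_erase_mul _ _ hω]
  have e2 : RFS_gl s a Q = ∑ ω ∈ Finset.univ.image s,
      (∏ ω' ∈ (Finset.univ.image s).erase ω, a ω') • (pr A G s ω * Q ω * pr A G s ω) := by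
    unfold RFS_gl
    have hd : (fun a b => Classical.propDecidable (a = b)) = ‹DecidableEq Ω› :=
      Subsingleton.elim _ _
    rw [hd]
  rw [e2, Matrix.sum_mul, Finset.sum_congr rfl e, ← Finset.smul_sum, ← Matrix.sum_mul, sum_pr,
    Matrix.one_mul]

private theorem RFS_gl_mul_zero [Fintype J] (s : J → Ω) (a : Ω → A)
    (Q : Ω → Matrix J J (MonoidAlgebra A G)) (y : Matrix J I (MonoidAlgebra A G))
    (h : ∀ ω, pr A G s ω * Q ω * pr A G s ω * y = 0) :
    RFS_gl s a Q * y = 0 := by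
  classical
  unfold RFS_gl
  rw [Matrix.sum_mul]
  refine Finset.sum_eq_zero fun ω _ => ?_
  rw [Matrix.smul_mul, h ω, smul_zero]

private theorem RFS_mul_gl_zero [Fintype J] (s : J → Ω) (a : Ω → A)
    (Q : Ω → Matrix J J (MonoidAlgebra A G)) (y : Matrix I J (MonoidAlgebra A G))
    (h : ∀ ω, y * pr A G s ω * Q ω = 0) :
    y * RFS_gl s a Q = 0 := by
  classical
  unfold RFS_gl
  rw [Matrix.mul_sum]
  refine Finset.sum_eq_zero fun ω _ => ?_
  rw [Matrix.mul_smul, ← Matrix.mul_assoc, ← Matrix.mul_assoc, h ω, Matrix.zero_mul, smul_zero]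

/-- the decomposition of a row along the labels -/
private theorem RFS_sum_row [Fintype J] (s : J → Ω) [DecidableEq Ω]
    (x : Matrix I J (MonoidAlgebra A G)) :
    x = ∑ ω ∈ Finset.univ.image s, x * pr A G s ω := by
  classical
  rw [← Matrix.mul_sum, sum_pr, Matrix.mul_one]

/-- the part of a row with label `ω` -/
private theorem RFS_part [Fintype J] [Fintype I] {s : J → Ω} {t : K → Ω} [Fintype K]
    {D : Matrix J K (MonoidAlgebra A G)} (hD : On0 E s t D) (ω : Ω)
    (x : Matrix I J (MonoidAlgebra A G)) :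
    x * (pr A G s ω * D) = (x * D) * pr A G t ω := by
  rw [hD.pr_comm ω, Matrix.mul_assoc]

end glue

theorem rfs_c1 (h : ∀ ω, RF A (E.F ω)) : Coh A E := by
  classical
  intro J K _ _ s t D hD
  have h1 : ∀ ω : Ω, ∃ (n : ℕ) (z : Matrix (Fin n) J (MonoidAlgebra A G)), OnF (E.F ω) z ∧
      GenL z (pr A G s ω * D) := fun ω => (h ω).c1 J K _ (RFS_onF_dpr hD ω)
  choose n z hz1 hz2 using h1
  -- the stacked matrix
  let S : Type := Σ j : J, Fin (n (s j))
  let ζ : Matrix S J (MonoidAlgebra A G) := fun i => (z (s i.1) * pr A G s (s i.1)) i.2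
  have hζ_on : On0 E (fun i : S => s i.1) s ζ := by
    rintro ⟨j, i⟩ k g hg
    have h2 : On0 E (fun _ => s j) s (z (s j) * pr A G s (s j)) :=
      On0.mul (OnF.on0 (hz1 (s j))) (pr_on0' s (s j))
    exact h2 i k g hg
  have hζD : ζ * D = 0 := by
    funext i k
    have h2 : (z (s i.1) * pr A G s (s i.1)) * D = 0 := by
      rw [Matrix.mul_assoc]
      exact (hz2 (s i.1)).1
    exact congrFun (congrFun h2 i.2) k
  have hspan : ∀ x : Matrix Unit J (MonoidAlgebra A G), x * D = 0 →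
      ∃ κ : Matrix Unit S (MonoidAlgebra A G), x = κ * ζ := by
    intro x hx
    have h3 : ∀ ω ∈ Finset.univ.image s, ∃ κ : Matrix Unit S (MonoidAlgebra A G),
        x * pr A G s ω = κ * ζ := by
      intro ω hω
      obtain ⟨j, -, rfl⟩ := Finset.mem_image.1 hω
      have h4 : (x * pr A G s (s j)) * (pr A G s (s j) * D) = 0 := by
        rw [Matrix.mul_assoc, ← Matrix.mul_assoc (pr A G s (s j)), pr_mul_self, hD.pr_comm,
          ← Matrix.mul_assoc, hx, Matrix.zero_mul]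
      obtain ⟨κ, hκ⟩ := (hz2 (s j)).2 _ h4
      let κ' : Matrix Unit S (MonoidAlgebra A G) :=
        fun _ i => if e : i.1 = j then κ () (Fin.cast (by rw [e]) i.2) else 0
      refine ⟨κ', ?_⟩
      have h5 : x * pr A G s (s j) = κ * (z (s j) * pr A G s (s j)) := by
        rw [← Matrix.mul_assoc, ← hκ, Matrix.mul_assoc, pr_mul_self]
      rw [h5]
      funext a k
      have h6 : (κ' * ζ) a k = ∑ i : S, κ' a i * ζ i k := Matrix.mul_apply
      rw [h6, Fintype.sum_sigma, Finset.sum_eq_single j, Matrix.mul_apply]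
      · refine Finset.sum_congr rfl fun i _ => ?_
        have h7 : κ' a ⟨j, i⟩ = κ a i := by
          show (if e : j = j then κ () (Fin.cast (by rw [e]) i) else 0) = κ a i
          rw [dif_pos rfl]
          rfl
        rw [h7]
      · intro j' _ hj'
        refine Finset.sum_eq_zero fun i _ => ?_
        have h7 : κ' a ⟨j', i⟩ = 0 := dif_neg hj'
        rw [h7, zero_mul]
      · intro hj
        exact absurd (Finset.mem_univ j) hj
    choose! κ hκ using h3
    refine ⟨∑ ω ∈ Finset.univ.image s, κ ω, ?_⟩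
    rw [Matrix.sum_mul, ← Finset.sum_congr rfl hκ, ← Matrix.mul_sum, sum_pr, Matrix.mul_one]
  let e := Fintype.equivFin S
  refine ⟨Fintype.card S, fun i => s (e.symm i).1, ζ.submatrix e.symm id, ?_, ?_, ?_⟩
  · exact hζ_on.submatrix e.symm id
  · funext i k
    exact congrFun (congrFun hζD (e.symm i)) k
  · intro x hx
    obtain ⟨κ, hκ⟩ := hspan x hx
    refine ⟨κ.submatrix id e.symm, ?_⟩
    rw [hκ, Matrix.submatrix_mul_equiv κ ζ id e.symm id]
    rfl

theorem rfs_c2 (h : ∀ ω, RF A (E.F ω)) (J K : Type) [Fintype J] [Fintype K] (s : J → Ω)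
    (t : K → Ω) (D : Matrix J K (MonoidAlgebra A G)) (hD : On0 E s t D) :
    ∃ (a : A) (Q : Matrix J J (MonoidAlgebra A G)), a ≠ 0 ∧ On0 E s s Q ∧ Q * D = 0 ∧
      ∀ y : Matrix Unit J (MonoidAlgebra A G), y * D = 0 → y * Q = a • y := by
  classical
  have h1 : ∀ ω : Ω, ∃ (a : A) (Q : Matrix J J (MonoidAlgebra A G)), a ≠ 0 ∧ OnF (E.F ω) Q ∧
      Q * (pr A G s ω * D) = 0 ∧ ∀ y : Matrix Unit J (MonoidAlgebra A G),
        y * (pr A G s ω * D) = 0 → y * Q = a • y := fun ω =>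
    (h ω).c2 J K _ (RFS_onF_dpr hD ω)
  choose a Q ha hQ1 hQ2 hQ3 using h1
  refine ⟨∏ ω ∈ Finset.univ.image s, a ω, RFS_gl s a Q, ?_, RFS_gl_on0 s a Q hQ1, ?_, ?_⟩
  · exact Finset.prod_ne_zero_iff.2 fun ω _ => ha ω
  · apply RFS_gl_mul_zero
    intro ω
    rw [Matrix.mul_assoc, Matrix.mul_assoc, hQ2, Matrix.mul_zero]
  · intro y hy
    apply RFS_mul_gl
    intro ω
    rw [hQ3 ω (y * pr A G s ω) (by
      rw [Matrix.mul_assoc, ← Matrix.mul_assoc (pr A G s ω), pr_mul_self, hD.pr_comm,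
        ← Matrix.mul_assoc, hy, Matrix.zero_mul]), Matrix.smul_mul, Matrix.mul_assoc,
      pr_mul_self]

section corner
variable {I J K L n N : Type}

private theorem RFS_onF_rows {F : Subgroup G} {M : Matrix I K (MonoidAlgebra A G)}
    {M' : Matrix J K (MonoidAlgebra A G)} (h : OnF F M) (h' : OnF F M') :
    OnF F (Matrix.fromRows M M') := by
  rintro (i | i) k g hg
  · exact h i k g hg
  · exact h' i k g hg

private theorem RFS_onF_cols {F : Subgroup G} {M : Matrix I J (MonoidAlgebra A G)}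
    {M' : Matrix I K (MonoidAlgebra A G)} (h : OnF F M) (h' : OnF F M') :
    OnF F (Matrix.fromCols M M') := by
  rintro i (k | k) g hg
  · exact h i k g hg
  · exact h' i k g hg

private theorem RFS_onF_blocks {F : Subgroup G} {M1 : Matrix I K (MonoidAlgebra A G)}
    {M2 : Matrix I L (MonoidAlgebra A G)} {M3 : Matrix J K (MonoidAlgebra A G)}
    {M4 : Matrix J L (MonoidAlgebra A G)} (h1 : OnF F M1) (h2 : OnF F M2) (h3 : OnF F M3)
    (h4 : OnF F M4) : OnF F (Matrix.fromBlocks M1 M2 M3 M4) := by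
  rintro (i | i) (k | k) g hg
  · exact h1 i k g hg
  · exact h2 i k g hg
  · exact h3 i k g hg
  · exact h4 i k g hg

/-- the corner of a matrix -/
private theorem RFS_corner [Fintype n] [Fintype N] [Fintype J] (a : A)
    (M : Matrix (n ⊕ N) (n ⊕ N) (MonoidAlgebra A G)) (Z : Matrix n J (MonoidAlgebra A G))
    (Z' : Matrix N J (MonoidAlgebra A G)) (P : Matrix J J (MonoidAlgebra A G)) (h1 : Z * P = Z)
    (h2 : Z' * P = 0) (h3 : M * Matrix.fromRows Z Z' = a • Matrix.fromRows Z Z') :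
    M.toBlocks₁₁ * Z = a • Z := by
  have h4 : M * Matrix.fromRows Z Z' * P = a • (Matrix.fromRows Z Z' * P) := by
    rw [h3, Matrix.smul_mul]
  rw [Matrix.mul_assoc, Matrix.fromRows_mul, h1, h2] at h4
  rw [← Matrix.fromBlocks_toBlocks M, Matrix.fromBlocks_mul_fromRows, Matrix.mul_zero,
    Matrix.mul_zero, add_zero, add_zero] at h4
  have h5 := congrArg Matrix.toRows₁ h4
  rw [Matrix.toRows₁_fromRows] at h5
  exact h5

/-- a functional on the big module gives one on the corner -/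
private theorem RFS_corner_fnl [Fintype n] [Fintype N] {J : Type} [Fintype J]
    (M : Matrix (n ⊕ N) (n ⊕ N) (MonoidAlgebra A G)) (Z : Matrix n J (MonoidAlgebra A G))
    (Z' : Matrix N J (MonoidAlgebra A G)) (h : Fnl (Matrix.fromRows Z Z') M)
    (κ : Matrix Unit n (MonoidAlgebra A G)) (hκ : κ * Z = 0) : κ * M.toBlocks₁₁ = 0 := by
  have h1 : Matrix.fromCols κ (0 : Matrix Unit N (MonoidAlgebra A G)) *
      Matrix.fromRows Z Z' = 0 := by
    rw [Matrix.fromCols_mul_fromRows, hκ, Matrix.zero_mul, add_zero]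
  have h2 := h _ h1
  rw [← Matrix.fromBlocks_toBlocks M, Matrix.fromCols_mul_fromBlocks, Matrix.zero_mul,
    Matrix.zero_mul, add_zero, add_zero] at h2
  have h3 := congrArg Matrix.toCols₁ h2
  rw [Matrix.toCols₁_fromCols] at h3
  exact h3

/-- generators of the left kernel of the part of `D` with label `ω` -/
private theorem RFS_gen [Fintype n] [Fintype J] [Fintype K] [DecidableEq J] {r : n → Ω}
    {s : J → Ω} {t : K → Ω} {ζ : Matrix n J (MonoidAlgebra A G)}
    {D : Matrix J K (MonoidAlgebra A G)} (hζ : On0 E r s ζ) (hD : On0 E s t D)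
    (hg : GenL ζ D) (ω : Ω) :
    GenL (Matrix.fromRows (pr A G r ω * ζ) (1 - pr A G s ω)) (pr A G s ω * D) := by
  constructor
  · rw [Matrix.fromRows_mul]
    have h1 : pr A G r ω * ζ * (pr A G s ω * D) = 0 := by
      rw [hD.pr_comm ω, Matrix.mul_assoc, ← Matrix.mul_assoc ζ, hg.1, Matrix.zero_mul,
        Matrix.mul_zero]
    have h2 : (1 - pr A G s ω) * (pr A G s ω * D) = 0 := by
      rw [← Matrix.mul_assoc, Matrix.sub_mul, Matrix.one_mul, pr_mul_self, sub_self,
        Matrix.zero_mul]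
    rw [h1, h2, Matrix.fromRows_zero]
  · intro x hx
    rw [← Matrix.mul_assoc] at hx
    obtain ⟨κ, hκ⟩ := hg.2 _ hx
    refine ⟨Matrix.fromCols κ x, ?_⟩
    rw [Matrix.fromCols_mul_fromRows, hζ.pr_comm ω, ← Matrix.mul_assoc, ← hκ, Matrix.mul_assoc,
      pr_mul_self, Matrix.mul_sub, Matrix.mul_one]
    abel

private theorem RFS_one_sub_pr [Fintype J] [DecidableEq J] (s : J → Ω) (ω : Ω) :
    OnF (E.F ω) (1 - pr A G s ω : Matrix J J (MonoidAlgebra A G)) :=
  OnF.sub (OnF.one _) (RFS_onF_pr s ω)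

private theorem RFS_pr_compl [Fintype J] [DecidableEq J] (s : J → Ω) (ω : Ω) :
    (1 - pr A G s ω : Matrix J J (MonoidAlgebra A G)) * pr A G s ω = 0 := by
  rw [Matrix.sub_mul, Matrix.one_mul, pr_mul_self, sub_self]

private theorem RFS_pr_compl' [Fintype J] [DecidableEq J] (s : J → Ω) (ω : Ω) :
    pr A G s ω * (1 - pr A G s ω : Matrix J J (MonoidAlgebra A G)) = 0 := by
  rw [Matrix.mul_sub, Matrix.mul_one, pr_mul_self, sub_self]

/-- glue the corners -/
private theorem RFS_final [Fintype n] [Fintype J] [DecidableEq Ω] {r : n → Ω} {s : J → Ω}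
    {ζ : Matrix n J (MonoidAlgebra A G)} (hζ : On0 E r s ζ) (a : Ω → A)
    (Q : Ω → Matrix n n (MonoidAlgebra A G)) (h1 : ∀ ω, OnF (E.F ω) (Q ω))
    (h2 : ∀ ω, Q ω * (pr A G r ω * ζ) = a ω • (pr A G r ω * ζ))
    (h3 : ∀ ω (κ : Matrix Unit n (MonoidAlgebra A G)), κ * (pr A G r ω * ζ) = 0 →
      κ * Q ω = 0) :
    On0 E r r (RFS_gl r a Q) ∧
      RFS_gl r a Q * ζ = (∏ ω ∈ Finset.univ.image r, a ω) • ζ ∧ Fnl ζ (RFS_gl r a Q) := by
  refine ⟨RFS_gl_on0 r a Q h1, ?_, ?_⟩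
  · apply RFS_gl_mul
    intro ω
    rw [Matrix.mul_assoc, Matrix.mul_assoc, h2, Matrix.mul_smul, ← Matrix.mul_assoc,
      pr_mul_self]
  · intro κ hκ
    apply RFS_mul_gl_zero
    intro ω
    apply h3
    rw [Matrix.mul_assoc, ← Matrix.mul_assoc (pr A G r ω), pr_mul_self, hζ.pr_comm ω,
      ← Matrix.mul_assoc, hκ, Matrix.zero_mul]

end corner

theorem rfs_c3 (h : ∀ ω, RF A (E.F ω)) (p : A) (hp : Prime p) (n J K : Type) [Fintype n]
    [Fintype J] [Fintype K] (r : n → Ω) (s : J → Ω) (t : K → Ω)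
    (ζ : Matrix n J (MonoidAlgebra A G)) (D : Matrix J K (MonoidAlgebra A G))
    (hζ : On0 E r s ζ) (hD : On0 E s t D) (hg : GenL ζ D) :
    ∃ (s' : A) (M : Matrix n n (MonoidAlgebra A G)), ¬ p ∣ s' ∧ On0 E r r M ∧ M * ζ = s' • ζ ∧
      Fnl ζ M := by
  classical
  have h1 : ∀ ω : Ω, ∃ (a : A) (M : Matrix (n ⊕ J) (n ⊕ J) (MonoidAlgebra A G)), ¬ p ∣ a ∧
      OnF (E.F ω) M ∧ M * Matrix.fromRows (pr A G r ω * ζ) (1 - pr A G s ω) =
        a • Matrix.fromRows (pr A G r ω * ζ) (1 - pr A G s ω) ∧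
      Fnl (Matrix.fromRows (pr A G r ω * ζ) (1 - pr A G s ω)) M := fun ω =>
    (h ω).c3 p hp (n ⊕ J) J K _ _
      (RFS_onF_rows (RFS_onF_dpr hζ ω) (RFS_one_sub_pr s ω)) (RFS_onF_dpr hD ω)
      (RFS_gen hζ hD hg ω)
  choose a M ha hM1 hM2 hM3 using h1
  have hpr : ∀ ω, pr A G r ω * ζ * pr A G s ω = pr A G r ω * ζ := by
    intro ω
    rw [hζ.pr_comm ω, Matrix.mul_assoc, pr_mul_self]
  obtain ⟨g1, g2, g3⟩ := RFS_final hζ a (fun ω => (M ω).toBlocks₁₁)
    (fun ω i j g hg => hM1 ω (Sum.inl i) (Sum.inl j) g hg)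
    (fun ω => RFS_corner (a ω) (M ω) _ _ (pr A G s ω) (hpr ω) (RFS_pr_compl s ω) (hM2 ω))
    (fun ω κ hκ => RFS_corner_fnl (M ω) _ _ (hM3 ω) κ hκ)
  refine ⟨∏ ω ∈ Finset.univ.image r, a ω, RFS_gl r a fun ω => (M ω).toBlocks₁₁, ?_, g1, g2, g3⟩
  intro hdvd
  obtain ⟨ω, -, hω⟩ := (Prime.dvd_finsetProd_iff hp _).1 hdvd
  exact ha ω hω

theorem rfs_c4 (h : ∀ ω, RF A (E.F ω)) (n J K L : Type) [Fintype n] [Fintype J] [Fintype K]
    [Fintype L] (r : n → Ω) (s : J → Ω) (t : K → Ω) (q : L → Ω)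
    (ζ : Matrix n J (MonoidAlgebra A G)) (D : Matrix J K (MonoidAlgebra A G))
    (D2 : Matrix K L (MonoidAlgebra A G)) (hζ : On0 E r s ζ) (hD : On0 E s t D)
    (hD2 : On0 E t q D2) (hg : GenL ζ D) (hg2 : GenL D D2) :
    ∃ M : Matrix n n (MonoidAlgebra A G), On0 E r r M ∧ M * ζ = ζ ∧ Fnl ζ M := by
  classical
  have hgen : ∀ ω : Ω, GenL
      (Matrix.fromRows (Matrix.fromCols (pr A G r ω * ζ) 0)
        (Matrix.fromBlocks (1 - pr A G s ω) 0 0 (pr A G t ω)) :
        Matrix (n ⊕ (J ⊕ K)) (J ⊕ K) (MonoidAlgebra A G))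
      (Matrix.fromRows (pr A G s ω * D) (1 - pr A G t ω)) := by
    intro ω
    constructor
    · have e1 : pr A G r ω * ζ * (pr A G s ω * D) = 0 := by
        rw [hD.pr_comm ω, Matrix.mul_assoc, ← Matrix.mul_assoc ζ, hg.1, Matrix.zero_mul,
          Matrix.mul_zero]
      have e2 : (1 - pr A G s ω) * (pr A G s ω * D) = 0 := by
        rw [← Matrix.mul_assoc, RFS_pr_compl, Matrix.zero_mul]
      rw [Matrix.fromRows_mul, Matrix.fromCols_mul_fromRows, Matrix.fromBlocks_mul_fromRows,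
        e1, e2, RFS_pr_compl', Matrix.zero_mul, Matrix.zero_mul, Matrix.zero_mul]
      simp only [add_zero, Matrix.fromRows_zero]
    · intro x hx
      have hx' := hx
      rw [← Matrix.fromCols_toCols x, Matrix.fromCols_mul_fromRows] at hx'
      have e1 : x.toCols₁ * (pr A G s ω * D) = 0 := by
        have e2 := congrArg (fun y => y * pr A G t ω) hx'
        simp only [Matrix.add_mul, Matrix.zero_mul] at e2
        rw [Matrix.mul_assoc, Matrix.mul_assoc x.toCols₂, RFS_pr_compl, Matrix.mul_zero,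
          add_zero, hD.pr_comm ω, Matrix.mul_assoc, pr_mul_self] at e2
        rw [hD.pr_comm ω]
        exact e2
      have e2 : x.toCols₂ = x.toCols₂ * pr A G t ω := by
        rw [e1, zero_add, Matrix.mul_sub, Matrix.mul_one] at hx'
        exact sub_eq_zero.1 hx'
      rw [← Matrix.mul_assoc] at e1
      obtain ⟨κ, hκ⟩ := hg.2 _ e1
      refine ⟨Matrix.fromCols κ x, ?_⟩
      have e3 : x * Matrix.fromBlocks (1 - pr A G s ω) 0 0 (pr A G t ω) =
          Matrix.fromCols (x.toCols₁ * (1 - pr A G s ω)) (x.toCols₂ * pr A G t ω) := by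
        conv_lhs => rw [← Matrix.fromCols_toCols x]
        rw [Matrix.fromCols_mul_fromBlocks]
        simp only [Matrix.mul_zero, add_zero, zero_add]
      have e4 : κ * (pr A G r ω * ζ) = x.toCols₁ * pr A G s ω := by
        rw [hζ.pr_comm ω, ← Matrix.mul_assoc, ← hκ, Matrix.mul_assoc, pr_mul_self]
      rw [Matrix.fromCols_mul_fromRows, e3, Matrix.mul_fromCols, Matrix.mul_zero, e4, ← e2]
      conv_lhs => rw [← Matrix.fromCols_toCols x]
      funext i k
      rcases k with k | k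
      · simp [Matrix.mul_sub]
      · simp
  have h1 : ∀ ω : Ω, ∃ M : Matrix (n ⊕ (J ⊕ K)) (n ⊕ (J ⊕ K)) (MonoidAlgebra A G),
      OnF (E.F ω) M ∧ M * (Matrix.fromRows (Matrix.fromCols (pr A G r ω * ζ) 0)
        (Matrix.fromBlocks (1 - pr A G s ω) 0 0 (pr A G t ω))) =
        (Matrix.fromRows (Matrix.fromCols (pr A G r ω * ζ) 0)
        (Matrix.fromBlocks (1 - pr A G s ω) 0 0 (pr A G t ω))) ∧
      Fnl (Matrix.fromRows (Matrix.fromCols (pr A G r ω * ζ) 0)
        (Matrix.fromBlocks (1 - pr A G s ω) 0 0 (pr A G t ω))) M := fun ω =>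
    (h ω).c4 (n ⊕ (J ⊕ K)) (J ⊕ K) K L _ _ _
      (RFS_onF_rows (RFS_onF_cols (RFS_onF_dpr hζ ω) (OnF.zero _))
        (RFS_onF_blocks (RFS_one_sub_pr s ω) (OnF.zero _) (OnF.zero _) (RFS_onF_pr t ω)))
      (RFS_onF_rows (RFS_onF_dpr hD ω) (RFS_one_sub_pr t ω))
      (RFS_onF_dpr hD2 ω) (hgen ω) (RFS_gen hD hD2 hg2 ω)
  choose M hM1 hM2 hM3 using h1
  have hpr : ∀ ω, pr A G r ω * ζ * pr A G s ω = pr A G r ω * ζ := by
    intro ω
    rw [hζ.pr_comm ω, Matrix.mul_assoc, pr_mul_self]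
  obtain ⟨g1, g2, g3⟩ := RFS_final hζ (fun _ => (1 : A)) (fun ω => (M ω).toBlocks₁₁)
    (fun ω i j g hg => hM1 ω (Sum.inl i) (Sum.inl j) g hg)
    (fun ω => by
      have e := RFS_corner (1 : A) (M ω) (Matrix.fromCols (pr A G r ω * ζ) 0)
        (Matrix.fromBlocks (1 - pr A G s ω) 0 0 (pr A G t ω))
        (Matrix.fromBlocks (pr A G s ω) 0 0 0)
        (by
          rw [Matrix.fromCols_mul_fromBlocks]
          simp only [Matrix.mul_zero, add_zero, hpr ω])
        (by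
          rw [Matrix.fromBlocks_multiply]
          simp only [Matrix.mul_zero, Matrix.zero_mul, add_zero, RFS_pr_compl]
          exact Matrix.fromBlocks_zero)
        (by rw [one_smul]; exact hM2 ω)
      rw [one_smul, Matrix.mul_fromCols] at e
      have e' := congrArg Matrix.toCols₁ e
      rw [Matrix.toCols₁_fromCols, Matrix.toCols₁_fromCols] at e'
      rw [one_smul]
      exact e')
    (fun ω κ hκ => RFS_corner_fnl (M ω) _ _ (hM3 ω) κ (by
      rw [Matrix.mul_fromCols, hκ, Matrix.mul_zero, Matrix.fromCols_zero]))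
  refine ⟨RFS_gl r (fun _ => (1 : A)) fun ω => (M ω).toBlocks₁₁, g1, ?_, g3⟩
  rw [g2, Finset.prod_const_one, one_smul]

theorem rfs_of_rf (h : ∀ ω, RF A (E.F ω)) : RFS A E :=
  ⟨rfs_c1 h, rfs_c2 h, rfs_c3 h, rfs_c4 h⟩

theorem RFS.flip (h : RFS A E) : RFS A E.flip :=
  ⟨h.c1, h.c2, h.c3, h.c4⟩

end

end Pool.Agent.Lib.MP_98022b_UM
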