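import Mathlib
import Pool.Agent.Lib.MP_98022b_UM.RFSL
import Pool.Agent.Lib.MP_98022b_UM.DGL

/-! Task Tors: the homology in degree `-1`. -/

open MonoidAlgebra

namespace Pool.Agent.Lib.MP_98022b_UM

open Pool.Agent.Lib.MP_98022b_UN

universe u v w w'

section
variable {A : Type u} {Ω : Type w} {G : Type v} [CommRing A] [Group G]
  {E : BSys Ω G} {β : BarStr A G} {ε : ℤ}

open Classical in
/-- the projector on the indices of degree `j` -/
noncomputable def torsP (X : DGF E β ε) (j : ℤ) : Matrix X.K X.K (MonoidAlgebra A G) :=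
  Matrix.diagonal fun k => if X.deg k = j then 1 else 0

/-- the idempotent in degree `j` -/
noncomputable def torsE (X : DGF E β ε) (j : ℤ) : Matrix X.K X.K (MonoidAlgebra A G) :=
  torsP X j * X.e

variable {X : DGF E β ε}

open Classical in
theorem torsP_mul_apply {c : Type} (j : ℤ) (M : Matrix X.K c (MonoidAlgebra A G)) (i : X.K)
    (l : c) : (torsP X j * M) i l = if X.deg i = j then M i l else 0 := by
  unfold torsP
  rw [Matrix.diagonal_mul]
  split_ifs
  · rw [one_mul]
  · rw [zero_mul]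

open Classical in
theorem torsP_apply_mul {c : Type} (j : ℤ) (M : Matrix c X.K (MonoidAlgebra A G)) (i : c)
    (l : X.K) : (M * torsP X j) i l = if X.deg l = j then M i l else 0 := by
  unfold torsP
  rw [Matrix.mul_diagonal]
  split_ifs
  · rw [mul_one]
  · rw [mul_zero]

theorem torsP_on (j : ℤ) : On0 E X.t X.t (torsP X j) := by
  classical
  have h1 : On0 E X.t X.t (torsP X j * 1) := by
    intro i l g hg
    rw [torsP_mul_apply] at hg
    split_ifs at hg with h
    · exact On0.one i l g hg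
    · exact absurd rfl hg
  rwa [Matrix.mul_one] at h1

theorem torsP_idem (j : ℤ) : torsP X j * torsP X j = torsP X j := by
  classical
  funext i l
  rw [torsP_mul_apply]
  split_ifs with h
  · rfl
  · have h1 : (torsP X j * (1 : Matrix X.K X.K (MonoidAlgebra A G))) i l = 0 := by
      rw [torsP_mul_apply, if_neg h]
    rw [Matrix.mul_one] at h1
    exact h1.symm

theorem torsP_e (j : ℤ) : torsP X j * X.e = X.e * torsP X j := by
  classical
  funext i l
  rw [torsP_mul_apply, torsP_apply_mul]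
  by_cases h : X.e i l = 0
  · rw [h, ite_self, ite_self]
  · rw [X.e_deg i l h]

theorem torsP_d (j : ℤ) : torsP X (j + 1) * X.d = X.d * torsP X j := by
  classical
  funext i l
  rw [torsP_mul_apply, torsP_apply_mul]
  by_cases h : X.d i l = 0
  · rw [h, ite_self, ite_self]
  · rw [X.d_deg i l h]
    by_cases h1 : X.deg l = j
    · rw [if_pos (by omega), if_pos h1]
    · rw [if_neg (by omega), if_neg h1]

theorem torsE_on (j : ℤ) : On0 E X.t X.t (torsE X j) := (torsP_on j).mul X.e_on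

theorem torsE_e (j : ℤ) : torsE X j * X.e = torsE X j := by
  unfold torsE
  rw [Matrix.mul_assoc, X.ee]

theorem tors_e_E (j : ℤ) : X.e * torsE X j = torsE X j := by
  unfold torsE
  rw [torsP_e, ← Matrix.mul_assoc, X.ee]

theorem torsE_idem (j : ℤ) : torsE X j * torsE X j = torsE X j := by
  have h : torsE X j * torsE X j = torsP X j * (X.e * torsE X j) := by
    conv_lhs => arg 1; unfold torsE
    rw [Matrix.mul_assoc]
  rw [h, tors_e_E]
  unfold torsE
  rw [← Matrix.mul_assoc, torsP_idem]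

theorem torsE_d (j : ℤ) : torsE X (j + 1) * X.d = X.d * torsE X j := by
  unfold torsE
  rw [Matrix.mul_assoc, X.ed, torsP_d, torsP_e, ← Matrix.mul_assoc X.d, X.de]

theorem torsE_right {c : Type} {j : ℤ} {x : Matrix c X.K (MonoidAlgebra A G)}
    (hdeg : ∀ i k, x i k ≠ 0 → X.deg k = j) (he : x * X.e = x) : x * torsE X j = x := by
  classical
  unfold torsE
  rw [← Matrix.mul_assoc]
  have h : x * torsP X j = x := by
    funext i l
    rw [torsP_apply_mul]
    by_cases h : x i l = 0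
    · rw [h, ite_self]
    · rw [if_pos (hdeg i l h)]
  rw [h, he]

theorem torsE_left {c : Type} {j : ℤ} {x : Matrix X.K c (MonoidAlgebra A G)}
    (hdeg : ∀ i k, x i k ≠ 0 → X.deg i = j) (he : X.e * x = x) : torsE X j * x = x := by
  classical
  unfold torsE
  rw [Matrix.mul_assoc, he]
  funext i l
  rw [torsP_mul_apply]
  by_cases h : x i l = 0
  · rw [h, ite_self]
  · rw [if_pos (hdeg i l h)]

theorem torsE_deg_left {c : Type} {j : ℤ} {x : Matrix X.K c (MonoidAlgebra A G)}
    (h : torsE X j * x = x) (i : X.K) (k : c) (hx : x i k ≠ 0) : X.deg i = j := by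
  classical
  by_contra hne
  apply hx
  rw [← h]
  unfold torsE
  rw [Matrix.mul_assoc, torsP_mul_apply, if_neg hne]

theorem torsE_deg_right {c : Type} {j : ℤ} {x : Matrix c X.K (MonoidAlgebra A G)}
    (h : x * torsE X j = x) (i : c) (k : X.K) (hx : x i k ≠ 0) : X.deg k = j := by
  classical
  by_contra hne
  apply hx
  rw [← h]
  unfold torsE
  rw [torsP_e, ← Matrix.mul_assoc, torsP_apply_mul, if_neg hne]

theorem torsE_e_left {c : Type} {j : ℤ} {x : Matrix X.K c (MonoidAlgebra A G)}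
    (h : torsE X j * x = x) : X.e * x = x := by
  conv_lhs => rw [← h]
  rw [← Matrix.mul_assoc, tors_e_E, h]

theorem torsE_e_right {c : Type} {j : ℤ} {x : Matrix c X.K (MonoidAlgebra A G)}
    (h : x * torsE X j = x) : x * X.e = x := by
  conv_lhs => rw [← h]
  rw [Matrix.mul_assoc, torsE_e, h]

theorem tors_cyc_iff {c : Type} {j : ℤ} {x : Matrix c X.K (MonoidAlgebra A G)} :
    X.Cyc true j x ↔ x * torsE X j = x ∧ x * X.d = 0 := by
  constructor
  · rintro ⟨h1, h2, h3⟩
    exact ⟨torsE_right h1 h2, h3⟩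
  · rintro ⟨h1, h2⟩
    exact ⟨torsE_deg_right h1, torsE_e_right h1, h2⟩

/-- boundaries of degree `j` of side true -/
theorem tors_bd {c : Type} {j : ℤ} {x : Matrix c X.K (MonoidAlgebra A G)}
    (hc : X.Cyc true j x) (hb : X.Bd true x) :
    ∃ y : Matrix c X.K (MonoidAlgebra A G), x = y * (torsE X (j + 1) * X.d) ∧
      y * torsE X (j + 1) = y := by
  obtain ⟨y, h1, h2, h3⟩ := hb.norm hc.1
  have h4 : y * torsE X (j + 1) = y := torsE_right h3 h2
  refine ⟨y, ?_, h4⟩
  rw [← Matrix.mul_assoc, h4]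
  exact h1

/-- the left kernel of `(d, 1 - e_j)` consists of the cycles of degree `j` -/
theorem tors_ker {c : Type} {j : ℤ} {x : Matrix c X.K (MonoidAlgebra A G)} :
    x * Matrix.fromCols X.d (1 - torsE X j) = 0 ↔ X.Cyc true j x := by
  rw [tors_cyc_iff, Matrix.mul_fromCols, Matrix.mul_sub, Matrix.mul_one]
  constructor
  · intro h
    constructor
    · have h1 := congrArg Matrix.toCols₂ h
      rw [Matrix.toCols₂_fromCols] at h1
      have h2 : x - x * torsE X j = 0 := h1
      exact (sub_eq_zero.1 h2).symm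
    · have h1 := congrArg Matrix.toCols₁ h
      rw [Matrix.toCols₁_fromCols] at h1
      exact h1
  · rintro ⟨h1, h2⟩
    rw [h1, h2, sub_self]
    funext i k
    rcases k with k | k <;> rfl

theorem tors_D_on (j : ℤ) : On0 E X.t (Sum.elim X.t X.t)
    (Matrix.fromCols X.d (1 - torsE X j)) :=
  X.d_on.fromCols (On0.one.sub (torsE_on j))

end

section
variable {A : Type u} {Ω : Type w} {G : Type v} [CommRing A] [IsDomain A] [Group G]
  {E : BSys Ω G} {β : BarStr A G} {ε : ℤ} {X : DGF E β ε}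

/-- exactness on the right from exactness of the other side, `j` the degree -/
theorem right_ex {j : ℤ} (h : X.Ex false (-j)) {c : Type} {y : Matrix X.K c (MonoidAlgebra A G)}
    (hdeg : ∀ k l, y k l ≠ 0 → X.deg k = j) (he : X.e * y = y) (hd : X.d * y = 0) :
    ∃ z : Matrix X.K c (MonoidAlgebra A G), y = X.d * z ∧ X.e * z = z ∧
      ∀ k l, z k l ≠ 0 → X.deg k = j - 1 := by
  have hc : X.Cyc false (-j) (adj β y) := by
    refine ⟨fun i k hik => ?_, ?_, ?_⟩
    · have h1 : y k i ≠ 0 := by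
        intro h1
        apply hik
        show β.bar (y k i) = 0
        rw [h1, bar_zero]
      show -X.deg k = -j
      rw [hdeg k i h1]
    · show adj β y * adj β X.e = adj β y
      rw [← adj_mul, he]
    · show adj β y * adj β X.d = 0
      rw [← adj_mul, hd, adj_zero]
  obtain ⟨z', h1, h2, h3⟩ := (h.mat hc).norm hc.1
  refine ⟨adj β z', ?_, ?_, fun k l hkl => ?_⟩
  · have h4 : adj β (adj β y) = adj β (z' * adj β X.d) := congrArg _ h1
    rwa [adj_adj, adj_mul, adj_adj] at h4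
  · have h4 : adj β (z' * adj β X.e) = adj β z' := congrArg _ h2
    rwa [adj_mul, adj_adj] at h4
  · have h4 : z' l k ≠ 0 := by
      intro h4
      apply hkl
      show β.bar (z' l k) = 0
      rw [h4, bar_zero]
    have h5 : -X.deg k = -j + 1 := h3 l k h4
    omega

/-- right exactness in terms of the idempotents -/
theorem tors_right {j : ℤ} (h : X.Ex false (-j)) {c : Type}
    {y : Matrix X.K c (MonoidAlgebra A G)} (he : torsE X j * y = y) (hd : X.d * y = 0) :
    ∃ z : Matrix X.K c (MonoidAlgebra A G), y = X.d * z ∧ torsE X (j - 1) * z = z := by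
  obtain ⟨z, h1, h2, h3⟩ := right_ex h (torsE_deg_left he) (torsE_e_left he) hd
  exact ⟨z, h1, torsE_left h3 h2⟩

/-- the homology in degree `-1` is torsion -/
theorem tors (hR : RFS A E) (hL : X.Lev (-1)) : ∃ a : A, a ≠ 0 ∧
    ∀ x : Matrix Unit X.K (MonoidAlgebra A G), X.Cyc true (-1) x → X.Bd true (a • x) := by
  have hd0 : X.d * torsE X 0 = torsE X 1 * X.d := (torsE_d (X := X) 0).symm
  have hd1 : X.d * torsE X (-1) = torsE X 0 * X.d := (torsE_d (X := X) (-1)).symm
  obtain ⟨a, Q, ha, hQ, hQD, hQa⟩ := hR.c2 _ _ _ _ _ (tors_D_on (X := X) 0)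
  refine ⟨a, ha, fun x hx => ?_⟩
  -- `e₁ d Q = a e₁ d`
  have hk : torsE X 1 * X.d * Q = a • (torsE X 1 * X.d) := by
    have h1 : X.Cyc true 0 (torsE X 1 * X.d) := by
      rw [tors_cyc_iff]
      constructor
      · rw [Matrix.mul_assoc, hd0, ← Matrix.mul_assoc, torsE_idem]
      · rw [Matrix.mul_assoc, X.dd, Matrix.mul_zero]
    funext i k
    have h2 : (Matrix.of fun (_ : Unit) l => (torsE X 1 * X.d) i l) *
        Matrix.fromCols X.d (1 - torsE X 0) = 0 := by
      funext u l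
      have h3 := congrFun (congrFun (tors_ker.2 h1) i) l
      rw [Matrix.mul_apply] at h3 ⊢
      exact h3
    have h4 := congrFun (congrFun (hQa _ h2) ()) k
    rw [Matrix.mul_apply] at h4 ⊢
    exact h4
  have hcQ : Q * X.d = 0 ∧ Q * torsE X 0 = Q := by
    have h1 := tors_cyc_iff.1 (tors_ker.1 hQD)
    exact ⟨h1.2, h1.1⟩
  -- `a e₀ - e₀ Q = d Z`
  obtain ⟨Z, hZ, hZe⟩ := tors_right (X := X) (j := 0) (y := a • torsE X 0 - torsE X 0 * Q)
    (hL false (-0) (by norm_num))
    (by rw [Matrix.mul_sub, Matrix.mul_smul, torsE_idem, ← Matrix.mul_assoc, torsE_idem])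
    (by rw [Matrix.mul_sub, Matrix.mul_smul, ← Matrix.mul_assoc, hd0, hk, sub_self])
  have hZe' : torsE X (-1) * Z = Z := hZe
  -- `a e₀ d = d Z e₀ d`
  have h5 : X.d * (Z * (torsE X 0 * X.d)) = a • (torsE X 0 * X.d) := by
    rw [← Matrix.mul_assoc, ← hZ, Matrix.sub_mul, Matrix.smul_mul, ← Matrix.mul_assoc,
      torsE_idem, Matrix.mul_assoc (torsE X 0) Q, ← Matrix.mul_assoc Q, hcQ.2, hcQ.1,
      Matrix.mul_zero, sub_zero]
  obtain ⟨Z2, hZ2, _⟩ := tors_right (X := X) (j := -1)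
    (y := Z * (torsE X 0 * X.d) - a • torsE X (-1))
    (hL false (- -1) (by norm_num))
    (by rw [Matrix.mul_sub, Matrix.mul_smul, torsE_idem, ← Matrix.mul_assoc, hZe'])
    (by rw [Matrix.mul_sub, Matrix.mul_smul, h5, hd1, sub_self])
  have hx' := tors_cyc_iff.1 hx
  have h6 : x * (Z * (torsE X 0 * X.d) - a • torsE X (-1)) = 0 := by
    rw [hZ2, ← Matrix.mul_assoc, hx'.2, Matrix.zero_mul]
  rw [Matrix.mul_sub, Matrix.mul_smul, hx'.1, sub_eq_zero] at h6
  refine ⟨x * Z * torsE X 0, ?_⟩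
  show a • x = x * Z * torsE X 0 * X.d
  rw [← h6, Matrix.mul_assoc (x * Z), Matrix.mul_assoc x]

/-- there are no functionals modulo `p` on the homology in degree `-1` -/
theorem modp_true (hR : RFS A E) (hL : X.Lev (-1)) {p : A} (hp : Prime p) {r : Type} [Fintype r]
    [DecidableEq r] {s : r → Ω} {ζ : Matrix r X.K (MonoidAlgebra A G)} (hζ : On0 E s X.t ζ)
    (hc : X.Cyc true (-1) ζ)
    (hg : ∀ x : Matrix Unit X.K (MonoidAlgebra A G), X.Cyc true (-1) x →
      ∃ κ : Matrix Unit r (MonoidAlgebra A G), x = κ * ζ)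
    {ψ : Matrix r Unit (MonoidAlgebra A G)}
    (hψ : ∀ κ : Matrix Unit r (MonoidAlgebra A G), X.Bd true (κ * ζ) →
      ∃ y : Matrix Unit Unit (MonoidAlgebra A G), κ * ψ = p • y) :
    ∃ ψ' : Matrix r Unit (MonoidAlgebra A G), ψ = p • ψ' := by
  have hd0 : X.d * torsE X 0 = torsE X 1 * X.d := (torsE_d (X := X) 0).symm
  have hd1 : X.d * torsE X (-1) = torsE X 0 * X.d := (torsE_d (X := X) (-1)).symm
  have hgen : GenL ζ (Matrix.fromCols X.d (1 - torsE X (-1))) :=
    ⟨tors_ker.2 hc, fun x hx => hg x (tors_ker.1 hx)⟩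
  -- the condition for several rows
  have hψm : ∀ {c : Type} (κ : Matrix c r (MonoidAlgebra A G)), X.Bd true (κ * ζ) →
      ∃ y : Matrix c Unit (MonoidAlgebra A G), κ * ψ = p • y := by
    intro c κ hκ
    obtain ⟨w, hw⟩ := hκ
    have h1 : ∀ i : c, ∃ y : Matrix Unit Unit (MonoidAlgebra A G),
        (Matrix.of fun (_ : Unit) l => κ i l) * ψ = p • y := by
      intro i
      refine hψ _ ⟨Matrix.of fun (_ : Unit) l => w i l, ?_⟩
      funext u k
      have h2 := congrFun (congrFun hw i) k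
      rw [Matrix.mul_apply] at h2 ⊢
      exact h2
    choose y hy using h1
    refine ⟨Matrix.of fun i _ => y i () (), ?_⟩
    funext i u
    have h2 := congrFun (congrFun (hy i) ()) ()
    rw [Matrix.mul_apply] at h2 ⊢
    exact h2
  obtain ⟨s', M3, hs', hM3, hM3ζ, hF⟩ := hR.c3 p hp _ _ _ _ _ _ _ _ hζ (tors_D_on (X := X) (-1))
    hgen
  have hFγ : Fnl ζ (M3 * ψ) := by
    intro κ hκ
    rw [← Matrix.mul_assoc, hF κ hκ, Matrix.zero_mul]
  -- `e₀ d = k₀ ζ`
  have hc0 : X.Cyc true (-1) (torsE X 0 * X.d) := by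
    rw [tors_cyc_iff]
    constructor
    · rw [Matrix.mul_assoc, hd1, ← Matrix.mul_assoc, torsE_idem]
    · rw [Matrix.mul_assoc, X.dd, Matrix.mul_zero]
  obtain ⟨k0, hk0⟩ := hgen.mat (torsE X 0 * X.d) (tors_ker.2 hc0)
  obtain ⟨η, hη⟩ := hψm (k0 * M3) (by
    refine ⟨s' • torsE X 0, ?_⟩
    show _ = s' • torsE X 0 * X.d
    rw [Matrix.mul_assoc, hM3ζ, Matrix.mul_smul, ← hk0, Matrix.smul_mul])
  have hη' : k0 * (M3 * ψ) = p • η := by rw [← Matrix.mul_assoc, hη]
  -- `e₁ d η = 0`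
  have h1 : torsE X 1 * X.d * η = 0 := by
    apply smul_cancel hp.ne_zero (A := A)
    rw [smul_zero, ← Matrix.mul_smul, ← hη', ← Matrix.mul_assoc]
    refine hFγ.mat _ ?_
    rw [Matrix.mul_assoc, ← hk0, Matrix.mul_assoc, ← Matrix.mul_assoc X.d, hd0,
      Matrix.mul_assoc (torsE X 1) X.d X.d, X.dd, Matrix.mul_zero, Matrix.mul_zero]
  obtain ⟨z, hz, hze⟩ := tors_right (X := X) (j := 0) (y := torsE X 0 * η)
    (hL false (-0) (by norm_num))
    (by rw [← Matrix.mul_assoc, torsE_idem])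
    (by rw [← Matrix.mul_assoc, hd0, h1])
  have hze' : torsE X (-1) * z = z := hze
  -- the functional `γ' = γ - p ζ z` vanishes
  have hFγ' : Fnl ζ (M3 * ψ - p • (ζ * z)) := by
    intro κ hκ
    rw [Matrix.mul_sub, hFγ κ hκ, Matrix.mul_smul, ← Matrix.mul_assoc, hκ, Matrix.zero_mul,
      smul_zero, sub_zero]
  have h2 : torsE X 0 * (k0 * (M3 * ψ - p • (ζ * z))) = 0 := by
    rw [Matrix.mul_sub, hη', Matrix.mul_sub, Matrix.mul_smul, hz, Matrix.mul_smul,
      Matrix.mul_smul, ← Matrix.mul_assoc k0, ← hk0, ← Matrix.mul_assoc, ← Matrix.mul_assoc,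
      torsE_idem, Matrix.mul_assoc, ← hze', ← Matrix.mul_assoc X.d, hd1,
      Matrix.mul_assoc (torsE X 0) X.d, ← Matrix.mul_assoc (torsE X 0) (torsE X 0),
      torsE_idem, sub_self]
  obtain ⟨a, ha, hta⟩ := tors hR hL
  have h3 : M3 * ψ - p • (ζ * z) = 0 := by
    have h4 : ∀ κ : Matrix Unit r (MonoidAlgebra A G),
        κ * (M3 * ψ - p • (ζ * z)) = 0 := by
      intro κ
      have hcκ : X.Cyc true (-1) (κ * ζ) := hc.mul_left κ
      have hcκ' : X.Cyc true (-1) (a • (κ * ζ)) := by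
        have h5 := tors_cyc_iff.1 hcκ
        rw [tors_cyc_iff, Matrix.smul_mul, Matrix.smul_mul, h5.1, h5.2, smul_zero]
        exact ⟨rfl, rfl⟩
      obtain ⟨y, hy, hye⟩ := tors_bd hcκ' (hta _ hcκ)
      have hy' : a • (κ * ζ) = y * (torsE X 0 * X.d) := hy
      have h6 : (a • κ - y * (torsE X 0 * k0)) * ζ = 0 := by
        rw [Matrix.sub_mul, Matrix.smul_mul, hy', Matrix.mul_assoc y, Matrix.mul_assoc _ k0,
          ← hk0, ← Matrix.mul_assoc (torsE X 0) (torsE X 0), torsE_idem, sub_self]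
      have h7 := hFγ' _ h6
      rw [Matrix.sub_mul, Matrix.mul_assoc y, Matrix.mul_assoc _ k0, h2, Matrix.mul_zero,
        sub_zero, Matrix.smul_mul] at h7
      apply smul_cancel ha (A := A)
      rw [h7, smul_zero]
    funext i u
    have h5 := congrFun (congrFun (h4 (Matrix.of fun (_ : Unit) l =>
      (1 : Matrix r r (MonoidAlgebra A G)) i l)) ()) u
    rw [Matrix.mul_apply] at h5
    have h6 : ((1 : Matrix r r (MonoidAlgebra A G)) * (M3 * ψ - p • (ζ * z))) i u = 0 := by
      rw [Matrix.mul_apply]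
      exact h5
    rwa [Matrix.one_mul] at h6
  -- `s' ψ` is divisible by `p`
  obtain ⟨y, hy⟩ := hψm (M3 - s' • 1) ⟨0, by
    rw [Matrix.sub_mul, hM3ζ, Matrix.smul_mul, Matrix.one_mul, sub_self]
    exact (Matrix.zero_mul _).symm⟩
  rw [Matrix.sub_mul, Matrix.smul_mul, Matrix.one_mul] at hy
  have h8 : s' • ψ = p • (ζ * z - y) := by
    rw [smul_sub, ← hy, ← sub_eq_zero.1 h3]
    abel
  exact dvd_of_prime hp hs' h8

/-- there are no functionals modulo `a` on the homology in degree `-1`, side true -/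
theorem tors_mod_true [UniqueFactorizationMonoid A] (hR : RFS A E) (hL : X.Lev (-1)) {a : A}
    (ha : a ≠ 0) {r : Type} [Fintype r] [DecidableEq r] {s : r → Ω}
    {ζ : Matrix r X.K (MonoidAlgebra A G)} (hζ : On0 E s X.t ζ) (hc : X.Cyc true (-1) ζ)
    (hg : ∀ x : Matrix Unit X.K (MonoidAlgebra A G), X.Cyc true (-1) x →
      ∃ κ : Matrix Unit r (MonoidAlgebra A G), x = κ * ζ) :
    ∀ {ψ : Matrix r Unit (MonoidAlgebra A G)},
    (∀ κ : Matrix Unit r (MonoidAlgebra A G), X.Bd true (κ * ζ) →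
      ∃ y : Matrix Unit Unit (MonoidAlgebra A G), κ * ψ = a • y) →
    ∃ ψ' : Matrix r Unit (MonoidAlgebra A G), ψ = a • ψ' := by
  induction a using UniqueFactorizationMonoid.induction_on_prime with
  | h₁ => exact absurd rfl ha
  | h₂ x hx =>
    intro ψ hψ
    obtain ⟨u, rfl⟩ := hx
    refine ⟨(↑u⁻¹ : A) • ψ, ?_⟩
    rw [smul_smul, Units.mul_inv, one_smul]
  | h₃ a p ha' hp ih =>
    intro ψ hψ
    obtain ⟨ψ1, rfl⟩ := modp_true hR hL hp hζ hc hg (ψ := ψ) (fun κ hκ => by
      obtain ⟨y, hy⟩ := hψ κ hκ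
      exact ⟨a • y, by rw [hy, smul_smul]⟩)
    obtain ⟨ψ2, rfl⟩ := ih ha' (ψ := ψ1) (fun κ hκ => by
      obtain ⟨y, hy⟩ := hψ κ hκ
      refine ⟨y, smul_cancel hp.ne_zero (A := A) ?_⟩
      rw [← Matrix.mul_smul, hy, smul_smul])
    exact ⟨ψ2, by rw [smul_smul]⟩

/-- there are no functionals modulo `a` on the homology in degree `-1` (either side) -/
theorem mod_any [UniqueFactorizationMonoid A] (hR : RFS A E) (hL : X.Lev (-1)) {a : A}
    (ha : a ≠ 0) (b : Bool) {r : Type} [Fintype r] [DecidableEq r] {s : r → Ω}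
    {ζ : Matrix r X.K (MonoidAlgebra A G)} (hζ : On0 E s X.t ζ) (hc : X.Cyc b (-1) ζ)
    (hg : ∀ x : Matrix Unit X.K (MonoidAlgebra A G), X.Cyc b (-1) x →
      ∃ κ : Matrix Unit r (MonoidAlgebra A G), x = κ * ζ)
    {ψ : Matrix r Unit (MonoidAlgebra A G)}
    (hψ : ∀ κ : Matrix Unit r (MonoidAlgebra A G), X.Bd b (κ * ζ) →
      ∃ y : Matrix Unit Unit (MonoidAlgebra A G), κ * ψ = a • y) :
    ∃ ψ' : Matrix r Unit (MonoidAlgebra A G), ψ = a • ψ' := by
  cases b with
  | true => exact tors_mod_true hR hL ha hζ hc hg hψ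
  | false =>
    have hc' : X.flip.Cyc true (-1) ζ := (X.flip_cyc (b := true)).2 hc
    have hg' : ∀ x : Matrix Unit X.flip.K (MonoidAlgebra A G), X.flip.Cyc true (-1) x →
        ∃ κ : Matrix Unit r (MonoidAlgebra A G), x = κ * ζ := by
      intro x hx
      exact hg x ((X.flip_cyc (b := true) (x := x)).1 hx)
    have hψ' : ∀ κ : Matrix Unit r (MonoidAlgebra A G), X.flip.Bd true (κ * ζ) →
        ∃ y : Matrix Unit Unit (MonoidAlgebra A G), κ * ψ = a • y := by
      intro κ hκ
      have h1 : X.Bd false (κ * ζ) := (X.flip_bd (b := true) (x := κ * ζ)).1 hκ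
      exact hψ κ h1
    exact tors_mod_true (X := X.flip) hR.flip (X.flip_lev.2 hL) ha (s := s) (ζ := ζ) hζ hc' hg' hψ'

end

end Pool.Agent.Lib.MP_98022b_UM
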