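import Mathlib
import Pool.Agent.Lib.MP_98022b_UM.Tors

/-! Task EndRF: exactness above degree `-2` implies exactness. -/

open MonoidAlgebra

namespace Pool.Agent.Lib.MP_98022b_UM

open Pool.Agent.Lib.MP_98022b_UN

universe u v w w'

section
variable {A : Type u} {Ω : Type w} {G : Type v} [CommRing A] [Group G]
  {E : BSys Ω G} {β : BarStr A G} {ε : ℤ} {X : DGF E β ε}

/-- the projector on the indices of degree `j` -/
private noncomputable def EndRF1_pi (X : DGF E β ε) (j : ℤ) :
    Matrix X.K X.K (MonoidAlgebra A G) :=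
  Matrix.diagonal fun k => if X.deg k = j then 1 else 0

private theorem EndRF1_pi_mul_apply {c : Type} (j : ℤ) (M : Matrix X.K c (MonoidAlgebra A G))
    (k : X.K) (l : c) : (EndRF1_pi X j * M) k l = if X.deg k = j then M k l else 0 := by
  rw [EndRF1_pi, Matrix.diagonal_mul]
  split_ifs <;> simp

private theorem EndRF1_mul_pi_apply {c : Type} (j : ℤ) (M : Matrix c X.K (MonoidAlgebra A G))
    (k : c) (l : X.K) : (M * EndRF1_pi X j) k l = if X.deg l = j then M k l else 0 := by
  rw [EndRF1_pi, Matrix.mul_diagonal]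
  split_ifs <;> simp

private theorem EndRF1_pi_row {c : Type} {j : ℤ} {M : Matrix X.K c (MonoidAlgebra A G)}
    {k : X.K} {l : c} (h : (EndRF1_pi X j * M) k l ≠ 0) : X.deg k = j := by
  by_contra hk
  rw [EndRF1_pi_mul_apply, if_neg hk] at h
  exact h rfl

private theorem EndRF1_pi_pi (j : ℤ) : EndRF1_pi X j * EndRF1_pi X j = EndRF1_pi X j := by
  ext k l
  rw [EndRF1_pi_mul_apply]
  split_ifs with hk
  · rfl
  · rw [EndRF1_pi, Matrix.diagonal_apply]
    split_ifs
    all_goals rfl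

private theorem EndRF1_pi_e (j : ℤ) : EndRF1_pi X j * X.e = X.e * EndRF1_pi X j := by
  ext k l
  rw [EndRF1_pi_mul_apply, EndRF1_mul_pi_apply]
  by_cases h : X.e k l = 0
  · rw [h]
    split_ifs <;> rfl
  · rw [X.e_deg k l h]

private theorem EndRF1_d_pi (j : ℤ) : X.d * EndRF1_pi X j = EndRF1_pi X (j + 1) * X.d := by
  ext k l
  rw [EndRF1_pi_mul_apply, EndRF1_mul_pi_apply]
  by_cases h : X.d k l = 0
  · rw [h]
    split_ifs <;> rfl
  · rw [X.d_deg k l h]
    have : X.deg l + 1 = j + 1 ↔ X.deg l = j := by omega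
    simp only [this]

private theorem EndRF1_mul_pi {c : Type} {j : ℤ} {x : Matrix c X.K (MonoidAlgebra A G)}
    (h : ∀ i k, x i k ≠ 0 → X.deg k = j) : x * EndRF1_pi X j = x := by
  ext i k
  rw [EndRF1_mul_pi_apply]
  split_ifs with hk
  · rfl
  · by_contra h0
    exact hk (h i k (fun h1 => h0 (by rw [h1])))

private theorem EndRF1_pi_on (j : ℤ) : On0 E X.t X.t (EndRF1_pi X j) := by
  intro k l g hg
  rw [EndRF1_pi, Matrix.diagonal_apply] at hg
  by_cases hkl : k = l
  · subst hkl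
    rw [if_pos rfl] at hg
    by_cases hd : X.deg k = j
    · rw [if_pos hd] at hg
      refine ⟨?_, rfl⟩
      by_contra hgn
      apply hg
      have h1 : g ≠ 1 := by
        rintro rfl
        exact hgn (E.F (X.t k)).one_mem
      rw [MonoidAlgebra.one_def]
      simp [h1.symm]
    · rw [if_neg hd] at hg
      exact absurd rfl hg
  · rw [if_neg hkl] at hg
    exact absurd rfl hg

private theorem EndRF1_r1 {R : Type*} [Ring R] {p q e d Z : R} (hdp : d * p = q * d)
    (hde : d * e = d) (hreg : q * (d * Z * d) = q * d) :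
    d * (p * e * (Z * d - 1) * (p * e)) = 0 := by
  calc d * (p * e * (Z * d - 1) * (p * e)) = ((d * p) * e * (Z * d - 1)) * (p * e) := by
        simp only [mul_assoc]
    _ = (q * (d * e) * (Z * d - 1)) * (p * e) := by rw [hdp]; simp only [mul_assoc]
    _ = (q * (d * Z * d) - q * d) * (p * e) := by rw [hde]; noncomm_ring
    _ = 0 := by rw [hreg, sub_self, zero_mul]

private theorem EndRF1_r2 {R : Type*} [Ring R] {p e : R} (Y : R) (hpe : p * e = e * p)
    (hee : e * e = e) : e * (p * e * Y) = p * e * Y := by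
  calc e * (p * e * Y) = (e * p) * e * Y := by simp only [mul_assoc]
    _ = p * (e * e) * Y := by rw [← hpe]; simp only [mul_assoc]
    _ = p * e * Y := by rw [hee]

private theorem EndRF1_r3 {R : Type*} [Ring R] {p q e d Z : R} (hpe : p * e = e * p)
    (hpp : p * p = p) (hdp : d * p = q * d) (hed : e * d = d) (hdd : d * d = 0) :
    p * e * (Z * d - 1) * (p * e) * d = - (p * d) := by
  calc p * e * (Z * d - 1) * (p * e) * d = p * e * Z * (d * p) * (e * d) - p * e * p * (e * d) := by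
        noncomm_ring
    _ = p * e * Z * q * (d * d) - p * e * p * d := by rw [hdp, hed]; simp only [mul_assoc]
    _ = - (e * (p * p) * d) := by rw [hdd, hpe]; simp only [mul_assoc]; simp
    _ = - (e * p * d) := by rw [hpp]
    _ = - (p * (e * d)) := by rw [← hpe]; simp only [mul_assoc]
    _ = - (p * d) := by rw [hed]

end

section
variable {A : Type u} {Ω : Type w} {G : Type v} [CommRing A] [IsDomain A] [Group G]
  {E : BSys Ω G} {β : BarStr A G} {ε : ℤ} {X : DGF E β ε}

/-- if the differential in degree `j` is von Neumann regular and the dual is exact in degree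
`j - 1`, then the complex is exact in degree `j - 1` and the next differential is regular -/
theorem reg_down {j : ℤ} (hx : X.Ex false (-(j - 1)))
    {Z : Matrix X.K X.K (MonoidAlgebra A G)}
    (hZ : ∀ x : Matrix Unit X.K (MonoidAlgebra A G), (∀ k, x () k ≠ 0 → X.deg k = j) →
      x * (X.d * Z * X.d) = x * X.d) :
    X.Ex true (j - 1) ∧ ∃ Z' : Matrix X.K X.K (MonoidAlgebra A G),
      ∀ x : Matrix Unit X.K (MonoidAlgebra A G), (∀ k, x () k ≠ 0 → X.deg k = j - 1) →
      x * (X.d * Z' * X.d) = x * X.d := by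
  have hpe := EndRF1_pi_e (X := X) (j - 1)
  have hpp := EndRF1_pi_pi (X := X) (j - 1)
  have hdp : X.d * EndRF1_pi X (j - 1) = EndRF1_pi X j * X.d := by
    have h := EndRF1_d_pi (X := X) (j - 1)
    rwa [sub_add_cancel] at h
  have hreg : EndRF1_pi X j * (X.d * Z * X.d) = EndRF1_pi X j * X.d := by
    apply Matrix.ext
    intro k l
    have h := hZ (fun _ m => EndRF1_pi X j k m) (fun m hm => by
      by_contra hmj
      apply hm
      show EndRF1_pi X j k m = 0
      rw [EndRF1_pi, Matrix.diagonal_apply]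
      split_ifs with h1 h2
      · exact absurd (h1 ▸ h2) hmj
      · rfl
      · rfl)
    exact congrFun (congrFun h ()) l
  set Pm := EndRF1_pi X (j - 1) with hPm
  have hY : ∀ k l, (Pm * X.e * (Z * X.d - 1) * (Pm * X.e)) k l ≠ 0 → X.deg k = j - 1 := by
    intro k l h
    rw [Matrix.mul_assoc, Matrix.mul_assoc] at h
    exact EndRF1_pi_row h
  obtain ⟨Z0, hZ0, _, _⟩ := right_ex (X := X) hx hY
    (by
      rw [Matrix.mul_assoc (Pm * X.e)]
      exact EndRF1_r2 _ hpe X.ee)
    (EndRF1_r1 hdp X.de hreg)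
  have hrow : ∀ x : Matrix Unit X.K (MonoidAlgebra A G),
      (∀ k, x () k ≠ 0 → X.deg k = j - 1) → x * Pm = x := fun x h =>
    EndRF1_mul_pi (fun i k hk => h k hk)
  refine ⟨?_, -Z0, ?_⟩
  · rintro x ⟨hdeg, hxe, hxd⟩
    have hxp := hrow x (fun k hk => hdeg () k hk)
    have hxe' : x * X.e = x := hxe
    have hxd' : x * X.d = 0 := hxd
    have hxpe : x * (Pm * X.e) = x := by rw [← Matrix.mul_assoc, hxp, hxe']
    have h1 : x * (Pm * X.e * (Z * X.d - 1) * (Pm * X.e)) = 0 := by
      rw [hZ0, ← Matrix.mul_assoc, hxd', Matrix.zero_mul]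
    have h2 : x * (Pm * X.e * (Z * X.d - 1) * (Pm * X.e)) =
        x * Z * EndRF1_pi X j * X.d - x := by
      calc x * (Pm * X.e * (Z * X.d - 1) * (Pm * X.e))
          = x * (Pm * X.e) * (Z * X.d - 1) * (Pm * X.e) := by simp only [Matrix.mul_assoc]
        _ = x * (Z * X.d - 1) * (Pm * X.e) := by rw [hxpe]
        _ = x * Z * (X.d * Pm) * X.e - x * (Pm * X.e) := by
          simp only [Matrix.mul_assoc, Matrix.mul_sub, Matrix.sub_mul, Matrix.one_mul]
        _ = x * Z * EndRF1_pi X j * (X.d * X.e) - x := by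
          rw [hdp, hxpe]
          simp only [Matrix.mul_assoc]
        _ = x * Z * EndRF1_pi X j * X.d - x := by rw [X.de]
    rw [h2, sub_eq_zero] at h1
    exact ⟨x * Z * EndRF1_pi X j, h1.symm⟩
  · intro x hdeg
    have hxp := hrow x hdeg
    have h2 : X.d * Z0 * X.d = -(Pm * X.d) := by
      rw [← hZ0]
      exact EndRF1_r3 hpe hpp hdp X.ed X.dd
    rw [Matrix.mul_neg, Matrix.neg_mul, h2, neg_neg, ← Matrix.mul_assoc, hxp]

/-- regularity of the differential in degree `1` -/
theorem reg_one (hR : RFS A E) (hL : X.Lev (-2)) :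
    ∃ Z : Matrix X.K X.K (MonoidAlgebra A G), ∀ x : Matrix Unit X.K (MonoidAlgebra A G),
      (∀ k, x () k ≠ 0 → X.deg k = 1) → x * (X.d * Z * X.d) = x * X.d := by
  -- projectors
  have hpe1 := EndRF1_pi_e (X := X) 1
  have hpp1 := EndRF1_pi_pi (X := X) 1
  have hpe0 := EndRF1_pi_e (X := X) 0
  have hpp0 := EndRF1_pi_pi (X := X) 0
  have hpem := EndRF1_pi_e (X := X) (-1)
  have hppm := EndRF1_pi_pi (X := X) (-1)
  have hdp0 : X.d * EndRF1_pi X 0 = EndRF1_pi X 1 * X.d := EndRF1_d_pi (X := X) 0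
  have hdp1 : X.d * EndRF1_pi X 1 = EndRF1_pi X 2 * X.d := EndRF1_d_pi (X := X) 1
  have hdpm : X.d * EndRF1_pi X (-1) = EndRF1_pi X 0 * X.d := EndRF1_d_pi (X := X) (-1)
  set e1 : Matrix X.K X.K (MonoidAlgebra A G) := EndRF1_pi X 1 * X.e with he1
  set e0 : Matrix X.K X.K (MonoidAlgebra A G) := EndRF1_pi X 0 * X.e with he0
  set em : Matrix X.K X.K (MonoidAlgebra A G) := EndRF1_pi X (-1) * X.e with hem
  have hidem : ∀ j : ℤ, EndRF1_pi X j * X.e * (EndRF1_pi X j * X.e) = EndRF1_pi X j * X.e := by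
    intro j
    calc EndRF1_pi X j * X.e * (EndRF1_pi X j * X.e)
        = EndRF1_pi X j * (X.e * EndRF1_pi X j) * X.e := by simp only [Matrix.mul_assoc]
      _ = EndRF1_pi X j * EndRF1_pi X j * (X.e * X.e) := by
        rw [← EndRF1_pi_e]
        simp only [Matrix.mul_assoc]
      _ = EndRF1_pi X j * X.e := by rw [EndRF1_pi_pi, X.ee]
  have hon : ∀ j : ℤ, On0 E X.t X.t (EndRF1_pi X j * X.e) := fun j =>
    (EndRF1_pi_on j).mul X.e_on
  have h11 : e1 * e1 = e1 := hidem 1
  have h00 : e0 * e0 = e0 := hidem 0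
  have hmm : em * em = em := hidem (-1)
  have h1d : e1 * X.d = EndRF1_pi X 1 * X.d := by rw [he1, Matrix.mul_assoc, X.ed]
  have h0d : e0 * X.d = EndRF1_pi X 0 * X.d := by rw [he0, Matrix.mul_assoc, X.ed]
  have hd0 : X.d * e0 = e1 * X.d := by
    rw [he0, ← Matrix.mul_assoc, hdp0, Matrix.mul_assoc, X.de, h1d]
  have hdm : X.d * em = e0 * X.d := by
    rw [hem, ← Matrix.mul_assoc, hdpm, Matrix.mul_assoc, X.de, h0d]
  have hd1 : X.d * e1 * (e1 * X.d) = 0 := by
    rw [← Matrix.mul_assoc, Matrix.mul_assoc X.d, h11, he1, ← Matrix.mul_assoc X.d, hdp1,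
      Matrix.mul_assoc, Matrix.mul_assoc, X.ed, X.dd, Matrix.mul_zero]
  clear_value e1 e0 em
  -- a row which is fixed by the projector and killed by `d` is a boundary
  have hcyc : ∀ (j : ℤ) (x : Matrix Unit X.K (MonoidAlgebra A G)), -2 < j →
      x * (EndRF1_pi X j * X.e) = x → x * X.d = 0 →
      ∃ y : Matrix Unit X.K (MonoidAlgebra A G), x = y * X.d := by
    intro j x hj hxe hxd
    refine hL true j hj x ⟨?_, ?_, hxd⟩
    · intro i k hk
      by_contra hdeg
      apply hk
      have hdeg' : ¬ X.deg k = j := hdeg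
      rw [← hxe, EndRF1_pi_e, ← Matrix.mul_assoc, EndRF1_mul_pi_apply, if_neg hdeg']
    · show x * X.e = x
      calc x * X.e = x * (EndRF1_pi X j * X.e) * X.e := by rw [hxe]
        _ = x * (EndRF1_pi X j * (X.e * X.e)) := by simp only [Matrix.mul_assoc]
        _ = x := by rw [X.ee, hxe]
  have g1 : GenL (e1 * X.d) (Matrix.fromCols (e0 * X.d) (1 - e0)) := by
    constructor
    · rw [Matrix.mul_fromCols]
      have t1 : e1 * X.d * (e0 * X.d) = 0 := by
        rw [← Matrix.mul_assoc, Matrix.mul_assoc e1 X.d e0, hd0, Matrix.mul_assoc,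
          Matrix.mul_assoc, X.dd, Matrix.mul_zero, Matrix.mul_zero]
      have t2 : e1 * X.d * (1 - e0) = 0 := by
        rw [Matrix.mul_sub, Matrix.mul_one, Matrix.mul_assoc e1 X.d e0, hd0, ← Matrix.mul_assoc,
          h11, sub_self]
      rw [t1, t2, Matrix.fromCols_zero]
    · intro x hx
      rw [Matrix.mul_fromCols, ← Matrix.fromCols_zero, Matrix.fromCols_ext_iff] at hx
      obtain ⟨h1, h2⟩ := hx
      rw [Matrix.mul_sub, Matrix.mul_one, sub_eq_zero] at h2
      rw [← Matrix.mul_assoc, ← h2] at h1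
      obtain ⟨y, hy⟩ := hcyc 0 x (by norm_num) (by rw [← he0]; exact h2.symm) h1
      exact ⟨y, by rw [← hd0, ← Matrix.mul_assoc, ← hy]; exact h2⟩
  have g2 : GenL (Matrix.fromCols (e0 * X.d) (1 - e0))
      (Matrix.fromBlocks (Matrix.fromCols X.d (1 - em)) 0 0 e0) := by
    constructor
    · rw [Matrix.fromCols_mul_fromBlocks, Matrix.mul_zero, Matrix.mul_zero, add_zero, zero_add,
        Matrix.mul_fromCols, Matrix.sub_mul, Matrix.one_mul, h00, sub_self, Matrix.mul_sub,
        Matrix.mul_one, Matrix.mul_assoc, X.dd, Matrix.mul_zero, Matrix.mul_assoc, hdm,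
        ← Matrix.mul_assoc, h00, sub_self, Matrix.fromCols_zero, Matrix.fromCols_zero]
    · intro x hx
      rw [← Matrix.fromCols_toCols x, Matrix.fromCols_mul_fromBlocks, Matrix.mul_zero,
        Matrix.mul_zero, add_zero, zero_add, ← Matrix.fromCols_zero, Matrix.fromCols_ext_iff,
        Matrix.mul_fromCols, ← Matrix.fromCols_zero, Matrix.fromCols_ext_iff, Matrix.mul_sub,
        Matrix.mul_one, sub_eq_zero] at hx
      obtain ⟨⟨h1, h2⟩, h3⟩ := hx
      obtain ⟨y, hy⟩ := hcyc (-1) x.toCols₁ (by norm_num) (by rw [← hem]; exact h2.symm) h1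
      refine ⟨y * e0 + x.toCols₂, ?_⟩
      conv_lhs => rw [← Matrix.fromCols_toCols x]
      rw [Matrix.mul_fromCols, Matrix.fromCols_ext_iff]
      constructor
      · rw [Matrix.add_mul, ← Matrix.mul_assoc x.toCols₂, h3, Matrix.zero_mul, add_zero,
          Matrix.mul_assoc y, ← Matrix.mul_assoc e0, h00, ← hdm, ← Matrix.mul_assoc, ← hy]
        exact h2
      · rw [Matrix.add_mul, Matrix.mul_sub, Matrix.mul_sub, Matrix.mul_one, Matrix.mul_one, h3,
          Matrix.mul_assoc, h00, sub_self, zero_add, sub_zero]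
  have gon : On0 E (Sum.elim X.t X.t) (Sum.elim (Sum.elim X.t X.t) X.t)
      (Matrix.fromBlocks (Matrix.fromCols X.d (1 - em)) 0 0 e0) := by
    rw [hem, he0]
    exact On0.fromBlocks (On0.fromCols X.d_on (On0.one.sub (hon (-1)))) On0.zero On0.zero (hon 0)
  obtain ⟨M, hM, hM1, hM2⟩ := hR.c4 X.K X.K (X.K ⊕ X.K) ((X.K ⊕ X.K) ⊕ X.K) X.t X.t
    (Sum.elim X.t X.t) (Sum.elim (Sum.elim X.t X.t) X.t) (e1 * X.d)
    (Matrix.fromCols (e0 * X.d) (1 - e0))
    (Matrix.fromBlocks (Matrix.fromCols X.d (1 - em)) 0 0 e0)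
    (by rw [he1]; exact (hon 1).mul X.d_on)
    (by rw [he0]; exact On0.fromCols ((hon 0).mul X.d_on) (On0.one.sub (hon 0))) gon g1 g2
  have hkill : ∀ N : Matrix X.K X.K (MonoidAlgebra A G), N * (e1 * X.d) = 0 → N * M = 0 := by
    intro N hN
    apply Matrix.ext
    intro k l
    have h := hM2 (fun _ m => N k m) (by
      apply Matrix.ext
      intro i m
      exact congrFun (congrFun hN k) m)
    exact congrFun (congrFun h ()) l
  have hM3 : e1 * M = M := by
    have h := hkill (1 - e1) (by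
      rw [Matrix.sub_mul, Matrix.one_mul, ← Matrix.mul_assoc, h11, sub_self])
    rw [Matrix.sub_mul, Matrix.one_mul, sub_eq_zero] at h
    exact h.symm
  have hM4 : X.d * M = 0 := by
    rw [← hM3, ← Matrix.mul_assoc]
    exact hkill _ hd1
  have hMdeg : ∀ k l, M k l ≠ 0 → X.deg k = 1 := by
    intro k l h
    rw [← hM3, he1, Matrix.mul_assoc] at h
    exact EndRF1_pi_row h
  have hMe : X.e * M = M := by
    have h := EndRF1_r2 M (EndRF1_pi_e (X := X) 1) X.ee
    rwa [← he1, hM3] at h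
  obtain ⟨Z, hZ, _, _⟩ := right_ex (X := X) (j := 1) (hL false (-1) (by norm_num)) hMdeg hMe hM4
  refine ⟨Z * e1, fun x hx => ?_⟩
  have hxp : x * EndRF1_pi X 1 = x := EndRF1_mul_pi (fun i k hk => hx k hk)
  rw [← Matrix.mul_assoc X.d Z e1, ← hZ, Matrix.mul_assoc M e1 X.d, hM1, h1d,
    ← Matrix.mul_assoc, hxp]

theorem end_rf (hR : RFS A E) (hL : X.Lev (-2)) (i : ℤ) : X.Ex true i := by
  by_cases hi : -2 < i
  · exact hL true i hi
  · have key : ∀ n : ℕ, ∃ Z : Matrix X.K X.K (MonoidAlgebra A G),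
        ∀ x : Matrix Unit X.K (MonoidAlgebra A G), (∀ k, x () k ≠ 0 → X.deg k = 1 - (n : ℤ)) →
          x * (X.d * Z * X.d) = x * X.d := by
      intro n
      induction n with
      | zero =>
        obtain ⟨Z, hZ⟩ := reg_one hR hL
        exact ⟨Z, fun x hx => hZ x (fun k hk => by rw [hx k hk]; simp)⟩
      | succ n ih =>
        obtain ⟨Z, hZ⟩ := ih
        obtain ⟨_, Z', hZ'⟩ := reg_down (X := X) (j := 1 - (n : ℤ))
          (hL false _ (by omega)) hZ
        exact ⟨Z', fun x hx => hZ' x (fun k hk => by rw [hx k hk]; push_cast; ring)⟩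
    obtain ⟨n, hn⟩ : ∃ n : ℕ, i = 1 - (n : ℤ) - 1 := ⟨(-i).toNat, by omega⟩
    obtain ⟨Z, hZ⟩ := key n
    rw [hn]
    exact (reg_down (X := X) (j := 1 - (n : ℤ)) (hL false _ (by omega)) hZ).1

end

end Pool.Agent.Lib.MP_98022b_UM
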