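import Mathlib
import Pool.Agent.Lib.MP_98022b_UM.RFSDefs
import Pool.Agent.Lib.MP_98022b_UM.DGL

/-! Task Res4: existence of resolutions, and the complex to be attached. -/

open MonoidAlgebra

namespace Pool.Agent.Lib.MP_98022b_UM

open Pool.Agent.Lib.MP_98022b_UN

universe u v w w'

section
variable {A : Type u} {Ω : Type w} {G : Type v} [CommRing A] [Group G] {E : BSys Ω G}
  {β : BarStr A G} {ε : ℤ} {X : DGF E β ε} {ω : Ω} {a : ℤ} {C₀ : Type} [Fintype C₀]
  [DecidableEq C₀] {V : Matrix C₀ X.K (MonoidAlgebra A G)}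

private theorem Res4a_diag (t : X.K → Ω) (i : ℤ) :
    On0 E t t (Matrix.diagonal (fun k : X.K => if X.deg k = i then (1 : MonoidAlgebra A G) else 0)) := by
  classical
  intro j k g hg
  by_cases hjk : j = k
  · subst hjk
    refine ⟨?_, rfl⟩
    rw [Matrix.diagonal_apply_eq] at hg
    split_ifs at hg with h1
    · by_cases hg1 : g = 1
      · rw [hg1]
        exact (E.F _).one_mem
      · exfalso
        apply hg
        rw [MonoidAlgebra.one_def, MonoidAlgebra.coeff_single, Finsupp.single_apply,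
          if_neg (fun h' => hg1 h'.symm)]
    · exfalso
      exact hg rfl
  · exfalso
    rw [Matrix.diagonal_apply_ne _ hjk] at hg
    exact hg rfl

/-- normalised and typed chains -/
private theorem Res4a_norm {c : Type} {i : ℤ} {x : Matrix c X.K (MonoidAlgebra A G)}
    (hx : X.Bd true x) (hon : On0 E (fun _ => ω) X.t x) (hdeg : ∀ j k, x j k ≠ 0 → X.deg k = i) :
    ∃ y : Matrix c X.K (MonoidAlgebra A G), x + y * X.d = 0 ∧ y * X.e = y ∧
      (∀ j k, y j k ≠ 0 → X.deg k = i + 1) ∧ On0 E (fun _ => ω) X.t y := by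
  classical
  obtain ⟨y, hy, hye, hyd⟩ := hx.norm (i := i) hdeg
  set π : Matrix X.K X.K (MonoidAlgebra A G) :=
    Matrix.diagonal (fun k : X.K => if X.deg k = i + 1 then (1 : MonoidAlgebra A G) else 0) with hπ
  have hyπ : y * π = y := by
    funext j k
    rw [hπ, Matrix.mul_diagonal]
    split_ifs with h1
    · rw [mul_one]
    · rw [mul_zero]
      by_contra h2
      exact h1 (hyd j k (fun h3 => h2 h3.symm))
  have hpe : On0 E X.t X.t (π * X.e) := (Res4a_diag X.t (i + 1)).mul X.e_on
  have hz : On0 E X.t X.t (π * X.e * X.d) := hpe.mul X.d_on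
  have hye' : y * X.e = y := hye
  have h1 : x = y * (π * X.e * X.d) := by
    rw [← Matrix.mul_assoc, ← Matrix.mul_assoc, hyπ, hye']
    exact hy
  obtain ⟨κ, hκ, hκx⟩ := On0.exists_left hz hon h1
  have hpe_deg : ∀ k k', (π * X.e) k k' ≠ 0 → X.deg k' = i + 1 := by
    intro k k' hk
    rw [hπ, Matrix.diagonal_mul] at hk
    split_ifs at hk with h2
    · rw [one_mul] at hk
      rw [← X.e_deg k k' hk, h2]
    · exact absurd (zero_mul _) hk
  refine ⟨-(κ * (π * X.e)), ?_, ?_, ?_, ?_⟩
  · rw [hκx, Matrix.neg_mul, ← Matrix.mul_assoc]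
    exact add_neg_cancel _
  · rw [Matrix.neg_mul, Matrix.mul_assoc, Matrix.mul_assoc, X.ee]
  · intro j k hjk
    have h2 : (κ * (π * X.e)) j k ≠ 0 := by
      intro h3
      apply hjk
      rw [Matrix.neg_apply, h3, neg_zero]
    rw [Matrix.mul_apply] at h2
    obtain ⟨l, _, hl⟩ := Finset.exists_ne_zero_of_sum_ne_zero h2
    exact hpe_deg l k (right_ne_zero_of_mul hl)
  · exact (hκ.mul hpe).neg

theorem exists_res4 (h : RF A (E.F ω)) (hL : X.Lev a) (hV : On0 E (fun _ => ω) X.t V)
    (hc : X.Cyc true a V) : Nonempty (Res4 X ω a V) := by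
  classical
  obtain ⟨hVdeg, hVe, hVd⟩ := hc
  replace hVdeg : ∀ j k, V j k ≠ 0 → X.deg k = a := hVdeg
  replace hVe : V * X.e = V := hVe
  replace hVd : V * X.d = 0 := hVd
  have hprd : On0 E (fun _ => ω) X.t (pr A G X.t ω * X.d) := X.d_on.pr_mul_onF ω
  have hDon : OnF (E.F ω) (Matrix.fromRows V (pr A G X.t ω * X.d)) := by
    intro j k g hg
    rcases j with j | j
    · exact hV.onF j k g hg
    · exact hprd.onF j k g hg
  obtain ⟨c₁, W, hWon, hW0, hWg⟩ := h.c1 _ _ _ hDon
  have hD1on : OnF (E.F ω) W.toCols₁ := fun j k g hg => hWon j (Sum.inl k) g hg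
  have hW1 : W.toCols₁ * V + W.toCols₂ * (pr A G X.t ω * X.d) = 0 := by
    rw [← Matrix.fromCols_mul_fromRows, Matrix.fromCols_toCols]
    exact hW0
  have hBd1 : X.Bd true (W.toCols₁ * V) := by
    refine ⟨-(W.toCols₂ * pr A G X.t ω), ?_⟩
    rw [DGF.dS_true, Matrix.neg_mul, Matrix.mul_assoc]
    exact eq_neg_of_add_eq_zero_left hW1
  have hmuldeg : ∀ {c c' : Type} [Fintype c'] (N : Matrix c c' (MonoidAlgebra A G))
      (y : Matrix c' X.K (MonoidAlgebra A G)) (i : ℤ), (∀ j k, y j k ≠ 0 → X.deg k = i) →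
      ∀ j k, (N * y) j k ≠ 0 → X.deg k = i := by
    intro c c' _ N y i hy j k hjk
    rw [Matrix.mul_apply] at hjk
    obtain ⟨l, _, hl⟩ := Finset.exists_ne_zero_of_sum_ne_zero hjk
    exact hy l k (right_ne_zero_of_mul hl)
  obtain ⟨f₁, hf1, hf1e, hf1d, hf1on⟩ := Res4a_norm hBd1 ((OnF.on0 hD1on).mul hV)
    (hmuldeg _ _ _ hVdeg)
  obtain ⟨c₂, D₂, hD2on, hD2g⟩ := h.c1 _ _ _ hD1on
  obtain ⟨c₃, D₃, hD3on, hD3g⟩ := h.c1 _ _ _ hD2on
  obtain ⟨P, hPon, hPD, hPf⟩ := h.c4 _ _ _ _ D₃ D₂ W.toCols₁ hD3on hD2on hD1on hD3g hD2g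
  have hPP : P * P = P := by
    let R : Fin c₃ → Matrix Unit (Fin c₃) (MonoidAlgebra A G) := fun j _ k => (P - 1) j k
    have h1 : ∀ j, R j * P = 0 := by
      intro j
      apply hPf
      have h2 : (P - 1) * D₃ = 0 := by
        rw [Matrix.sub_mul, Matrix.one_mul, hPD, sub_self]
      funext u k
      have h3 := congrFun (congrFun h2 j) k
      rw [Matrix.mul_apply] at h3 ⊢
      exact h3
    have h2 : (P - 1) * P = 0 := by
      funext j k
      have h3 := congrFun (congrFun (h1 j) ()) k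
      rw [Matrix.mul_apply] at h3 ⊢
      exact h3
    rw [Matrix.sub_mul, Matrix.one_mul] at h2
    exact sub_eq_zero.1 h2
  have hC2 : X.Cyc true (a + 1) (D₂ * f₁) := by
    refine ⟨hmuldeg _ _ _ hf1d, ?_, ?_⟩
    · show D₂ * f₁ * X.e = D₂ * f₁
      rw [Matrix.mul_assoc, hf1e]
    · show D₂ * f₁ * X.d = 0
      have h1 : f₁ * X.d = -(W.toCols₁ * V) := eq_neg_of_add_eq_zero_right hf1
      rw [Matrix.mul_assoc, h1, Matrix.mul_neg, ← Matrix.mul_assoc, hD2g.1, Matrix.zero_mul,
        neg_zero]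
  obtain ⟨f₂, hf2, hf2e, hf2d, hf2on⟩ := Res4a_norm ((hL true (a + 1) (by omega)).mat hC2)
    ((OnF.on0 hD2on).mul hf1on) (hmuldeg _ _ _ hf1d)
  have hC3 : X.Cyc true (a + 1 + 1) (D₃ * f₂) := by
    refine ⟨hmuldeg _ _ _ hf2d, ?_, ?_⟩
    · show D₃ * f₂ * X.e = D₃ * f₂
      rw [Matrix.mul_assoc, hf2e]
    · show D₃ * f₂ * X.d = 0
      have h1 : f₂ * X.d = -(D₂ * f₁) := eq_neg_of_add_eq_zero_right hf2
      rw [Matrix.mul_assoc, h1, Matrix.mul_neg, ← Matrix.mul_assoc, hD3g.1, Matrix.zero_mul,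
        neg_zero]
  obtain ⟨f₃, hf3, hf3e, hf3d, hf3on⟩ := Res4a_norm ((hL true (a + 1 + 1) (by omega)).mat hC3)
    ((OnF.on0 hD3on).mul hf2on) (hmuldeg _ _ _ hf2d)
  refine ⟨{
    c₁ := c₁
    c₂ := c₂
    c₃ := c₃
    D₁ := W.toCols₁
    D₂ := D₂
    D₃ := D₃
    P := P
    f₁ := f₁
    f₂ := f₂
    f₃ := P * f₃
    D₁_on := hD1on
    D₂_on := hD2on
    D₃_on := hD3on
    P_on := hPon
    f₁_on := hf1on
    f₂_on := hf2on
    f₃_on := (OnF.on0 hPon).mul hf3on
    f₁_deg := hf1d
    f₂_deg := fun j k hjk => by rw [hf2d j k hjk]; ring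
    f₃_deg := fun j k hjk => by rw [hmuldeg P f₃ _ hf3d j k hjk]; ring
    f₁_e := hf1e
    f₂_e := hf2e
    f₃_e := by rw [Matrix.mul_assoc, hf3e]
    PP := hPP
    PD := hPD
    Pf := by rw [← Matrix.mul_assoc, hPP]
    r₁ := hf1
    r₂ := hD2g.1
    s₂ := hf2
    r₃ := hD3g.1
    s₃ := ?_
    g₁ := ?_
    g₂ := hD2g.2
    g₃ := hD3g.2
    g₄ := ?_ }⟩
  · have h1 : f₃ * X.d = -(D₃ * f₂) := eq_neg_of_add_eq_zero_right hf3
    rw [Matrix.mul_assoc, h1, Matrix.mul_neg, ← Matrix.mul_assoc, hPD]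
    exact add_neg_cancel _
  · rintro u ⟨x, hx⟩
    have h1 : u * V = x * (pr A G X.t ω * X.d) := by
      have h2 : V * pr A G X.t ω = V := hV.mul_pr
      have h3 : pr A G X.t ω * X.d = X.d * pr A G X.t ω := X.pr_dS ω true
      rw [h3, ← Matrix.mul_assoc, ← hx, Matrix.mul_assoc, h2]
    obtain ⟨κ, hκ⟩ := hWg (Matrix.fromCols u (-x)) (by
      rw [Matrix.fromCols_mul_fromRows, h1, Matrix.neg_mul]
      exact add_neg_cancel _)
    refine ⟨κ, ?_⟩
    have h4 : u = (Matrix.fromCols u (-x)).toCols₁ := by rw [Matrix.toCols₁_fromCols]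
    rw [h4, hκ]
    rfl
  · intro u hu hu0
    rw [← hu]
    exact hPf u hu0

/-- the index of the complex -/
abbrev Res4.I (R : Res4 X ω a V) : Type := C₀ ⊕ (Fin R.c₁ ⊕ (Fin R.c₂ ⊕ Fin R.c₃))

section Res4b

/-- the degrees of the complex to be attached -/
def res4bP (C₀ : Type) (c₁ c₂ c₃ : ℕ) : C₀ ⊕ (Fin c₁ ⊕ (Fin c₂ ⊕ Fin c₃)) → ℕ
  | .inl _ => 0
  | .inr (.inl _) => 1
  | .inr (.inr (.inl _)) => 2
  | .inr (.inr (.inr _)) => 3

/-- the idempotent -/
noncomputable def Res4.eI (R : Res4 X ω a V) : Matrix R.I R.I (MonoidAlgebra A G) :=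
  Matrix.fromBlocks 1 0 0 (Matrix.fromBlocks 1 0 0 (Matrix.fromBlocks 1 0 0 R.P))

/-- the differential -/
noncomputable def Res4.dI (R : Res4 X ω a V) : Matrix R.I R.I (MonoidAlgebra A G) :=
  Matrix.fromBlocks 0 0 (Matrix.fromRows R.D₁ 0)
    (Matrix.fromBlocks 0 0 (Matrix.fromRows R.D₂ 0) (Matrix.fromBlocks 0 0 R.D₃ 0))

/-- the map to the complex -/
noncomputable def Res4.fI (R : Res4 X ω a V) : Matrix R.I X.K (MonoidAlgebra A G) :=
  Matrix.fromRows V (Matrix.fromRows R.f₁ (Matrix.fromRows R.f₂ R.f₃))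

theorem res4b_rows_add {m₁ m₂ n S : Type*} [Add S] (a c : Matrix m₁ n S) (b d : Matrix m₂ n S) :
    Matrix.fromRows a b + Matrix.fromRows c d = Matrix.fromRows (a + c) (b + d) := by
  ext (i | i) j <;> simp

theorem res4b_cols_add {m n₁ n₂ S : Type*} [Add S] (a c : Matrix m n₁ S) (b d : Matrix m n₂ S) :
    Matrix.fromCols a b + Matrix.fromCols c d = Matrix.fromCols (a + c) (b + d) := by
  ext i (j | j) <;> simp

theorem res4b_dec {c : Type} (R : Res4 X ω a V) (u : Matrix c R.I (MonoidAlgebra A G)) :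
    u = Matrix.fromCols (fun i j => u i (.inl j)) (Matrix.fromCols (fun i j => u i (.inr (.inl j)))
      (Matrix.fromCols (fun i j => u i (.inr (.inr (.inl j))))
        (fun i j => u i (.inr (.inr (.inr j)))))) := by
  ext i (j | j | j | j) <;> rfl

theorem res4b_decR {c : Type} (R : Res4 X ω a V) (u : Matrix R.I c (MonoidAlgebra A G)) :
    u = Matrix.fromRows (fun i j => u (.inl i) j) (Matrix.fromRows (fun i j => u (.inr (.inl i)) j)
      (Matrix.fromRows (fun i j => u (.inr (.inr (.inl i))) j)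
        (fun i j => u (.inr (.inr (.inr i))) j))) := by
  ext (i | i | i | i) j <;> rfl

theorem res4b_ud {c : Type} (R : Res4 X ω a V) (u₀ : Matrix c C₀ (MonoidAlgebra A G))
    (u₁ : Matrix c (Fin R.c₁) (MonoidAlgebra A G)) (u₂ : Matrix c (Fin R.c₂) (MonoidAlgebra A G))
    (u₃ : Matrix c (Fin R.c₃) (MonoidAlgebra A G)) :
    (Matrix.fromCols u₀ (Matrix.fromCols u₁ (Matrix.fromCols u₂ u₃)) :
      Matrix c R.I (MonoidAlgebra A G)) * R.dI =
      Matrix.fromCols (u₁ * R.D₁) (Matrix.fromCols (u₂ * R.D₂) (Matrix.fromCols (u₃ * R.D₃) 0)) := by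
  simp [Res4.dI, Matrix.fromCols_mul_fromBlocks, Matrix.fromCols_mul_fromRows]

theorem res4b_ue {c : Type} (R : Res4 X ω a V) (u₀ : Matrix c C₀ (MonoidAlgebra A G))
    (u₁ : Matrix c (Fin R.c₁) (MonoidAlgebra A G)) (u₂ : Matrix c (Fin R.c₂) (MonoidAlgebra A G))
    (u₃ : Matrix c (Fin R.c₃) (MonoidAlgebra A G)) :
    (Matrix.fromCols u₀ (Matrix.fromCols u₁ (Matrix.fromCols u₂ u₃)) :
      Matrix c R.I (MonoidAlgebra A G)) * R.eI =
      Matrix.fromCols u₀ (Matrix.fromCols u₁ (Matrix.fromCols u₂ (u₃ * R.P))) := by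
  simp [Res4.eI, Matrix.fromCols_mul_fromBlocks]

theorem res4b_uf {c : Type} (R : Res4 X ω a V) (u₀ : Matrix c C₀ (MonoidAlgebra A G))
    (u₁ : Matrix c (Fin R.c₁) (MonoidAlgebra A G)) (u₂ : Matrix c (Fin R.c₂) (MonoidAlgebra A G))
    (u₃ : Matrix c (Fin R.c₃) (MonoidAlgebra A G)) :
    (Matrix.fromCols u₀ (Matrix.fromCols u₁ (Matrix.fromCols u₂ u₃)) :
      Matrix c R.I (MonoidAlgebra A G)) * R.fI =
      u₀ * V + (u₁ * R.f₁ + (u₂ * R.f₂ + u₃ * R.f₃)) := by
  simp [Res4.fI, Matrix.fromCols_mul_fromRows]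

theorem res4b_dy {c : Type} (R : Res4 X ω a V) (u₀ : Matrix C₀ c (MonoidAlgebra A G))
    (u₁ : Matrix (Fin R.c₁) c (MonoidAlgebra A G)) (u₂ : Matrix (Fin R.c₂) c (MonoidAlgebra A G))
    (u₃ : Matrix (Fin R.c₃) c (MonoidAlgebra A G)) :
    R.dI * (Matrix.fromRows u₀ (Matrix.fromRows u₁ (Matrix.fromRows u₂ u₃)) :
      Matrix R.I c (MonoidAlgebra A G)) =
      Matrix.fromRows 0 (Matrix.fromRows (R.D₁ * u₀) (Matrix.fromRows (R.D₂ * u₁)
        (R.D₃ * u₂))) := by
  simp [Res4.dI, Matrix.fromBlocks_mul_fromRows, Matrix.fromRows_mul, res4b_rows_add]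

end Res4b

/-- the complex to be attached -/
theorem Res4.exists_kill (R : Res4 X ω a V) (hV : On0 E (fun _ => ω) X.t V)
    (hc : X.Cyc true a V)
    (h0 : 0 < -2 * a → ∀ y : Matrix C₀ Unit (MonoidAlgebra A G), R.D₁ * y = 0 → y = 0)
    (h1 : 1 < -2 * a → ∀ y : Matrix (Fin R.c₁) Unit (MonoidAlgebra A G), R.D₂ * y = 0 →
      ∃ z : Matrix C₀ Unit (MonoidAlgebra A G), y = R.D₁ * z)
    (h2 : -2 * a ≤ 2) :
    ∃ κ : KillC X ω a,
      (∃ (U : Matrix κ.C C₀ (MonoidAlgebra A G)) (Y : Matrix κ.C X.K (MonoidAlgebra A G)),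
        ∀ i, κ.p i = 0 → ∀ k, κ.f i k = (U * V + Y * X.d) i k) ∧
      (∃ (U : Matrix C₀ κ.C (MonoidAlgebra A G)) (Y : Matrix C₀ X.K (MonoidAlgebra A G)),
        (∀ j i, U j i ≠ 0 → κ.p i = 0) ∧ V = U * κ.f + Y * X.d) := by
  classical
  have hVd : V * X.d = 0 := hc.2.2
  have hVe : V * X.e = V := hc.2.1
  have hVdeg : ∀ j k, V j k ≠ 0 → X.deg k = a := hc.1
  -- the complex
  let κ : KillC X ω a :=
    { C := R.I
      p := res4bP C₀ R.c₁ R.c₂ R.c₃
      e := R.eI
      δ := R.dI
      f := R.fI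
      e_on := by
        rintro (i | i | i | i) (j | j | j | j) g hg
        all_goals first
          | exact OnF.one (E.F ω) i j g hg
          | exact R.P_on i j g hg
          | exact absurd rfl hg
      δ_on := by
        rintro (i | i | i | i) (j | j | j | j) g hg
        all_goals first
          | exact R.D₁_on i j g hg
          | exact R.D₂_on i j g hg
          | exact R.D₃_on i j g hg
          | exact absurd rfl hg
      f_on := by
        rintro (i | i | i | i) j g hg
        · exact hV i j g hg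
        · exact R.f₁_on i j g hg
        · exact R.f₂_on i j g hg
        · exact R.f₃_on i j g hg
      e_deg := by
        rintro (i | i | i | i) (j | j | j | j) h
        all_goals first
          | rfl
          | exact absurd rfl h
      δ_deg := by
        rintro (i | i | i | i) (j | j | j | j) h
        all_goals first
          | rfl
          | exact absurd rfl h
      f_deg := by
        rintro (i | i | i | i) k h
        · exact (hVdeg i k h).trans (by simp [res4bP])
        · exact (R.f₁_deg i k h).trans (by simp [res4bP])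
        · exact (R.f₂_deg i k h).trans (by simp [res4bP])
        · exact (R.f₃_deg i k h).trans (by simp [res4bP])
      ee := by
        simp [Res4.eI, Matrix.fromBlocks_multiply, R.PP]
      eδ := by
        simp [Res4.eI, Res4.dI, Matrix.fromBlocks_multiply, Matrix.fromBlocks_mul_fromRows, R.PD]
      δe := by
        simp [Res4.eI, Res4.dI, Matrix.fromBlocks_multiply, Matrix.fromRows_mul]
      δδ := by
        simp [Res4.dI, Matrix.fromBlocks_multiply, Matrix.fromBlocks_mul_fromRows,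
          Matrix.fromRows_mul, R.r₂, R.r₃]
      ef := by
        simp [Res4.eI, Res4.fI, Matrix.fromBlocks_mul_fromRows, R.Pf]
      fe := by
        simp [Res4.fI, Matrix.fromRows_mul, hVe, R.f₁_e, R.f₂_e, R.f₃_e]
      δf := by
        show R.dI * R.fI + R.fI * X.d = 0
        rw [Res4.fI, res4b_dy]
        simp only [Matrix.fromRows_mul, res4b_rows_add, hVd, R.r₁, R.s₂, R.s₃, zero_add]
        simp
      rowex := by
        intro l u hl hue hud huf
        have hdec := res4b_dec R u
        set u₀ : Matrix Unit C₀ (MonoidAlgebra A G) := fun i j => u i (.inl j) with hu0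
        set u₁ : Matrix Unit (Fin R.c₁) (MonoidAlgebra A G) := fun i j => u i (.inr (.inl j))
          with hu1
        set u₂ : Matrix Unit (Fin R.c₂) (MonoidAlgebra A G) :=
          fun i j => u i (.inr (.inr (.inl j))) with hu2
        set u₃ : Matrix Unit (Fin R.c₃) (MonoidAlgebra A G) :=
          fun i j => u i (.inr (.inr (.inr j))) with hu3
        have z0 : l ≠ 0 → u₀ = 0 := by
          intro h
          refine Matrix.ext fun i j => ?_
          by_contra h3
          exact h (hl (.inl j) h3).symm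
        have z1 : l ≠ 1 → u₁ = 0 := by
          intro h
          refine Matrix.ext fun i j => ?_
          by_contra h3
          exact h (hl (.inr (.inl j)) h3).symm
        have z2 : l ≠ 2 → u₂ = 0 := by
          intro h
          refine Matrix.ext fun i j => ?_
          by_contra h3
          exact h (hl (.inr (.inr (.inl j))) h3).symm
        have z3 : l ≠ 3 → u₃ = 0 := by
          intro h
          refine Matrix.ext fun i j => ?_
          by_contra h3
          exact h (hl (.inr (.inr (.inr j))) h3).symm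
        rw [hdec, res4b_ud] at hud
        rw [hdec, res4b_ue] at hue
        obtain ⟨x, hx⟩ := huf
        rw [hdec, res4b_uf] at hx
        have k1 : u₁ * R.D₁ = 0 := Matrix.ext fun i j => congrFun (congrFun hud i) (.inl j)
        have k2 : u₂ * R.D₂ = 0 := Matrix.ext fun i j => congrFun (congrFun hud i) (.inr (.inl j))
        have k3 : u₃ * R.D₃ = 0 :=
          Matrix.ext fun i j => congrFun (congrFun hud i) (.inr (.inr (.inl j)))
        have k4 : u₃ * R.P = u₃ :=
          Matrix.ext fun i j => congrFun (congrFun hue i) (.inr (.inr (.inr j)))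
        rcases (show l = 0 ∨ l = 1 ∨ l = 2 ∨ l = 3 ∨ 4 ≤ l by omega) with h | h | h | h | h
        · have q1 := z1 (by omega)
          have q2 := z2 (by omega)
          have q3 := z3 (by omega)
          obtain ⟨y, hy⟩ := R.g₁ u₀ ⟨x, by rw [← hx, q1, q2, q3]; simp⟩
          refine ⟨Matrix.fromCols 0 (Matrix.fromCols y (Matrix.fromCols 0 0)), ?_⟩
          rw [hdec, res4b_ud, q1, q2, q3, ← hy]
          simp
        · have q0 := z0 (by omega)
          have q2 := z2 (by omega)
          have q3 := z3 (by omega)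
          obtain ⟨y, hy⟩ := R.g₂ u₁ k1
          refine ⟨Matrix.fromCols 0 (Matrix.fromCols 0 (Matrix.fromCols y 0)), ?_⟩
          rw [hdec, res4b_ud, q0, q2, q3, ← hy]
          simp
        · have q0 := z0 (by omega)
          have q1 := z1 (by omega)
          have q3 := z3 (by omega)
          obtain ⟨y, hy⟩ := R.g₃ u₂ k2
          refine ⟨Matrix.fromCols 0 (Matrix.fromCols 0 (Matrix.fromCols 0 y)), ?_⟩
          rw [hdec, res4b_ud, q0, q1, q3, ← hy]
          simp
        · have q0 := z0 (by omega)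
          have q1 := z1 (by omega)
          have q2 := z2 (by omega)
          have q3 := R.g₄ u₃ k4 k3
          refine ⟨0, ?_⟩
          rw [hdec, q0, q1, q2, q3]
          simp
        · have q0 := z0 (by omega)
          have q1 := z1 (by omega)
          have q2 := z2 (by omega)
          have q3 := z3 (by omega)
          refine ⟨0, ?_⟩
          rw [hdec, q0, q1, q2, q3]
          simp
      colex := by
        intro l y hl hp hey hdy
        have hdec := res4b_decR R y
        set y₀ : Matrix C₀ Unit (MonoidAlgebra A G) := fun i j => y (.inl i) j with hy0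
        set y₁ : Matrix (Fin R.c₁) Unit (MonoidAlgebra A G) := fun i j => y (.inr (.inl i)) j
          with hy1
        set y₂ : Matrix (Fin R.c₂) Unit (MonoidAlgebra A G) :=
          fun i j => y (.inr (.inr (.inl i))) j with hy2
        set y₃ : Matrix (Fin R.c₃) Unit (MonoidAlgebra A G) :=
          fun i j => y (.inr (.inr (.inr i))) j with hy3
        have z0 : l ≠ 0 → y₀ = 0 := by
          intro h
          refine Matrix.ext fun i j => ?_
          by_contra h3
          exact h (hp (.inl i) h3).symm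
        have z1 : l ≠ 1 → y₁ = 0 := by
          intro h
          refine Matrix.ext fun i j => ?_
          by_contra h3
          exact h (hp (.inr (.inl i)) h3).symm
        have z2 : l ≠ 2 → y₂ = 0 := by
          intro h
          refine Matrix.ext fun i j => ?_
          by_contra h3
          exact h (hp (.inr (.inr (.inl i))) h3).symm
        have z3 : l ≠ 3 → y₃ = 0 := by
          intro h
          refine Matrix.ext fun i j => ?_
          by_contra h3
          exact h (hp (.inr (.inr (.inr i))) h3).symm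
        rw [hdec, res4b_dy] at hdy
        have k1 : R.D₁ * y₀ = 0 :=
          Matrix.ext fun i j => congrFun (congrFun hdy (.inr (.inl i))) j
        have k2 : R.D₂ * y₁ = 0 :=
          Matrix.ext fun i j => congrFun (congrFun hdy (.inr (.inr (.inl i)))) j
        rcases (show l = 0 ∨ l = 1 by omega) with h | h
        · have q1 := z1 (by omega)
          have q2 := z2 (by omega)
          have q3 := z3 (by omega)
          have q0 := h0 (by rw [h] at hl; exact_mod_cast hl) y₀ k1
          refine ⟨0, ?_⟩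
          rw [hdec, q0, q1, q2, q3]
          simp
        · have q0 := z0 (by omega)
          have q2 := z2 (by omega)
          have q3 := z3 (by omega)
          obtain ⟨w, hw⟩ := h1 (by rw [h] at hl; exact_mod_cast hl) y₁ k2
          refine ⟨Matrix.fromRows w (Matrix.fromRows 0 (Matrix.fromRows 0 0)), ?_⟩
          rw [hdec, res4b_dy, q0, q2, q3, ← hw]
          simp }
  refine ⟨κ, ⟨(Matrix.fromRows 1 0 : Matrix R.I C₀ (MonoidAlgebra A G)), 0, ?_⟩,
    ⟨(Matrix.fromCols 1 0 : Matrix C₀ R.I (MonoidAlgebra A G)), 0, ?_, ?_⟩⟩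
  · rintro (i | i | i | i) h k
    · show V i k = ((Matrix.fromRows 1 0 : Matrix R.I C₀ (MonoidAlgebra A G)) * V +
        (0 : Matrix R.I X.K (MonoidAlgebra A G)) * X.d) (.inl i) k
      rw [Matrix.fromRows_mul]
      simp
    · exact absurd h (show (1 : ℕ) ≠ 0 by omega)
    · exact absurd h (show (2 : ℕ) ≠ 0 by omega)
    · exact absurd h (show (3 : ℕ) ≠ 0 by omega)
  · rintro j (i | i | i | i) h
    · rfl
    · exact absurd rfl h
    · exact absurd rfl h
    · exact absurd rfl h
  · show V = (Matrix.fromCols 1 0 : Matrix C₀ R.I (MonoidAlgebra A G)) * R.fI + 0 * X.d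
    rw [Res4.fI, Matrix.fromCols_mul_fromRows]
    simp

end

end Pool.Agent.Lib.MP_98022b_UM
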