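import Mathlib
import Pool.Agent.Lib.MP_98022b_UM.Tors
import Pool.Agent.Lib.MP_98022b_UM.Res4L
import Pool.Agent.Lib.MP_98022b_UM.ContentL

/-! Task KillRF: the ring-theoretic input in the locally free case. -/

open MonoidAlgebra

namespace Pool.Agent.Lib.MP_98022b_UM

open Pool.Agent.Lib.MP_98022b_UN

universe u v w w'

section
variable {A : Type u} {Ω : Type w} {G : Type v} [CommRing A] [IsDomain A] [Group G]
  {E : BSys Ω G} {β : BarStr A G} {ε : ℤ}

theorem killHyp_zero (h : ∀ ω, RF A (E.F ω)) : KillHyp E β ε 0 := by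
  intro X hL ω n b hn c
  obtain ⟨R⟩ := exists_res4 (h ω) hL c.V_on (c.V_cyc hn)
  exact R.exists_kill c.V_on (c.V_cyc hn) (fun h => absurd h (by norm_num))
    (fun h => absurd h (by norm_num)) (by norm_num)

/-- there are no functionals modulo `a` on the content -/
theorem content_mod [UniqueFactorizationMonoid A] (hR : RFS A E) {X : DGF E β ε}
    (hL : X.Lev (-1)) {ω : Ω} {n : ℕ} {b : Bool} (hn : par n b = true)
    (c : Content X ω (-1) n b) {a : A} (ha : a ≠ 0)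
    {g : Matrix (c.r × c.ι) Unit (MonoidAlgebra A G)} (hg : OnF (E.F ω) g)
    (h : ∀ κ : Matrix Unit (c.r × c.ι) (MonoidAlgebra A G), X.Bd true (κ * c.V) →
      ∃ y : Matrix Unit Unit (MonoidAlgebra A G), κ * g = a • y) :
    ∃ g' : Matrix (c.r × c.ι) Unit (MonoidAlgebra A G), g = a • g' := by
  classical
  set ψ : Matrix c.r Unit (MonoidAlgebra A G) :=
    fun i u => ∑ l, single (c.τ l) (1 : A) * g (i, l) u with hψdef
  have hψ : ∀ κ : Matrix Unit c.r (MonoidAlgebra A G), X.Bd b (κ * c.ζ) →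
      ∃ y : Matrix Unit Unit (MonoidAlgebra A G), κ * ψ = a • y := by
    intro κ hκ
    set κ' : Matrix Unit (c.r × c.ι) (MonoidAlgebra A G) :=
      fun u p => κ u p.1 * single (c.τ p.2) (1 : A) with hκ'
    have h1 : κ' * c.V = κ * c.ζ * wM X.M n b * pr A G X.t ω := by
      rw [Matrix.mul_assoc, Matrix.mul_assoc, ← Matrix.mul_assoc c.ζ]
      funext u k
      rw [Matrix.mul_apply, Matrix.mul_apply, Fintype.sum_prod_type]
      refine Finset.sum_congr rfl fun i _ => ?_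
      rw [c.sum i k, Finset.mul_sum]
      refine Finset.sum_congr rfl fun l _ => ?_
      rw [hκ', mul_assoc]
    have h2 : X.Bd true (κ' * c.V) := by
      rw [h1, ← hn]
      exact (hκ.word n).pr ω
    obtain ⟨y, hy⟩ := h κ' h2
    refine ⟨y, ?_⟩
    rw [← hy]
    funext u v
    rw [Matrix.mul_apply, Matrix.mul_apply, Fintype.sum_prod_type]
    refine Finset.sum_congr rfl fun i _ => ?_
    rw [hψdef]
    simp only
    rw [Finset.mul_sum]
    refine Finset.sum_congr rfl fun l _ => ?_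
    rw [hκ', mul_assoc]
  obtain ⟨ψ', hψ'⟩ := mod_any hR hL ha b c.ζ_on c.ζ_cyc c.ζ_gen hψ
  refine dvd_of_coeff fun p u x => ?_
  obtain ⟨i, l⟩ := p
  by_cases hx : (g (i, l) u).coeff x = 0
  · rw [hx]
    exact dvd_zero a
  · have hxF : x ∈ E.F ω := hg _ _ _ hx
    have h3 : (ψ i u).coeff (c.τ l * x) = (g (i, l) u).coeff x := by
      rw [hψdef]
      simp only
      rw [coeff_sum, Finsupp.finsetSum_apply, Finset.sum_eq_single l]
      · rw [coeff_single_mul_apply, one_mul, inv_mul_cancel_left]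
      · intro l' _ hne
        rw [coeff_single_mul_apply, one_mul]
        by_contra hc
        have hm := hg _ _ _ hc
        apply hne
        apply c.τ_dist
        have h4 := (E.F ω).mul_mem hm ((E.F ω).inv_mem hxF)
        rwa [← mul_assoc, mul_assoc, mul_inv_cancel, mul_one] at h4
      · intro h5
        exact absurd (Finset.mem_univ _) h5
    rw [← h3, hψ']
    refine ⟨(ψ' i u).coeff (c.τ l * x), ?_⟩
    rfl

/-- a homotopy up to a constant: a multiple of the identity factors through `D₁` -/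
private theorem KillRF2_exists_K (hR : RFS A E) {X : DGF E β ε} (hL : X.Lev (-1)) {ω : Ω}
    {C₀ : Type} [Fintype C₀] [DecidableEq C₀] {V : Matrix C₀ X.K (MonoidAlgebra A G)}
    (hc : X.Cyc true (-1) V) (R : Res4 X ω (-1) V) :
    ∃ (a : A) (K : Matrix C₀ (Fin R.c₁) (MonoidAlgebra A G)), a ≠ 0 ∧ OnF (E.F ω) K ∧
      a • (1 : Matrix C₀ C₀ (MonoidAlgebra A G)) = K * R.D₁ := by
  classical
  obtain ⟨a, ha, hb⟩ := tors hR hL
  have h1 : ∀ j : C₀, ∃ κ : Matrix Unit (Fin R.c₁) (MonoidAlgebra A G),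
      a • (Matrix.of fun (_ : Unit) j' => (1 : Matrix C₀ C₀ (MonoidAlgebra A G)) j j') =
        κ * R.D₁ := by
    intro j
    obtain ⟨x, hx⟩ := hb _ (hc.mul_left (Matrix.of fun (_ : Unit) j' =>
      (1 : Matrix C₀ C₀ (MonoidAlgebra A G)) j j'))
    refine R.g₁ _ ⟨x, ?_⟩
    rw [Matrix.smul_mul]
    exact hx
  choose κ hκ using h1
  have h2 : a • (1 : Matrix C₀ C₀ (MonoidAlgebra A G)) =
      (Matrix.of fun j i => κ j () i) * R.D₁ := by
    ext1 j j'
    have h3 := congrFun (congrFun (hκ j) ()) j'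
    rw [Matrix.mul_apply] at h3 ⊢
    exact h3
  obtain ⟨K, hK, hK'⟩ := On0.exists_left (E := E) (s := fun _ : C₀ => ω)
    (t := fun _ => ω) (r := fun _ => ω) (OnF.on0 R.D₁_on) (On0.one.smul a) h2
  exact ⟨a, K, ha, hK.onF, hK'⟩

/-- dual exactness in position `0` -/
theorem res4_col0 (hR : RFS A E) {X : DGF E β ε} (hL : X.Lev (-1)) {ω : Ω} {C₀ : Type}
    [Fintype C₀] [DecidableEq C₀] {V : Matrix C₀ X.K (MonoidAlgebra A G)}
    (hc : X.Cyc true (-1) V) (R : Res4 X ω (-1) V) (y : Matrix C₀ Unit (MonoidAlgebra A G))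
    (hy : R.D₁ * y = 0) : y = 0 := by
  obtain ⟨a, K, ha, -, hK⟩ := KillRF2_exists_K hR hL hc R
  refine smul_cancel ha ?_
  rw [smul_zero, ← Matrix.one_mul y, ← Matrix.smul_mul, hK, Matrix.mul_assoc, hy, Matrix.mul_zero]

private theorem KillRF2_col1_onF [UniqueFactorizationMonoid A] (hR : RFS A E) {X : DGF E β ε}
    (hL : X.Lev (-1)) {ω : Ω} {n : ℕ} {b : Bool} (hn : par n b = true)
    (c : Content X ω (-1) n b) (R : Res4 X ω (-1) c.V)
    {y : Matrix (Fin R.c₁) Unit (MonoidAlgebra A G)} (hyF : OnF (E.F ω) y)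
    (hy : R.D₂ * y = 0) :
    ∃ z : Matrix (c.r × c.ι) Unit (MonoidAlgebra A G), y = R.D₁ * z := by
  classical
  obtain ⟨a, K, ha, hKF, hK⟩ := KillRF2_exists_K hR hL (c.V_cyc hn) R
  have h1 : (R.D₁ * K - a • (1 : Matrix (Fin R.c₁) (Fin R.c₁) (MonoidAlgebra A G))) * R.D₁ =
      0 := by
    rw [Matrix.sub_mul, Matrix.mul_assoc, ← hK, Matrix.mul_smul, Matrix.mul_one,
      Matrix.smul_mul, Matrix.one_mul, sub_self]
  have h2 : ∀ i : Fin R.c₁, (Matrix.of fun (_ : Unit) j =>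
      (R.D₁ * K - a • (1 : Matrix (Fin R.c₁) (Fin R.c₁) (MonoidAlgebra A G))) i j) * y = 0 := by
    intro i
    obtain ⟨κ, hκ⟩ := R.g₂ (Matrix.of fun (_ : Unit) j =>
      (R.D₁ * K - a • (1 : Matrix (Fin R.c₁) (Fin R.c₁) (MonoidAlgebra A G))) i j) (by
        ext1 u j
        have h3 := congrFun (congrFun h1 i) j
        rw [Matrix.mul_apply] at h3 ⊢
        exact h3)
    rw [hκ, Matrix.mul_assoc, hy, Matrix.mul_zero]
  have h3 : (R.D₁ * K - a • (1 : Matrix (Fin R.c₁) (Fin R.c₁) (MonoidAlgebra A G))) * y = 0 := by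
    ext1 i u
    have h4 := congrFun (congrFun (h2 i) ()) u
    rw [Matrix.mul_apply] at h4 ⊢
    exact h4
  have h5 : R.D₁ * (K * y) = a • y := by
    rw [Matrix.sub_mul, Matrix.smul_mul, Matrix.one_mul, Matrix.mul_assoc] at h3
    exact sub_eq_zero.1 h3
  have hg : OnF (E.F ω) (K * y) := (On0.mul (OnF.on0 (E := E) hKF) (OnF.on0 hyF)).onF
  obtain ⟨z, hz⟩ := content_mod hR hL hn c ha hg (by
    intro κ hκ
    obtain ⟨x, hx⟩ := hκ
    obtain ⟨l, hl⟩ := R.g₁ κ ⟨x, hx⟩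
    refine ⟨l * y, ?_⟩
    rw [hl, Matrix.mul_assoc, h5, Matrix.mul_smul])
  refine ⟨z, smul_cancel ha ?_⟩
  rw [← h5, hz, Matrix.mul_smul]

/-- dual exactness in position `1` -/
theorem res4_col1 [UniqueFactorizationMonoid A] (hR : RFS A E) {X : DGF E β ε}
    (hL : X.Lev (-1)) {ω : Ω} {n : ℕ} {b : Bool} (hn : par n b = true)
    (c : Content X ω (-1) n b) (R : Res4 X ω (-1) c.V)
    (y : Matrix (Fin R.c₁) Unit (MonoidAlgebra A G)) (hy : R.D₂ * y = 0) :
    ∃ z : Matrix (c.r × c.ι) Unit (MonoidAlgebra A G), y = R.D₁ * z := by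
  refine rep_of_cR (F := E.F ω) R.D₁_on fun g => ?_
  refine KillRF2_col1_onF hR hL hn c R (cR_onF g y) ?_
  rw [← cR_mul R.D₂_on, hy, cR_zero]

theorem killHyp_one [UniqueFactorizationMonoid A] (h : ∀ ω, RF A (E.F ω)) :
    KillHyp E β ε (-1) := by
  intro X hL ω n b hn c
  have hR := rfs_of_rf h
  obtain ⟨R⟩ := exists_res4 (h ω) hL c.V_on (c.V_cyc hn)
  exact R.exists_kill c.V_on (c.V_cyc hn) (fun _ y hy => res4_col0 hR hL (c.V_cyc hn) R y hy)
    (fun _ y hy => res4_col1 hR hL hn c R y hy) (by norm_num)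

end

end Pool.Agent.Lib.MP_98022b_UM
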