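import Mathlib
import Pool.Agent.Lib.MP_98022b_UM.KillRF
import Pool.Agent.Lib.MP_98022b_UM.EndRF
import Pool.Agent.Lib.MP_98022b_UM.Level

/-! The main theorem for object groups with the facts `RF`. -/

open MonoidAlgebra

namespace Pool.Agent.Lib.MP_98022b_UM

open Pool.Agent.Lib.MP_98022b_UN

universe u v w w'

theorem main_rf {A : Type u} {Ω : Type w} {G : Type v} [CommRing A] [IsDomain A]
    [UniqueFactorizationMonoid A] [Group G] {E : BSys Ω G} {β : BarStr A G} {ε : ℤ}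
    (hG : E.Geo) (hN : E.NoInv) (hε : ε = 1 ∨ ε = -1) (h : ∀ ω, RF A (E.F ω))
    (X : BF E β ε) : X.SMetab := by
  refine dg_main hG hN hε (rfs_of_rf h).c1 2 ?_ ?_ X
  · intro k hk
    have h' : ∀ ω, RF A (E.flip.F ω) := h
    interval_cases k
    · have h0 : (-((0 : ℕ) : ℤ)) = 0 := by norm_num
      rw [h0]
      exact ⟨killHyp_zero h, killHyp_zero h'⟩
    · have h1 : (-((1 : ℕ) : ℤ)) = -1 := by norm_num
      rw [h1]
      exact ⟨killHyp_one h, killHyp_one h'⟩
  · intro Y hY i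
    have h2 : (-((2 : ℕ) : ℤ)) = -2 := by norm_num
    rw [h2] at hY
    exact end_rf (rfs_of_rf h) hY i

end Pool.Agent.Lib.MP_98022b_UM
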