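import Mathlib
import Pool.Agent.Lib.MP_98022b_UM.OnL

/-! Task Bi: the two-sided system of an edge. -/

open MonoidAlgebra

namespace Pool.Agent.Lib.MP_98022b_UM

open Pool.Agent.Lib.MP_98022b_UN

universe u v w w'

section
variable {A : Type u} {G : Type v} [CommRing A] [Group G]

/-- the two-sided system of an edge system: the objects are the two orientations of the edge, the
letters of side `true` are the turns, the letters of side `false` exchange the orientations -/
def biSys (E : EdgeSys G) : BSys (ULift.{v} Bool) G where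
  F := fun _ => E.F
  S := fun b ω ω' => match b with
    | true => E.S ω.down (!ω'.down)
    | false => {g | g ∈ E.F ∧ ω'.down = !ω.down}
  left' := by
    intro b ω ω' f g hf hg
    cases b
    · exact ⟨E.F.mul_mem hf hg.1, hg.2⟩
    · exact E.left' hf hg
  inv' := by
    intro b ω ω' g hg
    cases b
    · exact ⟨E.F.inv_mem hg.1, by rw [hg.2, Bool.not_not]⟩
    · have h := E.inv' hg
      rwa [Bool.not_not] at h

private theorem Bi1_P_left (E : EdgeSys G) {f g : G} (hf : f ∈ E.F) : ∀ {m : ℕ} {σ τ : Bool},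
    g ∈ E.P m σ τ → f * g ∈ E.P m σ τ
  | 0, _, _, h => ⟨E.F.mul_mem hf h.1, h.2⟩
  | _ + 1, _, _, h => by
    obtain ⟨ρ, s, hs, t, ht, rfl⟩ := h
    exact ⟨ρ, f * s, E.left' hf hs, t, ht, mul_assoc f s t⟩

private theorem Bi1_par (m : ℕ) (b : Bool) : par m (!b) = !(par m b) := by
  induction m generalizing b with
  | zero => rfl
  | succ m ih => exact ih (!b)

private theorem Bi1_W (E : EdgeSys G) (m : ℕ) : (∀ (ω ω' : ULift.{v} Bool) (g : G),
    g ∈ (biSys E).W m true ω ω' → g ∈ E.P ((m + 1) / 2) ω.down (par m ω'.down)) ∧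
    ∀ (ω ω' : ULift.{v} Bool) (g : G),
      g ∈ (biSys E).W m false ω ω' → g ∈ E.P (m / 2) (!ω.down) (!(par m ω'.down)) := by
  induction m with
  | zero =>
    constructor
    · intro ω ω' g h
      exact ⟨h.1, by rw [h.2]; rfl⟩
    · intro ω ω' g h
      exact ⟨h.1, by rw [h.2]; rfl⟩
  | succ m ih =>
    have e1 : ∀ b, par (m + 1) b = !(par m b) := fun b => Bi1_par m b
    constructor
    · intro ω ω' g h
      obtain ⟨ρ, s, hs, t, ht, rfl⟩ := h
      have e2 : (m + 1 + 1) / 2 = m / 2 + 1 := by omega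
      rw [e1, e2]
      exact ⟨!ρ.down, s, hs, t, ih.2 ρ ω' t ht, rfl⟩
    · intro ω ω' g h
      obtain ⟨ρ, s, hs, t, ht, rfl⟩ := h
      rw [e1, Bool.not_not]
      have hs1 : s ∈ E.F := hs.1
      have hs2 : ρ.down = !ω.down := hs.2
      have h1 := ih.1 ρ ω' t ht
      rw [hs2] at h1
      exact Bi1_P_left E hs1 h1

theorem biSys_geo {E : EdgeSys G} (hE : E.Geo) : (biSys E).Geo := by
  intro m b ω ω' ρ ρ' s s' t t' hs ht hs' ht' e
  cases b
  · have h1 : s ∈ E.F ∧ ρ.down = !ω.down := hs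
    have h2 : s' ∈ E.F ∧ ρ'.down = !ω.down := hs'
    refine ⟨ULift.ext _ _ (h1.2.trans h2.2.symm), E.F.mul_mem (E.F.inv_mem h1.1) h2.1⟩
  · have h1 := (Bi1_W E m).2 ρ ω' t ht
    have h2 := (Bi1_W E m).2 ρ' ω' t' ht'
    obtain ⟨h3, h4⟩ := hE (m / 2) ω.down (!(par m ω'.down)) (!ρ.down) (!ρ'.down) s s' t t'
      hs h1 hs' h2 e
    exact ⟨ULift.ext _ _ (by simpa using h3), h4⟩

theorem biSys_noInv {E : EdgeSys G} (h : ∀ (σ : Bool) (g : G), g ∈ E.S σ (!σ) → g⁻¹ ≠ g) :
    (biSys E).NoInv := by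
  intro b ω g hg
  cases b
  · have h1 : g ∈ E.F ∧ ω.down = !ω.down := hg
    have h2 := h1.2
    cases hω : ω.down <;> simp [hω] at h2
  · exact h ω.down g hg

/-- the labels of a form in block shape -/
def rbT (n m : Type) : n ⊕ m → ULift.{v} Bool := Sum.elim (fun _ => ⟨false⟩) (fun _ => ⟨true⟩)

/-- a form in block shape -/
noncomputable def rbM (β : BarStr A G) (ε : ℤ) {n m : Type} (a : Matrix n n (MonoidAlgebra A G))
    (b : Matrix n m (MonoidAlgebra A G)) (c : Matrix m m (MonoidAlgebra A G))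
    (N : Matrix n m (MonoidAlgebra A G)) : Bool → Matrix (n ⊕ m) (n ⊕ m) (MonoidAlgebra A G)
  | true => Matrix.fromBlocks a b (ε • adj β b) c
  | false => Matrix.fromBlocks 0 N (ε • adj β N) 0

variable {E : EdgeSys G} {β : BarStr A G} {ε : ℤ} {n m : Type} [Fintype n] [DecidableEq n]
  [Fintype m] [DecidableEq m]

private theorem Bi2_supp_mul_F {I J K : Type} [Fintype J] {F : Subgroup G} {U : Set G}
    (hU : ∀ {f g : G}, f ∈ F → g ∈ U → f * g ∈ U) {M : Matrix I J (MonoidAlgebra A G)}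
    {N : Matrix J K (MonoidAlgebra A G)} (hM : OnF F M) (hN : Supp U N) : Supp U (M * N) := by
  intro i k g h
  rw [Matrix.mul_apply] at h
  obtain ⟨j, -, hj⟩ := OnAux.supp_sum h
  obtain ⟨a, b, ha, hb, rfl⟩ := OnAux.supp_mul hj
  exact hU (hM i j a ha) (hN j k b hb)

private theorem Bi2_supp_F_mul {I J K : Type} [Fintype J] {F : Subgroup G} {U : Set G}
    (hU : ∀ {f g : G}, g ∈ U → f ∈ F → g * f ∈ U) {M : Matrix I J (MonoidAlgebra A G)}
    {N : Matrix J K (MonoidAlgebra A G)} (hM : Supp U M) (hN : OnF F N) : Supp U (M * N) := by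
  intro i k g h
  rw [Matrix.mul_apply] at h
  obtain ⟨j, -, hj⟩ := OnAux.supp_sum h
  obtain ⟨a, b, ha, hb, rfl⟩ := OnAux.supp_mul hj
  exact hU (hM i j a ha) (hN j k b hb)

private theorem Bi2_ee (hε : ε = 1 ∨ ε = -1) {I J : Type} (M : Matrix I J (MonoidAlgebra A G)) :
    ε • ε • M = M := by
  rw [smul_smul]
  have : ε * ε = 1 := by rcases hε with rfl | rfl <;> norm_num
  rw [this, one_smul]

theorem isBF_of_sform (hε : ε = 1 ∨ ε = -1) {b a c : Matrix n n (MonoidAlgebra A G)}
    (h : SForm E β ε b a c) : IsBF (biSys E) β ε (rbT n n) (rbM β ε (ε • a) b c 1) := by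
  refine ⟨?_, ?_, ?_⟩
  · intro s
    cases s
    · intro i j g hg
      rcases i with i | i <;> rcases j with j | j
      · exact absurd rfl hg
      · have hg' : ((1 : Matrix n n (MonoidAlgebra A G)) i j).coeff g ≠ 0 := hg
        refine ⟨?_, rfl⟩
        exact OnF.one E.F i j g hg'
      · have hg' : ((ε • adj β (1 : Matrix n n (MonoidAlgebra A G))) i j).coeff g ≠ 0 := hg
        refine ⟨?_, rfl⟩
        rw [adj_one] at hg'
        exact OnF.one E.F i j g (OnAux.supp_zsmul hg')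
      · exact absurd rfl hg
    · intro i j g hg
      rcases i with i | i <;> rcases j with j | j
      · have hg' : ((ε • a) i j).coeff g ≠ 0 := hg
        exact h.ha i j g (OnAux.supp_zsmul hg')
      · exact h.hb i j g hg
      · have hg' : ((ε • adj β b) i j).coeff g ≠ 0 := hg
        have h1 := h.hb j i _ (β.supp' _ _ (OnAux.supp_zsmul hg'))
        have h2 := E.inv' h1
        rw [inv_inv] at h2
        exact h2
      · exact h.hc i j g hg
  · intro s
    cases s
    · show adj β (Matrix.fromBlocks 0 1 (ε • adj β 1) 0) = ε • Matrix.fromBlocks 0 1 (ε • adj β 1) 0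
      rw [adj_fromBlocks, Matrix.fromBlocks_smul, adj_zero, adj_zsmul, adj_adj, adj_one,
        Bi2_ee hε]
      simp only [smul_zero]
    · show adj β (Matrix.fromBlocks (ε • a) b (ε • adj β b) c) =
        ε • Matrix.fromBlocks (ε • a) b (ε • adj β b) c
      rw [adj_fromBlocks, Matrix.fromBlocks_smul, adj_zsmul, adj_zsmul, adj_adj, h.ea, h.ec,
        Bi2_ee hε (adj β b)]
  · obtain ⟨N, hN⟩ := h.nil
    refine ⟨N, ?_⟩
    have e1 : rbM β ε (ε • a) b c (1 : Matrix n n (MonoidAlgebra A G)) true *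
        rbM β ε (ε • a) b c 1 false = ε • Matrix.fromBlocks b a c (adj β b) := by
      show Matrix.fromBlocks (ε • a) b (ε • adj β b) c *
        Matrix.fromBlocks 0 1 (ε • adj β 1) 0 = _
      rw [Matrix.fromBlocks_multiply, Matrix.fromBlocks_smul, adj_one]
      simp only [Matrix.mul_zero, zero_add, add_zero, Matrix.mul_one, Matrix.mul_smul]
    rw [e1, smul_pow, hN, smul_zero]

theorem sform_of_rb (hε : ε = 1 ∨ ε = -1) {a : Matrix n n (MonoidAlgebra A G)}
    {b : Matrix n m (MonoidAlgebra A G)} {c : Matrix m m (MonoidAlgebra A G)}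
    {N : Matrix n m (MonoidAlgebra A G)} (h : IsBF (biSys E) β ε (rbT n m) (rbM β ε a b c N)) :
    SForm E β ε (b * adj β N) (ε • a) (N * c * adj β N) := by
  have hN : OnF E.F N := fun i j g hg => (h.on false (Sum.inl i) (Sum.inr j) g hg).1
  have hN' : OnF E.F (adj β N) := OnF.adj β hN
  have hb : Supp (E.S false false) b := fun i j g hg => h.on true (Sum.inl i) (Sum.inr j) g hg
  have ha : Supp (E.S false true) a := fun i j g hg => h.on true (Sum.inl i) (Sum.inl j) g hg
  have hc : Supp (E.S true false) c := fun i j g hg => h.on true (Sum.inr i) (Sum.inr j) g hg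
  have hs : adj β (Matrix.fromBlocks a b (ε • adj β b) c) =
      ε • Matrix.fromBlocks a b (ε • adj β b) c := h.sym true
  rw [adj_fromBlocks, Matrix.fromBlocks_smul] at hs
  have ea : adj β a = ε • a := (Matrix.fromBlocks_inj.1 hs).1
  have ec : adj β c = ε • c := (Matrix.fromBlocks_inj.1 hs).2.2.2
  refine ⟨?_, ?_, ?_, ?_, ?_, ?_⟩
  · exact Bi2_supp_F_mul (F := E.F) (fun hg hf => E.right' hg hf) hb hN'
  · intro i j g hg
    exact ha i j g (OnAux.supp_zsmul hg)
  · exact Bi2_supp_F_mul (F := E.F) (fun hg hf => E.right' hg hf)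
      (Bi2_supp_mul_F (F := E.F) (fun hf hg => E.left' hf hg) hN hc) hN'
  · rw [adj_zsmul, ea]
  · rw [adj_mul, adj_mul, adj_adj, ec, Matrix.smul_mul, Matrix.mul_smul, Matrix.mul_assoc]
  · obtain ⟨k, hk⟩ := h.nil
    set V : Matrix (n ⊕ n) (n ⊕ m) (MonoidAlgebra A G) := Matrix.fromBlocks 1 0 0 N with hV
    set W : Matrix (n ⊕ m) (n ⊕ n) (MonoidAlgebra A G) :=
      Matrix.fromBlocks 0 (ε • 1) (adj β N) 0 with hW
    set Mt := rbM β ε a b c N true with hMt
    set Mf := rbM β ε a b c N false with hMf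
    have e1 : Matrix.fromBlocks (b * adj β N) (ε • a) (N * c * adj β N)
        (adj β (b * adj β N)) = V * Mt * W := by
      rw [hV, hW, hMt]
      show _ = Matrix.fromBlocks 1 0 0 N * Matrix.fromBlocks a b (ε • adj β b) c *
        Matrix.fromBlocks 0 (ε • 1) (adj β N) 0
      rw [Matrix.fromBlocks_multiply, Matrix.fromBlocks_multiply, adj_mul, adj_adj]
      simp only [Matrix.one_mul, Matrix.zero_mul, add_zero, zero_add, Matrix.mul_zero,
        Matrix.mul_smul, Matrix.mul_one, smul_zero, Bi2_ee hε]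
    have e2 : W * V = ε • Mf := by
      rw [hV, hW, hMf]
      show Matrix.fromBlocks 0 (ε • 1) (adj β N) 0 * Matrix.fromBlocks 1 0 0 N =
        ε • Matrix.fromBlocks 0 N (ε • adj β N) 0
      rw [Matrix.fromBlocks_multiply, Matrix.fromBlocks_smul]
      simp only [Matrix.zero_mul, add_zero, zero_add, Matrix.mul_zero, Matrix.smul_mul,
        Matrix.one_mul, Matrix.mul_one, smul_zero, Bi2_ee hε]
    have e3 : ∀ j : ℕ, (V * Mt * W) ^ (j + 1) = V * Mt * (ε • Mf * Mt) ^ j * W := by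
      intro j
      induction j with
      | zero => rw [zero_add, pow_one, pow_zero, Matrix.mul_one]
      | succ j ih =>
        rw [pow_succ, ih, pow_succ (ε • Mf * Mt) j, ← e2]
        simp only [Matrix.mul_assoc]
    have e4 : (Mf * Mt) ^ (k + 1) = 0 := by
      have : ∀ j : ℕ, (Mf * Mt) ^ (j + 1) = Mf * (Mt * Mf) ^ j * Mt := by
        intro j
        induction j with
        | zero => rw [zero_add, pow_one, pow_zero, Matrix.mul_one]
        | succ j ih =>
          rw [pow_succ, ih, pow_succ (Mt * Mf) j]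
          simp only [Matrix.mul_assoc]
      rw [this k, hk, Matrix.mul_zero, Matrix.zero_mul]
    refine ⟨k + 1 + 1, ?_⟩
    rw [e1, e3, Matrix.smul_mul, smul_pow, e4, smul_zero, Matrix.mul_zero, Matrix.zero_mul]

theorem smet_of_rb (hε : ε = 1 ∨ ε = -1) {a : Matrix n n (MonoidAlgebra A G)}
    {b : Matrix n m (MonoidAlgebra A G)} {c : Matrix m m (MonoidAlgebra A G)}
    {N : Matrix n m (MonoidAlgebra A G)} (h : MetabP (biSys E) β (rbT n m) (rbM β ε a b c N)) :
    SMet E β (b * adj β N) (ε • a) (N * c * adj β N) := by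
  obtain ⟨Q, hQ, hQQ, h1, h2⟩ := h
  obtain ⟨Qf, Qr, Ql, Qt, rfl⟩ : ∃ Qf Qr Ql Qt, Q = Matrix.fromBlocks Qf Qr Ql Qt :=
    ⟨Q.toBlocks₁₁, Q.toBlocks₁₂, Q.toBlocks₂₁, Q.toBlocks₂₂, (Matrix.fromBlocks_toBlocks Q).symm⟩
  have hr : Qr = 0 := by
    funext i j
    ext g
    by_contra hc
    have h3 := (hQ (Sum.inl i) (Sum.inr j) g hc).2
    have h4 : (false : Bool) = true := congrArg ULift.down h3
    exact absurd h4 (by decide)
  have hl : Ql = 0 := by
    funext i j
    ext g
    by_contra hc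
    have h3 := (hQ (Sum.inr i) (Sum.inl j) g hc).2
    have h4 : (true : Bool) = false := congrArg ULift.down h3
    exact absurd h4 (by decide)
  subst hr
  subst hl
  have hF : OnF E.F Qf := fun i j g hg => (hQ (Sum.inl i) (Sum.inl j) g hg).1
  rw [Matrix.fromBlocks_multiply] at hQQ
  have hPP : Qf * Qf = Qf := by
    have := (Matrix.fromBlocks_inj.1 hQQ).1
    simpa using this
  have h1' : Matrix.fromBlocks Qf 0 0 Qt * Matrix.fromBlocks a b (ε • adj β b) c *
      adj β (Matrix.fromBlocks Qf 0 0 Qt) = 0 := h1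
  have h2' : adj β (1 - Matrix.fromBlocks Qf 0 0 Qt) * Matrix.fromBlocks 0 N (ε • adj β N) 0 *
      (1 - Matrix.fromBlocks Qf 0 0 Qt) = 0 := h2
  have e0 : (1 : Matrix (n ⊕ m) (n ⊕ m) (MonoidAlgebra A G)) - Matrix.fromBlocks Qf 0 0 Qt =
      Matrix.fromBlocks (1 - Qf) 0 0 (1 - Qt) := by
    rw [← Matrix.fromBlocks_one, sub_eq_add_neg, Matrix.fromBlocks_neg, Matrix.fromBlocks_add]
    simp [sub_eq_add_neg]
  rw [e0, adj_fromBlocks, Matrix.fromBlocks_multiply, Matrix.fromBlocks_multiply,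
    ← Matrix.fromBlocks_zero, Matrix.fromBlocks_inj] at h2'
  rw [adj_fromBlocks, Matrix.fromBlocks_multiply, Matrix.fromBlocks_multiply,
    ← Matrix.fromBlocks_zero, Matrix.fromBlocks_inj] at h1'
  simp only [adj_zero, Matrix.mul_zero, Matrix.zero_mul, add_zero, zero_add] at h1' h2'
  obtain ⟨ha, hb, -, hc⟩ := h1'
  obtain ⟨-, hN, -, -⟩ := h2'
  -- (1 - Qf)* N (1 - Qt) = 0
  have k1 : adj β (1 - Qf) * N = adj β (1 - Qf) * N * Qt := by
    rw [Matrix.mul_sub, Matrix.mul_one, sub_eq_zero] at hN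
    exact hN
  have k2 : adj β N * (1 - Qf) = adj β Qt * adj β N * (1 - Qf) := by
    have := congrArg (adj β) k1
    rw [adj_mul, adj_mul, adj_mul, adj_adj, ← Matrix.mul_assoc] at this
    exact this
  refine ⟨Qf, hF, hPP, ?_, ?_, ?_⟩
  · calc Qf * (b * adj β N) * (1 - Qf) = Qf * b * (adj β N * (1 - Qf)) := by
          simp only [Matrix.mul_assoc]
      _ = Qf * b * (adj β Qt * adj β N * (1 - Qf)) := by rw [← k2]
      _ = Qf * b * adj β Qt * (adj β N * (1 - Qf)) := by simp only [Matrix.mul_assoc]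
      _ = 0 := by rw [hb, Matrix.zero_mul]
  · rw [Matrix.mul_smul, Matrix.smul_mul, ha, smul_zero]
  · calc adj β (1 - Qf) * (N * c * adj β N) * (1 - Qf)
        = (adj β (1 - Qf) * N) * c * (adj β N * (1 - Qf)) := by
          simp only [Matrix.mul_assoc]
      _ = (adj β (1 - Qf) * N * Qt) * c * (adj β Qt * adj β N * (1 - Qf)) := by
          rw [← k1, ← k2]
      _ = adj β (1 - Qf) * N * (Qt * c * adj β Qt) * (adj β N * (1 - Qf)) := by
          simp only [Matrix.mul_assoc]
      _ = 0 := by rw [hc, Matrix.mul_zero, Matrix.zero_mul]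

end

end Pool.Agent.Lib.MP_98022b_UM
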