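import Mathlib
import Pool.Agent.Lib.MP_98022b_UM.Bi
import Pool.Agent.Lib.MP_98022b_UM.BFL

/-! Task BiBack: from stably metabolic two-sided forms back to explicit forms. -/

open MonoidAlgebra

namespace Pool.Agent.Lib.MP_98022b_UM

open Pool.Agent.Lib.MP_98022b_UN

universe u v w w'

section
variable {A : Type u} {G : Type v} [CommRing A] [Group G] {E : EdgeSys G} {β : BarStr A G} {ε : ℤ}

private theorem BiBack_ulift {x : ULift.{v} Bool} {c : Bool} (h : x.down = c) : x = ⟨c⟩ := by
  cases x
  cases h
  rfl

/-- every form of the two-sided system of an edge has block shape -/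
theorem exists_rb (hε : ε = 1 ∨ ε = -1) (X : BF (biSys E) β ε) :
    ∃ (n m : Type) (_ : Fintype n) (_ : DecidableEq n) (_ : Fintype m) (_ : DecidableEq m)
      (e : X.K ≃ n ⊕ m) (a : Matrix n n (MonoidAlgebra A G)) (b : Matrix n m (MonoidAlgebra A G))
      (c : Matrix m m (MonoidAlgebra A G)) (N : Matrix n m (MonoidAlgebra A G)),
      (∀ l, X.t (e.symm l) = rbT n m l) ∧
      ∀ side, Matrix.reindex e e (X.M side) = rbM β ε a b c N side := by
  have hee : ε * ε = 1 := by rcases hε with rfl | rfl <;> norm_num
  let e : X.K ≃ {k : X.K // (X.t k).down = false} ⊕ {k : X.K // ¬ (X.t k).down = false} :=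
    (Equiv.sumCompl (fun k : X.K => (X.t k).down = false)).symm
  have hel : ∀ k, e.symm (Sum.inl k) = k.1 := fun k => rfl
  have her : ∀ k, e.symm (Sum.inr k) = k.1 := fun k => rfl
  have hsym : ∀ (side : Bool) (k l : X.K), ε • X.M side k l = β.bar (X.M side l k) := by
    intro side k l
    have h := congrFun (congrFun (X.is.sym side) k) l
    rw [Matrix.smul_apply] at h
    rw [← h]
    rfl
  have hsym' : ∀ (side : Bool) (k l : X.K), X.M side k l = ε • β.bar (X.M side l k) := by
    intro side k l
    rw [← hsym side k l, smul_smul, hee, one_smul]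
  have hzero : ∀ k l : X.K, (X.t k).down = (X.t l).down → X.M false k l = 0 := by
    intro k l hkl
    ext g
    by_contra hne
    have h := X.is.on false k l g (by simpa using hne)
    have h2 : (X.t l).down = !(X.t k).down := h.2
    rw [hkl] at h2
    cases hc : (X.t l).down <;> rw [hc] at h2 <;> exact absurd h2 (by decide)
  refine ⟨{k : X.K // (X.t k).down = false}, {k : X.K // ¬ (X.t k).down = false}, inferInstance,
    inferInstance, inferInstance, inferInstance, e, fun i j => X.M true i.1 j.1,
    fun i j => X.M true i.1 j.1, fun i j => X.M true i.1 j.1, fun i j => X.M false i.1 j.1, ?_, ?_⟩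
  · rintro (l | l)
    · rw [hel]
      exact BiBack_ulift l.2
    · rw [her]
      exact BiBack_ulift (by simpa using l.2)
  · intro side
    refine Matrix.ext fun i j => ?_
    rw [Matrix.reindex_apply, Matrix.submatrix_apply]
    cases side
    · rcases i with i | i <;> rcases j with j | j
      · rw [hel, hel]
        exact hzero _ _ (i.2.trans j.2.symm)
      · rfl
      · rw [hel, her]
        exact hsym' false _ _
      · rw [her, her]
        have h1 : (X.t i.1).down = true := by simpa using i.2
        have h2 : (X.t j.1).down = true := by simpa using j.2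
        exact hzero _ _ (h1.trans h2.symm)
    · rcases i with i | i <;> rcases j with j | j
      · rfl
      · rfl
      · rw [hel, her]
        exact hsym' true _ _
      · rfl

private theorem BiBack_reindex_four {n m m' : Type}
    (a : Matrix n n (MonoidAlgebra A G)) (b : Matrix n n (MonoidAlgebra A G))
    (c : Matrix n n (MonoidAlgebra A G)) (d : Matrix n n (MonoidAlgebra A G))
    (a' : Matrix m m (MonoidAlgebra A G)) (b' : Matrix m m' (MonoidAlgebra A G))
    (c' : Matrix m' m (MonoidAlgebra A G)) (d' : Matrix m' m' (MonoidAlgebra A G)) :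
    Matrix.reindex (Equiv.sumSumSumComm n n m m') (Equiv.sumSumSumComm n n m m')
      (Matrix.fromBlocks (Matrix.fromBlocks a b c d) 0 0 (Matrix.fromBlocks a' b' c' d')) =
    Matrix.fromBlocks (Matrix.fromBlocks a 0 0 a') (Matrix.fromBlocks b 0 0 b')
      (Matrix.fromBlocks c 0 0 c') (Matrix.fromBlocks d 0 0 d') := by
  refine Matrix.ext fun i j => ?_
  rcases i with (i | i) | (i | i) <;> rcases j with (j | j) | (j | j) <;> rfl

theorem expl_of_bi (hε : ε = 1 ∨ ε = -1) {n : Type} [Fintype n] [DecidableEq n]
    {b a c : Matrix n n (MonoidAlgebra A G)} (hX : SForm E β ε b a c)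
    (h : ∀ X : BF (biSys E) β ε, X.SMetab) :
    ∃ (m : Type) (_ : Fintype m) (_ : DecidableEq m) (b' a' c' : Matrix m m (MonoidAlgebra A G)),
      SForm E β ε b' a' c' ∧ SMet E β b' a' c' ∧
      SMet E β (Matrix.fromBlocks b 0 0 b') (Matrix.fromBlocks a 0 0 a')
        (Matrix.fromBlocks c 0 0 c') := by
  have hee : ε * ε = 1 := by rcases hε with rfl | rfl <;> norm_num
  obtain ⟨Y, hY, hXY⟩ := h ⟨n ⊕ n, rbT n n, rbM β ε (ε • a) b c 1, isBF_of_sform hε hX⟩
  obtain ⟨m, m', _, _, _, _, e, a', b', c', N', ht, hM⟩ := exists_rb hε Y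
  have ht' : (fun l => Y.t (e.symm l)) = rbT m m' := funext ht
  have hM' : (fun side => Matrix.reindex e e (Y.M side)) = rbM β ε a' b' c' N' := funext hM
  refine ⟨m, inferInstance, inferInstance, b' * adj β N', ε • a', N' * c' * adj β N', ?_, ?_, ?_⟩
  · have h1 := Y.is.reindex e
    rw [ht', hM'] at h1
    exact sform_of_rb hε h1
  · have h1 := MetabP.reindex hY e
    rw [ht', hM'] at h1
    exact smet_of_rb hε h1
  · have h1 := MetabP.reindex hXY ((Equiv.sumCongr (Equiv.refl (n ⊕ n)) e).trans
      (Equiv.sumSumSumComm n n m m'))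
    have h2 : ∀ (X : Matrix (n ⊕ n) (n ⊕ n) (MonoidAlgebra A G))
        (Z : Matrix Y.K Y.K (MonoidAlgebra A G)),
        Matrix.reindex ((Equiv.sumCongr (Equiv.refl (n ⊕ n)) e).trans
          (Equiv.sumSumSumComm n n m m')) ((Equiv.sumCongr (Equiv.refl (n ⊕ n)) e).trans
          (Equiv.sumSumSumComm n n m m')) (Matrix.fromBlocks X 0 0 Z) =
        Matrix.reindex (Equiv.sumSumSumComm n n m m') (Equiv.sumSumSumComm n n m m')
          (Matrix.fromBlocks X 0 0 (Matrix.reindex e e Z)) := by
      intro X Z
      refine Matrix.ext fun i j => ?_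
      rcases i with (i | i) | (i | i) <;> rcases j with (j | j) | (j | j) <;> rfl
    have h3 : (fun l => Sum.elim (rbT n n) Y.t (((Equiv.sumCongr (Equiv.refl (n ⊕ n)) e).trans
          (Equiv.sumSumSumComm n n m m')).symm l)) = rbT (n ⊕ m) (n ⊕ m') := by
      funext l
      rcases l with (l | l) | (l | l)
      · rfl
      · exact ht (Sum.inl l)
      · rfl
      · exact ht (Sum.inr l)
    have h4 : (fun side => Matrix.reindex ((Equiv.sumCongr (Equiv.refl (n ⊕ n)) e).trans
          (Equiv.sumSumSumComm n n m m')) ((Equiv.sumCongr (Equiv.refl (n ⊕ n)) e).trans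
          (Equiv.sumSumSumComm n n m m'))
          (Matrix.fromBlocks (rbM β ε (ε • a) b c 1 side) 0 0 (Y.M side))) =
        rbM β ε (Matrix.fromBlocks (ε • a) 0 0 a') (Matrix.fromBlocks b 0 0 b')
          (Matrix.fromBlocks c 0 0 c') (Matrix.fromBlocks 1 0 0 N') := by
      funext side
      rw [h2, hM side]
      cases side
      · simp only [rbM]
        rw [BiBack_reindex_four]
        rw [adj_fromBlocks, adj_zero, adj_zero, adj_one, Matrix.fromBlocks_smul, smul_zero,
          smul_zero]
        simp
      · simp only [rbM]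
        rw [BiBack_reindex_four]
        rw [adj_fromBlocks, adj_zero, adj_zero, Matrix.fromBlocks_smul, smul_zero, smul_zero]
    have h5 : MetabP (biSys E) β (rbT (n ⊕ m) (n ⊕ m'))
        (rbM β ε (Matrix.fromBlocks (ε • a) 0 0 a') (Matrix.fromBlocks b 0 0 b')
          (Matrix.fromBlocks c 0 0 c') (Matrix.fromBlocks 1 0 0 N')) := by
      rw [← h3, ← h4]
      exact h1
    have h6 := smet_of_rb hε h5
    rw [adj_fromBlocks, adj_zero, adj_zero, adj_one, Matrix.fromBlocks_multiply,
      Matrix.fromBlocks_multiply, Matrix.fromBlocks_multiply, Matrix.fromBlocks_smul,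
      smul_smul, hee, one_smul] at h6
    simpa using h6

end

end Pool.Agent.Lib.MP_98022b_UM
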