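import Mathlib
import Pool.Agent.Lib.MP_98022b_UM.WL

/-! Task Reps: double coset representatives of the letters of side `true`. -/

open MonoidAlgebra

namespace Pool.Agent.Lib.MP_98022b_UM

universe u v w w'

/-- representatives `d δ` of the double cosets in the sets `S true ω ω'`, compatible with
inversion up to the object groups -/
structure Reps {Ω : Type w} {G : Type v} [Group G] (E : BSys Ω G) (Δ : Type w') where
  src : Δ → Ω
  inv : Δ → Δ
  d : Δ → G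
  inv_inv : ∀ δ, inv (inv δ) = δ
  d_mem : ∀ δ, d δ ∈ E.S true (src δ) (src (inv δ))
  d_mul : ∀ δ, d δ * d (inv δ) ∈ E.F (src δ)
  cover : ∀ (ω ω' : Ω) (g : G), g ∈ E.S true ω ω' → ∃ (δ : Δ) (x y : G), src δ = ω ∧
    src (inv δ) = ω' ∧ x ∈ E.F ω ∧ y ∈ E.F ω' ∧ g = x * d δ * y
  uniq : ∀ (δ δ' : Δ) (x y : G), src δ = src δ' → src (inv δ) = src (inv δ') →
    x ∈ E.F (src δ) → y ∈ E.F (src (inv δ)) → d δ' = x * d δ * y → δ = δ'

/-- double cosets -/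
private def Reps_DC {Ω : Type w} {G : Type v} [Group G] (E : BSys Ω G) (ω ω' : Ω) (g : G) : Set G :=
  {h | ∃ x ∈ E.F ω, ∃ y ∈ E.F ω', h = x * g * y}

private theorem Reps_self {Ω : Type w} {G : Type v} [Group G] (E : BSys Ω G) (ω ω' : Ω) (g : G) :
    g ∈ Reps_DC E ω ω' g := ⟨1, (E.F ω).one_mem, 1, (E.F ω').one_mem, by simp⟩

private theorem Reps_symm {Ω : Type w} {G : Type v} [Group G] {E : BSys Ω G} {ω ω' : Ω} {g h : G}
    (hh : h ∈ Reps_DC E ω ω' g) : g ∈ Reps_DC E ω ω' h := by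
  obtain ⟨x, hx, y, hy, rfl⟩ := hh
  exact ⟨x⁻¹, (E.F ω).inv_mem hx, y⁻¹, (E.F ω').inv_mem hy, by group⟩

private theorem Reps_sub {Ω : Type w} {G : Type v} [Group G] {E : BSys Ω G} {ω ω' : Ω} {g h : G}
    (hh : h ∈ Reps_DC E ω ω' g) : Reps_DC E ω ω' h ⊆ Reps_DC E ω ω' g := by
  obtain ⟨x, hx, y, hy, rfl⟩ := hh
  rintro k ⟨x', hx', y', hy', rfl⟩
  exact ⟨x' * x, (E.F ω).mul_mem hx' hx, y * y', (E.F ω').mul_mem hy hy', by group⟩

private theorem Reps_eq {Ω : Type w} {G : Type v} [Group G] {E : BSys Ω G} {ω ω' : Ω} {g h : G}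
    (hh : h ∈ Reps_DC E ω ω' g) : Reps_DC E ω ω' h = Reps_DC E ω ω' g :=
  Set.Subset.antisymm (Reps_sub hh) (Reps_sub (Reps_symm hh))

private theorem Reps_inv {Ω : Type w} {G : Type v} [Group G] (E : BSys Ω G) (ω ω' : Ω) (g : G) :
    {h : G | h⁻¹ ∈ Reps_DC E ω ω' g} = Reps_DC E ω' ω g⁻¹ := by
  ext h
  constructor
  · rintro ⟨x, hx, y, hy, e⟩
    refine ⟨y⁻¹, (E.F ω').inv_mem hy, x⁻¹, (E.F ω).inv_mem hx, ?_⟩
    have : h = (x * g * y)⁻¹ := by rw [← e, inv_inv]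
    rw [this]
    group
  · rintro ⟨x, hx, y, hy, rfl⟩
    exact ⟨y⁻¹, (E.F ω).inv_mem hy, x⁻¹, (E.F ω').inv_mem hx, by group⟩

private theorem Reps_mem {Ω : Type w} {G : Type v} [Group G] {E : BSys Ω G} {ω ω' : Ω} {g h : G}
    (hg : g ∈ E.S true ω ω') (hh : h ∈ Reps_DC E ω ω' g) : h ∈ E.S true ω ω' := by
  obtain ⟨x, hx, y, hy, rfl⟩ := hh
  exact E.right' (E.left' hx hg) hy

private abbrev RepsΔ {Ω : Type w} {G : Type v} [Group G] (E : BSys Ω G) : Type (max w v) :=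
  {p : Ω × Ω × Set G // ∃ g ∈ E.S true p.1 p.2.1, p.2.2 = Reps_DC E p.1 p.2.1 g}

private def Reps_i {Ω : Type w} {G : Type v} [Group G] (E : BSys Ω G) (δ : RepsΔ E) : RepsΔ E :=
  ⟨(δ.1.2.1, δ.1.1, {h | h⁻¹ ∈ δ.1.2.2}), by
    obtain ⟨⟨ω, ω', c⟩, g, hg, hc⟩ := δ
    refine ⟨g⁻¹, E.inv' hg, ?_⟩
    simp only at hc ⊢
    rw [hc]
    exact Reps_inv E ω ω' g⟩

private theorem Reps_ii {Ω : Type w} {G : Type v} [Group G] (E : BSys Ω G) (δ : RepsΔ E) :
    Reps_i E (Reps_i E δ) = δ := by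
  obtain ⟨⟨ω, ω', c⟩, g, hg, hc⟩ := δ
  apply Subtype.ext
  simp [Reps_i]

/-- a member of the double coset, for a self-inverse double coset its square is in the group -/
private theorem Reps_ex {Ω : Type w} {G : Type v} [Group G] (E : BSys Ω G) (δ : RepsΔ E) :
    ∃ a : G, a ∈ δ.1.2.2 ∧ (δ = Reps_i E δ → a * a ∈ E.F δ.1.1) := by
  obtain ⟨⟨ω, ω', c⟩, g, hg, hc⟩ := δ
  simp only at hg hc
  subst hc
  by_cases h : (⟨(ω, ω', Reps_DC E ω ω' g), g, hg, rfl⟩ : RepsΔ E) =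
      Reps_i E ⟨(ω, ω', Reps_DC E ω ω' g), g, hg, rfl⟩
  · have h1 : ω = ω' := congrArg (fun δ : RepsΔ E => δ.1.1) h
    have h2 : Reps_DC E ω ω' g = {h | h⁻¹ ∈ Reps_DC E ω ω' g} :=
      congrArg (fun δ : RepsΔ E => δ.1.2.2) h
    subst h1
    have h3 : g⁻¹ ∈ Reps_DC E ω ω g := by
      rw [h2]
      show g⁻¹⁻¹ ∈ Reps_DC E ω ω g
      rw [inv_inv]
      exact Reps_self E ω ω g
    obtain ⟨x, hx, y, hy, e⟩ := h3
    refine ⟨g * x, ⟨1, (E.F ω).one_mem, x, hx, by simp⟩, fun _ => ?_⟩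
    have e2 : g * x * (g * x) = y⁻¹ * x := by
      calc g * x * (g * x) = g * (x * g * y) * y⁻¹ * x := by group
        _ = g * g⁻¹ * y⁻¹ * x := by rw [← e]
        _ = y⁻¹ * x := by group
    show g * x * (g * x) ∈ E.F ω
    rw [e2]
    exact (E.F ω).mul_mem ((E.F ω).inv_mem hy) hx
  · exact ⟨g, Reps_self E ω ω' g, fun h' => absurd h' h⟩

open Classical in
private noncomputable def Reps_d {Ω : Type w} {G : Type v} [Group G] (E : BSys Ω G)
    (δ : RepsΔ E) : G :=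
  if δ = Reps_i E δ ∨ WellOrderingRel δ (Reps_i E δ) then (Reps_ex E δ).choose
  else ((Reps_ex E (Reps_i E δ)).choose)⁻¹

private theorem Reps_dmem {Ω : Type w} {G : Type v} [Group G] (E : BSys Ω G) (δ : RepsΔ E) :
    Reps_d E δ ∈ δ.1.2.2 := by
  unfold Reps_d
  split_ifs with h
  · exact (Reps_ex E δ).choose_spec.1
  · have h1 := (Reps_ex E (Reps_i E δ)).choose_spec.1
    exact h1

private theorem Reps_dmul {Ω : Type w} {G : Type v} [Group G] (E : BSys Ω G) (δ : RepsΔ E) :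
    Reps_d E δ * Reps_d E (Reps_i E δ) ∈ E.F δ.1.1 := by
  by_cases h : δ = Reps_i E δ
  · rw [← h]
    have e : Reps_d E δ = (Reps_ex E δ).choose := if_pos (Or.inl h)
    rw [e]
    exact (Reps_ex E δ).choose_spec.2 h
  · have h' : ¬ Reps_i E δ = Reps_i E (Reps_i E δ) := by
      rw [Reps_ii]
      exact fun k => h k.symm
    rcases trichotomous_of (WellOrderingRel (α := RepsΔ E)) δ (Reps_i E δ) with k | k | k
    · have e1 : Reps_d E δ = (Reps_ex E δ).choose := if_pos (Or.inr k)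
      have k' : ¬ WellOrderingRel (Reps_i E δ) (Reps_i E (Reps_i E δ)) := by
        rw [Reps_ii]
        exact asymm k
      have e2 : Reps_d E (Reps_i E δ) = ((Reps_ex E (Reps_i E (Reps_i E δ))).choose)⁻¹ :=
        if_neg (by rintro (k1 | k1); exacts [h' k1, k' k1])
      rw [Reps_ii] at e2
      rw [e1, e2, mul_inv_cancel]
      exact (E.F δ.1.1).one_mem
    · exact absurd k h
    · have k' : ¬ WellOrderingRel δ (Reps_i E δ) := asymm k
      have e1 : Reps_d E δ = ((Reps_ex E (Reps_i E δ)).choose)⁻¹ :=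
        if_neg (by rintro (k1 | k1); exacts [h k1, k' k1])
      have e2 : Reps_d E (Reps_i E δ) = (Reps_ex E (Reps_i E δ)).choose := by
        apply if_pos
        right
        rw [Reps_ii]
        exact k
      rw [e1, e2, inv_mul_cancel]
      exact (E.F δ.1.1).one_mem

theorem exists_reps {Ω : Type w} {G : Type v} [Group G] (E : BSys Ω G) :
    ∃ Δ : Type (max w v), Nonempty (Reps E Δ) := by
  refine ⟨RepsΔ E, ⟨⟨fun δ => δ.1.1, Reps_i E, Reps_d E, Reps_ii E, ?_, Reps_dmul E, ?_, ?_⟩⟩⟩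
  · intro δ
    have h := Reps_dmem E δ
    obtain ⟨g, hg, hc⟩ := δ.2
    rw [hc] at h
    exact Reps_mem hg h
  · intro ω ω' g hg
    have h := Reps_dmem E ⟨(ω, ω', Reps_DC E ω ω' g), g, hg, rfl⟩
    obtain ⟨x, hx, y, hy, e⟩ := Reps_symm h
    exact ⟨⟨(ω, ω', Reps_DC E ω ω' g), g, hg, rfl⟩, x, y, rfl, rfl, hx, hy, e⟩
  · intro δ δ' x y h1 h2 hx hy e
    have k := Reps_dmem E δ
    have k' := Reps_dmem E δ'
    rw [e] at k'
    obtain ⟨⟨ω, ω', c⟩, g, hg, hc⟩ := δ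
    obtain ⟨⟨ρ, ρ', c'⟩, g', hg', hc'⟩ := δ'
    have h1' : ω = ρ := h1
    have h2' : ω' = ρ' := h2
    subst h1'
    subst h2'
    have hc1 : c = Reps_DC E ω ω' g := hc
    have hc2 : c' = Reps_DC E ω ω' g' := hc'
    subst hc1
    subst hc2
    have a1 := Reps_eq k
    have a2 := Reps_eq k'
    have a3 : x * Reps_d E ⟨(ω, ω', Reps_DC E ω ω' g), g, hg, rfl⟩ * y ∈
        Reps_DC E ω ω' (Reps_d E ⟨(ω, ω', Reps_DC E ω ω' g), g, hg, rfl⟩) :=
      ⟨x, hx, y, hy, rfl⟩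
    have a4 := Reps_eq a3
    apply Subtype.ext
    show (ω, ω', Reps_DC E ω ω' g) = (ω, ω', Reps_DC E ω ω' g')
    rw [← a1, ← a2, ← a4]

end Pool.Agent.Lib.MP_98022b_UM
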