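import Mathlib
import Pool.Agent.Lib.MP_98022b_UM.OnL
import Pool.Agent.Lib.MP_98022b_UM.Reps

/-! Task LDR: factorisation of matrices supported in the letters of side `true`. -/

open MonoidAlgebra

namespace Pool.Agent.Lib.MP_98022b_UM

open Pool.Agent.Lib.MP_98022b_UN

universe u v w w'

private theorem LDR_sum_single {A : Type u} {G : Type v} [CommRing A] [Group G]
    (x : MonoidAlgebra A G) :
    ∑ g ∈ x.coeff.support, (single g (x.coeff g) : MonoidAlgebra A G) = x := by
  apply MonoidAlgebra.coeff_injective
  rw [MonoidAlgebra.coeff_sum]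
  simp only [MonoidAlgebra.coeff_single]
  exact Finsupp.sum_single x.coeff

theorem exists_ldr {A : Type u} {Ω : Type w} {Δ : Type w'} {G : Type v} [CommRing A] [Group G]
    {E : BSys Ω G} (R : Reps E Δ) {K K' : Type} [Fintype K] [Fintype K'] {t : K → Ω}
    {t' : K' → Ω} {H : Matrix K K' (MonoidAlgebra A G)} (hH : OnS E true t t' H) :
    ∃ (m : ℕ) (δ : Fin m → Δ) (L : Matrix K (Fin m) (MonoidAlgebra A G))
      (L' : Matrix (Fin m) K' (MonoidAlgebra A G)), On0 E t (fun i => R.src (δ i)) L ∧
      On0 E (fun i => R.src (R.inv (δ i))) t' L' ∧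
      H = L * Matrix.diagonal (fun i => single (R.d (δ i)) (1 : A)) * L' := by
  classical
  have hc : ∀ k : (Σ p : K × K', {g : G // g ∈ (H p.1 p.2).coeff.support}),
      ∃ (δ : Δ) (x y : G), R.src δ = t k.1.1 ∧ R.src (R.inv δ) = t' k.1.2 ∧ x ∈ E.F (t k.1.1) ∧
        y ∈ E.F (t' k.1.2) ∧ k.2.1 = x * R.d δ * y := fun k =>
    R.cover _ _ _ (hH k.1.1 k.1.2 k.2.1 (Finsupp.mem_support_iff.mp k.2.2))
  choose δ x y h1 h2 h3 h4 h5 using hc
  set e := Fintype.equivFin (Σ p : K × K', {g : G // g ∈ (H p.1 p.2).coeff.support}) with he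
  refine ⟨Fintype.card (Σ p : K × K', {g : G // g ∈ (H p.1 p.2).coeff.support}),
    fun k => δ (e.symm k),
    fun i k => if (e.symm k).1.1 = i then
      single (x (e.symm k)) ((H (e.symm k).1.1 (e.symm k).1.2).coeff (e.symm k).2.1) else 0,
    fun k j => if (e.symm k).1.2 = j then single (y (e.symm k)) 1 else 0, ?_, ?_, ?_⟩
  · intro i k g hg
    simp only at hg
    split_ifs at hg with h
    · rw [MonoidAlgebra.coeff_single, Finsupp.single_apply] at hg
      split_ifs at hg with h'
      · subst h'
        subst h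
        exact ⟨h3 _, (h1 _).symm⟩
      · exact absurd rfl hg
    · exact absurd rfl hg
  · intro k j g hg
    simp only at hg
    split_ifs at hg with h
    · rw [MonoidAlgebra.coeff_single, Finsupp.single_apply] at hg
      split_ifs at hg with h'
      · subst h'
        subst h
        refine ⟨?_, h2 _⟩
        show y (e.symm k) ∈ E.F (R.src (R.inv (δ (e.symm k))))
        rw [h2]
        exact h4 _
      · exact absurd rfl hg
    · exact absurd rfl hg
  · ext1 i j
    rw [Matrix.mul_apply]
    simp only [Matrix.mul_diagonal]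
    rw [Equiv.sum_comp e.symm (fun k => (if k.1.1 = i then
      single (x k) ((H k.1.1 k.1.2).coeff k.2.1) else 0) * single (R.d (δ k)) (1 : A) *
        (if k.1.2 = j then single (y k) 1 else 0))]
    rw [Fintype.sum_sigma, Finset.sum_eq_single (i, j)]
    · have key : ∀ g : {g : G // g ∈ (H i j).coeff.support},
          (if i = i then single (x ⟨(i, j), g⟩) ((H i j).coeff g.1) else 0) *
            single (R.d (δ ⟨(i, j), g⟩)) (1 : A) *
            (if j = j then single (y ⟨(i, j), g⟩) 1 else 0) =
          (single g.1 ((H i j).coeff g.1) : MonoidAlgebra A G) := by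
        intro g
        rw [if_pos rfl, if_pos rfl, MonoidAlgebra.single_mul_single,
          MonoidAlgebra.single_mul_single, mul_one, mul_one, ← h5 ⟨(i, j), g⟩]
      refine Eq.trans ?_ (Finset.sum_congr rfl fun g _ => (key g).symm)
      rw [Finset.sum_coe_sort (H i j).coeff.support
        (fun g => (single g ((H i j).coeff g) : MonoidAlgebra A G))]
      exact (LDR_sum_single (H i j)).symm
    · intro p _ hp
      refine Finset.sum_eq_zero fun g _ => ?_
      by_cases h6 : p.1 = i
      · have h7 : p.2 ≠ j := fun h7 => hp (Prod.ext h6 h7)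
        rw [if_neg h7, mul_zero]
      · rw [if_neg h6, zero_mul, zero_mul]
    · intro h
      exact absurd (Finset.mem_univ _) h

end Pool.Agent.Lib.MP_98022b_UM
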