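import Mathlib
import Pool.Agent.Lib.MP_98022b_UM.Reps

/-! Task Red: the reduced system. -/

open MonoidAlgebra

namespace Pool.Agent.Lib.MP_98022b_UM

universe u v w w'

section
variable {Ω : Type w} {Δ : Type w'} {G : Type v} [Group G] {E : BSys Ω G}

/-- the object groups of the reduced system -/
def redF (R : Reps E Δ) (δ : Δ) : Subgroup G :=
  E.F (R.src δ) ⊓ (E.F (R.src (R.inv δ))).map (MulAut.conj (R.d δ)).toMonoidHom

theorem mem_redF (R : Reps E Δ) (δ : Δ) (g : G) : g ∈ redF R δ ↔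
    g ∈ E.F (R.src δ) ∧ (R.d δ)⁻¹ * g * R.d δ ∈ E.F (R.src (R.inv δ)) := by
  unfold redF
  rw [Subgroup.mem_inf, Subgroup.mem_map]
  refine and_congr_right fun _ => ⟨?_, ?_⟩
  · rintro ⟨x, hx, rfl⟩
    have : (R.d δ)⁻¹ * ((MulAut.conj (R.d δ)).toMonoidHom x) * R.d δ = x := by
      show (R.d δ)⁻¹ * (R.d δ * x * (R.d δ)⁻¹) * R.d δ = x
      group
    rw [this]
    exact hx
  · intro h
    refine ⟨_, h, ?_⟩
    show R.d δ * ((R.d δ)⁻¹ * g * R.d δ) * (R.d δ)⁻¹ = g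
    group

/-- conjugation by `d δ` maps the group of `δ` to the group of `inv δ` -/
theorem redF_conj (R : Reps E Δ) {δ : Δ} {g : G} (hg : g ∈ redF R δ) :
    (R.d δ)⁻¹ * g * R.d δ ∈ redF R (R.inv δ) := by
  obtain ⟨h1, h2⟩ := (mem_redF R δ g).1 hg
  refine (mem_redF R _ _).2 ⟨h2, ?_⟩
  rw [R.inv_inv δ]
  have e : (R.d (R.inv δ))⁻¹ * ((R.d δ)⁻¹ * g * R.d δ) * R.d (R.inv δ) =
      (R.d δ * R.d (R.inv δ))⁻¹ * g * (R.d δ * R.d (R.inv δ)) := by group
  rw [e]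
  exact (E.F _).mul_mem ((E.F _).mul_mem ((E.F _).inv_mem (R.d_mul δ)) h1) (R.d_mul δ)

theorem d_mul_redF (R : Reps E Δ) (δ : Δ) : R.d δ * R.d (R.inv δ) ∈ redF R δ := by
  refine (mem_redF R _ _).2 ⟨R.d_mul δ, ?_⟩
  have h := R.d_mul (R.inv δ)
  rw [R.inv_inv δ] at h
  have e : (R.d δ)⁻¹ * (R.d δ * R.d (R.inv δ)) * R.d δ = R.d (R.inv δ) * R.d δ := by group
  rw [e]
  exact h

/-- the reduced system: the objects are the double cosets of the letters of side `true`, the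
letters of side `true` are the representatives up to the object groups -/
def redSys (R : Reps E Δ) : BSys Δ G where
  F := redF R
  S := fun b δ δ' => match b with
    | true => {g | δ' = R.inv δ ∧ ∃ x ∈ redF R δ, g = x * R.d δ}
    | false => E.S false (R.src δ) (R.src δ')
  left' := by
    intro b δ δ' f g hf hg
    cases b
    · exact E.left' ((mem_redF R δ f).1 hf).1 hg
    · obtain ⟨h1, x, hx, rfl⟩ := hg
      exact ⟨h1, f * x, (redF R δ).mul_mem hf hx, by rw [mul_assoc]⟩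
  inv' := by
    intro b δ δ' g hg
    cases b
    · exact E.inv' hg
    · obtain ⟨rfl, x, hx, rfl⟩ := hg
      refine ⟨(R.inv_inv δ).symm, (R.d δ)⁻¹ * (x⁻¹ * (R.d δ * R.d (R.inv δ))⁻¹) * R.d δ, ?_, ?_⟩
      · exact redF_conj R ((redF R δ).mul_mem ((redF R δ).inv_mem hx)
          ((redF R δ).inv_mem (d_mul_redF R δ)))
      · group

theorem red_hom (R : Reps E Δ) : (redSys R).Hom E R.src := by
  refine ⟨fun {δ g} hg => ((mem_redF R δ g).1 hg).1, ?_⟩
  intro b δ δ' g hg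
  cases b
  · exact hg
  · obtain ⟨rfl, x, hx, rfl⟩ := hg
    exact E.left' ((mem_redF R δ x).1 hx).1 (R.d_mem δ)

theorem red_geo (R : Reps E Δ) (hE : E.Geo) : (redSys R).Geo := by
  intro m b δ δ' ρ ρ' s s' t t' hs ht hs' ht' e
  cases b with
  | true =>
    obtain ⟨h1, x, hx, rfl⟩ := hs
    obtain ⟨h2, x', hx', rfl⟩ := hs'
    subst h1 h2
    refine ⟨rfl, ?_⟩
    have h := redF_conj R ((redF R δ).mul_mem ((redF R δ).inv_mem hx) hx')
    have e1 : (x * R.d δ)⁻¹ * (x' * R.d δ) = (R.d δ)⁻¹ * (x⁻¹ * x') * R.d δ := by group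
    rw [e1]
    exact h
  | false =>
    have hf0 : s⁻¹ * s' * t' = t := by
      rw [mul_assoc, ← e]
      group
    cases m with
    | zero =>
      obtain ⟨ht, rfl⟩ := ht
      obtain ⟨ht', rfl⟩ := ht'
      refine ⟨rfl, ?_⟩
      have e1 : s⁻¹ * s' = t * t'⁻¹ := by
        rw [← hf0]
        group
      rw [e1]
      exact (redF R _).mul_mem ht ((redF R _).inv_mem ht')
    | succ k =>
      have gt := (red_hom R).W ht
      have gt' := (red_hom R).W ht'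
      have gs := (red_hom R).S hs
      have gs' := (red_hom R).S hs'
      obtain ⟨hsrc, hf⟩ := hE _ _ _ _ _ _ _ _ _ _ gs gt gs' gt' e
      obtain ⟨ρ1, s1, ⟨rfl, x, hx, rfl⟩, t1, ht1, rfl⟩ := ht
      obtain ⟨ρ2, s2, ⟨rfl, x', hx', rfl⟩, t2, ht2, rfl⟩ := ht'
      set f := s⁻¹ * s' with hfdef
      have gx := ((mem_redF R ρ x).1 hx)
      have gx' := ((mem_redF R ρ' x').1 hx')
      have l1 : x * R.d ρ ∈ E.S true (R.src ρ) (R.src (R.inv ρ)) := E.left' gx.1 (R.d_mem ρ)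
      have l2 : f * (x' * R.d ρ') ∈ E.S true (R.src ρ) (R.src (R.inv ρ')) := by
        refine E.left' hf ?_
        rw [hsrc]
        exact E.left' gx'.1 (R.d_mem ρ')
      obtain ⟨hsrc2, hy⟩ := hE k true _ _ _ _ _ _ _ _ l1 ((red_hom R).W ht1) l2
        ((red_hom R).W ht2) (by rw [mul_assoc f, hf0])
      have hρ : ρ = ρ' := by
        refine R.uniq ρ ρ' ((f * x')⁻¹ * x) ((x * R.d ρ)⁻¹ * (f * (x' * R.d ρ'))) hsrc hsrc2 ?_ hy ?_
        · refine (E.F _).mul_mem ((E.F _).inv_mem ((E.F _).mul_mem hf ?_)) gx.1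
          rw [hsrc]
          exact gx'.1
        · group
      subst hρ
      refine ⟨rfl, (mem_redF R ρ f).2 ⟨hf, ?_⟩⟩
      have e2 : (R.d ρ)⁻¹ * f * R.d ρ = ((R.d ρ)⁻¹ * x * R.d ρ) *
          ((x * R.d ρ)⁻¹ * (f * (x' * R.d ρ))) * ((R.d ρ)⁻¹ * x' * R.d ρ)⁻¹ := by group
      rw [e2]
      exact (E.F _).mul_mem ((E.F _).mul_mem gx.2 hy) ((E.F _).inv_mem gx'.2)

theorem red_noInv (R : Reps E Δ) (hE : E.NoInv) : (redSys R).NoInv := by
  intro b δ g hg
  exact hE b (R.src δ) g ((red_hom R).S hg)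

end

end Pool.Agent.Lib.MP_98022b_UM
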