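import Mathlib
import Pool.Agent.Lib.MP_98022b_UM.BFL
import Pool.Agent.Lib.MP_98022b_UM.Red
import Pool.Agent.Lib.MP_98022b_UM.Half
import Pool.Agent.Lib.MP_98022b_UM.LDR

/-! Task RedStep: forms over a system come from forms over the reduced system. -/

open MonoidAlgebra

namespace Pool.Agent.Lib.MP_98022b_UM

open Pool.Agent.Lib.MP_98022b_UN

universe u v w w'

namespace RedStepAux

theorem pow_swap {R : Type u} [Ring R] {K L : Type} [Fintype K] [DecidableEq K] [Fintype L]
    [DecidableEq L] (P : Matrix L K R) (Q : Matrix K L R) (n : ℕ) :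
    (P * Q) ^ (n + 1) = P * (Q * P) ^ n * Q := by
  induction n with
  | zero => rw [zero_add, pow_one, pow_zero, Matrix.mul_one]
  | succ n ih =>
    rw [pow_succ, ih, pow_succ]
    simp only [Matrix.mul_assoc]

end RedStepAux

section
variable {A : Type u} {Ω : Type w} {Δ : Type w'} {G : Type v} [CommRing A] [Group G]
  {E : BSys Ω G} {β : BarStr A G} {ε : ℤ}

theorem RedStepAux.isBF (hε : ε = 1 ∨ ε = -1) (R : Reps E Δ) {K : Type} [Fintype K]
    [DecidableEq K] {t : K → Ω} {M : Bool → Matrix K K (MonoidAlgebra A G)}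
    (hM : IsBF E β ε t M) {m : ℕ} (δ : Fin m → Δ)
    (u : Matrix K (Fin m ⊕ Fin m) (MonoidAlgebra A G))
    (hu : On0 E t (fun k => R.src (Sum.elim δ (fun i => R.inv (δ i)) k)) u)
    (D : Matrix (Fin m) (Fin m) (MonoidAlgebra A G))
    (hD : D = Matrix.diagonal (fun i => single (R.d (δ i)) (1 : A)))
    (h1 : M true = u * Matrix.fromBlocks 0 D (ε • adj β D) 0 * adj β u) :
    IsBF (redSys R) β ε (Sum.elim δ (fun i => R.inv (δ i)))
      (fun b => if b then Matrix.fromBlocks 0 D (ε • adj β D) 0 else adj β u * M false * u) := by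
  have hDon : OnS (redSys R) true δ (fun i => R.inv (δ i)) D := by
    classical
    intro i j g hg
    rw [hD, Matrix.diagonal_apply] at hg
    by_cases hij : i = j
    · subst hij
      rw [if_pos rfl, coeff_single, Finsupp.single_apply] at hg
      by_cases hgd : R.d (δ i) = g
      · exact ⟨rfl, 1, (redF R (δ i)).one_mem, by rw [one_mul, hgd]⟩
      · rw [if_neg hgd] at hg
        exact absurd rfl hg
    · rw [if_neg hij] at hg
      exact absurd rfl hg
  have hεε : ε * ε = 1 := by rcases hε with rfl | rfl <;> norm_num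
  refine ⟨?_, ?_, ?_⟩
  · rintro (_ | _)
    · intro i j g hg
      have h2 := ((hu.adj β).mulS (hM.on false)).mul0 hu
      exact h2 i j g hg
    · exact OnS.fromBlocks OnS.zero hDon ((hDon.adj β).zsmul ε) OnS.zero
  · rintro (_ | _)
    · change adj β (adj β u * M false * u) = ε • (adj β u * M false * u)
      rw [adj_mul, adj_mul, adj_adj, hM.sym false, Matrix.smul_mul, Matrix.mul_smul,
        Matrix.mul_assoc]
    · change adj β (Matrix.fromBlocks 0 D (ε • adj β D) 0) =
        ε • (Matrix.fromBlocks 0 D (ε • adj β D) 0)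
      rw [adj_fromBlocks, Matrix.fromBlocks_smul, adj_zero, adj_zsmul, adj_adj, smul_zero,
        smul_smul, hεε, one_smul]
  · obtain ⟨N, hN⟩ := hM.nil
    refine ⟨N + 1, ?_⟩
    change (Matrix.fromBlocks 0 D (ε • adj β D) 0 * (adj β u * M false * u)) ^ (N + 1) = 0
    have h2 : Matrix.fromBlocks 0 D (ε • adj β D) 0 * (adj β u * M false * u) =
        (Matrix.fromBlocks 0 D (ε • adj β D) 0 * adj β u * M false) * u := by
      simp only [Matrix.mul_assoc]
    have h3 : u * (Matrix.fromBlocks 0 D (ε • adj β D) 0 * adj β u * M false) =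
        M true * M false := by
      rw [h1]
      simp only [Matrix.mul_assoc]
    rw [h2, RedStepAux.pow_swap, h3, hN, Matrix.mul_zero, Matrix.zero_mul]

/-- every form is related by a move to the image of a form of the reduced system -/
theorem exists_red (hE : E.NoInv) (hε : ε = 1 ∨ ε = -1) (R : Reps E Δ) (X : BF E β ε) :
    ∃ (X' : BF (redSys R) β ε) (u : Matrix X.K X'.K (MonoidAlgebra A G)),
      On0 E X.t (fun k => R.src (X'.t k)) u ∧ X.M true = u * X'.M true * adj β u ∧
      X'.M false = adj β u * X.M false * u := by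
  obtain ⟨H, hH, -, hHM⟩ := exists_half_typed (b := true) hE hε (X.is.on true) (X.is.sym true)
  obtain ⟨m, δ, L, L', hL, hL', hHL⟩ := exists_ldr R hH
  have hu : On0 E X.t (fun k => R.src (Sum.elim δ (fun i => R.inv (δ i)) k))
      (Matrix.fromCols L (adj β L')) := by
    have h := On0.fromCols hL (hL'.adj β)
    intro i j g hg
    have h2 := h i j g hg
    rcases j with j | j
    · exact h2
    · exact h2
  have h1 : X.M true = Matrix.fromCols L (adj β L') * Matrix.fromBlocks 0
      (Matrix.diagonal (fun i => single (R.d (δ i)) (1 : A)))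
      (ε • adj β (Matrix.diagonal (fun i => single (R.d (δ i)) (1 : A)))) 0 *
      adj β (Matrix.fromCols L (adj β L')) := by
    rw [hHM, hHL, adj_fromCols, adj_adj, Matrix.fromCols_mul_fromBlocks,
      Matrix.fromCols_mul_fromRows, adj_mul, adj_mul]
    simp only [Matrix.mul_zero, zero_add, add_zero, Matrix.mul_smul, Matrix.smul_mul,
      Matrix.mul_assoc]
    rw [add_comm]
  refine ⟨{ K := Fin m ⊕ Fin m
            t := Sum.elim δ (fun i => R.inv (δ i))
            M := _
            is := RedStepAux.isBF hε R X.is δ _ hu _ rfl h1 },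
    Matrix.fromCols L (adj β L'), hu, h1, rfl⟩

theorem red_step (hE : E.NoInv) (hε : ε = 1 ∨ ε = -1) (R : Reps E Δ)
    (h : ∀ X' : BF (redSys R) β ε, X'.SMetab) (X : BF E β ε) : X.SMetab := by
  obtain ⟨X', u, h1, h2, h3⟩ := exists_red hE hε R X
  exact X.smetab_move (X'.map (red_hom R)) u h1 h2 h3 (X'.smetab_map (red_hom R) (h X'))

end

end Pool.Agent.Lib.MP_98022b_UM
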