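import Mathlib
import Pool.Agent.Lib.MP_98022b_UM.Bi
import Pool.Agent.Lib.MP_98022b_UM.RedStep

/-! Task Seg: the segments belonging to the objects of the iterated reduced systems. -/

open MonoidAlgebra

namespace Pool.Agent.Lib.MP_98022b_UM

open Pool.Agent.Lib.MP_98022b_UN

universe u v w w'

section
variable {Ω : Type w} {Δ : Type w'} {G : Type v} [Group G]

/-- every object `ω` carries a reduced path with `L` turns from the directed edge `l ω e_{σ ω}` to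
`r ω e_{τ ω}`, whose ends are fixed by `F ω`; the letters of side `true` prolong it at the end
`r ω` by `a` turns, those of side `false` at the other end by `b` turns -/
structure Seg (E₀ : EdgeSys G) (E : BSys Ω G) (L a b : ℕ) (l r : Ω → G) (σ τ : Ω → Bool) :
    Prop where
  Fl : ∀ {ω : Ω} {g : G}, g ∈ E.F ω → (l ω)⁻¹ * g * l ω ∈ E₀.F
  Fr : ∀ {ω : Ω} {g : G}, g ∈ E.F ω → (r ω)⁻¹ * g * r ω ∈ E₀.F
  path : ∀ ω, (l ω)⁻¹ * r ω ∈ E₀.P L (σ ω) (τ ω)
  tr : ∀ {ω ω' : Ω} {g : G}, g ∈ E.S true ω ω' → (r ω)⁻¹ * g * l ω' ∈ E₀.P a (τ ω) (!(σ ω'))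
  fa : ∀ {ω ω' : Ω} {g : G}, g ∈ E.S false ω ω' → (l ω)⁻¹ * g * r ω' ∈ E₀.P b (!(σ ω)) (τ ω')

/-- the start of the iteration -/
theorem seg_bi (E₀ : EdgeSys G) :
    Seg E₀ (biSys E₀) 0 1 0 (fun _ => 1) (fun _ => 1) (fun ω => ω.down) (fun ω => ω.down) := by
  refine ⟨?_, ?_, ?_, ?_, ?_⟩
  · intro ω g hg
    have hg' : g ∈ E₀.F := hg
    simpa using hg'
  · intro ω g hg
    have hg' : g ∈ E₀.F := hg
    simpa using hg'
  · intro ω
    exact ⟨by simp, rfl⟩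
  · intro ω ω' g hg
    have hg' : g ∈ E₀.S ω.down (!ω'.down) := hg
    have h1 : (1 : G)⁻¹ * g * 1 = g := by group
    rw [h1]
    exact (P_one E₀).2 hg'
  · intro ω ω' g hg
    have hg' : g ∈ E₀.F ∧ ω'.down = !ω.down := hg
    exact ⟨by simpa using hg'.1, hg'.2.symm⟩

theorem Seg.flip {E₀ : EdgeSys G} {E : BSys Ω G} {L a b : ℕ} {l r : Ω → G} {σ τ : Ω → Bool}
    (h : Seg E₀ E L a b l r σ τ) :
    Seg E₀ E.flip L b a r l (fun ω => !(τ ω)) (fun ω => !(σ ω)) := by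
  refine ⟨?_, ?_, ?_, ?_, ?_⟩
  · intro ω g hg
    exact h.Fr hg
  · intro ω g hg
    exact h.Fl hg
  · intro ω
    have h1 := P_inv E₀ (h.path ω)
    rwa [mul_inv_rev, inv_inv] at h1
  · intro ω ω' g hg
    have hg' : g ∈ E.S false ω ω' := hg
    have h1 := h.fa hg'
    simpa using h1
  · intro ω ω' g hg
    have hg' : g ∈ E.S true ω ω' := hg
    have h1 := h.tr hg'
    simpa using h1

theorem Seg.red {E₀ : EdgeSys G} {E : BSys Ω G} {L a b : ℕ} {l r : Ω → G} {σ τ : Ω → Bool}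
    (h : Seg E₀ E L a b l r σ τ) (R : Reps E Δ) :
    Seg E₀ (redSys R) (L + a) 0 (a + b) (fun δ => l (R.src δ))
      (fun δ => R.d δ * l (R.src (R.inv δ))) (fun δ => σ (R.src δ))
      (fun δ => !(σ (R.src (R.inv δ)))) := by
  refine ⟨?_, ?_, ?_, ?_, ?_⟩
  · intro δ g hg
    exact h.Fl ((mem_redF R δ g).1 hg).1
  · intro δ g hg
    have h1 := h.Fl ((mem_redF R δ g).1 hg).2
    have h2 : (R.d δ * l (R.src (R.inv δ)))⁻¹ * g * (R.d δ * l (R.src (R.inv δ))) =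
        (l (R.src (R.inv δ)))⁻¹ * ((R.d δ)⁻¹ * g * R.d δ) * l (R.src (R.inv δ)) := by group
    rw [h2]
    exact h1
  · intro δ
    have h1 := P_mul E₀ (h.path (R.src δ)) (h.tr (R.d_mem δ))
    have h2 : (l (R.src δ))⁻¹ * (R.d δ * l (R.src (R.inv δ))) =
        (l (R.src δ))⁻¹ * r (R.src δ) * ((r (R.src δ))⁻¹ * R.d δ * l (R.src (R.inv δ))) := by group
    rw [h2]
    exact h1
  · intro δ δ' g hg
    obtain ⟨hδ, x, hx, rfl⟩ := (show δ' = R.inv δ ∧ ∃ x ∈ redF R δ, g = x * R.d δ from hg)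
    subst hδ
    have h1 := h.Fl ((mem_redF R δ x).1 hx).2
    have h2 : (R.d δ * l (R.src (R.inv δ)))⁻¹ * (x * R.d δ) * l (R.src (R.inv δ)) =
        (l (R.src (R.inv δ)))⁻¹ * ((R.d δ)⁻¹ * x * R.d δ) * l (R.src (R.inv δ)) := by group
    rw [h2]
    exact ⟨h1, rfl⟩
  · intro δ δ' g hg
    have hg' : g ∈ E.S false (R.src δ) (R.src δ') := hg
    have h1 := P_mul E₀ (h.fa hg') (h.tr (R.d_mem δ'))
    have h2 : (l (R.src δ))⁻¹ * g * (R.d δ' * l (R.src (R.inv δ'))) =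
        (l (R.src δ))⁻¹ * g * r (R.src δ') *
          ((r (R.src δ'))⁻¹ * R.d δ' * l (R.src (R.inv δ'))) := by group
    rw [h2, Nat.add_comm a b]
    exact h1

end

section
variable {A : Type u} {G : Type v} [CommRing A] [Group G] {β : BarStr A G} {ε : ℤ}

/-- `k` reductions -/
theorem reduce_iter (hε : ε = 1 ∨ ε = -1) (E₀ : EdgeSys G) (k : ℕ) :
    ∀ (L : ℕ) (Ω : Type v) (E : BSys Ω G) (l r : Ω → G) (σ τ : Ω → Bool), E.Geo → E.NoInv →
      Seg E₀ E L 1 0 l r σ τ →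
      (∀ (Ω' : Type v) (E' : BSys Ω' G) (l' r' : Ω' → G) (σ' τ' : Ω' → Bool), E'.Geo →
        E'.NoInv → Seg E₀ E' (L + k) 1 0 l' r' σ' τ' → ∀ X : BF E' β ε, X.SMetab) →
      ∀ X : BF E β ε, X.SMetab := by
  induction k with
  | zero =>
    intro L Ω E l r σ τ hG hN hS h
    exact h Ω E l r σ τ hG hN hS
  | succ k ih =>
    intro L Ω E l r σ τ hG hN hS h
    obtain ⟨Δ, ⟨R⟩⟩ := exists_reps E
    have hS1 := (hS.red R).flip
    have h1 : ∀ X' : BF (redSys R) β ε, X'.SMetab := by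
      intro X'
      refine X'.smetab_of_flip (ih (L + 1) Δ (redSys R).flip _ _ _ _ (red_geo R hG).flip
        (red_noInv R hN).flip hS1 ?_ X'.flip)
      intro Ω' E' l' r' σ' τ' hG' hN' hS'
      have e : L + 1 + k = L + (k + 1) := by omega
      rw [e] at hS'
      exact h Ω' E' l' r' σ' τ' hG' hN' hS'
    exact fun X => red_step hN hε R h1 X

end

end Pool.Agent.Lib.MP_98022b_UM
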