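import Mathlib
import Pool.Agent.Lib.MP_98022b_UM.Seg
import Pool.Agent.Lib.MP_98022b_UM.BiBack
import Pool.Agent.Lib.MP_98022b_UN.Tree

/-! Task TreeSeg: the object groups are contained in the stabilisers of long segments. -/

open MonoidAlgebra

namespace Pool.Agent.Lib.MP_98022b_UM

open Pool.Agent.Lib.MP_98022b_UN

universe u v w w'

section
variable {V : Type w} {G : Type v} [Group G] [MulAction G V]

/-- translation of a walk -/
private def TreeSeg_hom {Γ : SimpleGraph V}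
    (hadj : ∀ (g : G) (x y : V), Γ.Adj x y → Γ.Adj (g • x) (g • y)) (g : G) : Γ →g Γ :=
  ⟨fun v => g • v, fun {a b} h => hadj g a b h⟩

private theorem TreeSeg_edges {Γ : SimpleGraph V}
    (hadj : ∀ (g : G) (x y : V), Γ.Adj x y → Γ.Adj (g • x) (g • y)) (g : G) {p q x y : V}
    {W : Γ.Walk x y} (hW : ∀ e ∈ W.edges, ∃ h : G, e = s(h • p, h • q)) :
    ∀ e ∈ (W.map (TreeSeg_hom hadj g)).edges, ∃ h : G, e = s(h • p, h • q) := by
  intro e he
  rw [SimpleGraph.Walk.edges_map, List.mem_map] at he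
  obtain ⟨e', he', rfl⟩ := he
  obtain ⟨h, rfl⟩ := hW e' he'
  refine ⟨g * h, ?_⟩
  rw [Sym2.map_mk, mul_smul, mul_smul]
  rfl

/-- reduced paths give walks consisting of translates of the edge `{p, q}` -/
theorem Tree_walk {Γ : SimpleGraph V}
    (hadj : ∀ (g : G) (x y : V), Γ.Adj x y → Γ.Adj (g • x) (g • y)) {p q : V}
    (hpq : Γ.Adj p q) (hinv : ∀ g : G, ¬ (g • p = q ∧ g • q = p)) (m : ℕ) (σ τ : Bool) (g : G)
    (hg : g ∈ (treeSys p q : EdgeSys G).P m σ τ) :
    ∃ W : Γ.Walk (Tree_a p q σ) (g • Tree_b p q τ), W.length = m + 1 ∧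
      ∀ e ∈ W.edges, ∃ h : G, e = s(h • p, h • q) := by
  have hab : ∀ σ, Γ.Adj (Tree_a p q σ) (Tree_b p q σ) := by
    intro σ
    rcases σ
    · exact hpq
    · exact hpq.symm
  have hed : ∀ σ, ∃ h : G, s(Tree_a p q σ, Tree_b p q σ) = s(h • p, h • q) := by
    intro σ
    refine ⟨1, ?_⟩
    rw [one_smul, one_smul]
    rcases σ
    · rfl
    · exact Sym2.eq_swap
  induction m generalizing σ g with
  | zero =>
    obtain ⟨h1, h2⟩ : g ∈ (treeSys p q : EdgeSys G).F ∧ σ = τ := hg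
    subst h2
    have h3 : g • p = p ∧ g • q = q := by
      obtain ⟨h3, h4⟩ := Subgroup.mem_inf.1 h1
      exact ⟨h3, h4⟩
    have h4 : g • Tree_b p q σ = Tree_b p q σ := by
      rcases σ
      · exact h3.2
      · exact h3.1
    refine ⟨(SimpleGraph.Walk.cons (hab σ) SimpleGraph.Walk.nil).copy rfl h4.symm, ?_, ?_⟩
    · rw [SimpleGraph.Walk.length_copy]
      rfl
    · intro e he
      rw [SimpleGraph.Walk.edges_copy, SimpleGraph.Walk.edges_cons,
        SimpleGraph.Walk.edges_nil, List.mem_singleton] at he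
      rw [he]
      exact hed σ
  | succ m ih =>
    obtain ⟨ρ, s, hs, t, ht, rfl⟩ : ∃ ρ : Bool, ∃ s ∈ (treeSys p q : EdgeSys G).S σ ρ,
      ∃ t ∈ (treeSys p q : EdgeSys G).P m ρ τ, s * t = g := hg
    obtain ⟨W, h1, h2⟩ := ih ρ t ht
    obtain ⟨h3, -⟩ := Tree_mem_S hinv hs
    have h4 : (TreeSeg_hom hadj s) (t • Tree_b p q τ) = (s * t) • Tree_b p q τ :=
      (mul_smul s t _).symm
    refine ⟨SimpleGraph.Walk.cons (hab σ) ((W.map (TreeSeg_hom hadj s)).copy h3 h4), ?_, ?_⟩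
    · rw [SimpleGraph.Walk.length_cons, SimpleGraph.Walk.length_copy,
        SimpleGraph.Walk.length_map, h1]
    · intro e he
      rw [SimpleGraph.Walk.edges_cons, List.mem_cons, SimpleGraph.Walk.edges_copy] at he
      rcases he with he | he
      · rw [he]
        exact hed σ
      · exact TreeSeg_edges hadj s h2 e he

theorem seg_stab {Γ : SimpleGraph V} (hΓ : Γ.IsTree)
    (hadj : ∀ (g : G) (x y : V), Γ.Adj x y → Γ.Adj (g • x) (g • y)) {p q : V}
    (hpq : Γ.Adj p q) (hinv : ∀ g : G, ¬ (g • p = q ∧ g • q = p)) {Ω : Type v} {E : BSys Ω G}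
    {L a b : ℕ} {l r : Ω → G} {σ τ : Ω → Bool} (h : Seg (treeSys p q) E L a b l r σ τ) (ω : Ω) :
    ∃ (x y : V) (W : Γ.Walk x y), W.IsPath ∧ W.length = L + 1 ∧
      (∀ e ∈ W.edges, ∃ g : G, e = s(g • p, g • q)) ∧
      E.F ω ≤ MulAction.stabilizer G x ⊓ MulAction.stabilizer G y := by
  obtain ⟨W, hW1, hW2⟩ := Tree_walk hadj hpq hinv L (σ ω) (τ ω) _ (h.path ω)
  have hy : (TreeSeg_hom hadj (l ω)) (((l ω)⁻¹ * r ω) • Tree_b p q (τ ω)) =
      r ω • Tree_b p q (τ ω) := by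
    show l ω • ((l ω)⁻¹ * r ω) • Tree_b p q (τ ω) = r ω • Tree_b p q (τ ω)
    rw [smul_smul, mul_inv_cancel_left]
  refine ⟨l ω • Tree_a p q (σ ω), r ω • Tree_b p q (τ ω),
    (W.map (TreeSeg_hom hadj (l ω))).copy rfl hy, ?_, ?_, ?_, ?_⟩
  · apply SimpleGraph.Walk.isPath_of_length_eq_dist
    have h1 := (Tree_dist hΓ hadj hpq hinv L (σ ω) (τ ω) _ (h.path ω)).1
    rw [← Tree_dist_smul hΓ hadj (l ω), smul_smul, mul_inv_cancel_left] at h1
    rw [SimpleGraph.Walk.length_copy, SimpleGraph.Walk.length_map, hW1, h1]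
  · rw [SimpleGraph.Walk.length_copy, SimpleGraph.Walk.length_map, hW1]
  · intro e he
    rw [SimpleGraph.Walk.edges_copy] at he
    exact TreeSeg_edges hadj (l ω) hW2 e he
  · intro g hg
    have hl : (l ω)⁻¹ * g * l ω ∈ MulAction.stabilizer G p ⊓ MulAction.stabilizer G q := h.Fl hg
    have hr : (r ω)⁻¹ * g * r ω ∈ MulAction.stabilizer G p ⊓ MulAction.stabilizer G q := h.Fr hg
    rw [Subgroup.mem_inf, MulAction.mem_stabilizer_iff, MulAction.mem_stabilizer_iff] at hl hr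
    have ha : ∀ s : Bool, ((l ω)⁻¹ * g * l ω) • Tree_a p q s = Tree_a p q s := by
      intro s
      cases s
      · exact hl.1
      · exact hl.2
    have hb : ∀ s : Bool, ((r ω)⁻¹ * g * r ω) • Tree_b p q s = Tree_b p q s := by
      intro s
      cases s
      · exact hr.2
      · exact hr.1
    rw [Subgroup.mem_inf, MulAction.mem_stabilizer_iff, MulAction.mem_stabilizer_iff]
    constructor
    · have h1 := congrArg (fun z => l ω • z) (ha (σ ω))
      simp only [smul_smul] at h1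
      rw [show l ω * ((l ω)⁻¹ * g * l ω) = g * l ω by group] at h1
      rw [smul_smul]
      exact h1
    · have h1 := congrArg (fun z => r ω • z) (hb (τ ω))
      simp only [smul_smul] at h1
      rw [show r ω * ((r ω)⁻¹ * g * r ω) = g * r ω by group] at h1
      rw [smul_smul]
      exact h1

/-- **reduction to long segments** -/
theorem reduce_tree {A : Type u} [CommRing A] {β : BarStr A G} {ε : ℤ} (hε : ε = 1 ∨ ε = -1)
    {Γ : SimpleGraph V} (hΓ : Γ.IsTree)
    (hadj : ∀ (g : G) (x y : V), Γ.Adj x y → Γ.Adj (g • x) (g • y)) {p q : V}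
    (hpq : Γ.Adj p q) (hinv : ∀ g : G, ¬ (g • p = q ∧ g • q = p))
    (h2p : ∀ g : G, g • p = p → g * g = 1 → g = 1)
    (h2q : ∀ g : G, g • q = q → g * g = 1 → g = 1) (k : ℕ) (hk : 1 ≤ k)
    (hmain : ∀ (Ω : Type v) (E : BSys Ω G), E.Geo → E.NoInv →
      (∀ ω, ∃ (x y : V) (W : Γ.Walk x y), W.IsPath ∧ W.length = k ∧
        (∀ e ∈ W.edges, ∃ g : G, e = s(g • p, g • q)) ∧
        E.F ω ≤ MulAction.stabilizer G x ⊓ MulAction.stabilizer G y) →
      ∀ X : BF E β ε, X.SMetab)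
    {n : Type} [Fintype n] [DecidableEq n] {b a c : Matrix n n (MonoidAlgebra A G)}
    (hX : SForm (treeSys p q) β ε b a c) :
    ∃ (m : Type) (_ : Fintype m) (_ : DecidableEq m) (b' a' c' : Matrix m m (MonoidAlgebra A G)),
      SForm (treeSys p q) β ε b' a' c' ∧ SMet (treeSys p q) β b' a' c' ∧
      SMet (treeSys p q) β (Matrix.fromBlocks b 0 0 b') (Matrix.fromBlocks a 0 0 a')
        (Matrix.fromBlocks c 0 0 c') := by
  have hgeo := treeSys_geo hΓ hadj hpq hinv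
  have hno : ∀ (σ : Bool) (g : G), g ∈ (treeSys p q : EdgeSys G).S σ (!σ) → g⁻¹ ≠ g := by
    intro σ g hg h
    cases σ
    · have hg' : g • q = q ∧ g • p ≠ p := hg
      have : g = 1 := h2q g hg'.1 (by nth_rw 1 [← h]; simp)
      exact hg'.2 (by simp [this])
    · have hg' : g • p = p ∧ g • q ≠ q := hg
      have : g = 1 := h2p g hg'.1 (by nth_rw 1 [← h]; simp)
      exact hg'.2 (by simp [this])
  refine expl_of_bi hε hX (reduce_iter hε (treeSys p q) (k - 1) 0 _ _ _ _ _ _ (biSys_geo hgeo)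
    (biSys_noInv hno) (seg_bi _) ?_)
  intro Ω' E' l' r' σ' τ' h1 h2 h3
  refine hmain Ω' E' h1 h2 fun ω => ?_
  obtain ⟨x, y, W, hW1, hW2, hW3, hF⟩ := seg_stab hΓ hadj hpq hinv h3 ω
  exact ⟨x, y, W, hW1, by omega, hW3, hF⟩

end

end Pool.Agent.Lib.MP_98022b_UM
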